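import Mathlib

/-!
Averages over finite types, and the key lower bound for the maps
`x ↦ (P_ω x - x/4)_ω` on functions with values in a finite dimensional normed space.
-/

namespace Pool.Agent.H52

open Finset

noncomputable section

/-- The average of a real function on a finite type. -/
def avg {ι : Type*} [Fintype ι] (f : ι → ℝ) : ℝ := (∑ i, f i) / (Fintype.card ι : ℝ)

section avg

variable {ι κ : Type*} [Fintype ι] [Fintype κ]

lemma avg_add (f g : ι → ℝ) : avg (fun i => f i + g i) = avg f + avg g := by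
  simp [avg, Finset.sum_add_distrib, add_div]

lemma avg_sub (f g : ι → ℝ) : avg (fun i => f i - g i) = avg f - avg g := by
  simp [avg, Finset.sum_sub_distrib, sub_div]

lemma avg_const_mul (c : ℝ) (f : ι → ℝ) : avg (fun i => c * f i) = c * avg f := by
  simp [avg, ← Finset.mul_sum, mul_div_assoc]

lemma avg_mul_const (c : ℝ) (f : ι → ℝ) : avg (fun i => f i * c) = avg f * c := by
  simp only [avg, ← Finset.sum_mul]; ring

lemma avg_const [Nonempty ι] (c : ℝ) : avg (fun _ : ι => c) = c := by
  have : (Fintype.card ι : ℝ) ≠ 0 := by exact_mod_cast Fintype.card_ne_zero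
  simp [avg, this]

lemma avg_mono {f g : ι → ℝ} (h : ∀ i, f i ≤ g i) : avg f ≤ avg g := by
  unfold avg
  exact div_le_div_of_nonneg_right (Finset.sum_le_sum fun i _ => h i) (Nat.cast_nonneg _)

lemma avg_nonneg {f : ι → ℝ} (h : ∀ i, 0 ≤ f i) : 0 ≤ avg f :=
  div_nonneg (Finset.sum_nonneg fun i _ => h i) (Nat.cast_nonneg _)

lemma avg_sum {α : Type*} (s : Finset α) (f : α → ι → ℝ) :
    avg (fun i => ∑ a ∈ s, f a i) = ∑ a ∈ s, avg (f a) := by
  simp only [avg, Finset.sum_div]
  rw [Finset.sum_comm]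

lemma avg_comm (f : ι → κ → ℝ) :
    avg (fun i => avg (fun k => f i k)) = avg (fun k => avg (fun i => f i k)) := by
  simp only [avg, Finset.sum_div]
  rw [Finset.sum_comm]
  refine Finset.sum_congr rfl fun k _ => Finset.sum_congr rfl fun i _ => ?_
  ring

lemma avg_equiv (e : ι ≃ κ) (f : κ → ℝ) : avg (fun i => f (e i)) = avg f := by
  unfold avg
  rw [Fintype.card_congr e, Equiv.sum_comp e f]

lemma avg_congr {f g : ι → ℝ} (h : ∀ i, f i = g i) : avg f = avg g := by
  rw [show f = g from funext h]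

/-- Cauchy–Schwarz for averages. -/
lemma avg_mul_le (f g : ι → ℝ) :
    avg (fun i => f i * g i) ≤ √(avg fun i => f i ^ 2) * √(avg fun i => g i ^ 2) := by
  rw [← Real.sqrt_mul (avg_nonneg fun i => sq_nonneg _)]
  apply Real.le_sqrt_of_sq_le
  unfold avg
  rw [div_pow, div_mul_div_comm, ← sq]
  exact div_le_div_of_nonneg_right (Finset.sum_mul_sq_le_sq_mul_sq _ _ _) (by positivity)

lemma sq_avg_le [Nonempty ι] (f : ι → ℝ) : (avg f) ^ 2 ≤ avg fun i => f i ^ 2 := by
  have h := avg_mul_le f (fun _ => 1)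
  simp only [mul_one, one_pow, avg_const, Real.sqrt_one] at h
  have h' := avg_mul_le (fun i => - f i) (fun _ => 1)
  simp only [mul_one, one_pow, avg_const, Real.sqrt_one, neg_sq] at h'
  have h2 : avg (fun i => - f i) = - avg f := by
    have := avg_const_mul (-1) f
    simpa using this
  rw [h2] at h'
  have h3 : |avg f| ≤ √(avg fun i => f i ^ 2) := abs_le'.2 ⟨h, h'⟩
  calc (avg f) ^ 2 = |avg f| ^ 2 := (sq_abs _).symm
    _ ≤ (√(avg fun i => f i ^ 2)) ^ 2 := by gcongr
    _ = _ := Real.sq_sqrt (avg_nonneg fun i => sq_nonneg _)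

lemma avg_abs_le [Nonempty ι] (f : ι → ℝ) : avg (fun i => |f i|) ≤ √(avg fun i => f i ^ 2) := by
  have h := avg_mul_le (fun i => |f i|) (fun _ => 1)
  simpa [avg_const] using h

end avg

/-- Norm of an average is at most the average of the norms. -/
lemma norm_avg_le {ι E : Type*} [Fintype ι] [SeminormedAddCommGroup E] [NormedSpace ℝ E]
    (f : ι → E) : ‖((Fintype.card ι : ℝ)⁻¹) • ∑ i, f i‖ ≤ avg fun i => ‖f i‖ := by
  rw [norm_smul, avg, div_eq_inv_mul]
  simp only [norm_inv, Real.norm_natCast]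
  gcongr
  exact norm_sum_le _ _

end

end Pool.Agent.H52
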