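import Pool.Agent.H52.Dims

/-!
Banach spaces, resolutions and the five homological dimensions of a Banach space.
-/

namespace Pool.Agent.H52

universe u

export Pool.Agent.BanachDim (Ban)

variable {𝕜 : Type} [RCLike 𝕜]

/-! ### Classes of Banach spaces -/

/-- `X` is `ℓ¹(S)` for some set `S` (up to isometric isomorphism). -/
def IsEllOne (X : Ban.{u} 𝕜) : Prop :=
  ∃ S : Type u, Nonempty (X ≃ₗᵢ[𝕜] lp (fun _ : S => 𝕜) 1)

/-- `X` is an `ℒ_p`-space in the sense of Lindenstrauss and Pelczynski: for some constant `lam`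
every finite dimensional subspace `E` of `X` is contained in a finite dimensional subspace `F`
of `X` whose Banach-Mazur distance to `ℓ_p^n`, `n = dim F`, is witnessed to be at most `lam` by
an isomorphism `T`. -/
def IsScriptL (p : ENNReal) [Fact (1 ≤ p)] (X : Ban.{u} 𝕜) : Prop :=
  ∃ lam : ℝ, ∀ E : Submodule 𝕜 X, FiniteDimensional 𝕜 E →
    ∃ F : Submodule 𝕜 X, E ≤ F ∧ ∃ (n : ℕ) (T : F ≃L[𝕜] PiLp p (fun _ : Fin n => 𝕜)),
      ‖(T : F →L[𝕜] PiLp p (fun _ : Fin n => 𝕜))‖ *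
        ‖(T.symm : PiLp p (fun _ : Fin n => 𝕜) →L[𝕜] F)‖ ≤ lam

/-- `Q` is an injective Banach space: every bounded operator from a closed subspace of a Banach
space into `Q` extends to a bounded operator on the whole space. -/
def IsInjective (Q : Ban.{u} 𝕜) : Prop :=
  ∀ (W : Ban.{u} 𝕜) (V : Submodule 𝕜 W), IsClosed (V : Set W) → ∀ T : V →L[𝕜] Q,
    ∃ T' : W →L[𝕜] Q, ∀ v : V, T' v = T v

/-- `Q` is complemented in its bidual under the canonical embedding. -/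
def IsUltrasummand (Q : Ban.{u} 𝕜) : Prop :=
  ∃ P : StrongDual 𝕜 (StrongDual 𝕜 Q) →L[𝕜] Q,
    ∀ x : Q, P (NormedSpace.inclusionInDoubleDual 𝕜 Q x) = x

/-! ### Exact sequences -/

/-- The sequence `0 ← X ← P 0 ← P 1 ← ⋯` is exact. -/
structure LeftExact (X : Ban.{u} 𝕜) (P : ℕ → Ban.{u} 𝕜) (ε : P 0 →L[𝕜] X)
    (d : ∀ j, P (j + 1) →L[𝕜] P j) : Prop where
  surjective : Function.Surjective ε
  exact_zero : Function.Exact (d 0) ε
  exact_succ : ∀ j, Function.Exact (d (j + 1)) (d j)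

/-- The sequence `0 → X → Q 0 → Q 1 → ⋯` is exact. -/
structure RightExact (X : Ban.{u} 𝕜) (Q : ℕ → Ban.{u} 𝕜) (ι : X →L[𝕜] Q 0)
    (d : ∀ j, Q j →L[𝕜] Q (j + 1)) : Prop where
  injective : Function.Injective ι
  exact_zero : Function.Exact ι (d 0)
  exact_succ : ∀ j, Function.Exact (d j) (d (j + 1))

/-- The dual complex `0 ← X* ← (Q 0)* ← (Q 1)* ← ⋯` is chain homotopic to zero through bounded
operators: `s` and `h j` are the components of a contracting homotopy. Here `φ.comp ι` is the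
image of the functional `φ` under the dual operator of `ι`. -/
def DualContractible (X : Ban.{u} 𝕜) (Q : ℕ → Ban.{u} 𝕜) (ι : X →L[𝕜] Q 0)
    (d : ∀ j, Q j →L[𝕜] Q (j + 1)) : Prop :=
  ∃ (s : StrongDual 𝕜 X →L[𝕜] StrongDual 𝕜 (Q 0))
    (h : ∀ j, StrongDual 𝕜 (Q j) →L[𝕜] StrongDual 𝕜 (Q (j + 1))),
    (∀ φ : StrongDual 𝕜 X, (s φ).comp ι = φ) ∧
    (∀ φ : StrongDual 𝕜 (Q 0), s (φ.comp ι) + (h 0 φ).comp (d 0) = φ) ∧
    ∀ (j : ℕ) (φ : StrongDual 𝕜 (Q (j + 1))),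
      h j (φ.comp (d j)) + (h (j + 1) φ).comp (d (j + 1)) = φ

/-! ### Resolutions and dimensions -/

/-- There is an exact sequence `0 ← X ← P 0 ← ⋯ ← P n ← 0` with all `P j` in the class `C`. -/
def HasLeftResolution (C : Ban.{u} 𝕜 → Prop) (X : Ban.{u} 𝕜) (n : ℕ) : Prop :=
  ∃ (P : ℕ → Ban.{u} 𝕜) (ε : P 0 →L[𝕜] X) (d : ∀ j, P (j + 1) →L[𝕜] P j),
    LeftExact X P ε d ∧ (∀ j ≤ n, C (P j)) ∧ ∀ j > n, Subsingleton (P j)

/-- There is an exact sequence `0 → X → Q 0 → ⋯ → Q n → 0` with all `Q j` in the class `C`. -/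
def HasRightResolution (C : Ban.{u} 𝕜 → Prop) (X : Ban.{u} 𝕜) (n : ℕ) : Prop :=
  ∃ (Q : ℕ → Ban.{u} 𝕜) (ι : X →L[𝕜] Q 0) (d : ∀ j, Q j →L[𝕜] Q (j + 1)),
    RightExact X Q ι d ∧ (∀ j ≤ n, C (Q j)) ∧ ∀ j > n, Subsingleton (Q j)

/-- There is a pure-injective resolution `0 → X → Q 0 → ⋯ → Q n → 0`. -/
def HasPureInjectiveResolution (X : Ban.{u} 𝕜) (n : ℕ) : Prop :=
  ∃ (Q : ℕ → Ban.{u} 𝕜) (ι : X →L[𝕜] Q 0) (d : ∀ j, Q j →L[𝕜] Q (j + 1)),
    RightExact X Q ι d ∧ DualContractible X Q ι d ∧ (∀ j ≤ n, IsUltrasummand (Q j)) ∧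
      ∀ j > n, Subsingleton (Q j)

/-- The least natural number with the property `p`, and `∞` if there is none. -/
noncomputable def least (p : ℕ → Prop) : ℕ∞ := ⨅ (n : ℕ) (_ : p n), (n : ℕ∞)

/-- the projective dimension -/
noncomputable def pd (X : Ban.{u} 𝕜) : ℕ∞ := least (HasLeftResolution IsEllOne X)

/-- the flat dimension -/
noncomputable def fd (X : Ban.{u} 𝕜) : ℕ∞ := least (HasLeftResolution (IsScriptL 1) X)

/-- the injective dimension -/
noncomputable def injDim (X : Ban.{u} 𝕜) : ℕ∞ := least (HasRightResolution IsInjective X)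

/-- the absolutely-pure dimension -/
noncomputable def apd (X : Ban.{u} 𝕜) : ℕ∞ := least (HasRightResolution (IsScriptL ⊤) X)

/-- the pure-injective dimension -/
noncomputable def pid (X : Ban.{u} 𝕜) : ℕ∞ := least (HasPureInjectiveResolution X)

end Pool.Agent.H52
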