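import Mathlib

/-!
Basics on `ℓ¹` sums.
-/

namespace Pool.Agent.H52

open scoped Topology

noncomputable section

section basics

variable {α : Type*} {E F : α → Type*} [∀ i, NormedAddCommGroup (E i)]
  [∀ i, NormedAddCommGroup (F i)]

lemma lp1_summable (f : lp E 1) : Summable fun i => ‖f i‖ := by
  have h := lp.memℓp f
  rw [memℓp_gen_iff (by norm_num)] at h
  simpa using h

lemma lp1_norm (f : lp E 1) : ‖f‖ = ∑' i, ‖f i‖ := by
  rw [lp.norm_eq_tsum_rpow (by norm_num)]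
  simp

/-- construct an element of the `ℓ¹` sum -/
def lp1Mk (f : ∀ i, E i) (h : Summable fun i => ‖f i‖) : lp E 1 :=
  ⟨f, by
    change Memℓp f 1
    rw [memℓp_gen_iff (by norm_num)]
    simpa using h⟩

@[simp] lemma lp1Mk_apply (f : ∀ i, E i) (h : Summable fun i => ‖f i‖) (i : α) :
    lp1Mk f h i = f i := rfl

lemma norm_lp1Mk (f : ∀ i, E i) (h : Summable fun i => ‖f i‖) :
    ‖lp1Mk f h‖ = ∑' i, ‖f i‖ := lp1_norm _

end basics

section ops

variable {𝕜 : Type*} [NontriviallyNormedField 𝕜]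
variable {α : Type*} {E F : α → Type*} [∀ i, NormedAddCommGroup (E i)]
  [∀ i, NormedAddCommGroup (F i)] [∀ i, NormedSpace 𝕜 (E i)] [∀ i, NormedSpace 𝕜 (F i)]
  {W : Type*} [NormedAddCommGroup W] [NormedSpace 𝕜 W]

lemma norm_apply_le_of {V W : Type*} [NormedAddCommGroup V] [NormedSpace 𝕜 V]
    [NormedAddCommGroup W] [NormedSpace 𝕜 W] {T : V →L[𝕜] W} {C : ℝ} (h : ‖T‖ ≤ C) (x : V) :
    ‖T x‖ ≤ C * ‖x‖ :=
  (T.le_opNorm x).trans (mul_le_mul_of_nonneg_right h (norm_nonneg _))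

lemma lpLift_summable_norm {T : ∀ i, E i →L[𝕜] W} {C : ℝ} (hT : ∀ i, ‖T i‖ ≤ C)
    (f : lp E 1) : Summable fun i => ‖T i (f i)‖ := by
  apply Summable.of_nonneg_of_le (fun _ => norm_nonneg _) (fun i => norm_apply_le_of (hT i) (f i))
  exact (lp1_summable f).mul_left C

lemma lpLift_summable [CompleteSpace W] {T : ∀ i, E i →L[𝕜] W} {C : ℝ} (hT : ∀ i, ‖T i‖ ≤ C)
    (f : lp E 1) : Summable fun i => T i (f i) :=
  (lpLift_summable_norm hT f).of_norm

/-- The operator on an `ℓ¹` sum given by a bounded family of operators. -/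
def lpLift [CompleteSpace W] (T : ∀ i, E i →L[𝕜] W) (C : ℝ) (hT : ∀ i, ‖T i‖ ≤ C) :
    lp E 1 →L[𝕜] W :=
  LinearMap.mkContinuous
    { toFun := fun f => ∑' i, T i (f i)
      map_add' := fun f g => by
        simp only [lp.coeFn_add, Pi.add_apply, map_add]
        exact (lpLift_summable hT f).tsum_add (lpLift_summable hT g)
      map_smul' := fun c f => by
        simp only [lp.coeFn_smul, Pi.smul_apply, map_smul, RingHom.id_apply]
        exact (lpLift_summable hT f).tsum_const_smul c } C (by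
      intro f
      change ‖∑' i, T i (f i)‖ ≤ C * ‖f‖
      rw [lp1_norm, ← tsum_mul_left]
      refine (norm_tsum_le_tsum_norm (lpLift_summable_norm hT f)).trans ?_
      exact (lpLift_summable_norm hT f).tsum_le_tsum (fun i => norm_apply_le_of (hT i) (f i))
        ((lp1_summable f).mul_left C))

lemma lpLift_apply [CompleteSpace W] (T : ∀ i, E i →L[𝕜] W) (C : ℝ) (hT : ∀ i, ‖T i‖ ≤ C)
    (f : lp E 1) : lpLift T C hT f = ∑' i, T i (f i) := rfl

lemma lpLift_single [CompleteSpace W] [DecidableEq α] (T : ∀ i, E i →L[𝕜] W) (C : ℝ)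
    (hT : ∀ i, ‖T i‖ ≤ C) (i : α) (x : E i) : lpLift T C hT (lp.single 1 i x) = T i x := by
  rw [lpLift_apply, tsum_eq_single i]
  · simp
  · intro j hj
    rw [lp.single_apply, Pi.single_eq_of_ne hj, map_zero]

lemma norm_lpLift_le [CompleteSpace W] (T : ∀ i, E i →L[𝕜] W) {C : ℝ} (hC : 0 ≤ C)
    (hT : ∀ i, ‖T i‖ ≤ C) : ‖lpLift T C hT‖ ≤ C :=
  LinearMap.mkContinuous_norm_le _ hC _

lemma lpMap_summable {T : ∀ i, E i →L[𝕜] F i} {C : ℝ} (hT : ∀ i, ‖T i‖ ≤ C)
    (f : lp E 1) : Summable fun i => ‖T i (f i)‖ := by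
  apply Summable.of_nonneg_of_le (fun _ => norm_nonneg _) (fun i => norm_apply_le_of (hT i) (f i))
  exact (lp1_summable f).mul_left C

/-- The diagonal operator between `ℓ¹` sums. -/
def lpMap (T : ∀ i, E i →L[𝕜] F i) (C : ℝ) (hT : ∀ i, ‖T i‖ ≤ C) :
    lp E 1 →L[𝕜] lp F 1 :=
  LinearMap.mkContinuous
    { toFun := fun f => lp1Mk (fun i => T i (f i)) (lpMap_summable hT f)
      map_add' := fun f g => by
        ext i
        simp
      map_smul' := fun c f => by
        ext i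
        simp } C (by
      intro f
      change ‖lp1Mk (fun i => T i (f i)) (lpMap_summable hT f)‖ ≤ C * ‖f‖
      rw [norm_lp1Mk, lp1_norm, ← tsum_mul_left]
      exact (lpMap_summable hT f).tsum_le_tsum (fun i => norm_apply_le_of (hT i) (f i))
        ((lp1_summable f).mul_left C))

lemma lpMap_apply (T : ∀ i, E i →L[𝕜] F i) (C : ℝ) (hT : ∀ i, ‖T i‖ ≤ C)
    (f : lp E 1) (i : α) : lpMap T C hT f i = T i (f i) := rfl

lemma norm_lpMap_le (T : ∀ i, E i →L[𝕜] F i) {C : ℝ} (hC : 0 ≤ C) (hT : ∀ i, ‖T i‖ ≤ C) :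
    ‖lpMap T C hT‖ ≤ C :=
  LinearMap.mkContinuous_norm_le _ hC _

/-- Operators on an `ℓ¹` sum are determined on the summands. -/
lemma lp1_ext [DecidableEq α] {T T' : lp E 1 →L[𝕜] W}
    (h : ∀ i x, T (lp.single 1 i x) = T' (lp.single 1 i x)) : T = T' := by
  ext f
  have hf := lp.hasSum_single (p := 1) (by norm_num) f
  have h1 := hf.mapL T
  have h2 := hf.mapL T'
  have : (fun i => T (lp.single 1 i (f i))) = fun i => T' (lp.single 1 i (f i)) :=
    funext fun i => h i (f i)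
  rw [this] at h1
  exact h1.unique h2

end ops

end

end Pool.Agent.H52
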