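import Pool.Agent.H52.Comp
import Pool.Agent.H52.Ell

/-!
Extension properties, duals of exact sequences.
-/

namespace Pool.Agent.H52

open scoped Topology

noncomputable section

section ext

variable {𝕜 : Type*} [RCLike 𝕜]
variable {V W Q Q' : Type*} [NormedAddCommGroup V] [NormedSpace 𝕜 V] [NormedAddCommGroup W]
    [NormedSpace 𝕜 W] [NormedAddCommGroup Q] [NormedSpace 𝕜 Q] [NormedAddCommGroup Q']
    [NormedSpace 𝕜 Q']

/-- openness onto the range with constant `C` -/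
def OpenC (d : V →L[𝕜] W) (C : ℝ) : Prop := ∀ x, ∃ x', d x' = d x ∧ ‖x'‖ ≤ C * ‖d x‖

/-- operators from subspaces of `W` to `Q` extend with constant `c` -/
def HasExt (𝕜 : Type*) [RCLike 𝕜] (W : Type*) [NormedAddCommGroup W] [NormedSpace 𝕜 W]
    (Q : Type*) [NormedAddCommGroup Q] [NormedSpace 𝕜 Q] (c : ℝ) : Prop :=
  ∀ (A : Submodule 𝕜 W) (T : A →L[𝕜] Q), ∃ T' : W →L[𝕜] Q, (∀ a : A, T' a = T a) ∧
    ‖T'‖ ≤ c * ‖T‖

lemma OpenC.mono {d : V →L[𝕜] W} {C C' : ℝ} (h : OpenC d C) (hC : C ≤ C') : OpenC d C' := by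
  intro x
  obtain ⟨x', h1, h2⟩ := h x
  exact ⟨x', h1, h2.trans (mul_le_mul_of_nonneg_right hC (norm_nonneg _))⟩

lemma HasExt.mono {c c' : ℝ} (h : HasExt 𝕜 W Q c) (hc : c ≤ c') : HasExt 𝕜 W Q c' := by
  intro A T
  obtain ⟨T', h1, h2⟩ := h A T
  exact ⟨T', h1, h2.trans (mul_le_mul_of_nonneg_right hc (norm_nonneg _))⟩

lemma ExtAlong.mono {d : V →L[𝕜] W} {c c' : ℝ} (h : ExtAlong d Q c) (hc : c ≤ c') :
    ExtAlong d Q c' := by
  intro T hT
  obtain ⟨T', h1, h2⟩ := h T hT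
  exact ⟨T', h1, h2.trans (mul_le_mul_of_nonneg_right hc (norm_nonneg _))⟩

/-- An operator vanishing on the kernel of `d` descends to the range of `d`. -/
lemma exists_desc {d : V →L[𝕜] W} {C : ℝ} (hC : OpenC d C) (hC0 : 0 ≤ C) (T : V →L[𝕜] Q)
    (hT : ∀ x, d x = 0 → T x = 0) :
    ∃ T0 : (LinearMap.range (d : V →ₗ[𝕜] W)) →L[𝕜] Q, (∀ x, T0 ⟨d x, ⟨x, rfl⟩⟩ = T x) ∧
      ‖T0‖ ≤ C * ‖T‖ := by
  have hex : ∀ y : LinearMap.range (d : V →ₗ[𝕜] W), ∃ x, d x = y ∧ ‖x‖ ≤ C * ‖(y : W)‖ := by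
    rintro ⟨_, x, rfl⟩
    exact hC x
  choose g hg1 hg2 using hex
  have key : ∀ (y : LinearMap.range (d : V →ₗ[𝕜] W)) (x : V), d x = y → T (g y) = T x := by
    intro y x hx
    have : T (g y - x) = 0 := hT _ (by rw [map_sub, hg1, hx, sub_self])
    rwa [map_sub, sub_eq_zero] at this
  refine ⟨LinearMap.mkContinuous
    { toFun := fun y => T (g y)
      map_add' := fun y z => by
        rw [key (y + z) (g y + g z) (by rw [map_add, hg1, hg1]; rfl), map_add]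
      map_smul' := fun c y => by
        rw [key (c • y) (c • g y) (by rw [map_smul, hg1]; rfl), map_smul]
        rfl } (C * ‖T‖) ?_, ?_, ?_⟩
  · intro y
    calc ‖T (g y)‖ ≤ ‖T‖ * ‖g y‖ := T.le_opNorm _
      _ ≤ ‖T‖ * (C * ‖(y : W)‖) := by
          have := hg2 y
          gcongr
      _ = C * ‖T‖ * ‖y‖ := by
          rw [Submodule.coe_norm]
          ring
  · intro x
    exact key ⟨d x, ⟨x, rfl⟩⟩ x rfl
  · exact LinearMap.mkContinuous_norm_le _ (by positivity) _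

lemma extAlong_of {d : V →L[𝕜] W} {C c : ℝ} (hC : OpenC d C) (hC0 : 0 ≤ C)
    (hc : HasExt 𝕜 W Q c) (hc0 : 0 ≤ c) : ExtAlong d Q (c * C) := by
  intro T hT
  obtain ⟨T0, h1, h2⟩ := exists_desc hC hC0 T hT
  obtain ⟨T', h3, h4⟩ := hc _ T0
  refine ⟨T', fun x => ?_, ?_⟩
  · rw [← h1 x, ← h3]
  · calc ‖T'‖ ≤ c * ‖T0‖ := h4
      _ ≤ c * (C * ‖T‖) := by gcongr
      _ = _ := by ring

/-- Factorization through a surjection. -/
lemma extAlong_of_surjective {d : V →L[𝕜] W} {C : ℝ} (hC : OpenC d C) (hC0 : 0 ≤ C)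
    (hd : Function.Surjective d) : ExtAlong d Q C := by
  intro T hT
  obtain ⟨T0, h1, h2⟩ := exists_desc hC hC0 T hT
  have hr : ∀ w, w ∈ LinearMap.range (d : V →ₗ[𝕜] W) := fun w => by
    obtain ⟨x, rfl⟩ := hd w
    exact ⟨x, rfl⟩
  let j : W →L[𝕜] LinearMap.range (d : V →ₗ[𝕜] W) :=
    LinearMap.mkContinuous
      { toFun := fun w => ⟨w, hr w⟩
        map_add' := fun _ _ => rfl
        map_smul' := fun _ _ => rfl } 1 (by
          intro x
          rw [one_mul]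
          exact le_refl _)
  refine ⟨T0.comp j, fun x => ?_, ?_⟩
  · rw [← h1 x]
    rfl
  · calc ‖T0.comp j‖ ≤ ‖T0‖ * ‖j‖ := ContinuousLinearMap.opNorm_comp_le _ _
      _ ≤ (C * ‖T‖) * 1 := by
          have : ‖j‖ ≤ 1 := LinearMap.mkContinuous_norm_le _ zero_le_one _
          gcongr
      _ = _ := mul_one _

/-- Hahn-Banach -/
lemma hasExt_scalar : HasExt 𝕜 W 𝕜 1 := by
  intro A T
  obtain ⟨g, h1, h2⟩ := exists_extension_norm_eq A T
  exact ⟨g, h1, by rw [h2, one_mul]⟩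

/-- Extension properties pass to retracts. -/
lemma HasExt.retract {c : ℝ} (hc0 : 0 ≤ c) (h : HasExt 𝕜 W Q' c) (i : Q →L[𝕜] Q')
    (r : Q' →L[𝕜] Q) (hri : ∀ x, r (i x) = x) : HasExt 𝕜 W Q (‖r‖ * c * ‖i‖) := by
  intro A T
  obtain ⟨T', h1, h2⟩ := h A (i.comp T)
  refine ⟨r.comp T', fun a => ?_, ?_⟩
  · rw [ContinuousLinearMap.comp_apply, h1, ContinuousLinearMap.comp_apply, hri]
  · calc ‖r.comp T'‖ ≤ ‖r‖ * ‖T'‖ := ContinuousLinearMap.opNorm_comp_le _ _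
      _ ≤ ‖r‖ * (c * ‖i.comp T‖) := by gcongr
      _ ≤ ‖r‖ * (c * (‖i‖ * ‖T‖)) := by
          gcongr
          exact ContinuousLinearMap.opNorm_comp_le _ _
      _ = _ := by ring

/-- The dual of an operator. -/
def dual (T : V →L[𝕜] W) : StrongDual 𝕜 W →L[𝕜] StrongDual 𝕜 V :=
  (ContinuousLinearMap.compL 𝕜 V W 𝕜).flip T

@[simp] lemma dual_apply (T : V →L[𝕜] W) (φ : StrongDual 𝕜 W) (x : V) : dual T φ x = φ (T x) :=
  rfl

lemma dual_eq (T : V →L[𝕜] W) (φ : StrongDual 𝕜 W) : dual T φ = φ.comp T := rfl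

lemma norm_dual_le (T : V →L[𝕜] W) : ‖dual T‖ ≤ ‖T‖ := by
  apply ContinuousLinearMap.opNorm_le_bound _ (norm_nonneg _)
  intro φ
  rw [dual_eq, mul_comm]
  exact ContinuousLinearMap.opNorm_comp_le _ _

lemma openC_dual {d : V →L[𝕜] W} {C : ℝ} (hC : OpenC d C) (hC0 : 0 ≤ C) : OpenC (dual d) C := by
  intro φ
  obtain ⟨T', h1, h2⟩ := extAlong_of hC hC0 hasExt_scalar zero_le_one (dual d φ) (by
    intro x hx
    rw [dual_apply, hx, map_zero])
  refine ⟨T', ?_, by simpa using h2⟩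
  ext x
  exact h1 x

end ext

section left

variable {𝕜 : Type*} [RCLike 𝕜]

/-- An exact complex `⋯ → D 1 → D 0 → 0`. -/
structure LEx (D : ℕ → Type*) [∀ j, NormedAddCommGroup (D j)] [∀ j, NormedSpace 𝕜 (D j)]
    (δ : ∀ j, D (j + 1) →L[𝕜] D j) : Prop where
  surj : Function.Surjective (δ 0)
  comp : ∀ j x, δ j (δ (j + 1) x) = 0
  ex : ∀ j x, δ j x = 0 → ∃ y, δ (j + 1) y = x

variable {D : ℕ → Type*} [∀ j, NormedAddCommGroup (D j)] [∀ j, NormedSpace 𝕜 (D j)]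
    {δ : ∀ j, D (j + 1) →L[𝕜] D j}

lemma LEx.dual (h : LEx D δ) {C : ℕ → ℝ} (hC0 : ∀ j, 0 ≤ C j) (hC : ∀ j, OpenC (δ j) (C j)) :
    REx (fun j => StrongDual 𝕜 (D j)) (fun j => dual (δ j)) where
  inj φ hφ := by
    ext x
    obtain ⟨y, rfl⟩ := h.surj x
    exact congrArg (fun ψ : StrongDual 𝕜 (D 1) => ψ y) hφ
  comp j φ := by
    ext x
    simp [h.comp]
  ex j φ hφ := by
    obtain ⟨T', h1, h2⟩ := extAlong_of (hC j) (hC0 j) hasExt_scalar zero_le_one φ (by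
      intro x hx
      obtain ⟨y, rfl⟩ := h.ex j x hx
      exact congrArg (fun ψ : StrongDual 𝕜 (D (j + 2)) => ψ y) hφ)
    refine ⟨T', ?_⟩
    ext x
    exact h1 x

end left

section openmap

variable {𝕜 : Type*} [RCLike 𝕜]
variable {V W : Type*} [NormedAddCommGroup V] [NormedSpace 𝕜 V] [NormedAddCommGroup W]
    [NormedSpace 𝕜 W] [CompleteSpace V] [CompleteSpace W]

lemma exists_openC (d : V →L[𝕜] W)
    (h : IsClosed (LinearMap.range (d : V →ₗ[𝕜] W) : Set W)) : ∃ C, 0 ≤ C ∧ OpenC d C := by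
  have : CompleteSpace (LinearMap.range (d : V →ₗ[𝕜] W)) := h.completeSpace_coe
  let d' : V →L[𝕜] LinearMap.range (d : V →ₗ[𝕜] W) :=
    d.codRestrict _ (fun x => ⟨x, rfl⟩)
  obtain ⟨C, hC0, hC⟩ := ContinuousLinearMap.exists_preimage_norm_le d' (by
    rintro ⟨_, x, rfl⟩
    exact ⟨x, rfl⟩)
  refine ⟨C, hC0.le, fun x => ?_⟩
  obtain ⟨x', h1, h2⟩ := hC ⟨d x, x, rfl⟩
  exact ⟨x', congrArg Subtype.val h1, h2⟩

lemma exists_openC_of_ker {U : Type*} [NormedAddCommGroup U] [NormedSpace 𝕜 U]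
    (d : V →L[𝕜] W) (e : W →L[𝕜] U) (h1 : ∀ x, e (d x) = 0) (h2 : ∀ y, e y = 0 → ∃ x, d x = y) :
    ∃ C, 0 ≤ C ∧ OpenC d C := by
  apply exists_openC
  have : (LinearMap.range (d : V →ₗ[𝕜] W) : Set W) = e ⁻¹' {0} := by
    ext y
    constructor
    · rintro ⟨x, rfl⟩
      exact h1 x
    · intro hy
      obtain ⟨x, hx⟩ := h2 y hy
      exact ⟨x, hx⟩
  rw [this]
  exact IsClosed.preimage e.continuous isClosed_singleton

end openmap

section ell

variable {𝕜 : Type*} [RCLike 𝕜] {S : Type*}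

/-- The dual of `ℓ¹(S)` is injective with constant one. -/
lemma hasExt_dual_ell (W : Type*) [NormedAddCommGroup W] [NormedSpace 𝕜 W] :
    HasExt 𝕜 W (StrongDual 𝕜 (lp (fun _ : S => 𝕜) 1)) 1 := by
  classical
  intro A T
  let e : S → lp (fun _ : S => 𝕜) 1 := fun s => lp.single 1 s (1 : 𝕜)
  have he : ∀ s, ‖e s‖ = 1 := fun s => by
    rw [lp.norm_single (by norm_num)]
    exact norm_one
  have h1 : ∀ s, ∃ g : StrongDual 𝕜 W, (∀ a : A, g a = T a (e s)) ∧ ‖g‖ ≤ ‖T‖ := by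
    intro s
    obtain ⟨g, hg1, hg2⟩ := exists_extension_norm_eq A (T.flip (e s))
    refine ⟨g, hg1, ?_⟩
    rw [hg2]
    refine (T.flip.le_opNorm _).trans ?_
    rw [he, mul_one, ContinuousLinearMap.opNorm_flip]
  choose g hg1 hg2 using h1
  let L : lp (fun _ : S => 𝕜) 1 →L[𝕜] StrongDual 𝕜 W :=
    lpLift (fun s => ContinuousLinearMap.toSpanSingleton 𝕜 (g s)) ‖T‖ (by
      intro s
      rw [ContinuousLinearMap.norm_toSpanSingleton]
      exact hg2 s)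
  have hL : ‖L‖ ≤ ‖T‖ := norm_lpLift_le _ (norm_nonneg _) _
  refine ⟨L.flip, ?_, ?_⟩
  · intro a
    apply lp1_ext
    intro s c
    have e1 : lp.single 1 s c = c • e s := by
      rw [← lp.single_smul]
      simp
    have e2 : L (e s) = g s := by
      rw [lpLift_single]
      simp
    rw [e1, map_smul, map_smul, ContinuousLinearMap.flip_apply, e2, hg1]
  · rw [ContinuousLinearMap.opNorm_flip, one_mul]
    exact hL

end ell

end

end Pool.Agent.H52
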