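import Pool.Agent.H52.CxI
import Pool.Agent.H52.ExtL
import Pool.Agent.H52.Defs

/-!
The finite complexes over `𝕜`.
-/

namespace Pool.Agent.H52

open Finset Matrix

noncomputable section

variable {𝕜 : Type} [RCLike 𝕜]

/-- finite dimensional `ℓ¹` -/
abbrev L1 (𝕜 : Type) [RCLike 𝕜] (S : Type) : Type := lp (fun _ : S => 𝕜) 1

section mat

variable {S T : Type} [Fintype S] [Fintype T]

lemma l1_norm_eq (z : L1 𝕜 S) : ‖z‖ = ∑ s, ‖z s‖ := by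
  rw [lp1_norm, tsum_fintype]

/-- a vector with given entries -/
def vec (f : S → 𝕜) : L1 𝕜 S := lp1Mk f (Summable.of_finite)

@[simp] lemma vec_apply (f : S → 𝕜) (s : S) : vec f s = f s := rfl

lemma matOp_bound {M : Matrix S T ℝ} {C : ℝ} (hM : ∀ t, ∑ s, |M s t| ≤ C) (z : L1 𝕜 T) :
    ‖vec (fun s => ∑ t, (M s t : 𝕜) * z t)‖ ≤ C * ‖z‖ := by
  rw [l1_norm_eq, l1_norm_eq]
  simp only [vec_apply]
  calc ∑ s, ‖∑ t, (M s t : 𝕜) * z t‖ ≤ ∑ s, ∑ t, |M s t| * ‖z t‖ := by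
        apply Finset.sum_le_sum
        intro s _
        refine (norm_sum_le _ _).trans (Finset.sum_le_sum fun t _ => ?_)
        rw [norm_mul, RCLike.norm_ofReal]
    _ = ∑ t, (∑ s, |M s t|) * ‖z t‖ := by
        rw [Finset.sum_comm]
        apply Finset.sum_congr rfl
        intro t _
        rw [Finset.sum_mul]
    _ ≤ ∑ t, C * ‖z t‖ := by
        apply Finset.sum_le_sum
        intro t _
        exact mul_le_mul_of_nonneg_right (hM t) (norm_nonneg _)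
    _ = _ := by rw [Finset.mul_sum]

/-- The operator given by a real matrix. -/
def matOp (𝕜 : Type) [RCLike 𝕜] (M : Matrix S T ℝ) (C : ℝ) (hM : ∀ t, ∑ s, |M s t| ≤ C) :
    L1 𝕜 T →L[𝕜] L1 𝕜 S :=
  LinearMap.mkContinuous
    { toFun := fun z => vec (fun s => ∑ t, (M s t : 𝕜) * z t)
      map_add' := fun z w => by
        ext s
        simp [mul_add, Finset.sum_add_distrib]
      map_smul' := fun c z => by
        ext s
        simp only [vec_apply, lp.coeFn_smul, Pi.smul_apply, smul_eq_mul, RingHom.id_apply,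
          Finset.mul_sum]
        apply Finset.sum_congr rfl
        intro t _
        ring } C (matOp_bound hM)

lemma matOp_apply (M : Matrix S T ℝ) (C : ℝ) (hM : ∀ t, ∑ s, |M s t| ≤ C) (z : L1 𝕜 T) (s : S) :
    matOp 𝕜 M C hM z s = ∑ t, (M s t : 𝕜) * z t := rfl

lemma norm_matOp_le (M : Matrix S T ℝ) {C : ℝ} (hC : 0 ≤ C) (hM : ∀ t, ∑ s, |M s t| ≤ C) :
    ‖matOp 𝕜 M C hM‖ ≤ C := LinearMap.mkContinuous_norm_le _ hC _

/-- real part -/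
def reV (z : L1 𝕜 S) : S → ℝ := fun s => RCLike.re (z s)
/-- imaginary part -/
def imV (z : L1 𝕜 S) : S → ℝ := fun s => RCLike.im (z s)
/-- complex vector from real and imaginary parts -/
def cpx (𝕜 : Type) [RCLike 𝕜] (x y : S → ℝ) : L1 𝕜 S :=
  vec fun s => (x s : 𝕜) + (y s : 𝕜) * RCLike.I

lemma cpx_re_im (z : L1 𝕜 S) : cpx 𝕜 (reV z) (imV z) = z := by
  ext s
  exact RCLike.re_add_im (z s)

lemma l1_reV_le (z : L1 𝕜 S) : l1 (reV z) ≤ ‖z‖ := by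
  rw [l1_norm_eq]
  exact Finset.sum_le_sum fun s _ => RCLike.abs_re_le_norm _

lemma l1_imV_le (z : L1 𝕜 S) : l1 (imV z) ≤ ‖z‖ := by
  rw [l1_norm_eq]
  exact Finset.sum_le_sum fun s _ => RCLike.abs_im_le_norm _

lemma norm_cpx_le (x y : S → ℝ) : ‖cpx 𝕜 x y‖ ≤ l1 x + l1 y := by
  rw [l1_norm_eq, l1, l1, ← Finset.sum_add_distrib]
  apply Finset.sum_le_sum
  intro s _
  simp only [cpx, vec_apply]
  refine (norm_add_le _ _).trans ?_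
  rw [norm_mul, RCLike.norm_ofReal, RCLike.norm_ofReal]
  have h1 : ‖(RCLike.I : 𝕜)‖ ≤ 1 := by
    rcases RCLike.I_eq_zero_or_im_I_eq_one (K := 𝕜) with h | h
    · rw [h]; simp
    · rw [RCLike.norm_I_of_ne_zero]
      intro h0
      rw [h0] at h
      simp at h
  have h2 := abs_nonneg (y s)
  have h3 : |y s| * ‖(RCLike.I : 𝕜)‖ ≤ |y s| * 1 := mul_le_mul_of_nonneg_left h1 h2
  linarith

lemma reV_matOp (M : Matrix S T ℝ) (C : ℝ) (hM : ∀ t, ∑ s, |M s t| ≤ C) (z : L1 𝕜 T) :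
    reV (matOp 𝕜 M C hM z) = M *ᵥ (reV z) := by
  funext s
  simp only [reV, matOp_apply, map_sum, Matrix.mulVec, dotProduct, RCLike.re_ofReal_mul]

lemma imV_matOp (M : Matrix S T ℝ) (C : ℝ) (hM : ∀ t, ∑ s, |M s t| ≤ C) (z : L1 𝕜 T) :
    imV (matOp 𝕜 M C hM z) = M *ᵥ (imV z) := by
  funext s
  simp only [imV, matOp_apply, map_sum, Matrix.mulVec, dotProduct, RCLike.im_ofReal_mul]

lemma matOp_cpx (M : Matrix S T ℝ) (C : ℝ) (hM : ∀ t, ∑ s, |M s t| ≤ C) (x y : T → ℝ) :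
    matOp 𝕜 M C hM (cpx 𝕜 x y) = cpx 𝕜 (M *ᵥ x) (M *ᵥ y) := by
  ext s
  simp only [matOp_apply, cpx, vec_apply, Matrix.mulVec, dotProduct, mul_add,
    Finset.sum_add_distrib]
  congr 1
  · push_cast
    rfl
  · push_cast
    rw [Finset.sum_mul]
    apply Finset.sum_congr rfl
    intro t _
    ring

lemma exists_of_real {U : Type} [Fintype U] {M : Matrix S T ℝ} {C : ℝ}
    (hM : ∀ t, ∑ s, |M s t| ≤ C) {c : ℝ} (hc : 0 ≤ c) (z : L1 𝕜 S)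
    (h1 : ∃ w, M *ᵥ w = reV z ∧ l1 w ≤ c * l1 (reV z))
    (h2 : ∃ w, M *ᵥ w = imV z ∧ l1 w ≤ c * l1 (imV z)) :
    ∃ w, matOp 𝕜 M C hM w = z ∧ ‖w‖ ≤ (2 * c) * ‖z‖ := by
  obtain ⟨w1, a1, b1⟩ := h1
  obtain ⟨w2, a2, b2⟩ := h2
  refine ⟨cpx 𝕜 w1 w2, ?_, ?_⟩
  · rw [matOp_cpx, a1, a2, cpx_re_im]
  · calc ‖cpx 𝕜 w1 w2‖ ≤ l1 w1 + l1 w2 := norm_cpx_le _ _
      _ ≤ c * l1 (reV z) + c * l1 (imV z) := add_le_add b1 b2
      _ ≤ c * ‖z‖ + c * ‖z‖ := by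
          have := l1_reV_le z
          have := l1_imV_le z
          gcongr
      _ = _ := by ring

end mat

section blk

variable {N : ℕ} {C η : ℝ} (X : Cx N C η)

/-- the boundary operator -/
def Cx.bd (𝕜 : Type) [RCLike 𝕜] (j : ℕ) : L1 𝕜 (X.S (j + 1)) →L[𝕜] L1 𝕜 (X.S j) :=
  matOp 𝕜 (X.dd j) C (X.col j)

instance L1.finiteDimensional (S : Type) [Fintype S] : FiniteDimensional 𝕜 (L1 𝕜 S) :=
  (lpPiLpₗᵢ (p := 1) (fun _ : S => 𝕜) 𝕜).symm.toLinearEquiv.finiteDimensional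

/-- the range of the boundary operator -/
def Cx.rg (𝕜 : Type) [RCLike 𝕜] : Submodule 𝕜 (L1 𝕜 (X.S 1)) :=
  LinearMap.range (X.bd 𝕜 1 : L1 𝕜 (X.S 2) →ₗ[𝕜] L1 𝕜 (X.S 1))

instance : IsClosed (X.rg 𝕜 : Set (L1 𝕜 (X.S 1))) := Submodule.closed_of_finiteDimensional _

/-- the spaces -/
def Cx.D (𝕜 : Type) [RCLike 𝕜] : ℕ → Ban.{0} 𝕜
  | 0 => { carrier := L1 𝕜 (X.S 1) ⧸ X.rg 𝕜 }
  | (j + 1) => { carrier := L1 𝕜 (X.S (j + 1)) }

/-- the quotient map -/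
def Cx.qm (𝕜 : Type) [RCLike 𝕜] : L1 𝕜 (X.S 1) →L[𝕜] (L1 𝕜 (X.S 1) ⧸ X.rg 𝕜) :=
  (X.rg 𝕜).mkQL

/-- the maps -/
def Cx.del (𝕜 : Type) [RCLike 𝕜] : ∀ j, X.D 𝕜 (j + 1) →L[𝕜] X.D 𝕜 j
  | 0 => X.qm 𝕜
  | (j + 1) => X.bd 𝕜 (j + 1)

lemma Cx.norm_del (hC : 0 ≤ C) : ∀ j, ‖X.del 𝕜 j‖ ≤ 2 * C + 2
  | 0 => by
    have h : ‖X.qm 𝕜‖ ≤ 1 := by
      apply ContinuousLinearMap.opNorm_le_bound _ zero_le_one
      intro x
      rw [one_mul]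
      exact Submodule.Quotient.norm_mk_le _ _
    have : ‖X.del 𝕜 0‖ ≤ 1 := h
    linarith
  | (j + 1) => by
    have h : ‖X.del 𝕜 (j + 1)‖ ≤ C := norm_matOp_le (X.dd (j + 1)) hC (X.col (j + 1))
    linarith

lemma Cx.lex (hC : 0 ≤ C) : LEx (fun j => X.D 𝕜 j) (fun j => X.del 𝕜 j) where
  surj := Submodule.mkQ_surjective _
  comp j x := by
    cases j with
    | zero =>
      exact (Submodule.Quotient.mk_eq_zero _).2 ⟨x, rfl⟩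
    | succ j =>
      have h1 : reV (X.bd 𝕜 (j + 1) (X.bd 𝕜 (j + 2) x)) = 0 := by
        rw [Cx.bd, Cx.bd, reV_matOp, reV_matOp, X.comp]
      have h2 : imV (X.bd 𝕜 (j + 1) (X.bd 𝕜 (j + 2) x)) = 0 := by
        rw [Cx.bd, Cx.bd, imV_matOp, imV_matOp, X.comp]
      have h3 := cpx_re_im (X.bd 𝕜 (j + 1) (X.bd 𝕜 (j + 2) x))
      rw [h1, h2] at h3
      change X.bd 𝕜 (j + 1) (X.bd 𝕜 (j + 2) x) = 0
      rw [← h3]
      ext s
      simp [cpx]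
  ex j x hx := by
    cases j with
    | zero =>
      obtain ⟨y, hy⟩ := (Submodule.Quotient.mk_eq_zero (X.rg 𝕜)).1 hx
      exact ⟨y, hy⟩
    | succ j =>
      have hx' : X.bd 𝕜 (j + 1) x = 0 := hx
      have h1 : X.dd (j + 1) *ᵥ reV x = 0 := by
        rw [← reV_matOp (𝕜 := 𝕜) (X.dd (j + 1)) C (X.col (j + 1))]
        rw [show matOp 𝕜 (X.dd (j + 1)) C (X.col (j + 1)) x = 0 from hx']
        funext s
        simp [reV]
      have h2 : X.dd (j + 1) *ᵥ imV x = 0 := by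
        rw [← imV_matOp (𝕜 := 𝕜) (X.dd (j + 1)) C (X.col (j + 1))]
        rw [show matOp 𝕜 (X.dd (j + 1)) C (X.col (j + 1)) x = 0 from hx']
        funext s
        simp [imV]
      obtain ⟨w, hw, -⟩ := exists_of_real (𝕜 := 𝕜) (U := Unit) (X.col (j + 2)) hC x
        (X.ex j _ h1) (X.ex j _ h2)
      exact ⟨w, hw⟩

lemma Cx.openC (hC : 0 ≤ C) : ∀ j, OpenC (X.del 𝕜 j) (2 * C + 2)
  | 0 => by
    intro x
    have key : ∀ y : L1 𝕜 (X.S 1) ⧸ X.rg 𝕜, ∃ x' : L1 𝕜 (X.S 1), X.qm 𝕜 x' = y ∧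
        ‖x'‖ ≤ 2 * ‖y‖ := by
      intro y
      rcases eq_or_ne y 0 with rfl | hy
      · exact ⟨0, map_zero _, by simp⟩
      · have hy' : 0 < ‖y‖ := norm_pos_iff.2 hy
        obtain ⟨m, hm1, hm2⟩ := Submodule.Quotient.norm_mk_lt y hy'
        exact ⟨m, hm1, by linarith⟩
    obtain ⟨x', h1, h2⟩ := key (X.qm 𝕜 x)
    refine ⟨x', h1, h2.trans ?_⟩
    have : 0 ≤ ‖X.qm 𝕜 x‖ := norm_nonneg _
    change 2 * ‖X.qm 𝕜 x‖ ≤ (2 * C + 2) * ‖X.qm 𝕜 x‖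
    nlinarith
  | 1 => by
    intro x
    obtain ⟨w, hw1, hw2⟩ := exists_of_real (𝕜 := 𝕜) (U := Unit) (X.col 1) hC (X.bd 𝕜 1 x) (by
        obtain ⟨w, h1, h2⟩ := X.pre (reV x)
        rw [Cx.bd, reV_matOp]
        exact ⟨w, h1, h2⟩) (by
        obtain ⟨w, h1, h2⟩ := X.pre (imV x)
        rw [Cx.bd, imV_matOp]
        exact ⟨w, h1, h2⟩)
    refine ⟨w, hw1, hw2.trans ?_⟩
    have : 0 ≤ ‖X.bd 𝕜 1 x‖ := norm_nonneg _
    change (2 * C) * ‖X.bd 𝕜 1 x‖ ≤ (2 * C + 2) * ‖X.bd 𝕜 1 x‖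
    nlinarith
  | (j + 2) => by
    intro x
    have h0 : X.bd 𝕜 (j + 1) (X.bd 𝕜 (j + 2) x) = 0 := (X.lex (𝕜 := 𝕜) hC).comp (j + 1) x
    have h1 : X.dd (j + 1) *ᵥ reV (X.bd 𝕜 (j + 2) x) = 0 := by
      rw [← reV_matOp (𝕜 := 𝕜) (X.dd (j + 1)) C (X.col (j + 1))]
      rw [show matOp 𝕜 (X.dd (j + 1)) C (X.col (j + 1)) (X.bd 𝕜 (j + 2) x) = 0 from h0]
      funext s
      simp [reV]
    have h2 : X.dd (j + 1) *ᵥ imV (X.bd 𝕜 (j + 2) x) = 0 := by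
      rw [← imV_matOp (𝕜 := 𝕜) (X.dd (j + 1)) C (X.col (j + 1))]
      rw [show matOp 𝕜 (X.dd (j + 1)) C (X.col (j + 1)) (X.bd 𝕜 (j + 2) x) = 0 from h0]
      funext s
      simp [imV]
    obtain ⟨w, hw1, hw2⟩ := exists_of_real (𝕜 := 𝕜) (U := Unit) (X.col (j + 2)) hC
      (X.bd 𝕜 (j + 2) x) (X.ex j _ h1) (X.ex j _ h2)
    refine ⟨w, hw1, hw2.trans ?_⟩
    have : 0 ≤ ‖X.bd 𝕜 (j + 2) x‖ := norm_nonneg _
    change (2 * C) * ‖X.bd 𝕜 (j + 2) x‖ ≤ (2 * C + 2) * ‖X.bd 𝕜 (j + 2) x‖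
    nlinarith

lemma Cx.D_subsingleton {j : ℕ} (hj : N + 1 < j) : ∀ x : X.D 𝕜 j, x = 0 := by
  obtain ⟨k, rfl⟩ : ∃ k, j = k + 1 := ⟨j - 1, by omega⟩
  have := X.eN (k + 1) hj
  have h : ∀ y : L1 𝕜 (X.S (k + 1)), y = 0 := by
    intro y
    ext s
    exact this.elim s
  exact h

instance Cx.D_finite (j : ℕ) : FiniteDimensional 𝕜 (X.D 𝕜 j) := by
  cases j with
  | zero => exact inferInstanceAs (FiniteDimensional 𝕜 (L1 𝕜 (X.S 1) ⧸ X.rg 𝕜))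
  | succ j => exact inferInstanceAs (FiniteDimensional 𝕜 (L1 𝕜 (X.S (j + 1))))

lemma exists_phase (z : 𝕜) : ∃ c : 𝕜, ‖c‖ ≤ 1 ∧ c * z = ((‖z‖ : ℝ) : 𝕜) := by
  rcases eq_or_ne z 0 with rfl | hz
  · exact ⟨0, by simp, by simp⟩
  · have hz' : (‖z‖ : ℝ) ≠ 0 := norm_ne_zero_iff.2 hz
    have hz2 : ((‖z‖ : ℝ) : 𝕜) ≠ 0 := by exact_mod_cast hz'
    refine ⟨((‖z‖ : ℝ) : 𝕜)⁻¹ * (starRingEnd 𝕜) z, ?_, ?_⟩
    · rw [norm_mul, norm_inv, RCLike.norm_ofReal, abs_norm, RCLike.norm_conj,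
        inv_mul_cancel₀ hz']
    · rw [mul_assoc, RCLike.conj_mul, sq, ← mul_assoc, inv_mul_cancel₀ hz2, one_mul]

/-- The certificate: no good section of the dual of the top boundary operator. -/
theorem Cx.cert {n : ℕ} {C η : ℝ} (X : Cx (n + 1) C η)
    (σ : StrongDual 𝕜 (X.D 𝕜 (n + 2)) →L[𝕜] StrongDual 𝕜 (X.D 𝕜 (n + 1)))
    (hσ : ∀ φ, dual (X.del 𝕜 (n + 1)) (σ φ) = φ) : 1 ≤ ‖σ‖ * η := by
  classical
  let e : ∀ s, L1 𝕜 (X.S (n + 1)) := fun s => lp.single 1 s (1 : 𝕜)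
  have he : ∀ s, ‖e s‖ = 1 := fun s => by
    rw [lp.norm_single (by norm_num), norm_one]
  have hexp : ∀ (ψ : StrongDual 𝕜 (L1 𝕜 (X.S (n + 1)))) (z : L1 𝕜 (X.S (n + 1))),
      ψ z = ∑ s, z s * ψ (e s) := by
    intro ψ z
    have hz : z = ∑ s, z s • e s := by
      ext t
      rw [lp.coeFn_sum, Finset.sum_apply]
      simp only [lp.coeFn_smul, Pi.smul_apply, smul_eq_mul, e, lp.single_apply]
      rw [Finset.sum_eq_single t]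
      · simp
      · intro s _ hs
        rw [Pi.single_eq_of_ne (Ne.symm hs), mul_zero]
      · simp
    conv_lhs => rw [hz]
    rw [map_sum]
    apply Finset.sum_congr rfl
    intro s _
    rw [map_smul, smul_eq_mul]
  let φ : X.S (n + 2) → StrongDual 𝕜 (L1 𝕜 (X.S (n + 2))) := fun t =>
    lp.evalCLM 𝕜 (fun _ : X.S (n + 2) => 𝕜) 1 t
  have hφ : ∀ t z, φ t z = z t := fun t z => rfl
  let u : X.S (n + 2) → L1 𝕜 (X.S (n + 2)) := fun t => vec fun t' => (X.u t' t : 𝕜)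
  have hdel : ∀ t s, ‖X.bd 𝕜 (n + 1) (u t) s‖ ≤ X.M s := by
    intro t s
    have : X.bd 𝕜 (n + 1) (u t) s = ((∑ t', X.dd (n + 1) s t' * X.u t' t : ℝ) : 𝕜) := by
      rw [Cx.bd, matOp_apply]
      push_cast
      rfl
    rw [this, RCLike.norm_ofReal]
    exact X.hM s t
  let σ' : StrongDual 𝕜 (L1 𝕜 (X.S (n + 2))) →L[𝕜] StrongDual 𝕜 (L1 𝕜 (X.S (n + 1))) := σ
  have h1 : ∀ t, (1 : ℝ) ≤ ∑ s, X.M s * ‖σ' (φ t) (e s)‖ := by
    intro t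
    have e1 : (σ' (φ t)) (X.bd 𝕜 (n + 1) (u t)) = φ t (u t) := by
      have := hσ (φ t)
      exact congrArg (fun ψ : StrongDual 𝕜 (L1 𝕜 (X.S (n + 2))) => ψ (u t)) this
    have e2 : φ t (u t) = 1 := by
      rw [hφ]
      simp [u, X.u_diag]
    calc (1 : ℝ) = ‖(σ' (φ t)) (X.bd 𝕜 (n + 1) (u t))‖ := by rw [e1, e2, norm_one]
      _ = ‖∑ s, X.bd 𝕜 (n + 1) (u t) s * σ' (φ t) (e s)‖ := by rw [hexp]
      _ ≤ ∑ s, ‖X.bd 𝕜 (n + 1) (u t) s * σ' (φ t) (e s)‖ := norm_sum_le _ _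
      _ ≤ ∑ s, X.M s * ‖σ' (φ t) (e s)‖ := by
          apply Finset.sum_le_sum
          intro s _
          rw [norm_mul]
          exact mul_le_mul_of_nonneg_right (hdel t s) (norm_nonneg _)
  have h2 : ∀ s, ∑ t, ‖σ' (φ t) (e s)‖ ≤ ‖σ‖ := by
    intro s
    choose c hc1 hc2 using fun t => exists_phase (σ' (φ t) (e s))
    have e1 : ((∑ t, ‖σ' (φ t) (e s)‖ : ℝ) : 𝕜) = σ' (∑ t, c t • φ t) (e s) := by
      rw [map_sum]
      simp only [map_smul, _root_.sum_apply, _root_.smul_apply, smul_eq_mul, hc2]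
      push_cast
      rfl
    have e2 : ‖∑ t, c t • φ t‖ ≤ 1 := by
      apply ContinuousLinearMap.opNorm_le_bound _ zero_le_one
      intro z
      rw [_root_.sum_apply, one_mul, l1_norm_eq]
      refine (norm_sum_le _ _).trans (Finset.sum_le_sum fun t _ => ?_)
      rw [_root_.smul_apply, norm_smul, hφ]
      calc ‖c t‖ * ‖z t‖ ≤ 1 * ‖z t‖ := mul_le_mul_of_nonneg_right (hc1 t) (norm_nonneg _)
        _ = _ := one_mul _
    have e3 : 0 ≤ ∑ t, ‖σ' (φ t) (e s)‖ := Finset.sum_nonneg fun _ _ => norm_nonneg _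
    calc ∑ t, ‖σ' (φ t) (e s)‖ = ‖((∑ t, ‖σ' (φ t) (e s)‖ : ℝ) : 𝕜)‖ := by
          rw [RCLike.norm_ofReal, abs_of_nonneg e3]
      _ = ‖σ' (∑ t, c t • φ t) (e s)‖ := by rw [e1]
      _ ≤ ‖σ' (∑ t, c t • φ t)‖ * ‖e s‖ := ContinuousLinearMap.le_opNorm _ _
      _ = ‖σ' (∑ t, c t • φ t)‖ := by rw [he, mul_one]
      _ ≤ ‖σ'‖ * ‖∑ t, c t • φ t‖ := ContinuousLinearMap.le_opNorm _ _
      _ ≤ ‖σ'‖ * 1 := by gcongr
      _ = ‖σ‖ := mul_one _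
  have hM0 : ∀ s, 0 ≤ X.M s := fun s => by
    obtain ⟨t⟩ := X.ne
    exact (norm_nonneg _).trans (hdel t s)
  have h3 : (Fintype.card (X.S (n + 2)) : ℝ) ≤ ‖σ‖ * (η * Fintype.card (X.S (n + 2))) := by
    calc (Fintype.card (X.S (n + 2)) : ℝ) = ∑ _t : X.S (n + 2), (1 : ℝ) := by simp
      _ ≤ ∑ t, ∑ s, X.M s * ‖σ' (φ t) (e s)‖ := Finset.sum_le_sum fun t _ => h1 t
      _ = ∑ s, X.M s * ∑ t, ‖σ' (φ t) (e s)‖ := by
          rw [Finset.sum_comm]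
          simp only [Finset.mul_sum]
      _ ≤ ∑ s, X.M s * ‖σ‖ :=
          Finset.sum_le_sum fun s _ => mul_le_mul_of_nonneg_left (h2 s) (hM0 s)
      _ = ‖σ‖ * ∑ s, X.M s := by rw [← Finset.sum_mul, mul_comm]
      _ ≤ _ := mul_le_mul_of_nonneg_left X.sum_M (norm_nonneg σ)
  have hne : Nonempty (X.S (n + 2)) := X.ne
  have hc : (0 : ℝ) < Fintype.card (X.S (n + 2)) := by exact_mod_cast Fintype.card_pos
  have h4 : (1 : ℝ) * Fintype.card (X.S (n + 2)) ≤ (‖σ‖ * η) * Fintype.card (X.S (n + 2)) := by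
    linarith
  exact le_of_mul_le_mul_right h4 hc

end blk

end

end Pool.Agent.H52
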