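import Pool.Agent.H52.Gap

/-!
The certificate: a kernel `u` on `G × G` which is one on the diagonal, bounded by one, and whose
columns are almost annihilated by the map `x ↦ (P_ω x - x/4)_ω`, uniformly.
-/

namespace Pool.Agent.H52

open Finset

noncomputable section

section cert

variable {p D : ℕ} [Fact p.Prime]

/-- moment map -/
def Phi (p D : ℕ) [NeZero p] (g : ZMod p → ZMod p) : Fin D → ZMod p :=
  fun i => ∑ a, g a * a ^ (i : ℕ)

lemma Phi_add (g h : ZMod p → ZMod p) : Phi p D (g + h) = Phi p D g + Phi p D h := by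
  funext i
  simp [Phi, add_mul, Finset.sum_add_distrib]

lemma Phi_sub (g h : ZMod p → ZMod p) : Phi p D (g - h) = Phi p D g - Phi p D h := by
  funext i
  simp [Phi, sub_mul, Finset.sum_sub_distrib]

lemma Phi_single (t : ZMod p × ZMod p) : Phi p D (Pi.single t.1 t.2) = s p D t := by
  funext i
  simp only [Phi, s, Pi.single_apply]
  rw [Finset.sum_eq_single t.1]
  · simp
  · intro b _ hb
    simp [hb]
  · simp

lemma eq_zero_of_Phi {g : ZMod p → ZMod p} (hg : hammingNorm g ≤ D) (h0 : Phi p D g = 0) :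
    g = 0 := by
  classical
  by_contra hne
  set S : Finset (ZMod p) := univ.filter (fun a => g a ≠ 0) with hS
  have hcard : S.card ≤ D := hg
  let e := S.equivFin
  let a : Fin S.card → ZMod p := fun i => (e.symm i : ZMod p)
  have ha : Function.Injective a := fun i j hij => e.symm.injective (Subtype.ext hij)
  let b : Fin S.card → ZMod p := fun i => g (a i)
  have h1 : Matrix.vecMul b (Matrix.vandermonde a) = 0 := by
    funext j
    have h2 : (∑ i, b i * a i ^ (j : ℕ)) = 0 := by
      have h3 : Phi p D g ⟨j, j.2.trans_le hcard⟩ = 0 := by rw [h0]; rfl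
      rw [← h3]
      simp only [Phi]
      rw [← Finset.sum_subset (Finset.subset_univ S)]
      · rw [← Finset.sum_coe_sort S]
        rw [← Equiv.sum_comp e.symm]
      · intro x _ hx
        simp only [hS, mem_filter, mem_univ, true_and, not_not] at hx
        simp [hx]
    simpa [Matrix.vecMul, dotProduct, Matrix.vandermonde] using h2
  have h2 : Function.Injective (fun b : Fin S.card → ZMod p =>
      Matrix.vecMul b (Matrix.vandermonde a)) := (bij_of_inj ha).1
  have h3 : b = 0 := h2 (by simpa using h1)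
  have h4 : ∃ x, g x ≠ 0 := by
    by_contra hc
    push Not at hc
    exact hne (funext hc)
  obtain ⟨x, hx⟩ := h4
  have hxS : x ∈ S := by simp [hS, hx]
  have h5 : b (e ⟨x, hxS⟩) = g x := by simp [b, a]
  rw [h3] at h5
  exact hx h5.symm

lemma hammingNorm_sub_le (g h : ZMod p → ZMod p) :
    hammingNorm (g - h) ≤ hammingNorm g + hammingNorm h := by
  have := hammingDist_triangle h 0 g
  rw [hammingDist_zero_right, hammingDist_zero_left, hammingDist_eq_hammingNorm,
    neg_add_eq_sub] at this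
  omega

lemma Phi_inj {g h : ZMod p → ZMod p} (hgh : hammingNorm g + hammingNorm h ≤ D)
    (he : Phi p D g = Phi p D h) : g = h := by
  have h1 : hammingNorm (g - h) ≤ D := (hammingNorm_sub_le g h).trans hgh
  have h2 : Phi p D (g - h) = 0 := by rw [Phi_sub, he, sub_self]
  exact sub_eq_zero.1 (eq_zero_of_Phi h1 h2)

open Classical in
/-- the kernel function -/
def F (p D R : ℕ) [NeZero p] (y : Fin D → ZMod p) : ℝ :=
  if h : ∃ g : ZMod p → ZMod p, hammingNorm g ≤ R ∧ Phi p D g = y then
    (1 / 4 : ℝ) ^ hammingNorm h.choose else 0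

lemma F_of {R : ℕ} (hR : 2 * R + 2 ≤ D) {g : ZMod p → ZMod p} (hg : hammingNorm g ≤ R) :
    F p D R (Phi p D g) = (1 / 4 : ℝ) ^ hammingNorm g := by
  have h : ∃ g' : ZMod p → ZMod p, hammingNorm g' ≤ R ∧ Phi p D g' = Phi p D g := ⟨g, hg, rfl⟩
  rw [F, dif_pos h]
  have h1 := h.choose_spec
  have h2 : h.choose = g := Phi_inj (by omega) h1.2
  rw [h2]

lemma F_zero {R : ℕ} {y : Fin D → ZMod p}
    (h : ¬ ∃ g : ZMod p → ZMod p, hammingNorm g ≤ R ∧ Phi p D g = y) : F p D R y = 0 := by
  rw [F, dif_neg h]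

lemma F_nonneg (R : ℕ) (y : Fin D → ZMod p) : 0 ≤ F p D R y := by
  unfold F
  split_ifs <;> positivity

lemma F_le_one (R : ℕ) (y : Fin D → ZMod p) : F p D R y ≤ 1 := by
  unfold F
  split_ifs
  · exact pow_le_one₀ (by norm_num) (by norm_num)
  · norm_num

lemma F_at_zero {R : ℕ} (hR : 2 * R + 2 ≤ D) : F p D R (0 : Fin D → ZMod p) = 1 := by
  have h := F_of (p := p) hR (g := 0) (by simp)
  have h0 : Phi p D (0 : ZMod p → ZMod p) = 0 := by funext i; simp [Phi]
  rw [h0] at h
  simpa using h

lemma abs_F_sub_le (R : ℕ) (y z : Fin D → ZMod p) : |F p D R y - F p D R z / 4| ≤ 1 := by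
  have h1 := F_nonneg (p := p) R y
  have h2 := F_nonneg (p := p) R z
  have h3 := F_le_one (p := p) R y
  have h4 := F_le_one (p := p) R z
  rw [abs_le]
  constructor <;> linarith

/-- norm of a function modified at a new point -/
lemma hammingNorm_add_single {g : ZMod p → ZMod p} {t : ZMod p × ZMod p} (hg : g t.1 = 0)
    (ht : t.2 ≠ 0) : hammingNorm (g + Pi.single t.1 t.2) = hammingNorm g + 1 := by
  classical
  unfold hammingNorm
  have : (univ.filter fun i => (g + Pi.single t.1 t.2 : ZMod p → ZMod p) i ≠ 0) =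
      insert t.1 (univ.filter fun i => g i ≠ 0) := by
    ext i
    simp only [mem_filter, mem_univ, true_and, mem_insert, Pi.add_apply, Pi.single_apply]
    by_cases hi : i = t.1
    · simp [hi, hg, ht]
    · simp [hi]
  rw [this, card_insert_of_notMem]
  simp [hg]

lemma hammingNorm_single_le (t : ZMod p × ZMod p) :
    hammingNorm (Pi.single t.1 t.2 : ZMod p → ZMod p) ≤ 1 := by
  classical
  unfold hammingNorm
  have : (univ.filter fun i => (Pi.single t.1 t.2 : ZMod p → ZMod p) i ≠ 0) ⊆ {t.1} := by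
    intro i
    simp only [mem_filter, mem_univ, true_and, mem_singleton, Pi.single_apply]
    intro h
    by_contra hc
    simp [hc] at h
  calc _ ≤ ({t.1} : Finset (ZMod p)).card := card_le_card this
    _ = 1 := by simp

/-- The individual term away from the support. -/
lemma F_step {R : ℕ} (hR : 2 * R + 2 ≤ D) {g : ZMod p → ZMod p} (hg : hammingNorm g ≤ R + 1)
    {t : ZMod p × ZMod p} (hgt : g t.1 = 0) (ht : t.2 ≠ 0) :
    |F p D R (Phi p D g + s p D t) - F p D R (Phi p D g) / 4| ≤ (1 / 4 : ℝ) ^ (R + 1) := by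
  have h1 : Phi p D g + s p D t = Phi p D (g + Pi.single t.1 t.2) := by
    rw [Phi_add, Phi_single]
  have h2 := hammingNorm_add_single hgt ht
  rw [h1]
  rcases Nat.lt_or_ge (hammingNorm g) R with h | h
  · rw [F_of hR (by omega), F_of hR (by omega), h2]
    have : (1 / 4 : ℝ) ^ (hammingNorm g + 1) - (1 / 4) ^ hammingNorm g / 4 = 0 := by
      rw [pow_succ]
      ring
    rw [this, abs_zero]
    positivity
  · have h3 : F p D R (Phi p D (g + Pi.single t.1 t.2)) = 0 := by
      apply F_zero
      rintro ⟨g', hg', he⟩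
      have h6 : g' = g + Pi.single t.1 t.2 := Phi_inj (by omega) he
      rw [h6] at hg'
      omega
    rcases h.eq_or_lt with h | h
    · rw [h3, F_of hR (by omega), ← h, zero_sub, abs_neg, abs_of_nonneg (by positivity), pow_succ]
      apply le_of_eq
      ring
    · have h4 : F p D R (Phi p D g) = 0 := by
        apply F_zero
        rintro ⟨g', hg', he⟩
        have h6 : g' = g := Phi_inj (by omega) he
        rw [h6] at hg'
        omega
      rw [h3, h4]
      simp

/-- The certificate bound for a good sample. -/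
lemma P_F_le {R m : ℕ} (hm : 0 < m) (hR : 2 * R + 2 ≤ D) (ω : Fin m → ZMod p × ZMod p)
    (h1 : Function.Injective fun l => (ω l).1) (h2 : ∀ l, (ω l).2 ≠ 0) (y : Fin D → ZMod p) :
    |(m : ℝ)⁻¹ * ∑ l, F p D R (y + s p D (ω l)) - F p D R y / 4| ≤
      (1 / 4 : ℝ) ^ (R + 1) + (R + 1) / m := by
  classical
  have hm' : (0 : ℝ) < m := by exact_mod_cast hm
  have e : (m : ℝ)⁻¹ * ∑ l, F p D R (y + s p D (ω l)) - F p D R y / 4 =
      (m : ℝ)⁻¹ * ∑ l, (F p D R (y + s p D (ω l)) - F p D R y / 4) := by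
    rw [Finset.sum_sub_distrib, mul_sub]
    simp only [sum_const, card_univ, Fintype.card_fin, nsmul_eq_mul]
    field_simp
  rw [e, abs_mul, abs_of_nonneg (inv_nonneg.2 hm'.le)]
  by_cases hy : ∃ g : ZMod p → ZMod p, hammingNorm g ≤ R + 1 ∧ Phi p D g = y
  · obtain ⟨g, hg, rfl⟩ := hy
    have h3 : ∀ l, |F p D R (Phi p D g + s p D (ω l)) - F p D R (Phi p D g) / 4| ≤
        (1 / 4 : ℝ) ^ (R + 1) + (if g (ω l).1 ≠ 0 then 1 else 0) := by
      intro l
      by_cases hl : g (ω l).1 = 0
      · simpa [hl] using F_step hR hg hl (h2 l)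
      · rw [if_pos hl]
        have := abs_F_sub_le (p := p) R (Phi p D g + s p D (ω l)) (Phi p D g)
        have h4 : (0 : ℝ) ≤ (1 / 4 : ℝ) ^ (R + 1) := by positivity
        linarith
    have h4 : (∑ l : Fin m, (if g (ω l).1 ≠ 0 then (1 : ℝ) else 0)) ≤ R + 1 := by
      rw [Finset.sum_ite, sum_const, sum_const_zero, add_zero, nsmul_eq_mul, mul_one]
      have : (univ.filter fun l : Fin m => g (ω l).1 ≠ 0).card ≤
          (univ.filter fun a : ZMod p => g a ≠ 0).card := by
        apply card_le_card_of_injOn (fun l => (ω l).1)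
        · intro l hl
          simpa using hl
        · intro l _ l' _ hll
          exact h1 hll
      calc ((univ.filter fun l : Fin m => g (ω l).1 ≠ 0).card : ℝ) ≤ (R + 1 : ℕ) := by
            exact_mod_cast this.trans hg
        _ = R + 1 := by push_cast; ring
    calc (m : ℝ)⁻¹ * |∑ l, (F p D R (Phi p D g + s p D (ω l)) - F p D R (Phi p D g) / 4)|
        ≤ (m : ℝ)⁻¹ * ∑ l : Fin m, ((1 / 4 : ℝ) ^ (R + 1) + (if g (ω l).1 ≠ 0 then 1 else 0)) := by
          gcongr
          exact (Finset.abs_sum_le_sum_abs _ _).trans (Finset.sum_le_sum fun l _ => h3 l)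
      _ ≤ (m : ℝ)⁻¹ * (m * (1 / 4 : ℝ) ^ (R + 1) + (R + 1)) := by
          rw [Finset.sum_add_distrib]
          gcongr
          simp
      _ = _ := by field_simp
  · have h3 : ∀ l, F p D R (y + s p D (ω l)) - F p D R y / 4 = 0 := by
      intro l
      have h4 : F p D R y = 0 := by
        apply F_zero
        rintro ⟨g, hg, he⟩
        exact hy ⟨g, by omega, he⟩
      have h5 : F p D R (y + s p D (ω l)) = 0 := by
        apply F_zero
        rintro ⟨g, hg, he⟩
        refine hy ⟨g - Pi.single (ω l).1 (ω l).2, ?_, ?_⟩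
        · have := hammingNorm_sub_le g (Pi.single (ω l).1 (ω l).2)
          have := hammingNorm_single_le (ω l)
          omega
        · rw [Phi_sub, Phi_single, he, add_sub_cancel_right]
      rw [h4, h5]
      norm_num
    simp only [h3, sum_const_zero, abs_zero, mul_zero]
    positivity

open Classical in
/-- indicator of bad samples -/
def bad {m : ℕ} (ω : Fin m → ZMod p × ZMod p) : ℝ :=
  if (Function.Injective fun l => (ω l).1) ∧ ∀ l, (ω l).2 ≠ 0 then 0 else 1

lemma bad_nonneg {m : ℕ} (ω : Fin m → ZMod p × ZMod p) : 0 ≤ bad ω := by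
  unfold bad
  split_ifs <;> norm_num

lemma P_F_le' {R m : ℕ} (hm : 0 < m) (hR : 2 * R + 2 ≤ D) (ω : Fin m → ZMod p × ZMod p)
    (y : Fin D → ZMod p) :
    |(m : ℝ)⁻¹ * ∑ l, F p D R (y + s p D (ω l)) - F p D R y / 4| ≤
      (1 / 4 : ℝ) ^ (R + 1) + (R + 1) / m + bad ω := by
  classical
  by_cases hb : (Function.Injective fun l => (ω l).1) ∧ ∀ l, (ω l).2 ≠ 0
  · have := P_F_le hm hR ω hb.1 hb.2 y
    rw [bad, if_pos hb, add_zero]
    exact this
  · rw [bad, if_neg hb]
    have hm' : (0 : ℝ) < m := by exact_mod_cast hm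
    have e : (m : ℝ)⁻¹ * ∑ l, F p D R (y + s p D (ω l)) - F p D R y / 4 =
        (m : ℝ)⁻¹ * ∑ l, (F p D R (y + s p D (ω l)) - F p D R y / 4) := by
      rw [Finset.sum_sub_distrib, mul_sub]
      simp only [sum_const, card_univ, Fintype.card_fin, nsmul_eq_mul]
      field_simp
    rw [e, abs_mul, abs_of_nonneg (inv_nonneg.2 hm'.le)]
    calc (m : ℝ)⁻¹ * |∑ l, (F p D R (y + s p D (ω l)) - F p D R y / 4)|
        ≤ (m : ℝ)⁻¹ * ∑ _l : Fin m, (1 : ℝ) := by
          gcongr
          exact (Finset.abs_sum_le_sum_abs _ _).trans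
            (Finset.sum_le_sum fun l _ => abs_F_sub_le R _ _)
      _ = 1 := by
          simp
          field_simp
      _ ≤ _ := by
          have h1 : (0 : ℝ) ≤ (1 / 4 : ℝ) ^ (R + 1) := by positivity
          have h2 : (0 : ℝ) ≤ (R + 1) / m := by positivity
          linarith

lemma avg_bad (m : ℕ) :
    avg (fun ω : Fin m → ZMod p × ZMod p => bad ω) ≤ ((m : ℝ) ^ 2 + m) / p := by
  classical
  have h1 : ∀ ω : Fin m → ZMod p × ZMod p, bad ω ≤
      nonInj (fun l => (ω l).1) + ∑ l, (if (ω l).2 = 0 then (1 : ℝ) else 0) := by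
    intro ω
    have hn := nonInj_nonneg (fun l => (ω l).1)
    have hs : 0 ≤ ∑ l, (if (ω l).2 = 0 then (1 : ℝ) else 0) :=
      Finset.sum_nonneg fun l _ => by positivity
    unfold bad
    split_ifs with h
    · positivity
    · rw [not_and_or] at h
      rcases h with h | h
      · have : nonInj (fun l => (ω l).1) = 1 := by rw [nonInj, if_neg h]
        linarith
      · push Not at h
        obtain ⟨l, hl⟩ := h
        have : (1 : ℝ) ≤ ∑ l, (if (ω l).2 = 0 then (1 : ℝ) else 0) := by
          calc (1 : ℝ) = if (ω l).2 = 0 then (1 : ℝ) else 0 := by rw [if_pos hl]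
            _ ≤ _ := Finset.single_le_sum (f := fun l => if (ω l).2 = 0 then (1 : ℝ) else 0)
                (fun j _ => by positivity) (Finset.mem_univ l)
        linarith
  have h2 : avg (fun ω : Fin m → ZMod p × ZMod p => nonInj (fun l => (ω l).1)) ≤
      (m : ℝ) ^ 2 / p := by
    rw [← avg_equiv (Equiv.arrowProdEquivProdArrow (Fin m) (fun _ => ZMod p)
      (fun _ => ZMod p)).symm]
    have h3 := avg_prod (ι := Fin m → ZMod p) (κ := Fin m → ZMod p) (fun a _ => nonInj a)
    simp only [avg_const] at h3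
    have h4 := avg_nonInj (ι := Fin m) (T := ZMod p)
    simp only [ZMod.card, Fintype.card_fin] at h4
    exact h3.le.trans h4
  have h3 : ∀ l : Fin m, avg (fun ω : Fin m → ZMod p × ZMod p =>
      (if (ω l).2 = 0 then (1 : ℝ) else 0)) = 1 / p := by
    intro l
    rw [avg_coord (T := ZMod p × ZMod p) l (fun t => if t.2 = 0 then (1 : ℝ) else 0)]
    have h4 := avg_prod (ι := ZMod p) (κ := ZMod p) (fun _ b => if b = 0 then (1 : ℝ) else 0)
    refine h4.trans ?_
    rw [avg_const]
    have h5 := avg_ind_eq (0 : ZMod p)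
    simp only [eq_comm (a := (0 : ZMod p)), ZMod.card] at h5
    exact h5
  calc avg (fun ω : Fin m → ZMod p × ZMod p => bad ω)
      ≤ avg (fun ω : Fin m → ZMod p × ZMod p =>
        nonInj (fun l => (ω l).1) + ∑ l, (if (ω l).2 = 0 then (1 : ℝ) else 0)) := avg_mono h1
    _ = avg (fun ω : Fin m → ZMod p × ZMod p => nonInj (fun l => (ω l).1)) +
        ∑ l : Fin m, avg (fun ω : Fin m → ZMod p × ZMod p =>
          (if (ω l).2 = 0 then (1 : ℝ) else 0)) := by rw [avg_add, avg_sum]
    _ ≤ (m : ℝ) ^ 2 / p + ∑ _l : Fin m, 1 / (p : ℝ) := by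
        simp only [h3]
        gcongr
    _ = _ := by
        simp
        ring

end cert

end

end Pool.Agent.H52
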