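import Mathlib

/-!
The comparison theorem for exact complexes of normed spaces, with norm control.
-/

namespace Pool.Agent.H52

noncomputable section

variable {𝕜 : Type*} [NontriviallyNormedField 𝕜]

/-- Operators from the source of `d` into `Q` which vanish on the kernel of `d` factor through `d`,
with norm control. -/
def ExtAlong {V W : Type*} [NormedAddCommGroup V] [NormedSpace 𝕜 V] [NormedAddCommGroup W]
    [NormedSpace 𝕜 W] (d : V →L[𝕜] W) (Q : Type*) [NormedAddCommGroup Q] [NormedSpace 𝕜 Q]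
    (c : ℝ) : Prop :=
  ∀ T : V →L[𝕜] Q, (∀ x, d x = 0 → T x = 0) →
    ∃ T' : W →L[𝕜] Q, (∀ x, T' (d x) = T x) ∧ ‖T'‖ ≤ c * ‖T‖

/-- An exact complex `0 → C 0 → C 1 → ⋯`. -/
structure REx (C : ℕ → Type*) [∀ j, NormedAddCommGroup (C j)] [∀ j, NormedSpace 𝕜 (C j)]
    (d : ∀ j, C j →L[𝕜] C (j + 1)) : Prop where
  inj : ∀ x, d 0 x = 0 → x = 0
  comp : ∀ j x, d (j + 1) (d j x) = 0
  ex : ∀ j x, d (j + 1) x = 0 → ∃ y, d j y = x

lemma exists_depSeq {F : ℕ → Type*} (R : ∀ j, F j → F (j + 1) → Prop) (f0 : F 0)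
    (h : ∀ j (f : F j), ∃ f', R j f f') :
    ∃ f : ∀ j, F j, f 0 = f0 ∧ ∀ j, R j (f j) (f (j + 1)) := by
  choose g hg using h
  exact ⟨fun j => Nat.rec f0 (fun j f => g j f) j, rfl, fun j => hg _ _⟩

section

variable {C C' : ℕ → Type*} [∀ j, NormedAddCommGroup (C j)] [∀ j, NormedSpace 𝕜 (C j)]
  [∀ j, NormedAddCommGroup (C' j)] [∀ j, NormedSpace 𝕜 (C' j)]
  {d : ∀ j, C j →L[𝕜] C (j + 1)} {d' : ∀ j, C' j →L[𝕜] C' (j + 1)} {M : ℝ}

/-- Lifting to chain maps. -/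
lemma exists_chain (hM : 0 ≤ M) (hC : REx C d) (hC' : REx C' d') (φ : C 0 →L[𝕜] C' 0)
    (hφ : ‖φ‖ ≤ M) (hd' : ∀ j, ‖d' j‖ ≤ M) (ext : ∀ j, ExtAlong (d j) (C' (j + 1)) M) :
    ∃ f : ∀ j, C j →L[𝕜] C' j, f 0 = φ ∧ (∀ j x, f (j + 1) (d j x) = d' j (f j x)) ∧
      ∀ j, ‖f j‖ ≤ M ^ (2 * j + 1) := by
  let F : ℕ → Type _ := fun j => {f : C j →L[𝕜] C' j //
    (∀ x, d j x = 0 → d' j (f x) = 0) ∧ ‖f‖ ≤ M ^ (2 * j + 1)}
  obtain ⟨f, hf0, hf⟩ := exists_depSeq (F := F)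
    (fun j f f' => ∀ x, f'.1 (d j x) = d' j (f.1 x))
    ⟨φ, fun x hx => by rw [hC.inj x hx]; simp, by simpa using hφ⟩ (by
      rintro j ⟨f, hf1, hf2⟩
      obtain ⟨T', hT1, hT2⟩ := ext j ((d' j).comp f) (fun x hx => hf1 x hx)
      refine ⟨⟨T', ?_, ?_⟩, fun x => hT1 x⟩
      · intro x hx
        obtain ⟨y, rfl⟩ := hC.ex j x hx
        rw [hT1]
        exact hC'.comp j (f y)
      · refine hT2.trans ?_
        calc M * ‖(d' j).comp f‖ ≤ M * (M * M ^ (2 * j + 1)) := by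
              gcongr
              refine (ContinuousLinearMap.opNorm_comp_le _ _).trans ?_
              have := hd' j
              gcongr
          _ = M ^ (2 * (j + 1) + 1) := by ring)
  refine ⟨fun j => (f j).1, congrArg Subtype.val hf0, hf, fun j => (f j).2.2⟩

/-- the bound in the homotopy lemma -/
def Hb (M : ℝ) : ℕ → ℝ
  | 0 => 0
  | (j + 1) => M * ((M ^ (2 * (j + 1) + 1)) ^ 2 + 1 + M * Hb M j)

lemma Hb_nonneg (hM : 0 ≤ M) : ∀ j, 0 ≤ Hb M j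
  | 0 => le_refl _
  | (j + 1) => by
    have := Hb_nonneg hM j
    unfold Hb
    positivity

/-- A chain map which is zero in degree zero is homotopic to zero. -/
lemma exists_homotopy (hM : 0 ≤ M) (hC : REx C d) (φ : ∀ j, C j →L[𝕜] C j)
    (hφ0 : φ 0 = 0) (hφd : ∀ j x, φ (j + 1) (d j x) = d j (φ j x))
    (hφ : ∀ j, ‖φ j‖ ≤ (M ^ (2 * j + 1)) ^ 2 + 1) (hd : ∀ j, ‖d j‖ ≤ M)
    (ext : ∀ j, ExtAlong (d (j + 1)) (C (j + 1)) M) :
    ∃ h : ∀ j, C (j + 1) →L[𝕜] C j, (∀ j x, φ (j + 1) x = h (j + 1) (d (j + 1) x) +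
      d j (h j x)) ∧ ∀ j, ‖h j‖ ≤ Hb M j := by
  let F : ℕ → Type _ := fun j => {h : C (j + 1) →L[𝕜] C j //
    (∀ x, d (j + 1) x = 0 → φ (j + 1) x = d j (h x)) ∧ ‖h‖ ≤ Hb M j}
  obtain ⟨h, hh0, hh⟩ := exists_depSeq (F := F)
    (fun j h h' => ∀ x, φ (j + 1) x = h'.1 (d (j + 1) x) + d j (h.1 x))
    ⟨0, fun x hx => by
      obtain ⟨y, rfl⟩ := hC.ex 0 x hx
      rw [hφd, hφ0]
      simp, by simp [Hb]⟩ (by
      rintro j ⟨h, hh1, hh2⟩
      obtain ⟨T', hT1, hT2⟩ := ext j (φ (j + 1) - (d j).comp h) (fun x hx => by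
        simp only [_root_.sub_apply, ContinuousLinearMap.comp_apply]
        rw [hh1 x hx, sub_self])
      refine ⟨⟨T', ?_, ?_⟩, ?_⟩
      · intro x hx
        obtain ⟨y, rfl⟩ := hC.ex (j + 1) x hx
        rw [hT1, hφd]
        simp [hC.comp]
      · refine hT2.trans ?_
        have h1 := hφ (j + 1)
        have h2 := hd j
        have h3 := Hb_nonneg hM j
        calc M * ‖φ (j + 1) - (d j).comp h‖
            ≤ M * (‖φ (j + 1)‖ + ‖(d j).comp h‖) := by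
              gcongr
              exact norm_sub_le _ _
          _ ≤ M * (((M ^ (2 * (j + 1) + 1)) ^ 2 + 1) + M * Hb M j) := by
              gcongr
              refine (ContinuousLinearMap.opNorm_comp_le _ _).trans ?_
              gcongr
          _ = Hb M (j + 1) := rfl
      · intro x
        simp only
        rw [hT1]
        simp)
  exact ⟨fun j => (h j).1, hh, fun j => (h j).2.2⟩

/-- The comparison theorem. -/
theorem comparison (hM : 0 ≤ M) (hC : REx C d) (hC' : REx C' d')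
    (i : C 0 →L[𝕜] C' 0) (r : C' 0 →L[𝕜] C 0) (hri : ∀ x, r (i x) = x)
    (hi : ‖i‖ ≤ M) (hr : ‖r‖ ≤ M) (hd : ∀ j, ‖d j‖ ≤ M) (hd' : ∀ j, ‖d' j‖ ≤ M)
    (ext1 : ∀ j, ExtAlong (d j) (C' (j + 1)) M) (ext2 : ∀ j, ExtAlong (d' j) (C (j + 1)) M)
    (ext3 : ∀ j, ExtAlong (d (j + 1)) (C (j + 1)) M) (N : ℕ)
    (h1 : ∀ x : C' (N + 1), x = 0) (h2 : ∀ x : C (N + 2), x = 0) :
    ∃ σ : C (N + 1) →L[𝕜] C N, (∀ x, d N (σ x) = x) ∧ ‖σ‖ ≤ Hb M N := by
  obtain ⟨f, hf0, hf1, hf2⟩ := exists_chain hM hC hC' i hi hd' ext1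
  obtain ⟨g, hg0, hg1, hg2⟩ := exists_chain hM hC' hC r hr hd ext2
  obtain ⟨h, hh1, hh2⟩ := exists_homotopy hM hC
    (fun j => (g j).comp (f j) - ContinuousLinearMap.id 𝕜 (C j))
    (by
      ext x
      simp [hg0, hf0, hri])
    (by
      intro j x
      simp [hf1, hg1])
    (by
      intro j
      refine (norm_sub_le _ _).trans ?_
      refine add_le_add ?_ ContinuousLinearMap.norm_id_le
      refine (ContinuousLinearMap.opNorm_comp_le _ _).trans ?_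
      rw [sq]
      have := hf2 j
      have := hg2 j
      gcongr) hd ext3
  refine ⟨- h N, ?_, by simpa using hh2 N⟩
  intro x
  have e := hh1 N x
  simp only [_root_.sub_apply, ContinuousLinearMap.comp_apply,
    ContinuousLinearMap.id_apply] at e
  rw [h1 (f (N + 1) x), map_zero, h2 (d (N + 1) x), map_zero, zero_add, zero_sub] at e
  rw [_root_.neg_apply, map_neg, ← e, neg_neg]

end

end

end Pool.Agent.H52
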