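import Pool.Agent.H52.KL

/-!
Finite complexes of `ℓ¹` spaces, built by iterated mapping cones.
-/

namespace Pool.Agent.H52

open Finset Matrix

noncomputable section

/-- the `ℓ¹` norm of a real function on a finite type -/
def l1 {S : Type*} [Fintype S] (x : S → ℝ) : ℝ := ∑ s, |x s|

section l1

variable {S T : Type*} [Fintype S] [Fintype T]

lemma l1_nonneg (x : S → ℝ) : 0 ≤ l1 x := Finset.sum_nonneg fun _ _ => abs_nonneg _

lemma l1_add (x y : S → ℝ) : l1 (x + y) ≤ l1 x + l1 y := by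
  unfold l1
  rw [← Finset.sum_add_distrib]
  exact Finset.sum_le_sum fun s _ => abs_add_le _ _

lemma l1_neg (x : S → ℝ) : l1 (-x) = l1 x := by
  simp [l1]

lemma l1_sub (x y : S → ℝ) : l1 (x - y) ≤ l1 x + l1 y := by
  rw [sub_eq_add_neg, ← l1_neg y]
  exact l1_add _ _

lemma l1_sum_type (z : S ⊕ T → ℝ) : l1 z = l1 (fun s => z (Sum.inl s)) +
    l1 (fun t => z (Sum.inr t)) := by
  simp [l1, Fintype.sum_sum_type]

lemma l1_prod (z : S × T → ℝ) : l1 z = ∑ a, l1 (fun t => z (a, t)) := by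
  simp [l1, Fintype.sum_prod_type]

end l1

section cone

set_option linter.unusedSectionVars false

variable {A B : Type} [Fintype A] [Fintype B] [DecidableEq A] [DecidableEq B] (J : B → A → ℝ)

variable {S0 S1 S2 S3 : Type} [Fintype S0] [Fintype S1] [Fintype S2] [Fintype S3]
  [DecidableEq S0] [DecidableEq S1] [DecidableEq S2] [DecidableEq S3]

/-- the differential of the mapping cone -/
def coneM (d0 : Matrix S0 S1 ℝ) (d1 : Matrix S1 S2 ℝ) :
    Matrix ((A × S0) ⊕ (B × S1)) ((A × S1) ⊕ (B × S2)) ℝ :=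
  Matrix.fromBlocks (Matrix.of fun r c => if r.1 = c.1 then - d0 r.2 c.2 else 0) 0
    (Matrix.of fun r c => if r.2 = c.2 then J r.1 c.1 else 0)
    (Matrix.of fun r c => if r.1 = c.1 then d1 r.2 c.2 else 0)

lemma coneM_inl (d0 : Matrix S0 S1 ℝ) (d1 : Matrix S1 S2 ℝ) (z : (A × S1) ⊕ (B × S2) → ℝ)
    (a : A) (s : S0) : (coneM J d0 d1 *ᵥ z) (Sum.inl (a, s)) =
      - (d0 *ᵥ fun t => z (Sum.inl (a, t))) s := by
  simp only [coneM, Matrix.mulVec, dotProduct, Fintype.sum_sum_type, Matrix.fromBlocks_apply₁₁,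
    Matrix.fromBlocks_apply₁₂, Matrix.zero_apply, zero_mul, Finset.sum_const_zero, add_zero,
    Fintype.sum_prod_type, Matrix.of_apply, ite_mul]
  rw [Finset.sum_eq_single a]
  · simp
  · intro b _ hb
    apply Finset.sum_eq_zero
    intro t _
    rw [if_neg (Ne.symm hb)]
  · simp

lemma coneM_inr (d0 : Matrix S0 S1 ℝ) (d1 : Matrix S1 S2 ℝ) (z : (A × S1) ⊕ (B × S2) → ℝ)
    (b : B) (s : S1) : (coneM J d0 d1 *ᵥ z) (Sum.inr (b, s)) =
      ∑ a, J b a * z (Sum.inl (a, s)) + (d1 *ᵥ fun t => z (Sum.inr (b, t))) s := by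
  simp only [coneM, Matrix.mulVec, dotProduct, Fintype.sum_sum_type, Matrix.fromBlocks_apply₂₁,
    Matrix.fromBlocks_apply₂₂, Fintype.sum_prod_type, Matrix.of_apply, ite_mul, zero_mul]
  congr 1
  · apply Finset.sum_congr rfl
    intro a _
    simp
  · rw [Finset.sum_eq_single b]
    · simp
    · intro b' _ hb
      apply Finset.sum_eq_zero
      intro t _
      rw [if_neg (Ne.symm hb)]
    · simp

lemma coneM_col {C : ℝ} (hJ : ∀ a, ∑ b, |J b a| ≤ 2)
    (d0 : Matrix S0 S1 ℝ) (d1 : Matrix S1 S2 ℝ)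
    (h0 : ∀ t, ∑ s, |d0 s t| ≤ C) (h1 : ∀ t, ∑ s, |d1 s t| ≤ C) (t : (A × S1) ⊕ (B × S2)) :
    ∑ s, |coneM J d0 d1 s t| ≤ C + 2 := by
  rcases t with ⟨a, t⟩ | ⟨b, t⟩
  · simp only [coneM, Fintype.sum_sum_type, Matrix.fromBlocks_apply₁₁,
      Matrix.fromBlocks_apply₂₁, Fintype.sum_prod_type, Matrix.of_apply]
    apply add_le_add
    · rw [Finset.sum_eq_single a]
      · simpa using h0 t
      · intro b _ hb
        apply Finset.sum_eq_zero
        intro t _
        rw [if_neg hb, abs_zero]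
      · simp
    · calc _ = ∑ b, |J b a| := by
            apply Finset.sum_congr rfl
            intro b _
            rw [Finset.sum_eq_single t]
            · simp
            · intro s _ hs
              rw [if_neg hs, abs_zero]
            · simp
        _ ≤ 2 := hJ a
  · simp only [coneM, Fintype.sum_sum_type, Matrix.fromBlocks_apply₁₂,
      Matrix.fromBlocks_apply₂₂, Fintype.sum_prod_type, Matrix.of_apply, Matrix.zero_apply,
      abs_zero, Finset.sum_const_zero, zero_add]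
    rw [Finset.sum_eq_single b]
    · simp only [if_true]
      linarith [h1 t]
    · intro b' _ hb
      apply Finset.sum_eq_zero
      intro t _
      rw [if_neg hb, abs_zero]
    · simp

/-- the `J` part -/
def Jap (α : A → S1 → ℝ) (b : B) (s : S1) : ℝ := ∑ a, J b a * α a s

lemma mulVec_Jap (d : Matrix S0 S1 ℝ) (α : A → S1 → ℝ) (b : B) :
    d *ᵥ (Jap J α b) = Jap J (fun a => d *ᵥ α a) b := by
  funext s
  simp only [Jap, Matrix.mulVec, dotProduct, Finset.mul_sum]
  rw [Finset.sum_comm]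
  apply Finset.sum_congr rfl
  intro a _
  apply Finset.sum_congr rfl
  intro t _
  ring

lemma l1_Jap_le (hJ : ∀ a, ∑ b, |J b a| ≤ 2) (α : A → S1 → ℝ) :
    ∑ b, l1 (Jap J α b) ≤ 2 * ∑ a, l1 (α a) := by
  calc ∑ b, l1 (Jap J α b) ≤ ∑ b, ∑ s, ∑ a, |J b a| * |α a s| := by
        apply Finset.sum_le_sum
        intro b _
        apply Finset.sum_le_sum
        intro s _
        unfold Jap
        refine (Finset.abs_sum_le_sum_abs _ _).trans ?_
        apply Finset.sum_le_sum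
        intro a _
        rw [abs_mul]
    _ = ∑ a, (∑ b, |J b a|) * l1 (α a) := by
        have h1 : ∀ b, ∑ s, ∑ a, |J b a| * |α a s| = ∑ a, |J b a| * l1 (α a) := by
          intro b
          rw [Finset.sum_comm]
          apply Finset.sum_congr rfl
          intro a _
          rw [l1, Finset.mul_sum]
        simp only [h1]
        rw [Finset.sum_comm]
        apply Finset.sum_congr rfl
        intro a _
        rw [Finset.sum_mul]
    _ ≤ ∑ a, 2 * l1 (α a) := by
        apply Finset.sum_le_sum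
        intro a _
        exact mul_le_mul_of_nonneg_right (hJ a) (l1_nonneg _)
    _ = _ := by rw [Finset.mul_sum]

lemma coneM_comp (d0 : Matrix S0 S1 ℝ) (d1 : Matrix S1 S2 ℝ) (d2 : Matrix S2 S3 ℝ)
    (h1 : ∀ z, d0 *ᵥ (d1 *ᵥ z) = 0) (h2 : ∀ z, d1 *ᵥ (d2 *ᵥ z) = 0)
    (z : (A × S2) ⊕ (B × S3) → ℝ) : coneM J d0 d1 *ᵥ (coneM J d1 d2 *ᵥ z) = 0 := by
  funext r
  rcases r with ⟨a, s⟩ | ⟨b, s⟩
  · rw [coneM_inl]
    have : (fun t => (coneM J d1 d2 *ᵥ z) (Sum.inl (a, t))) =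
        - (d1 *ᵥ fun t => z (Sum.inl (a, t))) := by
      funext t
      rw [coneM_inl]
      rfl
    rw [this, Matrix.mulVec_neg, h1]
    simp
  · rw [coneM_inr]
    have e1 : (fun t => (coneM J d1 d2 *ᵥ z) (Sum.inr (b, t))) =
        Jap J (fun a t => z (Sum.inl (a, t))) b + (d2 *ᵥ fun t => z (Sum.inr (b, t))) := by
      funext t
      rw [coneM_inr]
      rfl
    rw [e1, Matrix.mulVec_add, h2, add_zero, mulVec_Jap]
    simp only [coneM_inl, Jap, Pi.zero_apply]
    rw [← Finset.sum_add_distrib]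
    apply Finset.sum_eq_zero
    intro a _
    ring

/-- Exactness of the mapping cone. -/
lemma coneM_ex {C : ℝ} (hC : 0 ≤ C) (hJ : ∀ a, ∑ b, |J b a| ≤ 2)
    (d0 : Matrix S0 S1 ℝ) (d1 : Matrix S1 S2 ℝ) (d2 : Matrix S2 S3 ℝ)
    (h1 : ∀ α : A → S1 → ℝ, (∀ a, d0 *ᵥ α a = 0) → (∀ b, ∃ β, d1 *ᵥ β = Jap J α b) →
      ∀ a, ∃ γ, d1 *ᵥ γ = α a ∧ l1 γ ≤ C * l1 (α a))
    (h2 : ∀ z : S2 → ℝ, d1 *ᵥ z = 0 → ∃ w, d2 *ᵥ w = z ∧ l1 w ≤ C * l1 z)
    (z : (A × S1) ⊕ (B × S2) → ℝ) (hz : coneM J d0 d1 *ᵥ z = 0) :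
    ∃ w : (A × S2) ⊕ (B × S3) → ℝ, coneM J d1 d2 *ᵥ w = z ∧
      l1 w ≤ (C + 2 * C ^ 2) * l1 z := by
  set α : A → S1 → ℝ := fun a t => z (Sum.inl (a, t)) with hα
  set β : B → S2 → ℝ := fun b t => z (Sum.inr (b, t)) with hβ
  have hα0 : ∀ a, d0 *ᵥ α a = 0 := by
    intro a
    funext s
    have := congrFun hz (Sum.inl (a, s))
    rw [coneM_inl] at this
    simpa using this
  have hJ0 : ∀ b, Jap J α b + d1 *ᵥ β b = 0 := by
    intro b
    funext s
    have := congrFun hz (Sum.inr (b, s))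
    rw [coneM_inr] at this
    exact this
  have hJ1 : ∀ b, ∃ β, d1 *ᵥ β = Jap J α b := by
    intro b
    refine ⟨- β b, ?_⟩
    rw [Matrix.mulVec_neg, neg_eq_iff_add_eq_zero, add_comm]
    exact hJ0 b
  choose γ hγ1 hγ2 using h1 α hα0 hJ1
  -- `α' = -γ`
  have h3 : ∀ b, d1 *ᵥ (β b + Jap J γ b) = 0 := by
    intro b
    rw [Matrix.mulVec_add, mulVec_Jap]
    have : (fun a => d1 *ᵥ γ a) = α := funext hγ1
    rw [this, add_comm]
    exact hJ0 b
  choose δ hδ1 hδ2 using fun b => h2 _ (h3 b)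
  refine ⟨Sum.elim (fun q => - γ q.1 q.2) (fun q => δ q.1 q.2), ?_, ?_⟩
  · funext r
    rcases r with ⟨a, s⟩ | ⟨b, s⟩
    · rw [coneM_inl]
      have : (fun t => (Sum.elim (fun q : A × S2 => - γ q.1 q.2) (fun q : B × S3 => δ q.1 q.2))
          (Sum.inl (a, t))) = - γ a := by
        funext t
        rfl
      rw [this, Matrix.mulVec_neg, hγ1]
      simp [hα]
    · rw [coneM_inr]
      have : (fun t => (Sum.elim (fun q : A × S2 => - γ q.1 q.2) (fun q : B × S3 => δ q.1 q.2))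
          (Sum.inr (b, t))) = δ b := by
        funext t
        rfl
      rw [this, hδ1]
      simp [hβ, Jap]
  · rw [l1_sum_type, l1_prod, l1_prod, l1_sum_type z, l1_prod, l1_prod]
    simp only [Sum.elim_inl, Sum.elim_inr]
    have e1 : ∑ a, l1 (fun t => - γ a t) ≤ C * ∑ a, l1 (α a) := by
      rw [Finset.mul_sum]
      apply Finset.sum_le_sum
      intro a _
      have := l1_neg (γ a)
      rw [show (fun t => - γ a t) = - γ a from rfl, this]
      exact hγ2 a
    have e1' : ∑ a, l1 (γ a) ≤ C * ∑ a, l1 (α a) := by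
      rw [Finset.mul_sum]
      exact Finset.sum_le_sum fun a _ => hγ2 a
    have e2 : ∑ b, l1 (fun t => δ b t) ≤ C * (∑ b, l1 (β b) + 2 * ∑ a, l1 (γ a)) := by
      calc ∑ b, l1 (fun t => δ b t) ≤ ∑ b, C * (l1 (β b) + l1 (Jap J γ b)) := by
            apply Finset.sum_le_sum
            intro b _
            refine (hδ2 b).trans ?_
            gcongr
            exact l1_add _ _
        _ = C * (∑ b, l1 (β b) + ∑ b, l1 (Jap J γ b)) := by
            rw [← Finset.mul_sum, Finset.sum_add_distrib]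
        _ ≤ _ := by
            gcongr
            exact l1_Jap_le J hJ γ
    have e3 : 0 ≤ ∑ b, l1 (β b) := Finset.sum_nonneg fun b _ => l1_nonneg _
    have e4 : 0 ≤ ∑ a, l1 (α a) := Finset.sum_nonneg fun b _ => l1_nonneg _
    calc _ ≤ C * ∑ a, l1 (α a) + C * (∑ b, l1 (β b) + 2 * (C * ∑ a, l1 (α a))) := by
          apply add_le_add e1
          refine e2.trans ?_
          gcongr
      _ ≤ (C + 2 * C ^ 2) * (∑ a, l1 (α a) + ∑ b, l1 (β b)) := by
          nlinarith [mul_nonneg (sq_nonneg C) e3]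
      _ = _ := rfl

end cone

end

end Pool.Agent.H52
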