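import Pool.Agent.H52.CxJ

/-!
The induction producing the finite complexes.
-/

namespace Pool.Agent.H52

open Finset Matrix

noncomputable section

/-- A finite complex of `ℓ¹` spaces, exact with constant `C` at all places `j ≥ 2`, with `S 0`
empty, whose top differential has a certificate with parameter `η`. -/
structure Cx (N : ℕ) (C η : ℝ) where
  S : ℕ → Type
  [fS : ∀ j, Fintype (S j)]
  [dS : ∀ j, DecidableEq (S j)]
  e0 : IsEmpty (S 0)
  eN : ∀ j, N + 1 < j → IsEmpty (S j)
  ne : Nonempty (S (N + 1))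
  dd : ∀ j, Matrix (S j) (S (j + 1)) ℝ
  col : ∀ j t, ∑ s, |dd j s t| ≤ C
  comp : ∀ j z, dd j *ᵥ (dd (j + 1) *ᵥ z) = 0
  ex : ∀ j (z : S (j + 2) → ℝ), dd (j + 1) *ᵥ z = 0 →
    ∃ w, dd (j + 2) *ᵥ w = z ∧ l1 w ≤ C * l1 z
  pre : ∀ z : S 2 → ℝ, ∃ w, dd 1 *ᵥ w = dd 1 *ᵥ z ∧ l1 w ≤ C * l1 (dd 1 *ᵥ z)
  u : S (N + 1) → S (N + 1) → ℝ
  M : S N → ℝ
  u_diag : ∀ s, u s s = 1
  u_le : ∀ s t, |u s t| ≤ 1
  hM : ∀ s t, |∑ t', dd N s t' * u t' t| ≤ M s
  sum_M : ∑ s, M s ≤ η * Fintype.card (S (N + 1))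

attribute [instance] Cx.fS Cx.dS KLData.fA KLData.fB KLData.dA KLData.dB KLData.nA

section zero

/-- one point in degree one -/
def pS : ℕ → Type
  | 0 => Empty
  | 1 => Unit
  | (_ + 2) => Empty

instance pSf : ∀ j, Fintype (pS j)
  | 0 => inferInstanceAs (Fintype Empty)
  | 1 => inferInstanceAs (Fintype Unit)
  | (_ + 2) => inferInstanceAs (Fintype Empty)

instance pSd : ∀ j, DecidableEq (pS j)
  | 0 => inferInstanceAs (DecidableEq Empty)
  | 1 => inferInstanceAs (DecidableEq Unit)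
  | (_ + 2) => inferInstanceAs (DecidableEq Empty)

lemma pS_empty (j : ℕ) : IsEmpty (pS (j + 2)) := inferInstanceAs (IsEmpty Empty)

/-- the complex for `N = 0` -/
def cx0 {η : ℝ} (hη : 0 ≤ η) : Cx 0 1 η where
  S := pS
  e0 := inferInstanceAs (IsEmpty Empty)
  eN j hj := by
    obtain ⟨k, rfl⟩ : ∃ k, j = k + 2 := ⟨j - 2, by omega⟩
    exact pS_empty k
  ne := inferInstanceAs (Nonempty Unit)
  dd _ := 0
  col j t := by simp
  comp j z := by simp
  ex j z _ := by
    refine ⟨0, ?_, ?_⟩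
    · funext s
      exact (pS_empty j).elim s
    · simp only [l1, Pi.zero_apply, abs_zero, Finset.sum_const_zero, one_mul]
      positivity
  pre z := ⟨0, by simp, by simp [l1]⟩
  u _ _ := 1
  M _ := 0
  u_diag _ := rfl
  u_le _ _ := by simp
  hM s _ := by simp
  sum_M := by
    simp only [Finset.sum_const_zero]
    positivity

end zero

section step

variable {N : ℕ} {C η ηK : ℝ}

/-- the index sets of the cone -/
def cS (A B : Type) (S : ℕ → Type) : ℕ → Type
  | 0 => S 0
  | (j + 1) => (A × S j) ⊕ (B × S (j + 1))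

instance cSf (A B : Type) [Fintype A] [Fintype B] (S : ℕ → Type) [∀ j, Fintype (S j)] :
    ∀ j, Fintype (cS A B S j)
  | 0 => inferInstanceAs (Fintype (S 0))
  | (j + 1) => inferInstanceAs (Fintype ((A × S j) ⊕ (B × S (j + 1))))

instance cSd (A B : Type) [DecidableEq A] [DecidableEq B] (S : ℕ → Type)
    [∀ j, DecidableEq (S j)] : ∀ j, DecidableEq (cS A B S j)
  | 0 => inferInstanceAs (DecidableEq (S 0))
  | (j + 1) => inferInstanceAs (DecidableEq ((A × S j) ⊕ (B × S (j + 1))))

/-- the differential of the cone -/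
def cdd (A B : Type) [Fintype A] [Fintype B] [DecidableEq A] [DecidableEq B] (J : B → A → ℝ)
    (S : ℕ → Type) [∀ j, Fintype (S j)] [∀ j, DecidableEq (S j)]
    (dd : ∀ j, Matrix (S j) (S (j + 1)) ℝ) : ∀ j, Matrix (cS A B S j) (cS A B S (j + 1)) ℝ
  | 0 => 0
  | (j + 1) => coneM J (dd j) (dd (j + 1))

theorem cx_step (hC : 0 ≤ C) (X : Cx N C η) (K : KLData (Ck (X.dd 1)) ηK) :
    Nonempty (Cx (N + 1) (2 * C ^ 2 + 4001 * C + 2002) (η + ηK)) := by
  have hXe := X.e0
  have hXN : IsEmpty (X.S (N + 2)) := X.eN (N + 2) (by omega)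
  set C' := 2 * C ^ 2 + 4001 * C + 2002 with hC'
  have hle1 : C + 2 ≤ C' := by nlinarith
  have hle2 : C + 2 * C ^ 2 ≤ C' := by nlinarith
  have hle3 : 2000 + 4001 * C ≤ C' := by nlinarith
  have hC'0 : 0 ≤ C' := by positivity
  refine ⟨{
    S := cS K.A K.B X.S
    fS := cSf K.A K.B X.S
    dS := cSd K.A K.B X.S
    e0 := X.e0
    eN := ?_
    ne := ?_
    dd := cdd K.A K.B K.J X.S X.dd
    col := ?_
    comp := ?_
    ex := ?_
    pre := ?_
    u := fun s t => match s, t with
      | Sum.inl s, Sum.inl t => K.u s.1 t.1 * X.u s.2 t.2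
      | Sum.inl _, Sum.inr _ => 1
      | Sum.inr _, Sum.inl _ => 1
      | Sum.inr _, Sum.inr _ => 1
    M := fun s => match s with
      | Sum.inl s => X.M s.2
      | Sum.inr s => K.M s.1
    u_diag := ?_
    u_le := ?_
    hM := ?_
    sum_M := ?_ }⟩
  · intro j hj
    obtain ⟨k, rfl⟩ : ∃ k, j = k + 1 := ⟨j - 1, by omega⟩
    have h1 := X.eN k (by omega)
    have h2 := X.eN (k + 1) (by omega)
    change IsEmpty ((K.A × X.S k) ⊕ (K.B × X.S (k + 1)))
    infer_instance
  · have h1 := X.ne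
    change Nonempty ((K.A × X.S (N + 1)) ⊕ (K.B × X.S (N + 1 + 1)))
    infer_instance
  · intro j t
    cases j with
    | zero => simpa [cdd] using hC'0
    | succ j =>
      exact (coneM_col K.J K.J_le (X.dd j) (X.dd (j + 1)) (X.col j) (X.col (j + 1))
        t).trans hle1
  · intro j z
    cases j with
    | zero => exact Matrix.zero_mulVec _
    | succ j =>
      exact coneM_comp K.J (X.dd j) (X.dd (j + 1)) (X.dd (j + 2)) (X.comp j)
        (X.comp (j + 1)) z
  · intro j z hz
    obtain ⟨w, hw1, hw2⟩ := coneM_ex K.J hC K.J_le (X.dd j) (X.dd (j + 1)) (X.dd (j + 2)) (by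
      intro α h1 h2 a
      cases j with
      | zero =>
        obtain ⟨γ, hγ⟩ := inj_of_KL K.J (X.dd 1) K.J_ge α h2 a
        obtain ⟨w, hw1, hw2⟩ := X.pre γ
        rw [hγ] at hw1 hw2
        exact ⟨w, hw1, hw2⟩
      | succ i => exact X.ex i (α a) (h1 a)) (X.ex j) z hz
    refine ⟨w, hw1, hw2.trans ?_⟩
    exact mul_le_mul_of_nonneg_right hle2 (l1_nonneg _)
  · intro z
    obtain ⟨w, hw1, hw2⟩ := pre_of_KL hC K.J K.J_le (X.dd 0) (X.dd 1) X.e0 K.J_ge X.pre z
    refine ⟨w, hw1, hw2.trans ?_⟩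
    exact mul_le_mul_of_nonneg_right hle3 (l1_nonneg _)
  · intro s
    rcases s with s | s
    · simp [K.u_diag, X.u_diag]
    · rfl
  · intro s t
    rcases s with s | s
    · rcases t with t | t
      · simp only [abs_mul]
        exact mul_le_one₀ (K.u_le _ _) (abs_nonneg _) (X.u_le _ _)
      · exact hXN.elim t.2
    · exact hXN.elim s.2
  · intro s t
    rcases t with ⟨a0, t0⟩ | t
    swap
    · exact hXN.elim t.2
    set z : (K.A × X.S (N + 1)) ⊕ (K.B × X.S (N + 2)) → ℝ := fun t' => match t' with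
      | Sum.inl s => K.u s.1 a0 * X.u s.2 t0
      | Sum.inr _ => 1 with hz
    have e : ∀ s : (K.A × X.S N) ⊕ (K.B × X.S (N + 1)),
        (∑ t' : cS K.A K.B X.S (N + 1 + 1), cdd K.A K.B K.J X.S X.dd (N + 1) s t' *
          (match t', (Sum.inl (a0, t0) : (K.A × X.S (N + 1)) ⊕ (K.B × X.S (N + 2))) with
          | Sum.inl s, Sum.inl t => K.u s.1 t.1 * X.u s.2 t.2
          | Sum.inl _, Sum.inr _ => 1
          | Sum.inr _, Sum.inl _ => 1
          | Sum.inr _, Sum.inr _ => 1)) = (coneM K.J (X.dd N) (X.dd (N + 1)) *ᵥ z) s := by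
      intro s
      rw [Matrix.mulVec, dotProduct]
      apply Finset.sum_congr rfl
      intro t' _
      rcases t' with t' | t'
      · rfl
      · rfl
    refine (congrArg abs (e s)).le.trans ?_
    rcases s with ⟨a, s⟩ | ⟨b, s⟩
    · rw [coneM_inl, abs_neg]
      have h1 : (X.dd N *ᵥ fun t => z (Sum.inl (a, t))) s =
          K.u a a0 * ∑ t', X.dd N s t' * X.u t' t0 := by
        rw [Matrix.mulVec, dotProduct, Finset.mul_sum]
        apply Finset.sum_congr rfl
        intro t' _
        simp only [hz]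
        ring
      rw [h1, abs_mul]
      calc |K.u a a0| * |∑ t', X.dd N s t' * X.u t' t0| ≤ 1 * X.M s := by
            have := X.hM s t0
            have h0 := abs_nonneg (∑ t', X.dd N s t' * X.u t' t0)
            have := K.u_le a a0
            gcongr
        _ = X.M s := one_mul _
    · rw [coneM_inr]
      have h1 : (X.dd (N + 1) *ᵥ fun t => z (Sum.inr (b, t))) s = 0 := by
        rw [Matrix.mulVec, dotProduct]
        apply Finset.sum_eq_zero
        intro t _
        exact hXN.elim t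
      have h2 : ∑ a, K.J b a * z (Sum.inl (a, s)) = (∑ a, K.J b a * K.u a a0) * X.u s t0 := by
        rw [Finset.sum_mul]
        apply Finset.sum_congr rfl
        intro a _
        simp only [hz]
        ring
      rw [h1, h2, add_zero, abs_mul]
      calc |∑ a, K.J b a * K.u a a0| * |X.u s t0| ≤ K.M b * 1 := by
            have := K.hM b a0
            have h0 := abs_nonneg (∑ a, K.J b a * K.u a a0)
            have h3 := X.u_le s t0
            have h4 := abs_nonneg (X.u s t0)
            gcongr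
            linarith
        _ = K.M b := mul_one _
  · have hcard : Fintype.card ((K.A × X.S (N + 1)) ⊕ (K.B × X.S (N + 2))) =
        Fintype.card K.A * Fintype.card (X.S (N + 1)) := by
      rw [Fintype.card_sum, Fintype.card_prod, Fintype.card_prod,
        Fintype.card_eq_zero_iff.2 hXN, mul_zero, add_zero]
    have hs : ∑ s : (K.A × X.S N) ⊕ (K.B × X.S (N + 1)), (match s with
        | Sum.inl s => X.M s.2
        | Sum.inr s => K.M s.1) = Fintype.card K.A * ∑ s, X.M s +
          Fintype.card (X.S (N + 1)) * ∑ b, K.M b := by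
      rw [Fintype.sum_sum_type, Fintype.sum_prod_type, Fintype.sum_prod_type]
      simp only [Finset.sum_const, Finset.card_univ, nsmul_eq_mul]
      rw [Finset.mul_sum, Finset.mul_sum]
    refine hs.le.trans ?_
    have hc2 : (Fintype.card (cS K.A K.B X.S (N + 1 + 1)) : ℝ) =
        Fintype.card K.A * Fintype.card (X.S (N + 1)) := by
      exact_mod_cast hcard
    rw [hc2]
    have h1 := X.sum_M
    have h2 := K.sum_M
    calc _ ≤ (Fintype.card K.A : ℝ) * (η * Fintype.card (X.S (N + 1))) +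
          Fintype.card (X.S (N + 1)) * (ηK * Fintype.card K.A) := by gcongr
      _ = _ := by ring

theorem exists_cx (N : ℕ) : ∃ C : ℝ, 0 ≤ C ∧ ∀ η : ℝ, 0 < η → Nonempty (Cx N C η) := by
  induction N with
  | zero => exact ⟨1, zero_le_one, fun η hη => ⟨cx0 hη.le⟩⟩
  | succ N ih =>
    obtain ⟨C, hC, h⟩ := ih
    refine ⟨2 * C ^ 2 + 4001 * C + 2002, by positivity, fun η hη => ?_⟩
    obtain ⟨X⟩ := h (η / 2) (by positivity)
    obtain ⟨K⟩ := exists_KLData (Ck (X.dd 1)) (η := η / 2) (by positivity)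
    have := cx_step hC X K
    rwa [add_halves] at this

end step

end

end Pool.Agent.H52
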