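import Pool.Agent.H52.Cx

/-!
The bottom of the mapping cone: the key lemma applied to the cokernel.
-/

namespace Pool.Agent.H52

open Finset Matrix

noncomputable section

section quot

set_option linter.unusedSectionVars false

variable {S1 S2 : Type} [Fintype S1] [Fintype S2]

/-- the range of a matrix as a subspace of `ℓ¹` -/
def Rg (d : Matrix S1 S2 ℝ) : Submodule ℝ (PiLp 1 (fun _ : S1 => ℝ)) :=
  LinearMap.range ((WithLp.linearEquiv 1 ℝ (S1 → ℝ)).symm.toLinearMap ∘ₗ Matrix.mulVecLin d)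

instance (d : Matrix S1 S2 ℝ) : IsClosed (Rg d : Set (PiLp 1 (fun _ : S1 => ℝ))) :=
  Submodule.closed_of_finiteDimensional _

/-- the cokernel, a finite dimensional normed space -/
abbrev Ck (d : Matrix S1 S2 ℝ) : Type := PiLp 1 (fun _ : S1 => ℝ) ⧸ Rg d

/-- the class of a vector in the cokernel -/
def ckmk (d : Matrix S1 S2 ℝ) : (S1 → ℝ) →ₗ[ℝ] Ck d :=
  (Rg d).mkQ ∘ₗ (WithLp.linearEquiv 1 ℝ (S1 → ℝ)).symm.toLinearMap

lemma ckmk_eq_zero {d : Matrix S1 S2 ℝ} {x : S1 → ℝ} : ckmk d x = 0 ↔ ∃ z, d *ᵥ z = x := by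
  have h : ckmk d x = 0 ↔ (WithLp.linearEquiv 1 ℝ (S1 → ℝ)).symm x ∈ Rg d :=
    Submodule.Quotient.mk_eq_zero _
  rw [h]
  constructor
  · rintro ⟨z, hz⟩
    exact ⟨z, (WithLp.linearEquiv 1 ℝ (S1 → ℝ)).symm.injective hz⟩
  · rintro ⟨z, hz⟩
    exact ⟨z, by rw [← hz]; rfl⟩

lemma l1_eq_norm (x : S1 → ℝ) : ‖(WithLp.linearEquiv 1 ℝ (S1 → ℝ)).symm x‖ = l1 x := by
  rw [PiLp.norm_eq_of_L1]
  rfl

lemma norm_ckmk_le (d : Matrix S1 S2 ℝ) (x : S1 → ℝ) : ‖ckmk d x‖ ≤ l1 x := by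
  rw [← l1_eq_norm]
  exact Submodule.Quotient.norm_mk_le _ _

lemma exists_ckmk_le (d : Matrix S1 S2 ℝ) (x : Ck d) :
    ∃ y, ckmk d y = x ∧ l1 y ≤ 2 * ‖x‖ := by
  rcases eq_or_ne x 0 with rfl | hx
  · exact ⟨0, by simp, by simp [l1]⟩
  · have hx' : 0 < ‖x‖ := norm_pos_iff.2 hx
    obtain ⟨m, hm1, hm2⟩ := Submodule.Quotient.norm_mk_lt x hx'
    refine ⟨WithLp.linearEquiv 1 ℝ (S1 → ℝ) m, ?_, ?_⟩
    · rw [← hm1]
      rfl
    · rw [← l1_eq_norm, LinearEquiv.symm_apply_apply]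
      linarith

end quot

section cone

set_option linter.unusedSectionVars false

variable {S0 S1 S2 : Type} [Fintype S0] [Fintype S1] [Fintype S2]
  [DecidableEq S0] [DecidableEq S1] [DecidableEq S2]

lemma sum_smul_ckmk {A B : Type} [Fintype A] [Fintype B] (J : B → A → ℝ) (d1 : Matrix S1 S2 ℝ)
    (α : A → S1 → ℝ) (b : B) :
    ∑ a, J b a • ckmk d1 (α a) = ckmk d1 (Jap J α b) := by
  have : Jap J α b = ∑ a, J b a • α a := by
    funext s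
    simp [Jap]
  rw [this, map_sum]
  simp

lemma inj_of_KL {A B : Type} [Fintype A] [Fintype B] (J : B → A → ℝ)
    (d1 : Matrix S1 S2 ℝ) (hJ : ∀ x : A → Ck d1, ∑ a, ‖x a‖ ≤ 1000 * ∑ b, ‖∑ a, J b a • x a‖)
    (α : A → S1 → ℝ) (h : ∀ b, ∃ β, d1 *ᵥ β = Jap J α b) (a : A) :
    ∃ γ, d1 *ᵥ γ = α a := by
  have h1 := hJ (fun a => ckmk d1 (α a))
  simp only [sum_smul_ckmk] at h1
  have h2 : ∀ b, ckmk d1 (Jap J α b) = 0 := fun b => ckmk_eq_zero.2 (h b)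
  simp only [h2, norm_zero, Finset.sum_const_zero, mul_zero] at h1
  have h3 : ‖ckmk d1 (α a)‖ ≤ 0 := by
    refine le_trans ?_ h1
    exact Finset.single_le_sum (f := fun a => ‖ckmk d1 (α a)‖) (fun _ _ => norm_nonneg _)
      (Finset.mem_univ a)
  exact ckmk_eq_zero.1 (norm_le_zero_iff.1 h3)

lemma pre_of_KL {C : ℝ} (hC : 0 ≤ C) {A B : Type} [Fintype A] [Fintype B] [DecidableEq A]
    [DecidableEq B] (J : B → A → ℝ) (hJ2 : ∀ a, ∑ b, |J b a| ≤ 2)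
    (d0 : Matrix S0 S1 ℝ) (d1 : Matrix S1 S2 ℝ) (h0 : IsEmpty S0)
    (hJ : ∀ x : A → Ck d1, ∑ a, ‖x a‖ ≤ 1000 * ∑ b, ‖∑ a, J b a • x a‖)
    (pre : ∀ z : S2 → ℝ, ∃ w, d1 *ᵥ w = d1 *ᵥ z ∧ l1 w ≤ C * l1 (d1 *ᵥ z))
    (z : (A × S1) ⊕ (B × S2) → ℝ) :
    ∃ w : (A × S1) ⊕ (B × S2) → ℝ, coneM J d0 d1 *ᵥ w = coneM J d0 d1 *ᵥ z ∧
      l1 w ≤ (2000 + 4001 * C) * l1 (coneM J d0 d1 *ᵥ z) := by
  set α : A → S1 → ℝ := fun a t => z (Sum.inl (a, t)) with hα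
  set β : B → S2 → ℝ := fun b t => z (Sum.inr (b, t)) with hβ
  set y : B → S1 → ℝ := fun b => Jap J α b + d1 *ᵥ β b with hy
  have hyz : ∀ b s, (coneM J d0 d1 *ᵥ z) (Sum.inr (b, s)) = y b s := by
    intro b s
    rw [coneM_inr]
    rfl
  have hl : l1 (coneM J d0 d1 *ᵥ z) = ∑ b, l1 (y b) := by
    rw [l1_sum_type, l1_prod, l1_prod]
    have e1 : ∀ a : A, l1 (fun s => (coneM J d0 d1 *ᵥ z) (Sum.inl (a, s))) = 0 := by
      intro a
      simp [l1]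
    simp only [e1, Finset.sum_const_zero, zero_add, hyz]
  have h1 := hJ (fun a => ckmk d1 (α a))
  simp only [sum_smul_ckmk] at h1
  have h2 : ∀ b, ckmk d1 (Jap J α b) = ckmk d1 (y b) := by
    intro b
    rw [hy]
    simp only
    rw [map_add, (ckmk_eq_zero (d := d1)).2 ⟨β b, rfl⟩, add_zero]
  simp only [h2] at h1
  choose α' hα1 hα2 using fun a => exists_ckmk_le d1 (ckmk d1 (α a))
  have h3 : ∀ a, ∃ γ, d1 *ᵥ γ = α a - α' a := by
    intro a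
    apply ckmk_eq_zero.1
    rw [map_sub, hα1, sub_self]
  choose γ hγ using h3
  have h4 : ∀ b, y b - Jap J α' b = d1 *ᵥ (Jap J γ b + β b) := by
    intro b
    rw [Matrix.mulVec_add, mulVec_Jap]
    have : (fun a => d1 *ᵥ γ a) = fun a => α a - α' a := funext hγ
    rw [this]
    funext s
    simp only [hy, Jap, Pi.add_apply, Pi.sub_apply, mul_sub, Finset.sum_sub_distrib]
    ring
  choose δ hδ1 hδ2 using fun b => pre (Jap J γ b + β b)
  have hA : ∑ a, l1 (α' a) ≤ 2000 * ∑ b, l1 (y b) := by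
    calc ∑ a, l1 (α' a) ≤ ∑ a, 2 * ‖ckmk d1 (α a)‖ := Finset.sum_le_sum fun a _ => hα2 a
      _ = 2 * ∑ a, ‖ckmk d1 (α a)‖ := by rw [Finset.mul_sum]
      _ ≤ 2 * (1000 * ∑ b, ‖ckmk d1 (y b)‖) := by gcongr
      _ ≤ 2 * (1000 * ∑ b, l1 (y b)) := by
          gcongr
          exact norm_ckmk_le _ _
      _ = _ := by ring
  have hB : ∑ b, l1 (δ b) ≤ C * (4001 * ∑ b, l1 (y b)) := by
    calc ∑ b, l1 (δ b) ≤ ∑ b, C * (l1 (y b) + l1 (Jap J α' b)) := by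
          apply Finset.sum_le_sum
          intro b _
          refine (hδ2 b).trans ?_
          rw [← h4]
          gcongr
          exact l1_sub _ _
      _ = C * (∑ b, l1 (y b) + ∑ b, l1 (Jap J α' b)) := by
          rw [← Finset.mul_sum, Finset.sum_add_distrib]
      _ ≤ C * (∑ b, l1 (y b) + 2 * ∑ a, l1 (α' a)) := by
          gcongr
          exact l1_Jap_le J hJ2 α'
      _ ≤ C * (∑ b, l1 (y b) + 2 * (2000 * ∑ b, l1 (y b))) := by gcongr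
      _ = _ := by ring
  refine ⟨Sum.elim (fun q => α' q.1 q.2) (fun q => δ q.1 q.2), ?_, ?_⟩
  · funext r
    rcases r with ⟨a, s⟩ | ⟨b, s⟩
    · exact h0.elim s
    · rw [coneM_inr, hyz]
      have : (fun t => (Sum.elim (fun q : A × S1 => α' q.1 q.2) (fun q : B × S2 => δ q.1 q.2))
          (Sum.inr (b, t))) = δ b := by
        funext t
        rfl
      rw [this, hδ1, ← h4]
      simp [Jap]
  · rw [hl, l1_sum_type, l1_prod, l1_prod]
    simp only [Sum.elim_inl, Sum.elim_inr]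
    calc _ ≤ 2000 * ∑ b, l1 (y b) + C * (4001 * ∑ b, l1 (y b)) := add_le_add hA hB
      _ = _ := by ring

end cone

end

end Pool.Agent.H52
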