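import Mathlib

/-!
Banach spaces, resolutions and the five homological dimensions of a Banach space.

The scalar field `𝕜` is `ℝ` or `ℂ`. To keep statements short, Banach spaces are bundled and the
bounded linear operators between them get a name of their own.
-/

namespace Pool.Agent.BanachDim

universe u

/-- A Banach space over `𝕜`. -/
structure Ban (𝕜 : Type) [RCLike 𝕜] : Type (u + 1) where
  /-- the underlying type -/
  carrier : Type u
  [normed : NormedAddCommGroup carrier]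
  [space : NormedSpace 𝕜 carrier]
  [complete : CompleteSpace carrier]

attribute [instance] Ban.normed Ban.space Ban.complete

instance (𝕜 : Type) [RCLike 𝕜] : CoeSort (Ban.{u} 𝕜) (Type u) := ⟨Ban.carrier⟩

variable {𝕜 : Type} [RCLike 𝕜]

/-- Bounded linear operators from `X` to `Y`. -/
abbrev Op (X Y : Ban.{u} 𝕜) : Type u := X →L[𝕜] Y

/-- The underlying function of a bounded operator. -/
def Op.fn {X Y : Ban.{u} 𝕜} (T : Op X Y) (x : X) : Y := T x

/-- composition -/
def Op.comp {X Y Z : Ban.{u} 𝕜} (S : Op Y Z) (T : Op X Y) : Op X Z :=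
  ContinuousLinearMap.comp S T

/-- the identity operator -/
def Op.one (X : Ban.{u} 𝕜) : Op X X := ContinuousLinearMap.id 𝕜 X

/-- the sum of two operators -/
def Op.add {X Y : Ban.{u} 𝕜} (S T : Op X Y) : Op X Y := S + T

/-- The dual Banach space `X*`, with the operator norm. -/
noncomputable def Dual (X : Ban.{u} 𝕜) : Ban.{u} 𝕜 := { carrier := StrongDual 𝕜 X }

/-- The dual operator `T* : Y* → X*`, `φ ↦ φ ∘ T`. -/
noncomputable def Op.dual {X Y : Ban.{u} 𝕜} (T : Op X Y) : Op (Dual Y) (Dual X) :=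
  ContinuousLinearMap.precomp 𝕜 T

/-- The canonical embedding `X → X**`. -/
noncomputable def toBidual (X : Ban.{u} 𝕜) : Op X (Dual (Dual X)) :=
  NormedSpace.inclusionInDoubleDual 𝕜 X

/-! ### Classes of Banach spaces -/

/-- The Banach space `ℓ¹(S)` over `𝕜`, with its usual norm. -/
noncomputable def EllOne (𝕜 : Type) [RCLike 𝕜] (S : Type u) : Ban.{u} 𝕜 where
  carrier := lp (fun _ : S => 𝕜) 1

/-- `X` is `ℓ¹(S)` for some set `S`, up to isometric isomorphism. -/
def IsEllOne (X : Ban.{u} 𝕜) : Prop :=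
  ∃ (S : Type u) (T : Op X (EllOne 𝕜 S)), (∀ x, ‖T.fn x‖ = ‖x‖) ∧ Function.Surjective T.fn

/-- The norm of `ℓ_p^n`, on `𝕜^n`. -/
noncomputable def ellNorm (p : ENNReal) [Fact (1 ≤ p)] {n : ℕ} (c : Fin n → 𝕜) : ℝ :=
  ‖(WithLp.toLp p c : PiLp p (fun _ : Fin n => 𝕜))‖

/-- The linear combination of the vectors `x i` with coefficients `c i`. -/
def lincomb {X : Ban.{u} 𝕜} {n : ℕ} (x : Fin n → X) (c : Fin n → 𝕜) : X := ∑ i, c i • x i

/-- The vectors `x i` span a subspace that contains `E`, and `c ↦ ∑ i, c i • x i` is an isomorphism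
of `ℓ_p^n` onto this subspace whose distortion is at most `lam`. -/
def Spans (p : ENNReal) [Fact (1 ≤ p)] {X : Ban.{u} 𝕜} (E : Submodule 𝕜 X) (lam : ℝ) (n : ℕ)
    (x : Fin n → X) : Prop :=
  (∀ c, ellNorm p c ≤ ‖lincomb x c‖ ∧ ‖lincomb x c‖ ≤ lam * ellNorm p c) ∧
    ∀ e ∈ E, ∃ c, lincomb x c = e

/-- `X` is an `ℒ_p`-space in the sense of Lindenstrauss and Pelczynski: for some constant `lam`,
every finite dimensional subspace `E` of `X` is contained in a subspace `F` which is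
`lam`-isomorphic to some `ℓ_p^n` (here `F` is the span of the vectors `x i`). -/
def IsScriptL (p : ENNReal) [Fact (1 ≤ p)] (X : Ban.{u} 𝕜) : Prop :=
  ∃ lam : ℝ, ∀ E : Submodule 𝕜 X, FiniteDimensional 𝕜 E → ∃ n x, Spans p E lam n x

/-- `Q` is an injective Banach space: if `V` sits isometrically in a Banach space `W` (through
`i`), then every operator `T : V → Q` extends to an operator `T' : W → Q`. -/
def IsInjective (Q : Ban.{u} 𝕜) : Prop :=
  ∀ (V W : Ban.{u} 𝕜) (i : Op V W), (∀ v, ‖i.fn v‖ = ‖v‖) →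
    ∀ T : Op V Q, ∃ T' : Op W Q, T'.comp i = T

/-- `Q` is complemented in its bidual under the canonical embedding. -/
def IsUltrasummand (Q : Ban.{u} 𝕜) : Prop :=
  ∃ P : Op (Dual (Dual Q)) Q, P.comp (toBidual Q) = Op.one Q

/-! ### Exact sequences -/

/-- The sequence `0 ← X ← P 0 ← P 1 ← ⋯` is exact. -/
structure LeftExact (X : Ban.{u} 𝕜) (P : ℕ → Ban.{u} 𝕜) (ε : Op (P 0) X)
    (d : ∀ j, Op (P (j + 1)) (P j)) : Prop where
  surjective : Function.Surjective ε.fn
  exact_zero : Function.Exact (d 0).fn ε.fn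
  exact_succ : ∀ j, Function.Exact (d (j + 1)).fn (d j).fn

/-- The sequence `0 → X → Q 0 → Q 1 → ⋯` is exact. -/
structure RightExact (X : Ban.{u} 𝕜) (Q : ℕ → Ban.{u} 𝕜) (ι : Op X (Q 0))
    (d : ∀ j, Op (Q j) (Q (j + 1))) : Prop where
  injective : Function.Injective ι.fn
  exact_zero : Function.Exact ι.fn (d 0).fn
  exact_succ : ∀ j, Function.Exact (d j).fn (d (j + 1)).fn

/-- The dual complex `0 ← X* ← (Q 0)* ← (Q 1)* ← ⋯` is chain homotopic to zero through bounded
operators: `s` and `h j` are the components of a contracting homotopy. -/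
def DualContractible (X : Ban.{u} 𝕜) (Q : ℕ → Ban.{u} 𝕜) (ι : Op X (Q 0))
    (d : ∀ j, Op (Q j) (Q (j + 1))) : Prop :=
  ∃ (s : Op (Dual X) (Dual (Q 0))) (h : ∀ j, Op (Dual (Q j)) (Dual (Q (j + 1)))),
    ι.dual.comp s = Op.one (Dual X) ∧
    (s.comp ι.dual).add ((d 0).dual.comp (h 0)) = Op.one (Dual (Q 0)) ∧
    ∀ j, ((h j).comp (d j).dual).add ((d (j + 1)).dual.comp (h (j + 1))) =
      Op.one (Dual (Q (j + 1)))

/-! ### Resolutions and dimensions -/

/-- There is an exact sequence `0 ← X ← P 0 ← ⋯ ← P n ← 0` with all `P j` in the class `C`. -/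
def HasLeftResolution (C : Ban.{u} 𝕜 → Prop) (X : Ban.{u} 𝕜) (n : ℕ) : Prop :=
  ∃ (P : ℕ → Ban.{u} 𝕜) (ε : Op (P 0) X) (d : ∀ j, Op (P (j + 1)) (P j)),
    LeftExact X P ε d ∧ (∀ j ≤ n, C (P j)) ∧ ∀ j > n, Subsingleton (P j)

/-- There is an exact sequence `0 → X → Q 0 → ⋯ → Q n → 0` with all `Q j` in the class `C`. -/
def HasRightResolution (C : Ban.{u} 𝕜 → Prop) (X : Ban.{u} 𝕜) (n : ℕ) : Prop :=
  ∃ (Q : ℕ → Ban.{u} 𝕜) (ι : Op X (Q 0)) (d : ∀ j, Op (Q j) (Q (j + 1))),
    RightExact X Q ι d ∧ (∀ j ≤ n, C (Q j)) ∧ ∀ j > n, Subsingleton (Q j)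

/-- There is a pure-injective resolution `0 → X → Q 0 → ⋯ → Q n → 0`. -/
def HasPureInjectiveResolution (X : Ban.{u} 𝕜) (n : ℕ) : Prop :=
  ∃ (Q : ℕ → Ban.{u} 𝕜) (ι : Op X (Q 0)) (d : ∀ j, Op (Q j) (Q (j + 1))),
    RightExact X Q ι d ∧ DualContractible X Q ι d ∧ (∀ j ≤ n, IsUltrasummand (Q j)) ∧
      ∀ j > n, Subsingleton (Q j)

/-- The least natural number with the property `p`, and `∞` if there is none. -/
noncomputable def least (p : ℕ → Prop) : ℕ∞ := ⨅ (n : ℕ) (_ : p n), (n : ℕ∞)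

/-- the projective dimension -/
noncomputable def pd (X : Ban.{u} 𝕜) : ℕ∞ := least (HasLeftResolution IsEllOne X)

/-- the flat dimension -/
noncomputable def fd (X : Ban.{u} 𝕜) : ℕ∞ := least (HasLeftResolution (IsScriptL 1) X)

/-- the injective dimension -/
noncomputable def injDim (X : Ban.{u} 𝕜) : ℕ∞ := least (HasRightResolution IsInjective X)

/-- the absolutely-pure dimension -/
noncomputable def apd (X : Ban.{u} 𝕜) : ℕ∞ := least (HasRightResolution (IsScriptL ⊤) X)

/-- the pure-injective dimension -/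
noncomputable def pid (X : Ban.{u} 𝕜) : ℕ∞ := least (HasPureInjectiveResolution X)

end Pool.Agent.BanachDim
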