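import Pool.Agent.H52.PidF

/-!
The definitions of `Pool.Agent.H52.Dims` agree with the working definitions of
`Pool.Agent.H52.Defs`, and the resulting answer to the question.
-/

namespace Pool.Agent.H52

open Pool.Agent

universe u

variable {𝕜 : Type} [RCLike 𝕜]

theorem new_isUltrasummand (Q : Ban.{u} 𝕜) :
    BanachDim.IsUltrasummand Q ↔ IsUltrasummand Q := by
  constructor
  · rintro ⟨P, hP⟩
    refine ⟨P, fun x => ?_⟩
    have := congrArg (fun T : Q →L[𝕜] Q => T x) hP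
    exact this
  · rintro ⟨P, hP⟩
    exact ⟨P, ContinuousLinearMap.ext hP⟩

theorem new_isInjective (Q : Ban.{u} 𝕜) : BanachDim.IsInjective Q ↔ IsInjective Q := by
  constructor
  · intro h W V hV T
    have : CompleteSpace V := hV.completeSpace_coe
    obtain ⟨T', hT'⟩ := h { carrier := V } W V.subtypeL (fun v => rfl) T
    exact ⟨T', fun v => congrArg (fun S : V →L[𝕜] Q => S v) hT'⟩
  · intro h V W i hi T
    let j : V →ₗᵢ[𝕜] W := ⟨(i : V →L[𝕜] W).toLinearMap, hi⟩
    have hcl : IsClosed ((LinearMap.range j.toLinearMap : Submodule 𝕜 W) : Set W) := by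
      have := j.isometry.isClosedEmbedding.isClosed_range
      rwa [LinearMap.coe_range]
    obtain ⟨T', hT'⟩ := h W (LinearMap.range j.toLinearMap) hcl
      (ContinuousLinearMap.comp (T : V →L[𝕜] Q)
        (j.equivRange.symm.toContinuousLinearEquiv : LinearMap.range j.toLinearMap →L[𝕜] V))
    refine ⟨T', ContinuousLinearMap.ext fun v => ?_⟩
    have h1 : T' (j v) = T v := by
      have := hT' (j.equivRange v)
      simpa using this
    exact h1

theorem new_isEllOne (X : Ban.{u} 𝕜) : BanachDim.IsEllOne X ↔ IsEllOne X := by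
  constructor
  · rintro ⟨S, T, hT, hs⟩
    let j : X →ₗᵢ[𝕜] lp (fun _ : S => 𝕜) 1 :=
      ⟨ContinuousLinearMap.toLinearMap (T : X →L[𝕜] lp (fun _ : S => 𝕜) 1), hT⟩
    exact ⟨S, ⟨LinearIsometryEquiv.ofSurjective j hs⟩⟩
  · rintro ⟨S, ⟨e⟩⟩
    exact ⟨S, (e.toContinuousLinearEquiv : X →L[𝕜] lp (fun _ : S => 𝕜) 1), e.norm_map,
      e.surjective⟩

/-- Linear combinations of the vectors `x i`, as a linear map on `ℓ_p^n`. -/
def combMap (p : ENNReal) {X : Ban.{u} 𝕜} {n : ℕ} (x : Fin n → X) :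
    PiLp p (fun _ : Fin n => 𝕜) →ₗ[𝕜] X where
  toFun c := BanachDim.lincomb x c.ofLp
  map_add' c d := by
    simp [BanachDim.lincomb, add_smul, Finset.sum_add_distrib]
  map_smul' a c := by
    simp [BanachDim.lincomb, mul_smul, Finset.smul_sum]

theorem new_isScriptL (p : ENNReal) [Fact (1 ≤ p)] (X : Ban.{u} 𝕜) :
    BanachDim.IsScriptL p X ↔ IsScriptL p X := by
  constructor
  · rintro ⟨lam, h⟩
    refine ⟨max lam 0, fun E hE => ?_⟩
    obtain ⟨n, x, hx, hEx⟩ := h E hE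
    set J : PiLp p (fun _ : Fin n => 𝕜) →ₗ[𝕜] X := combMap p x with hJdef
    have hJ : ∀ c : PiLp p (fun _ : Fin n => 𝕜), ‖c‖ ≤ ‖J c‖ ∧ ‖J c‖ ≤ lam * ‖c‖ :=
      fun c => hx c.ofLp
    have hEJ : E ≤ LinearMap.range J := by
      intro e he
      obtain ⟨c, hc⟩ := hEx e he
      exact ⟨WithLp.toLp p c, hc⟩
    have hinj : Function.Injective J := by
      refine (injective_iff_map_eq_zero J).2 fun c hc => ?_
      have := (hJ c).1
      rw [hc, norm_zero] at this
      exact norm_le_zero_iff.1 this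
    refine ⟨LinearMap.range J, hEJ, n,
      (LinearEquiv.ofInjective J hinj).symm.toContinuousLinearEquiv, ?_⟩
    have h1 : ‖((LinearEquiv.ofInjective J hinj).symm.toContinuousLinearEquiv :
        LinearMap.range J →L[𝕜] PiLp p (fun _ : Fin n => 𝕜))‖ ≤ 1 := by
      refine ContinuousLinearMap.opNorm_le_bound _ zero_le_one fun y => ?_
      obtain ⟨c, rfl⟩ := (LinearEquiv.ofInjective J hinj).surjective y
      have := (hJ c).1
      simpa using this
    have h2 : ‖((LinearEquiv.ofInjective J hinj).symm.toContinuousLinearEquiv.symm :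
        PiLp p (fun _ : Fin n => 𝕜) →L[𝕜] LinearMap.range J)‖ ≤ max lam 0 := by
      refine ContinuousLinearMap.opNorm_le_bound _ (le_max_right _ _) fun c => ?_
      have h3 := (hJ c).2.trans (mul_le_mul_of_nonneg_right (le_max_left lam 0) (norm_nonneg c))
      simpa using h3
    calc _ ≤ 1 * max lam 0 := mul_le_mul h1 h2 (norm_nonneg _) zero_le_one
      _ = _ := one_mul _
  · rintro ⟨lam, h⟩
    refine ⟨lam, fun E hE => ?_⟩
    obtain ⟨F, hEF, n, T, hT⟩ := h E hE
    set a : ℝ := ‖(T : F →L[𝕜] PiLp p (fun _ : Fin n => 𝕜))‖ with ha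
    set b : ℝ := ‖(T.symm : PiLp p (fun _ : Fin n => 𝕜) →L[𝕜] F)‖ with hb
    set J : PiLp p (fun _ : Fin n => 𝕜) →ₗ[𝕜] X :=
      (a : 𝕜) • (F.subtype.comp T.symm.toLinearEquiv.toLinearMap) with hJdef
    have hJn : ∀ c : PiLp p (fun _ : Fin n => 𝕜), ‖c‖ ≤ ‖J c‖ ∧ ‖J c‖ ≤ lam * ‖c‖ := by
      intro c
      have hn : ‖J c‖ = a * ‖T.symm c‖ := by
        rw [hJdef, LinearMap.smul_apply, norm_smul]
        congr 1
        rw [RCLike.norm_ofReal, abs_of_nonneg (norm_nonneg _)]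
      rw [hn]
      constructor
      · calc ‖c‖ = ‖T (T.symm c)‖ := by rw [T.apply_symm_apply]
          _ ≤ a * ‖T.symm c‖ := (T : F →L[𝕜] PiLp p (fun _ : Fin n => 𝕜)).le_opNorm _
      · calc a * ‖T.symm c‖ ≤ a * (b * ‖c‖) := by
              refine mul_le_mul_of_nonneg_left ?_ (norm_nonneg _)
              exact (T.symm : PiLp p (fun _ : Fin n => 𝕜) →L[𝕜] F).le_opNorm _
          _ = (a * b) * ‖c‖ := by ring
          _ ≤ lam * ‖c‖ := mul_le_mul_of_nonneg_right hT (norm_nonneg _)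
    have hJE : ∀ e ∈ E, ∃ c, J c = e := by
      intro x hx
      by_cases h0 : a = 0
      · have hT0 : (T : F →L[𝕜] PiLp p (fun _ : Fin n => 𝕜)) = 0 := norm_eq_zero.1 h0
        have : T ⟨x, hEF hx⟩ = 0 := by
          have := congrArg (fun S : F →L[𝕜] PiLp p (fun _ : Fin n => 𝕜) => S ⟨x, hEF hx⟩) hT0
          simpa using this
        have h1 : (⟨x, hEF hx⟩ : F) = 0 := by
          apply T.injective
          rw [this, map_zero]
        have h2 : x = 0 := congrArg Subtype.val h1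
        rw [h2]
        exact ⟨0, map_zero _⟩
      · refine ⟨(a : 𝕜)⁻¹ • T ⟨x, hEF hx⟩, ?_⟩
        have ha' : (a : 𝕜) ≠ 0 := by exact_mod_cast h0
        rw [hJdef, LinearMap.smul_apply, map_smul, smul_smul, mul_inv_cancel₀ ha', one_smul]
        simp
    have key : ∀ c : PiLp p (fun _ : Fin n => 𝕜),
        BanachDim.lincomb (fun i => J (PiLp.single p i 1)) c.ofLp = J c := by
      intro c
      have hc : c = ∑ i, c i • (PiLp.single p i (1 : 𝕜)) := by
        ext j
        simp [Pi.single_apply]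
      conv_rhs => rw [hc]
      rw [map_sum]
      simp only [map_smul]
      rfl
    refine ⟨n, fun i => J (PiLp.single p i 1), fun c => ?_, fun e he => ?_⟩
    · have h1 := hJn (WithLp.toLp p c)
      have h2 := key (WithLp.toLp p c)
      rw [← h2] at h1
      exact h1
    · obtain ⟨c, hc⟩ := hJE e he
      exact ⟨c.ofLp, (key c).trans hc⟩

theorem new_leftExact (X : Ban.{u} 𝕜) (P : ℕ → Ban.{u} 𝕜) (ε : P 0 →L[𝕜] X)
    (d : ∀ j, P (j + 1) →L[𝕜] P j) :
    BanachDim.LeftExact X P ε d ↔ LeftExact X P ε d :=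
  ⟨fun h => ⟨h.surjective, h.exact_zero, h.exact_succ⟩,
    fun h => ⟨h.surjective, h.exact_zero, h.exact_succ⟩⟩

theorem new_rightExact (X : Ban.{u} 𝕜) (Q : ℕ → Ban.{u} 𝕜) (ι : X →L[𝕜] Q 0)
    (d : ∀ j, Q j →L[𝕜] Q (j + 1)) :
    BanachDim.RightExact X Q ι d ↔ RightExact X Q ι d :=
  ⟨fun h => ⟨h.injective, h.exact_zero, h.exact_succ⟩,
    fun h => ⟨h.injective, h.exact_zero, h.exact_succ⟩⟩

theorem new_dualContractible (X : Ban.{u} 𝕜) (Q : ℕ → Ban.{u} 𝕜) (ι : X →L[𝕜] Q 0)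
    (d : ∀ j, Q j →L[𝕜] Q (j + 1)) :
    BanachDim.DualContractible X Q ι d ↔ DualContractible X Q ι d := by
  constructor
  · rintro ⟨s, h, h1, h2, h3⟩
    refine ⟨s, h, fun φ => ?_, fun φ => ?_, fun j φ => ?_⟩
    · exact congrArg (fun T : StrongDual 𝕜 X →L[𝕜] StrongDual 𝕜 X => T φ) h1
    · exact congrArg (fun T : StrongDual 𝕜 (Q 0) →L[𝕜] StrongDual 𝕜 (Q 0) => T φ) h2
    · exact congrArg (fun T : StrongDual 𝕜 (Q (j + 1)) →L[𝕜] StrongDual 𝕜 (Q (j + 1)) => T φ)
        (h3 j)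
  · rintro ⟨s, h, h1, h2, h3⟩
    exact ⟨s, h, ContinuousLinearMap.ext h1, ContinuousLinearMap.ext h2,
      fun j => ContinuousLinearMap.ext (h3 j)⟩

theorem new_hasLeft {C C' : Ban.{u} 𝕜 → Prop} (hC : ∀ X, C X ↔ C' X) (X : Ban.{u} 𝕜) (n : ℕ) :
    BanachDim.HasLeftResolution C X n ↔ HasLeftResolution C' X n := by
  constructor
  · rintro ⟨P, ε, d, h, hc, hz⟩
    exact ⟨P, ε, d, (new_leftExact X P ε d).1 h, fun j hj => (hC _).1 (hc j hj), hz⟩
  · rintro ⟨P, ε, d, h, hc, hz⟩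
    exact ⟨P, ε, d, (new_leftExact X P ε d).2 h, fun j hj => (hC _).2 (hc j hj), hz⟩

theorem new_hasRight {C C' : Ban.{u} 𝕜 → Prop} (hC : ∀ X, C X ↔ C' X) (X : Ban.{u} 𝕜) (n : ℕ) :
    BanachDim.HasRightResolution C X n ↔ HasRightResolution C' X n := by
  constructor
  · rintro ⟨P, ε, d, h, hc, hz⟩
    exact ⟨P, ε, d, (new_rightExact X P ε d).1 h, fun j hj => (hC _).1 (hc j hj), hz⟩
  · rintro ⟨P, ε, d, h, hc, hz⟩
    exact ⟨P, ε, d, (new_rightExact X P ε d).2 h, fun j hj => (hC _).2 (hc j hj), hz⟩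

theorem new_hasPureInjective (X : Ban.{u} 𝕜) (n : ℕ) :
    BanachDim.HasPureInjectiveResolution X n ↔ HasPureInjectiveResolution X n := by
  constructor
  · rintro ⟨Q, ι, d, h, hd, hc, hz⟩
    exact ⟨Q, ι, d, (new_rightExact X Q ι d).1 h, (new_dualContractible X Q ι d).1 hd,
      fun j hj => (new_isUltrasummand _).1 (hc j hj), hz⟩
  · rintro ⟨Q, ι, d, h, hd, hc, hz⟩
    exact ⟨Q, ι, d, (new_rightExact X Q ι d).2 h, (new_dualContractible X Q ι d).2 hd,
      fun j hj => (new_isUltrasummand _).2 (hc j hj), hz⟩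

theorem new_least {p q : ℕ → Prop} (h : ∀ n, p n ↔ q n) : BanachDim.least p = least q := by
  have : p = q := funext fun n => propext (h n)
  subst this
  rfl

theorem new_pd (X : Ban.{u} 𝕜) : BanachDim.pd X = pd X :=
  new_least (new_hasLeft new_isEllOne X)

theorem new_fd (X : Ban.{u} 𝕜) : BanachDim.fd X = fd X :=
  new_least (new_hasLeft (new_isScriptL 1) X)

theorem new_injDim (X : Ban.{u} 𝕜) : BanachDim.injDim X = injDim X :=
  new_least (new_hasRight new_isInjective X)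

theorem new_apd (X : Ban.{u} 𝕜) : BanachDim.apd X = apd X :=
  new_least (new_hasRight (new_isScriptL ⊤) X)

theorem new_pid (X : Ban.{u} 𝕜) : BanachDim.pid X = pid X :=
  new_least (new_hasPureInjective X)

theorem new_all_values (𝕜 : Type) [RCLike 𝕜] :
    Set.range (fun X : Ban.{u} 𝕜 => BanachDim.pd X) = Set.univ ∧
    Set.range (fun X : Ban.{u} 𝕜 => BanachDim.fd X) = Set.univ ∧
    Set.range (fun X : Ban.{u} 𝕜 => BanachDim.injDim X) = Set.univ ∧
    Set.range (fun X : Ban.{u} 𝕜 => BanachDim.apd X) = Set.univ ∧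
    Set.range (fun X : Ban.{u} 𝕜 => BanachDim.pid X) = Set.univ := by
  have h := all_values.{u} 𝕜
  simp only [new_pd, new_fd, new_injDim, new_apd, new_pid]
  exact h

end Pool.Agent.H52
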