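import Mathlib

/-!
Limits of bounded nets of bilinear forms along an ultrafilter.
-/

namespace Pool.Agent.H52

open Filter Topology

noncomputable section

variable {𝕜 : Type*} [RCLike 𝕜]

lemma exists_ulim {ι : Type*} (U : Ultrafilter ι) {a : ι → 𝕜} {C : ℝ} (h : ∀ i, ‖a i‖ ≤ C) :
    ∃ x, Tendsto a U (𝓝 x) := by
  have hc : IsCompact (Metric.closedBall (0 : 𝕜) C) := isCompact_closedBall 0 C
  obtain ⟨x, _, hx⟩ := hc.ultrafilter_le_nhds (U.map a) (by
    rw [Filter.le_principal_iff]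
    change a ⁻¹' (Metric.closedBall (0 : 𝕜) C) ∈ (U : Filter ι)
    apply Filter.univ_mem'
    intro i
    simpa using h i)
  exact ⟨x, hx⟩

theorem exists_ulim_bilin {ι : Type*} [Preorder ι] [IsDirectedOrder ι] [Nonempty ι]
    {W P : Type*} [NormedAddCommGroup W] [NormedSpace 𝕜 W] [NormedAddCommGroup P]
    [NormedSpace 𝕜 P] (G : ι → W → P → 𝕜) {K : ℝ} (hK : 0 ≤ K)
    (hadd : ∀ i w w' x, G i (w + w') x = G i w x + G i w' x)
    (hsmul : ∀ i (c : 𝕜) w x, G i (c • w) x = c * G i w x)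
    (hbd : ∀ i w x, ‖G i w x‖ ≤ K * ‖w‖ * ‖x‖)
    (hadd' : ∀ w x y, ∀ᶠ i in atTop, G i w (x + y) = G i w x + G i w y)
    (hsmul' : ∀ (c : 𝕜) w x, ∀ᶠ i in atTop, G i w (c • x) = c * G i w x) :
    ∃ T : W →L[𝕜] StrongDual 𝕜 P, ‖T‖ ≤ K ∧
      ∀ w x v, (∀ᶠ i in atTop, G i w x = v) → T w x = v := by
  set U : Ultrafilter ι := Ultrafilter.of atTop with hU
  have hUle : (U : Filter ι) ≤ atTop := Ultrafilter.of_le atTop
  choose g hg using fun w x => exists_ulim U (fun i => hbd i w x)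
  have uniq : ∀ w x v, Tendsto (fun i => G i w x) U (𝓝 v) → g w x = v := fun w x v hv =>
    tendsto_nhds_unique (hg w x) hv
  have g1 : ∀ w w' x, g (w + w') x = g w x + g w' x := by
    intro w w' x
    apply uniq
    simp only [hadd]
    exact (hg w x).add (hg w' x)
  have g2 : ∀ (c : 𝕜) w x, g (c • w) x = c * g w x := by
    intro c w x
    apply uniq
    simp only [hsmul]
    exact (hg w x).const_mul c
  have g3 : ∀ w x y, g w (x + y) = g w x + g w y := by
    intro w x y
    apply uniq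
    have : (fun i => G i w x + G i w y) =ᶠ[(U : Filter ι)] fun i => G i w (x + y) := by
      filter_upwards [hUle (hadd' w x y)] with i hi
      exact hi.symm
    exact Tendsto.congr' this ((hg w x).add (hg w y))
  have g4 : ∀ (c : 𝕜) w x, g w (c • x) = c * g w x := by
    intro c w x
    apply uniq
    have : (fun i => c * G i w x) =ᶠ[(U : Filter ι)] fun i => G i w (c • x) := by
      filter_upwards [hUle (hsmul' c w x)] with i hi
      exact hi.symm
    exact Tendsto.congr' this ((hg w x).const_mul c)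
  have g5 : ∀ w x, ‖g w x‖ ≤ K * ‖w‖ * ‖x‖ := by
    intro w x
    exact le_of_tendsto (hg w x).norm (Eventually.of_forall fun i => hbd i w x)
  let L : W →ₗ[𝕜] P →ₗ[𝕜] 𝕜 := LinearMap.mk₂ 𝕜 g g1 g2 g3 g4
  refine ⟨L.mkContinuous₂ K g5, LinearMap.mkContinuous₂_norm_le L hK g5, ?_⟩
  intro w x v hv
  apply uniq
  have : (fun _ : ι => v) =ᶠ[(U : Filter ι)] fun i => G i w x := by
    filter_upwards [hUle hv] with i hi
    exact hi.symm
  exact Tendsto.congr' this tendsto_const_nhds

end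

end Pool.Agent.H52
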