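import Pool.Agent.H52.ExtL
import Pool.Agent.H52.Defs
import Pool.Agent.H52.Ulim

/-!
Extension properties of injective spaces, of `ℒ_∞`-spaces and of duals of `ℒ_1`-spaces.
-/

namespace Pool.Agent.H52

open scoped Topology
open Filter

noncomputable section

universe u

variable {𝕜 : Type} [RCLike 𝕜]

/-- Operators from subspaces of finite dimensional spaces into `Q` extend with constant `c`. -/
def FinExt (Q : Ban.{u} 𝕜) (c : ℝ) : Prop :=
  ∀ (W : Type) [NormedAddCommGroup W] [NormedSpace 𝕜 W] [FiniteDimensional 𝕜 W],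
    HasExt 𝕜 W Q c

/-- Every Banach space embeds isometrically into the dual of some `ℓ¹`. -/
lemma exists_embedding (Q : Ban.{u} 𝕜) : ∃ Γ : Type u,
    Nonempty (Q →ₗᵢ[𝕜] StrongDual 𝕜 (lp (fun _ : Γ => 𝕜) 1)) := by
  classical
  let Γ : Type u := Metric.closedBall (0 : StrongDual 𝕜 Q) 1
  have hΓ : ∀ γ : Γ, ‖(γ : StrongDual 𝕜 Q)‖ ≤ 1 := fun γ => mem_closedBall_zero_iff.1 γ.2
  let L : lp (fun _ : Γ => 𝕜) 1 →L[𝕜] StrongDual 𝕜 Q :=
    lpLift (fun γ : Γ => ContinuousLinearMap.toSpanSingleton 𝕜 (γ : StrongDual 𝕜 Q)) 1 (by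
      intro γ
      rw [ContinuousLinearMap.norm_toSpanSingleton]
      exact hΓ γ)
  have hL : ‖L‖ ≤ 1 := norm_lpLift_le _ zero_le_one _
  refine ⟨Γ, ⟨⟨(L.flip : Q →ₗ[𝕜] StrongDual 𝕜 (lp (fun _ : Γ => 𝕜) 1)), ?_⟩⟩⟩
  intro x
  change ‖L.flip x‖ = ‖x‖
  apply le_antisymm
  · refine (L.flip.le_opNorm x).trans ?_
    rw [ContinuousLinearMap.opNorm_flip]
    calc ‖L‖ * ‖x‖ ≤ 1 * ‖x‖ := by gcongr
      _ = ‖x‖ := one_mul _
  · obtain ⟨g, hg1, hg2⟩ := exists_dual_vector'' 𝕜 x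
    let γ : Γ := ⟨g, by simpa using hg1⟩
    have h1 : L.flip x (lp.single 1 γ (1 : 𝕜)) = g x := by
      rw [ContinuousLinearMap.flip_apply, lpLift_single]
      simp [γ]
    have h2 : ‖L.flip x (lp.single 1 γ (1 : 𝕜))‖ ≤ ‖L.flip x‖ * 1 := by
      refine ((L.flip x).le_opNorm _).trans ?_
      rw [lp.norm_single (by norm_num), norm_one]
    rw [h1, hg2] at h2
    simpa using h2

/-- Injective spaces have the extension property with a fixed constant. -/
theorem IsInjective.finExt {Q : Ban.{u} 𝕜} (hQ : IsInjective Q) : ∃ c, 0 ≤ c ∧ FinExt Q c := by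
  obtain ⟨Γ, ⟨j⟩⟩ := exists_embedding Q
  let W : Ban.{u} 𝕜 := { carrier := StrongDual 𝕜 (lp (fun _ : Γ => 𝕜) 1) }
  let V : Submodule 𝕜 W := LinearMap.range j.toLinearMap
  have hV : IsClosed (V : Set W) := by
    have : (V : Set W) = Set.range j := rfl
    rw [this]
    exact j.isometry.isClosedEmbedding.isClosed_range
  obtain ⟨T', hT'⟩ := hQ W V hV (j.equivRange.symm : V →L[𝕜] Q)
  have hr : ∀ x, T' (j x) = x := by
    intro x
    have := hT' (j.equivRange x)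
    simpa using this
  refine ⟨‖T'‖ * 1 * ‖j.toContinuousLinearMap‖, by positivity, ?_⟩
  intro W' _ _ _
  exact HasExt.retract zero_le_one (hasExt_dual_ell W') j.toContinuousLinearMap T' hr

section linfty

variable {W : Type*} [NormedAddCommGroup W] [NormedSpace 𝕜 W]

lemma hasExt_pi (n : ℕ) : HasExt 𝕜 W (PiLp ⊤ (fun _ : Fin n => 𝕜)) 1 := by
  intro A T
  have h1 : ∀ i : Fin n, ∃ g : StrongDual 𝕜 W, (∀ a : A, g a = T a i) ∧ ‖g‖ ≤ ‖T‖ := by
    intro i
    obtain ⟨g, hg1, hg2⟩ := exists_extension_norm_eq A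
      ((PiLp.proj ⊤ (fun _ : Fin n => 𝕜) i : PiLp ⊤ (fun _ : Fin n => 𝕜) →L[𝕜] 𝕜).comp T)
    refine ⟨g, hg1, ?_⟩
    rw [hg2]
    apply ContinuousLinearMap.opNorm_le_bound _ (norm_nonneg _)
    intro a
    exact (PiLp.norm_apply_le (T a) i).trans (T.le_opNorm a)
  choose g hg1 hg2 using h1
  refine ⟨LinearMap.mkContinuous
    { toFun := fun w => WithLp.toLp ⊤ (fun i => g i w)
      map_add' := fun x y => by
        ext i
        simp
      map_smul' := fun c x => by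
        ext i
        simp } ‖T‖ ?_, ?_, ?_⟩
  · intro w
    rw [PiLp.norm_eq_ciSup]
    apply Real.iSup_le
    · intro i
      exact norm_apply_le_of (hg2 i) w
    · positivity
  · intro a
    ext i
    exact hg1 i a
  · rw [one_mul]
    exact LinearMap.mkContinuous_norm_le _ (norm_nonneg _) _

end linfty

/-- `ℒ_∞`-spaces have the finite dimensional extension property. -/
theorem IsScriptL.finExt {Q : Ban.{u} 𝕜} (hQ : IsScriptL ⊤ Q) : ∃ c, 0 ≤ c ∧ FinExt Q c := by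
  obtain ⟨lam, h⟩ := hQ
  refine ⟨max lam 0, le_max_right _ _, ?_⟩
  intro W _ _ _ A T
  obtain ⟨F, hF, n, φ, hφ⟩ := h (LinearMap.range (T : A →ₗ[𝕜] Q)) inferInstance
  let T1 : A →L[𝕜] F := T.codRestrict F (fun a => hF ⟨a, rfl⟩)
  have hT1 : ‖T1‖ ≤ ‖T‖ := by
    apply ContinuousLinearMap.opNorm_le_bound _ (norm_nonneg _)
    intro a
    exact T.le_opNorm a
  let φ1 : F →L[𝕜] PiLp ⊤ (fun _ : Fin n => 𝕜) := φ
  let φ2 : PiLp ⊤ (fun _ : Fin n => 𝕜) →L[𝕜] F := φ.symm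
  obtain ⟨T2, h1, h2⟩ := hasExt_pi (𝕜 := 𝕜) n A (φ1.comp T1)
  refine ⟨F.subtypeL.comp (φ2.comp T2), ?_, ?_⟩
  · intro a
    simp only [ContinuousLinearMap.comp_apply, h1]
    simp [φ1, φ2, T1]
  · have h3 : ‖F.subtypeL.comp (φ2.comp T2)‖ ≤ ‖φ2.comp T2‖ := by
      apply ContinuousLinearMap.opNorm_le_bound _ (norm_nonneg _)
      intro w
      exact (φ2.comp T2).le_opNorm w
    calc ‖F.subtypeL.comp (φ2.comp T2)‖ ≤ ‖φ2.comp T2‖ := h3
      _ ≤ ‖φ2‖ * ‖T2‖ := ContinuousLinearMap.opNorm_comp_le _ _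
      _ ≤ ‖φ2‖ * (1 * (‖φ1‖ * ‖T‖)) := by
          gcongr
          refine h2.trans ?_
          gcongr
          refine (ContinuousLinearMap.opNorm_comp_le _ _).trans ?_
          gcongr
      _ = (‖φ1‖ * ‖φ2‖) * ‖T‖ := by ring
      _ ≤ max lam 0 * ‖T‖ := by
          gcongr
          exact hφ.trans (le_max_left _ _)

/-- The directed set of finite dimensional subspaces. -/
abbrev FDS (𝕜 : Type) [RCLike 𝕜] (P : Type*) [NormedAddCommGroup P] [NormedSpace 𝕜 P] :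
    Type _ := {E : Submodule 𝕜 P // FiniteDimensional 𝕜 E}

instance (P : Type*) [NormedAddCommGroup P] [NormedSpace 𝕜 P] : IsDirectedOrder (FDS 𝕜 P) :=
  ⟨fun E F => by
    have := E.2
    have := F.2
    exact ⟨⟨E.1 ⊔ F.1, inferInstance⟩, (le_sup_left : E.1 ≤ E.1 ⊔ F.1),
      (le_sup_right : F.1 ≤ E.1 ⊔ F.1)⟩⟩

instance (P : Type*) [NormedAddCommGroup P] [NormedSpace 𝕜 P] : Nonempty (FDS 𝕜 P) :=
  ⟨⟨⊥, inferInstance⟩⟩

lemma eventually_mem {P : Type*} [NormedAddCommGroup P] [NormedSpace 𝕜 P] (x : P) :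
    ∀ᶠ E : FDS 𝕜 P in atTop, x ∈ E.1 := by
  filter_upwards [eventually_ge_atTop (⟨Submodule.span 𝕜 {x}, inferInstance⟩ : FDS 𝕜 P)] with E hE
  exact hE (Submodule.mem_span_singleton_self x)

/-- Duals of `ℒ_1`-spaces have the extension property. -/
theorem IsScriptL.hasExt_dual {P : Ban.{u} 𝕜} (hP : IsScriptL 1 P) :
    ∃ c, 0 ≤ c ∧ ∀ (W : Type*) [NormedAddCommGroup W] [NormedSpace 𝕜 W],
      HasExt 𝕜 W (StrongDual 𝕜 P) c := by
  obtain ⟨lam, h⟩ := hP
  refine ⟨max lam 0, le_max_right _ _, ?_⟩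
  intro W _ _ A T
  choose F hF n φ hφ using fun E : FDS 𝕜 P => h E.1 E.2
  have hext : ∀ E : FDS 𝕜 P, ∃ T' : W →L[𝕜] StrongDual 𝕜 (F E),
      (∀ (a : A) (x : F E), T' a x = T a x) ∧ ‖T'‖ ≤ max lam 0 * ‖T‖ := by
    intro E
    let ψ1 : F E →L[𝕜] lp (fun _ : Fin (n E) => 𝕜) 1 :=
      ((lpPiLpₗᵢ (p := 1) (fun _ : Fin (n E) => 𝕜) 𝕜).symm.toContinuousLinearEquiv :
        PiLp 1 (fun _ : Fin (n E) => 𝕜) →L[𝕜] lp (fun _ : Fin (n E) => 𝕜) 1).comp
        (φ E : F E →L[𝕜] PiLp 1 (fun _ : Fin (n E) => 𝕜))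
    let ψ2 : lp (fun _ : Fin (n E) => 𝕜) 1 →L[𝕜] F E :=
      ((φ E).symm : PiLp 1 (fun _ : Fin (n E) => 𝕜) →L[𝕜] F E).comp
      ((lpPiLpₗᵢ (p := 1) (fun _ : Fin (n E) => 𝕜) 𝕜).toContinuousLinearEquiv :
        lp (fun _ : Fin (n E) => 𝕜) 1 →L[𝕜] PiLp 1 (fun _ : Fin (n E) => 𝕜))
    have hψ : ∀ x, ψ2 (ψ1 x) = x := by
      intro x
      simp [ψ1, ψ2]
    have n1 : ‖ψ1‖ ≤ ‖(φ E : F E →L[𝕜] PiLp 1 (fun _ : Fin (n E) => 𝕜))‖ := by
      apply ContinuousLinearMap.opNorm_le_bound _ (norm_nonneg _)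
      intro x
      have : ‖ψ1 x‖ = ‖φ E x‖ := by
        simp only [ψ1, ContinuousLinearMap.comp_apply]
        exact LinearIsometryEquiv.norm_map _ _
      rw [this]
      exact (φ E : F E →L[𝕜] PiLp 1 (fun _ : Fin (n E) => 𝕜)).le_opNorm x
    have n2 : ‖ψ2‖ ≤ ‖((φ E).symm : PiLp 1 (fun _ : Fin (n E) => 𝕜) →L[𝕜] F E)‖ := by
      apply ContinuousLinearMap.opNorm_le_bound _ (norm_nonneg _)
      intro x
      have : ‖lpPiLpₗᵢ (p := 1) (fun _ : Fin (n E) => 𝕜) 𝕜 x‖ = ‖x‖ :=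
        LinearIsometryEquiv.norm_map _ _
      rw [← this]
      exact ((φ E).symm : PiLp 1 (fun _ : Fin (n E) => 𝕜) →L[𝕜] F E).le_opNorm _
    have hE := HasExt.retract (𝕜 := 𝕜) (W := W) zero_le_one
      (hasExt_dual_ell (S := Fin (n E)) W) (dual ψ2) (dual ψ1) (by
        intro f
        ext x
        simp [hψ])
    obtain ⟨T', h1, h2⟩ := hE A ((dual (F E).subtypeL).comp T)
    refine ⟨T', ?_, ?_⟩
    · intro a x
      rw [h1]
      rfl
    · have h3 : ‖(dual (F E).subtypeL).comp T‖ ≤ ‖T‖ := by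
        refine (ContinuousLinearMap.opNorm_comp_le _ _).trans ?_
        have : ‖dual (F E).subtypeL‖ ≤ 1 :=
          (norm_dual_le _).trans (Submodule.norm_subtypeL_le _)
        calc _ ≤ 1 * ‖T‖ := by gcongr
          _ = ‖T‖ := one_mul _
      have h4 : ‖dual ψ1‖ * 1 * ‖dual ψ2‖ ≤ max lam 0 := by
        rw [mul_one]
        calc ‖dual ψ1‖ * ‖dual ψ2‖ ≤ ‖ψ1‖ * ‖ψ2‖ := by
              gcongr
              · exact norm_dual_le _
              · exact norm_dual_le _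
          _ ≤ _ := mul_le_mul n1 n2 (norm_nonneg _) (norm_nonneg _)
          _ ≤ lam := hφ E
          _ ≤ _ := le_max_left _ _
      refine h2.trans ?_
      gcongr
  choose T' hT1 hT2 using hext
  classical
  have hK : 0 ≤ max lam 0 * ‖T‖ := by positivity
  obtain ⟨L, hL1, hL2⟩ := exists_ulim_bilin
    (fun (E : FDS 𝕜 P) (w : W) (x : P) => if hx : x ∈ F E then T' E w ⟨x, hx⟩ else 0)
    hK (by
      intro E w w' x
      by_cases hx : x ∈ F E <;> simp [hx])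
    (by
      intro E c w x
      by_cases hx : x ∈ F E <;> simp [hx])
    (by
      intro E w x
      by_cases hx : x ∈ F E
      · simp only [hx, dite_true]
        refine ((T' E w).le_opNorm _).trans ?_
        have := norm_apply_le_of (hT2 E) w
        have h1 : ‖(⟨x, hx⟩ : F E)‖ = ‖x‖ := rfl
        rw [h1]
        gcongr
      · simp only [hx, dite_false, norm_zero]
        positivity)
    (by
      intro w x y
      filter_upwards [eventually_mem x, eventually_mem y] with E hx hy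
      have hx' : x ∈ F E := hF E hx
      have hy' : y ∈ F E := hF E hy
      have hxy : x + y ∈ F E := (F E).add_mem hx' hy'
      simp only [hx', hy', hxy, dite_true]
      rw [← map_add]
      rfl)
    (by
      intro c w x
      filter_upwards [eventually_mem x] with E hx
      have hx' : x ∈ F E := hF E hx
      have hcx : c • x ∈ F E := (F E).smul_mem c hx'
      simp only [hx', hcx, dite_true]
      rw [← smul_eq_mul, ← map_smul]
      rfl)
  refine ⟨L, ?_, hL1⟩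
  intro a
  ext x
  apply hL2
  filter_upwards [eventually_mem x] with E hx
  have hx' : x ∈ F E := hF E hx
  simp only [hx', dite_true]
  exact hT1 E a ⟨x, hx'⟩

end

end Pool.Agent.H52
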