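import Pool.Agent.H52.Sum

/-!
The projective, flat, injective and absolutely-pure dimensions take all values.
-/

namespace Pool.Agent.H52

noncomputable section

universe u

variable {𝕜 : Type} [RCLike 𝕜]

lemma least_eq {p : ℕ → Prop} {N : ℕ} (h : p N) (h' : ∀ m < N, ¬ p m) : least p = N := by
  unfold least
  apply le_antisymm
  · exact iInf₂_le N h
  · refine le_iInf₂ fun m hm => ?_
    by_contra hc
    push Not at hc
    exact h' m (by exact_mod_cast hc) hm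

lemma least_top {p : ℕ → Prop} (h : ∀ m, ¬ p m) : least p = ⊤ := by
  unfold least
  simp [h]

section lower

variable {N m : ℕ}

lemma finExt_zero' {Q : Ban.{u} 𝕜} (h : Subsingleton Q) : ∃ c, 0 ≤ c ∧ FinExt Q c :=
  ⟨0, le_refl _, finExt_zero h⟩

lemma not_injective {Y : Ban.{u} 𝕜} (hY : HasBlk Y N) (hm : m < N) :
    ¬ HasRightResolution IsInjective Y m := by
  obtain ⟨N, rfl⟩ : ∃ n, N = n + 1 := ⟨N - 1, by omega⟩
  rintro ⟨Q, ι, d, h, hQ, hz⟩
  exact lower_bound hY h (fun j hj => (hQ j hj).finExt) (by omega) hz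

lemma not_apure {Y : Ban.{u} 𝕜} (hY : HasBlk Y N) (hm : m < N) :
    ¬ HasRightResolution (IsScriptL ⊤) Y m := by
  obtain ⟨N, rfl⟩ : ∃ n, N = n + 1 := ⟨N - 1, by omega⟩
  rintro ⟨Q, ι, d, h, hQ, hz⟩
  exact lower_bound hY h (fun j hj => (hQ j hj).finExt) (by omega) hz

lemma subsingleton_dualBan {X : Ban.{u} 𝕜} (h : Subsingleton X) : Subsingleton (dualBan X) := by
  have : ∀ φ : StrongDual 𝕜 X, φ = 0 := by
    intro φ
    ext x
    rw [Subsingleton.elim x 0, map_zero, map_zero]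
  exact ⟨fun φ ψ => (this φ).trans (this ψ).symm⟩

lemma not_flat {X : Ban.{u} 𝕜} (hY : HasBlk (dualBan X) N) (hm : m < N) :
    ¬ HasLeftResolution (IsScriptL 1) X m := by
  obtain ⟨N, rfl⟩ : ∃ n, N = n + 1 := ⟨N - 1, by omega⟩
  rintro ⟨P, ε, d, h, hP, hz⟩
  refine lower_bound hY h.dual (fun j hj => ?_) (by omega)
    (fun j hj => subsingleton_dualBan (hz j hj))
  obtain ⟨c, hc0, hc⟩ := IsScriptL.hasExt_dual.{u, 0} (hP j hj)
  exact ⟨c, hc0, fun W _ _ _ => hc W⟩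

lemma not_projective {X : Ban.{u} 𝕜} (hY : HasBlk (dualBan X) N) (hm : m < N) :
    ¬ HasLeftResolution IsEllOne X m := by
  rintro ⟨P, ε, d, h, hP, hz⟩
  exact not_flat hY hm ⟨P, ε, d, h, fun j hj => (hP j hj).isScriptL, hz⟩

end lower

lemma exists_small {η : ℝ} (hη : 0 < η) : ∃ k : ℕ, 1 / ((k : ℝ) + 1) ≤ η := by
  obtain ⟨k, hk⟩ := exists_nat_one_div_lt hη
  exact ⟨k, hk.le⟩

/-- a space with resolutions of length `N` and with the blocks forcing the length `N` -/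
theorem exists_space (𝕜 : Type) [RCLike 𝕜] (N : ℕ) : ∃ X : Ban.{u} 𝕜, HasBlk (dualBan X) N ∧
    ∃ (P : ℕ → Ban.{u} 𝕜) (ε : P 0 →L[𝕜] X) (d : ∀ j, P (j + 1) →L[𝕜] P j),
      LeftExact X P ε d ∧ (∀ j, IsEllOne (P j)) ∧ ∀ j > N, Subsingleton (P j) := by
  obtain ⟨C, hC, h⟩ := exists_cx N
  let X : ∀ k : ULift.{u} ℕ, Cx N C (1 / ((k.down : ℝ) + 1)) := fun k =>
    (h _ (by positivity)).some
  refine ⟨bigX 𝕜 X, ?_, bigX_resolution hC X⟩
  refine ⟨C, hC, fun η hη => ?_⟩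
  obtain ⟨k, hk⟩ := exists_small hη
  obtain ⟨i, r, h1, h2, h3⟩ := hasBlk_bigX (𝕜 := 𝕜) X ⟨k⟩
  exact ⟨_, X ⟨k⟩, i, r, hk, h1, h2, h3⟩

/-- a space with blocks of all lengths -/
theorem exists_space_top (𝕜 : Type) [RCLike 𝕜] :
    ∃ X : Ban.{u} 𝕜, ∀ N, HasBlk (dualBan X) N := by
  choose C hC h using exists_cx
  let X : ∀ k : ULift.{u} (ℕ × ℕ), Cx k.down.1 (C k.down.1) (1 / ((k.down.2 : ℝ) + 1)) :=
    fun k => (h _ _ (by positivity)).some
  refine ⟨bigX 𝕜 X, fun N => ⟨C N, hC N, fun η hη => ?_⟩⟩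
  obtain ⟨k, hk⟩ := exists_small hη
  obtain ⟨i, r, h1, h2, h3⟩ := hasBlk_bigX (𝕜 := 𝕜) X ⟨(N, k)⟩
  exact ⟨_, X ⟨(N, k)⟩, i, r, hk, h1, h2, h3⟩

theorem range_pd (𝕜 : Type) [RCLike 𝕜] : Set.range (fun X : Ban.{u} 𝕜 => pd X) = Set.univ := by
  rw [Set.eq_univ_iff_forall]
  intro v
  induction v using ENat.recTopCoe with
  | top =>
    obtain ⟨X, hX⟩ := exists_space_top.{u} 𝕜
    exact ⟨X, least_top fun m => not_projective (hX (m + 1)) (Nat.lt_succ_self m)⟩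
  | coe N =>
    obtain ⟨X, hX, P, ε, d, h1, h2, h3⟩ := exists_space.{u} 𝕜 N
    exact ⟨X, least_eq ⟨P, ε, d, h1, fun j _ => h2 j, h3⟩ fun m hm => not_projective hX hm⟩

theorem range_fd (𝕜 : Type) [RCLike 𝕜] : Set.range (fun X : Ban.{u} 𝕜 => fd X) = Set.univ := by
  rw [Set.eq_univ_iff_forall]
  intro v
  induction v using ENat.recTopCoe with
  | top =>
    obtain ⟨X, hX⟩ := exists_space_top.{u} 𝕜
    exact ⟨X, least_top fun m => not_flat (hX (m + 1)) (Nat.lt_succ_self m)⟩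
  | coe N =>
    obtain ⟨X, hX, P, ε, d, h1, h2, h3⟩ := exists_space.{u} 𝕜 N
    exact ⟨X, least_eq ⟨P, ε, d, h1, fun j _ => (h2 j).isScriptL, h3⟩
      fun m hm => not_flat hX hm⟩

theorem range_injDim (𝕜 : Type) [RCLike 𝕜] :
    Set.range (fun X : Ban.{u} 𝕜 => injDim X) = Set.univ := by
  rw [Set.eq_univ_iff_forall]
  intro v
  induction v using ENat.recTopCoe with
  | top =>
    obtain ⟨X, hX⟩ := exists_space_top.{u} 𝕜
    exact ⟨dualBan X, least_top fun m => not_injective (hX (m + 1)) (Nat.lt_succ_self m)⟩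
  | coe N =>
    obtain ⟨X, hX, P, ε, d, h1, h2, h3⟩ := exists_space.{u} 𝕜 N
    exact ⟨dualBan X, least_eq ⟨_, _, _, h1.dual, fun j _ => (h2 j).isInjective_dual,
      fun j hj => subsingleton_dualBan (h3 j hj)⟩ fun m hm => not_injective hX hm⟩

theorem range_apd (𝕜 : Type) [RCLike 𝕜] :
    Set.range (fun X : Ban.{u} 𝕜 => apd X) = Set.univ := by
  rw [Set.eq_univ_iff_forall]
  intro v
  induction v using ENat.recTopCoe with
  | top =>
    obtain ⟨X, hX⟩ := exists_space_top.{u} 𝕜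
    exact ⟨dualBan X, least_top fun m => not_apure (hX (m + 1)) (Nat.lt_succ_self m)⟩
  | coe N =>
    obtain ⟨X, hX, P, ε, d, h1, h2, h3⟩ := exists_space.{u} 𝕜 N
    exact ⟨dualBan X, least_eq ⟨_, _, _, h1.dual, fun j _ => (h2 j).isScriptL_dual,
      fun j hj => subsingleton_dualBan (h3 j hj)⟩ fun m hm => not_apure hX hm⟩

end

end Pool.Agent.H52
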