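import Pool.Agent.H52.Mix

/-!
The spectral gap of the averaging operator over moment vectors.
-/

namespace Pool.Agent.H52

open Finset

noncomputable section

section pairs

set_option linter.unusedSectionVars false

variable {ι T : Type*} [Fintype ι] [Fintype T]

lemma avg_pair [DecidableEq ι] [Nonempty T] {l l' : ι} (hl : l ≠ l') (F : T → T → ℝ) :
    avg (fun ω : ι → T => F (ω l) (ω l')) = avg (fun x => avg (fun y => F x y)) := by
  classical
  rw [← avg_equiv (Equiv.funSplitAt l T).symm]
  have : (fun q : T × ({ j // j ≠ l } → T) => F ((Equiv.funSplitAt l T).symm q l)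
      ((Equiv.funSplitAt l T).symm q l')) =
      fun q => (fun a (r : { j // j ≠ l } → T) => F a (r ⟨l', hl.symm⟩)) q.1 q.2 := by
    funext q
    simp [Equiv.funSplitAt, hl.symm]
  rw [this]
  refine (avg_prod (fun (a : T) (r : { j // j ≠ l } → T) => F a (r ⟨l', hl.symm⟩))).trans ?_
  apply avg_congr
  intro a
  exact avg_coord (⟨l', hl.symm⟩ : { j // j ≠ l }) (F a)

open Classical in
/-- the indicator of noninjectivity -/
def nonInj {ι T : Type*} (a : ι → T) : ℝ := if Function.Injective a then 0 else 1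

lemma nonInj_nonneg (a : ι → T) : 0 ≤ nonInj a := by
  unfold nonInj
  split_ifs <;> norm_num

lemma nonInj_sq (a : ι → T) : nonInj a ^ 2 = nonInj a := by
  unfold nonInj
  split_ifs <;> norm_num

lemma nonInj_le [DecidableEq ι] [DecidableEq T] (a : ι → T) :
    nonInj a ≤ ∑ i, ∑ j, (if i ≠ j ∧ a i = a j then (1 : ℝ) else 0) := by
  unfold nonInj
  split_ifs with h
  · positivity
  · simp only [Function.Injective, not_forall] at h
    obtain ⟨i, j, h1, h2⟩ := h
    calc (1 : ℝ) = if i ≠ j ∧ a i = a j then (1 : ℝ) else 0 := by rw [if_pos ⟨h2, h1⟩]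
      _ ≤ ∑ j, (if i ≠ j ∧ a i = a j then (1 : ℝ) else 0) :=
        Finset.single_le_sum (f := fun j => if i ≠ j ∧ a i = a j then (1 : ℝ) else 0)
          (fun j _ => by positivity) (Finset.mem_univ j)
      _ ≤ _ := Finset.single_le_sum
          (f := fun i => ∑ j, (if i ≠ j ∧ a i = a j then (1 : ℝ) else 0))
          (fun j _ => by positivity) (Finset.mem_univ i)

lemma avg_ind_eq [DecidableEq T] [Nonempty T] (x : T) :
    avg (fun y : T => if x = y then (1 : ℝ) else 0) = 1 / Fintype.card T := by
  simp [avg]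

lemma avg_nonInj [DecidableEq ι] [Nonempty T] :
    avg (fun a : ι → T => nonInj a) ≤ (Fintype.card ι : ℝ) ^ 2 / Fintype.card T := by
  classical
  have h1 : avg (fun a : ι → T => nonInj a) ≤
      avg (fun a : ι → T => ∑ i, ∑ j, (if i ≠ j ∧ a i = a j then (1 : ℝ) else 0)) :=
    avg_mono fun a => nonInj_le a
  refine h1.trans ?_
  rw [avg_sum]
  simp only [avg_sum]
  have h2 : ∀ i j : ι, avg (fun a : ι → T => if i ≠ j ∧ a i = a j then (1 : ℝ) else 0) ≤
      1 / Fintype.card T := by
    intro i j
    by_cases hij : i = j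
    · subst hij
      have : (fun a : ι → T => if i ≠ i ∧ a i = a i then (1 : ℝ) else 0) = fun _ => 0 := by
        funext a
        simp
      rw [this, avg_const]
      positivity
    · have h3 : (fun a : ι → T => if i ≠ j ∧ a i = a j then (1 : ℝ) else 0) =
          fun a => (fun x y => if x = y then (1 : ℝ) else 0) (a i) (a j) := by
        funext a
        simp [hij]
      rw [h3]
      refine (avg_pair hij (fun x y : T => if x = y then (1 : ℝ) else 0)).le.trans ?_
      simp only [avg_ind_eq, avg_const]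
      exact le_refl _
  calc ∑ i : ι, ∑ j : ι, avg (fun a : ι → T => if i ≠ j ∧ a i = a j then (1 : ℝ) else 0)
      ≤ ∑ _i : ι, ∑ _j : ι, 1 / (Fintype.card T : ℝ) :=
        Finset.sum_le_sum fun i _ => Finset.sum_le_sum fun j _ => h2 i j
    _ = _ := by
        simp
        ring

end pairs

section gap

variable {p D : ℕ} [Fact p.Prime]

lemma sum_s_eq (a b : Fin D → ZMod p) :
    (∑ i, s p D (a i, b i)) = Matrix.vecMul b (Matrix.vandermonde a) := by
  funext j
  simp [s, Matrix.vecMul, dotProduct, Matrix.vandermonde]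

lemma bij_of_inj {a : Fin D → ZMod p} (ha : Function.Injective a) :
    Function.Bijective (fun b : Fin D → ZMod p => Matrix.vecMul b (Matrix.vandermonde a)) := by
  rw [← Finite.injective_iff_bijective]
  apply Matrix.vecMul_injective_of_isUnit
  rw [Matrix.isUnit_iff_isUnit_det]
  exact isUnit_iff_ne_zero.2 (Matrix.det_vandermonde_ne_zero_iff.2 ha)

lemma QI_D (f : (Fin D → ZMod p) → ℝ) (v : Fin D → ZMod p) :
    QI p D (Fin D) f v = avg (fun a : Fin D → ZMod p => avg (fun b : Fin D → ZMod p =>
      f (v + ∑ i, s p D (a i, b i)))) := by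
  unfold QI
  rw [← avg_equiv (Equiv.arrowProdEquivProdArrow (Fin D) (fun _ => ZMod p)
    (fun _ => ZMod p)).symm]
  refine Eq.trans ?_ (avg_prod (fun a b : Fin D → ZMod p =>
      f (v + ∑ i, s p D (a i, b i))))
  rfl

lemma QI_D_le (f : (Fin D → ZMod p) → ℝ) (hf : avg f = 0) :
    avg (fun v => QI p D (Fin D) f v ^ 2) ≤ ((D : ℝ) ^ 2 / p) * avg (fun v => f v ^ 2) := by
  classical
  let h : (Fin D → ZMod p) → (Fin D → ZMod p) → ℝ := fun a v =>
    avg (fun b : Fin D → ZMod p => f (v + ∑ i, s p D (a i, b i)))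
  have h1 : ∀ v, QI p D (Fin D) f v = avg (fun a => nonInj a * h a v) := by
    intro v
    rw [QI_D]
    apply avg_congr
    intro a
    by_cases ha : Function.Injective a
    · have e : avg (fun b : Fin D → ZMod p => f (v + ∑ i, s p D (a i, b i))) = 0 := by
        simp only [sum_s_eq]
        have := avg_equiv (Equiv.ofBijective _ (bij_of_inj ha)) (fun w => f (v + w))
        simp only [Equiv.ofBijective_apply] at this
        rw [this]
        have h3 := avg_shift f v
        rw [hf] at h3
        rw [← h3]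
        apply avg_congr
        intro w
        rw [add_comm]
      rw [e, nonInj, if_pos ha, zero_mul]
    · rw [nonInj, if_neg ha, one_mul]
  have h2 : ∀ v, QI p D (Fin D) f v ^ 2 ≤
      avg (fun a : Fin D → ZMod p => nonInj a) * avg (fun a => h a v ^ 2) := by
    intro v
    have h3 := avg_mul_le (fun a => nonInj a) (fun a => h a v)
    have h4 := avg_mul_le (fun a => nonInj a) (fun a => - h a v)
    simp only [mul_neg, neg_sq, nonInj_sq] at h3 h4
    have h5 : avg (fun a : Fin D → ZMod p => -(nonInj a * h a v)) = - QI p D (Fin D) f v := by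
      rw [h1]
      have := avg_const_mul (-1) (fun a => nonInj a * h a v)
      simpa using this
    rw [h5] at h4
    rw [← h1] at h3
    have h6 : |QI p D (Fin D) f v| ≤ √(avg fun a : Fin D → ZMod p => nonInj a) *
        √(avg fun a => h a v ^ 2) := abs_le'.2 ⟨h3, h4⟩
    have h7 : 0 ≤ avg (fun a : Fin D → ZMod p => nonInj a) := avg_nonneg fun a => nonInj_nonneg a
    have h8 : 0 ≤ avg (fun a => h a v ^ 2) := avg_nonneg fun a => sq_nonneg _
    calc QI p D (Fin D) f v ^ 2 = |QI p D (Fin D) f v| ^ 2 := (sq_abs _).symm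
      _ ≤ (√(avg fun a : Fin D → ZMod p => nonInj a) * √(avg fun a => h a v ^ 2)) ^ 2 := by
        gcongr
      _ = _ := by rw [mul_pow, Real.sq_sqrt h7, Real.sq_sqrt h8]
  have h9 : ∀ a, avg (fun v => h a v ^ 2) ≤ avg (fun v => f v ^ 2) := by
    intro a
    calc avg (fun v => h a v ^ 2)
        ≤ avg (fun v => avg (fun b : Fin D → ZMod p => f (v + ∑ i, s p D (a i, b i)) ^ 2)) :=
          avg_mono fun v => sq_avg_le _
      _ = avg (fun b : Fin D → ZMod p => avg (fun v => f (v + ∑ i, s p D (a i, b i)) ^ 2)) :=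
          avg_comm _
      _ = avg (fun b : Fin D → ZMod p => avg (fun v => f v ^ 2)) := by
          apply avg_congr
          intro b
          exact avg_shift (fun v => f v ^ 2) _
      _ = _ := avg_const _
  have h10 : avg (fun a : Fin D → ZMod p => nonInj a) ≤ (D : ℝ) ^ 2 / p := by
    have := avg_nonInj (ι := Fin D) (T := ZMod p)
    simpa [ZMod.card] using this
  have h11 : 0 ≤ avg (fun v => f v ^ 2) := avg_nonneg fun v => sq_nonneg _
  calc avg (fun v => QI p D (Fin D) f v ^ 2)
      ≤ avg (fun v => avg (fun a : Fin D → ZMod p => nonInj a) * avg (fun a => h a v ^ 2)) :=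
        avg_mono h2
    _ = avg (fun a : Fin D → ZMod p => nonInj a) * avg (fun v => avg (fun a => h a v ^ 2)) :=
        avg_const_mul _ _
    _ = avg (fun a : Fin D → ZMod p => nonInj a) * avg (fun a => avg (fun v => h a v ^ 2)) := by
        rw [avg_comm]
    _ ≤ avg (fun a : Fin D → ZMod p => nonInj a) * avg (fun v => f v ^ 2) := by
        have : avg (fun a => avg (fun v => h a v ^ 2)) ≤ avg (fun v => f v ^ 2) := by
          calc _ ≤ avg (fun _ : Fin D → ZMod p => avg (fun v => f v ^ 2)) := avg_mono h9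
            _ = _ := avg_const _
        have h12 : 0 ≤ avg (fun a : Fin D → ZMod p => nonInj a) :=
          avg_nonneg fun a => nonInj_nonneg a
        gcongr
    _ ≤ _ := by gcongr

lemma Q1_sub_const (f : (Fin D → ZMod p) → ℝ) (c : ℝ) (v : Fin D → ZMod p) :
    Q1 p D (fun w => f w - c) v = Q1 p D f v - c := by
  unfold Q1
  rw [avg_sub (fun t => f (v + s p D t)) (fun _ => c), avg_const]

/-- The spectral gap of `Q1`. -/
lemma Q1_gap {j : ℕ} (hD : D = 2 ^ j) {lam : ℝ} (hlam : 0 ≤ lam)
    (hp : (D : ℝ) ^ 2 / p ≤ lam ^ (2 * D)) (f : (Fin D → ZMod p) → ℝ) :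
    avg (fun v => (Q1 p D f v - avg f) ^ 2) ≤ lam ^ 2 * avg (fun v => f v ^ 2) := by
  set g : (Fin D → ZMod p) → ℝ := fun w => f w - avg f with hg
  have hg0 : avg g = 0 := by
    rw [hg, avg_sub f (fun _ => avg f), avg_const, sub_self]
  have h1 : avg (fun v => (Q1 p D f v - avg f) ^ 2) = n2 (Q1 p D g) ^ 2 := by
    rw [n2_sq]
    apply avg_congr
    intro v
    rw [hg, Q1_sub_const]
  have h2 : n2 g ^ 2 ≤ avg (fun v => f v ^ 2) := by
    rw [n2_sq, hg]
    have : avg (fun v => (f v - avg f) ^ 2) = avg (fun v => f v ^ 2) - avg f ^ 2 := by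
      have e : (fun v => (f v - avg f) ^ 2) =
          fun v => (f v ^ 2 + (-2 * avg f) * f v) + avg f ^ 2 := by
        funext v
        ring
      rw [e, avg_add, avg_add, avg_const, avg_const_mul]
      ring
    rw [this]
    nlinarith [sq_nonneg (avg f)]
  have hD0 : D ≠ 0 := by rw [hD]; positivity
  have h3 : n2 (Q1 p D g) ≤ lam * n2 g := by
    rcases (n2_nonneg g).eq_or_lt with h0 | h0
    · have hz : avg (fun v => g v ^ 2) = 0 := by rw [← n2_sq, ← h0]; norm_num
      have hz' : ∀ v, g v = 0 := by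
        have : ∑ v, g v ^ 2 = 0 := by
          unfold avg at hz
          have hc : ((Fintype.card (Fin D → ZMod p) : ℕ) : ℝ) ≠ 0 := by
            exact_mod_cast Fintype.card_ne_zero
          rcases div_eq_zero_iff.1 hz with h | h
          · exact h
          · exact absurd h hc
        intro v
        have := (Finset.sum_eq_zero_iff_of_nonneg (fun v _ => sq_nonneg (g v))).1 this v
          (Finset.mem_univ v)
        exact pow_eq_zero_iff (two_ne_zero) |>.1 this
      have : n2 (Q1 p D g) = 0 := by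
        unfold n2 Q1
        simp [hz', avg]
      rw [this]
      positivity
    · have h4 := QI_pow (p := p) (D := D) g j
      rw [← hD] at h4
      have h5 : n2 (QI p D (Fin D) g) ≤ lam ^ D * n2 g := by
        have h7 : n2 (QI p D (Fin D) g) ^ 2 ≤ (lam ^ D * n2 g) ^ 2 := by
          rw [n2_sq]
          calc avg (fun v => QI p D (Fin D) g v ^ 2)
              ≤ ((D : ℝ) ^ 2 / p) * avg (fun v => g v ^ 2) := QI_D_le g hg0
            _ ≤ lam ^ (2 * D) * avg (fun v => g v ^ 2) := by
              have := avg_nonneg (fun v => sq_nonneg (g v))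
              gcongr
            _ = (lam ^ D * n2 g) ^ 2 := by rw [← n2_sq]; ring
        have h8 : 0 ≤ lam ^ D * n2 g := by positivity
        exact le_of_sq_le_sq h7 h8
      have h9 : n2 (Q1 p D g) ^ D * n2 g ≤ (lam * n2 g) ^ D * n2 g := by
        calc n2 (Q1 p D g) ^ D * n2 g ≤ n2 (QI p D (Fin D) g) * n2 g ^ D := h4
          _ ≤ (lam ^ D * n2 g) * n2 g ^ D := by gcongr
          _ = _ := by ring
      have h10 := le_of_mul_le_mul_right h9 h0
      exact le_of_pow_le_pow_left₀ hD0 (by positivity) h10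
  rw [h1]
  calc n2 (Q1 p D g) ^ 2 ≤ (lam * n2 g) ^ 2 := by
        have := n2_nonneg (Q1 p D g)
        gcongr
    _ = lam ^ 2 * n2 g ^ 2 := by ring
    _ ≤ _ := by gcongr

/-- The translations `s (ω l)` form a mixing family. -/
theorem mixing_s {j m : ℕ} (hD : D = 2 ^ j) {lam : ℝ} (hlam : 0 ≤ lam)
    (hp : (D : ℝ) ^ 2 / p ≤ lam ^ (2 * D)) :
    Mixing (m := m) (fun (ω : Fin m → ZMod p × ZMod p) l => s p D (ω l)) (Q1 p D) lam where
  one l f v := by
    exact avg_coord (T := ZMod p × ZMod p) l (fun t => f (v + s p D t))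
  two l l' hl f g v := by
    exact avg_coord_two (T := ZMod p × ZMod p) hl (fun t => f (v + s p D t))
      (fun t => g (v + s p D t))
  gap f := Q1_gap hD hlam hp f

end gap

end

end Pool.Agent.H52
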