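import Pool.Agent.H52.Cert

/-!
The finite key lemma.
-/

namespace Pool.Agent.H52

open Finset

noncomputable section

lemma exists_coords (E : Type*) [NormedAddCommGroup E] [NormedSpace ℝ E]
    [FiniteDimensional ℝ E] :
    ∃ (d : ℕ) (φ : Fin d → E →ₗ[ℝ] ℝ) (K : ℝ), 0 ≤ K ∧ (∀ y, ‖y‖ ≤ ∑ i, |φ i y|) ∧
      ∀ i y, |φ i y| ≤ K * ‖y‖ := by
  let b := Module.finBasis ℝ E
  let φ : Fin (Module.finrank ℝ E) → E →ₗ[ℝ] ℝ := fun i => ‖b i‖ • b.coord i
  refine ⟨_, φ, ∑ i, ‖LinearMap.toContinuousLinearMap (φ i)‖, ?_, ?_, ?_⟩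
  · positivity
  · intro y
    calc ‖y‖ = ‖∑ i, b.repr y i • b i‖ := by rw [b.sum_repr]
      _ ≤ ∑ i, ‖b.repr y i • b i‖ := norm_sum_le _ _
      _ = ∑ i, |φ i y| := by
        apply Finset.sum_congr rfl
        intro i _
        simp [φ, norm_smul, abs_mul, mul_comm]
  · intro i y
    have h1 : |φ i y| ≤ ‖LinearMap.toContinuousLinearMap (φ i)‖ * ‖y‖ :=
      (LinearMap.toContinuousLinearMap (φ i)).le_opNorm y
    refine h1.trans ?_
    gcongr
    exact Finset.single_le_sum (f := fun i => ‖LinearMap.toContinuousLinearMap (φ i)‖)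
      (fun _ _ => norm_nonneg _) (Finset.mem_univ i)

/-- The data produced by the key lemma. -/
structure KLData (E : Type*) [NormedAddCommGroup E] [NormedSpace ℝ E] (η : ℝ) where
  A : Type
  B : Type
  fA : Fintype A
  fB : Fintype B
  dA : DecidableEq A
  dB : DecidableEq B
  nA : Nonempty A
  J : B → A → ℝ
  J_le : ∀ a, ∑ b, |J b a| ≤ 2
  J_ge : ∀ x : A → E, ∑ a, ‖x a‖ ≤ 1000 * ∑ b, ‖∑ a, J b a • x a‖
  u : A → A → ℝ
  M : B → ℝ
  u_diag : ∀ a, u a a = 1
  u_le : ∀ a a', |u a a'| ≤ 1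
  hM : ∀ b a, |∑ a', J b a' * u a' a| ≤ M b
  sum_M : ∑ b, M b ≤ η * Fintype.card A

section construct

variable {p D : ℕ} [Fact p.Prime] {m : ℕ}

/-- the matrix -/
def JJ (p D m : ℕ) [NeZero p] (b : (Fin m → ZMod p × ZMod p) × (Fin D → ZMod p))
    (a : Fin D → ZMod p) : ℝ :=
  (Fintype.card (Fin m → ZMod p × ZMod p) : ℝ)⁻¹ *
    ((m : ℝ)⁻¹ * ∑ l, (if a = b.2 + s p D (b.1 l) then 1 else 0) - (if a = b.2 then 1 / 4 else 0))

lemma JJ_smul {E : Type*} [AddCommGroup E] [Module ℝ E]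
    (x : (Fin D → ZMod p) → E) (b : (Fin m → ZMod p × ZMod p) × (Fin D → ZMod p)) :
    ∑ a, JJ p D m b a • x a = (Fintype.card (Fin m → ZMod p × ZMod p) : ℝ)⁻¹ •
      ((m : ℝ)⁻¹ • (∑ l, x (b.2 + s p D (b.1 l))) - (1 / 4 : ℝ) • x b.2) := by
  classical
  simp only [JJ, mul_smul, sub_smul, ← Finset.smul_sum, Finset.sum_sub_distrib, Finset.sum_smul]
  congr 2
  · congr 1
    rw [Finset.sum_comm]
    apply Finset.sum_congr rfl
    intro l _
    simp
  · simp [ite_smul]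

lemma JJ_abs (hm : 0 < m) (a : Fin D → ZMod p) : ∑ b, |JJ p D m b a| ≤ 2 := by
  classical
  have hm' : (0 : ℝ) < m := by exact_mod_cast hm
  have hc : (0 : ℝ) < Fintype.card (Fin m → ZMod p × ZMod p) := by
    exact_mod_cast Fintype.card_pos
  have h1 : ∀ b : (Fin m → ZMod p × ZMod p) × (Fin D → ZMod p), |JJ p D m b a| ≤
      (Fintype.card (Fin m → ZMod p × ZMod p) : ℝ)⁻¹ *
      ((m : ℝ)⁻¹ * ∑ l, (if b.2 = a - s p D (b.1 l) then 1 else 0) +
        (if b.2 = a then 1 / 4 else 0)) := by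
    intro b
    unfold JJ
    rw [abs_mul, abs_of_nonneg (inv_nonneg.2 hc.le)]
    gcongr
    refine (abs_sub _ _).trans ?_
    have e1 : ∀ l, (a = b.2 + s p D (b.1 l)) ↔ b.2 = a - s p D (b.1 l) := by
      intro l
      rw [eq_sub_iff_add_eq, eq_comm]
    simp only [e1, eq_comm (a := a)]
    apply add_le_add
    · rw [abs_of_nonneg]
      have : 0 ≤ ∑ l, (if b.2 = a - s p D (b.1 l) then (1 : ℝ) else 0) :=
        Finset.sum_nonneg fun l _ => by positivity
      positivity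
    · rw [abs_of_nonneg]
      positivity
  refine (Finset.sum_le_sum fun b _ => h1 b).trans ?_
  rw [← Finset.mul_sum, Fintype.sum_prod_type]
  have h2 : ∀ ω : Fin m → ZMod p × ZMod p, ∑ v : Fin D → ZMod p,
      ((m : ℝ)⁻¹ * ∑ l, (if v = a - s p D (ω l) then 1 else 0) +
        (if v = a then 1 / 4 else 0)) = 5 / 4 := by
    intro ω
    rw [Finset.sum_add_distrib, ← Finset.mul_sum, Finset.sum_comm]
    simp only [Finset.sum_ite_eq', Finset.mem_univ, if_true, sum_const, card_univ,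
      Fintype.card_fin, nsmul_eq_mul, mul_one]
    rw [inv_mul_cancel₀ hm'.ne']
    norm_num
  simp only [h2, sum_const, card_univ, nsmul_eq_mul]
  rw [← mul_assoc, inv_mul_cancel₀ hc.ne']
  norm_num

end construct

theorem exists_KLData (E : Type*) [NormedAddCommGroup E] [NormedSpace ℝ E]
    [FiniteDimensional ℝ E] {η : ℝ} (hη : 0 < η) : Nonempty (KLData E η) := by
  obtain ⟨d, φ, K, hK, hφ1, hφ2⟩ := exists_coords E
  obtain ⟨R, hR⟩ : ∃ R : ℕ, (1 / 4 : ℝ) ^ (R + 1) ≤ η / 4 := by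
    obtain ⟨n, hn⟩ := exists_pow_lt_of_lt_one (show 0 < η / 4 by positivity)
      (show (1 / 4 : ℝ) < 1 by norm_num)
    refine ⟨n, le_trans ?_ hn.le⟩
    exact pow_le_pow_of_le_one (by norm_num) (by norm_num) (Nat.le_succ n)
  obtain ⟨m, hm⟩ : ∃ m : ℕ, 4 * (R + 1) / η < m := exists_nat_gt _
  have hm0 : (0 : ℝ) < m := lt_of_le_of_lt (by positivity) hm
  have hm1 : 0 < m := by exact_mod_cast hm0
  have hm2 : ((R : ℝ) + 1) / m ≤ η / 4 := by
    rw [div_le_iff₀ hm0]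
    rw [div_lt_iff₀ hη] at hm
    linarith
  set D : ℕ := 2 ^ (2 * R + 2) with hD
  have hRD : 2 * R + 2 ≤ D := (Nat.lt_two_pow_self (n := 2 * R + 2)).le
  obtain ⟨lam, hlam0, hlam1, hlam2⟩ : ∃ lam : ℝ, 0 < lam ∧ lam ≤ 1 / (8000 * m) ∧
      d * K * lam * √(8000 * m) ≤ 1 / 2000 := by
    have h1 : 0 ≤ d * K * √(8000 * m) := by positivity
    refine ⟨min (1 / (8000 * m)) (1 / (2000 * (d * K * √(8000 * m) + 1))), ?_, ?_, ?_⟩
    · positivity
    · exact min_le_left _ _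
    · have h2 := min_le_right (1 / (8000 * (m : ℝ))) (1 / (2000 * (d * K * √(8000 * m) + 1)))
      set t := min (1 / (8000 * (m : ℝ))) (1 / (2000 * (d * K * √(8000 * m) + 1)))
      calc d * K * t * √(8000 * m)
          = (d * K * √(8000 * m)) * t := by ring
        _ ≤ (d * K * √(8000 * m)) * (1 / (2000 * (d * K * √(8000 * m) + 1))) := by
          gcongr
        _ ≤ 1 / 2000 := by
          rw [mul_one_div, div_le_div_iff₀ (by positivity) (by norm_num)]
          linarith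
  obtain ⟨N1, hN1⟩ : ∃ N : ℕ, (D : ℝ) ^ 2 / lam ^ (2 * D) < N := exists_nat_gt _
  obtain ⟨N2, hN2⟩ : ∃ N : ℕ, ((m : ℝ) ^ 2 + m) / (η / 2) < N := exists_nat_gt _
  obtain ⟨p, hp, hpp⟩ := Nat.exists_infinite_primes (N1 + N2 + 1)
  have : Fact p.Prime := ⟨hpp⟩
  have hp0 : (0 : ℝ) < p := by exact_mod_cast hpp.pos
  have hpN1 : (N1 : ℝ) ≤ p := by exact_mod_cast (by omega : N1 ≤ p)
  have hpN2 : (N2 : ℝ) ≤ p := by exact_mod_cast (by omega : N2 ≤ p)
  have hgap : (D : ℝ) ^ 2 / p ≤ lam ^ (2 * D) := by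
    rw [div_le_iff₀ hp0]
    have : (D : ℝ) ^ 2 / lam ^ (2 * D) ≤ p := hN1.le.trans hpN1
    rw [div_le_iff₀ (by positivity)] at this
    linarith
  have hbad : ((m : ℝ) ^ 2 + m) / p ≤ η / 2 := by
    rw [div_le_iff₀ hp0]
    have : ((m : ℝ) ^ 2 + m) / (η / 2) ≤ p := hN2.le.trans hpN2
    rw [div_le_iff₀ (by positivity)] at this
    linarith
  have hmix := mixing_s (p := p) (m := m) hD hlam0.le hgap
  have hc : (0 : ℝ) < Fintype.card (Fin m → ZMod p × ZMod p) := by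
    exact_mod_cast Fintype.card_pos
  have hcG : (0 : ℝ) < Fintype.card (Fin D → ZMod p) := by
    exact_mod_cast Fintype.card_pos
  refine ⟨{
    A := Fin D → ZMod p
    B := (Fin m → ZMod p × ZMod p) × (Fin D → ZMod p)
    fA := inferInstance
    fB := inferInstance
    dA := inferInstance
    dB := inferInstance
    nA := inferInstance
    J := JJ p D m
    J_le := JJ_abs hm1
    J_ge := ?_
    u := fun v v' => F p D R (v - v')
    M := fun b => (Fintype.card (Fin m → ZMod p × ZMod p) : ℝ)⁻¹ *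
      ((1 / 4 : ℝ) ^ (R + 1) + (R + 1) / m + bad b.1)
    u_diag := ?_
    u_le := ?_
    hM := ?_
    sum_M := ?_ }⟩
  · intro x
    have h1 := key_lower hm1 hmix hlam0.le hlam1 hK φ hφ1 hφ2 hlam2 x
    have h2 : ∑ b, ‖∑ a, JJ p D m b a • x a‖ = Fintype.card (Fin D → ZMod p) *
        avg (fun ω => avg (fun v => ‖P (fun (ω : Fin m → ZMod p × ZMod p) l => s p D (ω l)) x ω v -
          (1 / 4 : ℝ) • x v‖)) := by
      rw [Fintype.sum_prod_type]
      simp only [JJ_smul, norm_smul, norm_inv, Real.norm_natCast, P]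
      simp only [avg, ← Finset.mul_sum]
      rw [← Finset.sum_div]
      field_simp
    rw [h2]
    have h3 : ∑ a, ‖x a‖ = Fintype.card (Fin D → ZMod p) * avg (fun v => ‖x v‖) := by
      rw [avg]
      field_simp
    rw [h3]
    calc _ ≤ (Fintype.card (Fin D → ZMod p) : ℝ) * (1000 * avg (fun ω => avg (fun v =>
          ‖P (fun (ω : Fin m → ZMod p × ZMod p) l => s p D (ω l)) x ω v -
          (1 / 4 : ℝ) • x v‖))) := by gcongr
      _ = _ := by ring
  · intro a
    simp only [sub_self]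
    exact F_at_zero hRD
  · intro a a'
    rw [abs_of_nonneg (F_nonneg R _)]
    exact F_le_one R _
  · intro b a
    have h1 := JJ_smul (p := p) (D := D) (m := m) (fun a' => F p D R (a' - a)) b
    simp only [smul_eq_mul] at h1
    rw [h1, abs_mul, abs_of_nonneg (inv_nonneg.2 hc.le)]
    gcongr
    have h2 := P_F_le' (p := p) hm1 hRD b.1 (b.2 - a)
    have e1 : ∀ l, b.2 + s p D (b.1 l) - a = b.2 - a + s p D (b.1 l) := by
      intro l
      abel
    simp only [e1]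
    have e2 : (1 / 4 : ℝ) * F p D R (b.2 - a) = F p D R (b.2 - a) / 4 := by ring
    rw [e2]
    exact h2
  · rw [Fintype.sum_prod_type]
    simp only [sum_const, card_univ, nsmul_eq_mul]
    rw [← Finset.mul_sum, ← Finset.mul_sum]
    have h1 := avg_bad (p := p) m
    have h2 : (Fintype.card (Fin m → ZMod p × ZMod p) : ℝ)⁻¹ *
        ∑ ω : Fin m → ZMod p × ZMod p, ((1 / 4 : ℝ) ^ (R + 1) + (R + 1) / m + bad ω) =
        (1 / 4 : ℝ) ^ (R + 1) + (R + 1) / m + avg (fun ω : Fin m → ZMod p × ZMod p => bad ω) := by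
      rw [Finset.sum_add_distrib, sum_const, card_univ, nsmul_eq_mul, avg]
      field_simp
    rw [h2, mul_comm]
    gcongr
    linarith

end

end Pool.Agent.H52
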