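import Pool.Agent.H52.Avg

/-!
The key lower bound.
-/

namespace Pool.Agent.H52

open Finset

noncomputable section

/-- `σ ω l` are translations of the finite group `G`; for each `l` the average over `ω` of the
translates is the operator `Q`, different `l` are independent, and `Q` has an `L²` gap. -/
structure Mixing {G Ω : Type*} [AddCommGroup G] [Fintype G] [Fintype Ω] {m : ℕ}
    (σ : Ω → Fin m → G) (Q : (G → ℝ) → (G → ℝ)) (lam : ℝ) : Prop where
  one : ∀ (l : Fin m) (f : G → ℝ) (v : G), avg (fun ω => f (v + σ ω l)) = Q f v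
  two : ∀ (l l' : Fin m), l ≠ l' → ∀ (f g : G → ℝ) (v : G),
    avg (fun ω => f (v + σ ω l) * g (v + σ ω l')) = Q f v * Q g v
  gap : ∀ f : G → ℝ, avg (fun v => (Q f v - avg f) ^ 2) ≤ lam ^ 2 * avg (fun v => f v ^ 2)

section

variable {G Ω : Type*} [AddCommGroup G] [Fintype G] [Fintype Ω] {m : ℕ}
  {σ : Ω → Fin m → G} {Q : (G → ℝ) → (G → ℝ)} {lam : ℝ}

lemma avg_shift (f : G → ℝ) (s : G) : avg (fun v => f (v + s)) = avg f :=
  avg_equiv (Equiv.addRight s) f

lemma Mixing.avg_Q [Nonempty Ω] (h : Mixing σ Q lam) (l : Fin m) (f : G → ℝ) :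
    avg (Q f) = avg f := by
  have : avg (Q f) = avg (fun v => avg (fun ω => f (v + σ ω l))) :=
    avg_congr fun v => (h.one l f v).symm
  rw [this, avg_comm]
  simp only [avg_shift, avg_const]

lemma Mixing.Q_nonneg (h : Mixing σ Q lam) (l : Fin m) {f : G → ℝ} (hf : ∀ v, 0 ≤ f v) (v : G) :
    0 ≤ Q f v := by
  rw [← h.one l f v]
  exact avg_nonneg fun ω => hf _

lemma Mixing.contr [Nonempty Ω] (h : Mixing σ Q lam) (l : Fin m) (f : G → ℝ) :
    avg (fun v => Q f v ^ 2) ≤ avg (fun v => f v ^ 2) := by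
  calc avg (fun v => Q f v ^ 2) ≤ avg (fun v => avg (fun ω => f (v + σ ω l) ^ 2)) := by
        apply avg_mono
        intro v
        rw [← h.one l f v]
        exact sq_avg_le _
    _ = avg (fun ω : Ω => avg (fun v => f (v + σ ω l) ^ 2)) := avg_comm _
    _ = avg (fun ω : Ω => avg (fun v => f v ^ 2)) := by
        apply avg_congr
        intro ω
        exact avg_shift (fun v => f v ^ 2) (σ ω l)
    _ = _ := avg_const _

lemma sqrt_le_of_gap (h : Mixing σ Q lam) (hlam : 0 ≤ lam) (f : G → ℝ) :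
    √(avg (fun v => (Q f v - avg f) ^ 2)) ≤ lam * √(avg (fun v => f v ^ 2)) := by
  rw [← Real.sqrt_sq hlam, ← Real.sqrt_mul (sq_nonneg _)]
  exact Real.sqrt_le_sqrt (h.gap f)

lemma Mixing.mul_le [Nonempty Ω] (h : Mixing σ Q lam) (hlam : 0 ≤ lam) (f g : G → ℝ) :
    avg (fun v => Q f v * g v) ≤
      avg f * avg g + lam * (√(avg (fun v => f v ^ 2)) * √(avg (fun v => g v ^ 2))) := by
  have h1 : avg (fun v => Q f v * g v)
      = avg (fun v => (Q f v - avg f) * g v) + avg f * avg g := by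
    rw [← avg_const_mul, ← avg_add]
    apply avg_congr
    intro v
    ring
  have h2 := avg_mul_le (fun v => Q f v - avg f) g
  have h3 := sqrt_le_of_gap h hlam f
  have h4 : 0 ≤ √(avg fun v => g v ^ 2) := Real.sqrt_nonneg _
  nlinarith [mul_le_mul_of_nonneg_right h3 h4]

lemma Mixing.mul_le' [Nonempty Ω] (h : Mixing σ Q lam) (hlam : 0 ≤ lam) (l : Fin m)
    (f g : G → ℝ) :
    avg (fun v => Q f v * Q g v) ≤
      avg f * avg g + lam * (√(avg (fun v => f v ^ 2)) * √(avg (fun v => g v ^ 2))) := by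
  have h1 := h.mul_le hlam f (Q g)
  rw [h.avg_Q l g] at h1
  have h2 : √(avg (fun v => Q g v ^ 2)) ≤ √(avg (fun v => g v ^ 2)) :=
    Real.sqrt_le_sqrt (h.contr l g)
  have h3 : 0 ≤ √(avg fun v => f v ^ 2) := Real.sqrt_nonneg _
  have := mul_le_mul_of_nonneg_left (mul_le_mul_of_nonneg_left h2 h3) hlam
  linarith

end

/-- an elementary inequality -/
lemma aux_sqrt {S y h : ℝ} (hS : 0 ≤ S) (hh : 0 ≤ h)
    (hSy : y ^ 2 / 4 - h ≤ S ^ 2) : y / 2 - √h ≤ S := by
  by_contra hc
  push Not at hc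
  have h1 : 0 ≤ √h := Real.sqrt_nonneg _
  have h2 : √h ^ 2 = h := Real.sq_sqrt hh
  have h3 : S ^ 2 < (y / 2 - √h) ^ 2 := by
    apply pow_lt_pow_left₀ hc hS two_ne_zero
  nlinarith


section main

variable {G Ω E : Type*} [AddCommGroup G] [Fintype G] [Fintype Ω] [Nonempty Ω]
  [NormedAddCommGroup E] [NormedSpace ℝ E] {m : ℕ}
  {σ : Ω → Fin m → G} {Q : (G → ℝ) → (G → ℝ)} {lam K : ℝ} {d : ℕ}

/-- The average of `m` translates. -/
def P (σ : Ω → Fin m → G) (x : G → E) (ω : Ω) (v : G) : E :=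
  (m : ℝ)⁻¹ • ∑ l, x (v + σ ω l)

lemma norm_P_le (σ : Ω → Fin m → G) (x : G → E) (ω : Ω) (v : G) :
    ‖P σ x ω v‖ ≤ P σ (fun v => ‖x v‖) ω v := by
  unfold P
  rw [norm_smul]
  simp only [norm_inv, Real.norm_natCast, smul_eq_mul]
  gcongr
  exact norm_sum_le _ _

lemma P_mono (σ : Ω → Fin m → G) {f g : G → ℝ} (h : ∀ v, f v ≤ g v) (ω : Ω) (v : G) :
    P σ f ω v ≤ P σ g ω v := by
  unfold P
  simp only [smul_eq_mul]
  gcongr
  exact h _

lemma P_nonneg (σ : Ω → Fin m → G) {f : G → ℝ} (h : ∀ v, 0 ≤ f v) (ω : Ω) (v : G) :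
    0 ≤ P σ f ω v := by
  unfold P
  simp only [smul_eq_mul]
  have := Finset.sum_nonneg (fun l (_ : l ∈ (univ : Finset (Fin m))) => h (v + σ ω l))
  positivity

lemma avg_P (hM : Mixing σ Q lam) (hm : 0 < m) (f : G → ℝ) (v : G) :
    avg (fun ω => P σ f ω v) = Q f v := by
  have hm' : (m : ℝ) ≠ 0 := by positivity
  unfold P
  simp only [smul_eq_mul]
  rw [avg_const_mul, avg_sum]
  simp only [hM.one]
  simp [hm']

/-- **Key lower bound.** -/
theorem key_lower (hm : 0 < m) (hM : Mixing σ Q lam) (hlam0 : 0 ≤ lam)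
    (hlam : lam ≤ 1 / (8000 * m)) (hK : 0 ≤ K) (φ : Fin d → E →ₗ[ℝ] ℝ)
    (hφ1 : ∀ y, ‖y‖ ≤ ∑ i, |φ i y|) (hφ2 : ∀ i y, |φ i y| ≤ K * ‖y‖)
    (hκ : d * K * lam * √(8000 * m) ≤ 1 / 2000) (x : G → E) :
    avg (fun v => ‖x v‖) ≤
      1000 * avg (fun ω => avg (fun v => ‖P σ x ω v - (1 / 4 : ℝ) • x v‖)) := by
  classical
  have hm1 : (1 : ℝ) ≤ m := by exact_mod_cast hm
  have hm0 : (0 : ℝ) < m := by linarith
  let l0 : Fin m := ⟨0, hm⟩
  have : Nonempty G := ⟨0⟩
  by_contra hcon
  push Not at hcon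
  obtain ⟨X, hXdef⟩ : ∃ X, X = avg (fun v => ‖x v‖) := ⟨_, rfl⟩
  obtain ⟨Δ, hΔdef⟩ : ∃ Δ, Δ = avg (fun ω => avg (fun v => ‖P σ x ω v - (1 / 4 : ℝ) • x v‖)) :=
    ⟨_, rfl⟩
  rw [← hXdef, ← hΔdef] at hcon
  have hΔ0 : 0 ≤ Δ := by
    rw [hΔdef]; exact avg_nonneg fun ω => avg_nonneg fun v => norm_nonneg _
  have hX0 : 0 < X := by linarith
  obtain ⟨H, hH⟩ : ∃ H : ℝ, H = 8000 * m := ⟨_, rfl⟩
  rw [← hH] at hlam hκ
  have hH0 : 0 < H := by rw [hH]; positivity
  obtain ⟨u, hu⟩ : ∃ u : G → ℝ, ∀ v, u v = if H * X < ‖x v‖ then 1 else 0 := ⟨_, fun _ => rfl⟩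
  obtain ⟨f, hf⟩ : ∃ f : G → ℝ, ∀ v, f v = if H * X < ‖x v‖ then 0 else ‖x v‖ :=
    ⟨_, fun _ => rfl⟩
  obtain ⟨x', hx'⟩ : ∃ x' : G → E, ∀ v, x' v = if H * X < ‖x v‖ then 0 else x v :=
    ⟨_, fun _ => rfl⟩
  have hu0 : ∀ v, 0 ≤ u v := fun v => by simp only [hu]; split_ifs <;> norm_num
  have hu1 : ∀ v, u v ≤ 1 := fun v => by simp only [hu]; split_ifs <;> norm_num
  have hu2 : ∀ v, u v ^ 2 = u v := fun v => by simp only [hu]; split_ifs <;> norm_num
  have hf0 : ∀ v, 0 ≤ f v := fun v => by simp only [hf]; split_ifs <;> simp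
  have hfH : ∀ v, f v ≤ H * X := fun v => by
    simp only [hf]; split_ifs with h
    · positivity
    · exact not_lt.1 h
  have hfX : ∀ v, f v ≤ ‖x v‖ := fun v => by simp only [hf]; split_ifs <;> simp
  have huf : ∀ v, u v * f v = 0 := fun v => by simp only [hu, hf]; split_ifs <;> simp
  have hx'f : ∀ v, ‖x' v‖ = f v := fun v => by simp only [hx', hf]; split_ifs <;> simp
  -- averages
  have hauH : avg u ≤ 1 / H := by
    have h1 : avg (fun v => (H * X) * u v) ≤ X := by
      rw [hXdef]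
      rw [← hXdef]
      nth_rewrite 2 [hXdef]
      apply avg_mono
      intro v
      simp only [hu]
      split_ifs with h
      · linarith
      · simp
    rw [avg_const_mul] at h1
    have : (H * avg u) * X ≤ 1 * X := by linarith
    have := le_of_mul_le_mul_right this hX0
    rw [le_div_iff₀ hH0]; linarith
  have hau0 : 0 ≤ avg u := avg_nonneg hu0
  have haf0 : 0 ≤ avg f := avg_nonneg hf0
  have hafX : avg f ≤ X := by rw [hXdef]; exact avg_mono hfX
  have hau2 : avg (fun v => u v ^ 2) = avg u := avg_congr hu2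
  have haf2 : avg (fun v => f v ^ 2) ≤ H * X ^ 2 := by
    calc avg (fun v => f v ^ 2) ≤ avg (fun v => (H * X) * f v) := by
          apply avg_mono
          intro v
          rw [sq]
          exact mul_le_mul_of_nonneg_right (hfH v) (hf0 v)
      _ = (H * X) * avg f := avg_const_mul _ _
      _ ≤ (H * X) * X := by gcongr
      _ = H * X ^ 2 := by ring
  have hsqrtf : √(avg (fun v => f v ^ 2)) ≤ √H * X := by
    calc √(avg (fun v => f v ^ 2)) ≤ √(H * X ^ 2) := Real.sqrt_le_sqrt haf2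
      _ = √H * X := by rw [Real.sqrt_mul hH0.le, Real.sqrt_sq hX0.le]
  have hsqrt : √(avg (fun v => u v ^ 2)) * √(avg (fun v => f v ^ 2)) ≤ X := by
    have h1 : √(avg (fun v => u v ^ 2)) ≤ √(1 / H) := Real.sqrt_le_sqrt (by rw [hau2]; exact hauH)
    calc √(avg (fun v => u v ^ 2)) * √(avg (fun v => f v ^ 2)) ≤ √(1 / H) * (√H * X) := by
          gcongr
      _ = X := by
          rw [← mul_assoc, ← Real.sqrt_mul (by positivity)]
          rw [one_div_mul_cancel hH0.ne']; simp
  have hmH : m * (1 / H + lam) ≤ 1 / 4000 := by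
    have h1 : lam ≤ 1 / H := hlam
    have h2 : m * (1 / H) = 1 / 8000 := by rw [hH]; field_simp
    have h3 : m * lam ≤ m * (1 / H) := mul_le_mul_of_nonneg_left h1 hm0.le
    rw [mul_add]
    linarith
  have hauf : avg u * avg f ≤ (1 / H) * X := by gcongr
  -- Claim 1
  obtain ⟨B, hB⟩ : ∃ B : Ω → G → ℝ, ∀ ω v, B ω v = ∑ l, u (v + σ ω l) := ⟨_, fun _ _ => rfl⟩
  have hB0 : ∀ ω v, 0 ≤ B ω v := fun ω v => by
    rw [hB]; exact Finset.sum_nonneg fun l _ => hu0 _
  have hPf0 : ∀ ω v, 0 ≤ P σ f ω v := fun ω v => P_nonneg σ hf0 ω v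
  have hPx'f : ∀ ω v, ‖P σ x' ω v‖ ≤ P σ f ω v := fun ω v => by
    have := norm_P_le σ x' ω v
    simpa only [hx'f] using this
  have claim1 : ∀ ω v, (1 - u v) * ‖P σ x' ω v - (1 / 4 : ℝ) • x' v‖ ≤
      ‖P σ x ω v - (1 / 4 : ℝ) • x v‖ + B ω v * (P σ f ω v + 1 / 4 * f v) := by
    intro ω v
    have hB' := hB0 ω v
    have hP' := hPf0 ω v
    have hf' := hf0 v
    by_cases hv : H * X < ‖x v‖
    · have : u v = 1 := by simp [hu, hv]
      rw [this]
      simp only [sub_self, zero_mul]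
      positivity
    · have huv : u v = 0 := by simp [hu, hv]
      have hx'v : x' v = x v := by simp [hx', hv]
      rw [huv]
      simp only [sub_zero, one_mul]
      by_cases hex : ∃ l, H * X < ‖x (v + σ ω l)‖
      · obtain ⟨l, hl⟩ := hex
        have hB1 : 1 ≤ B ω v := by
          have : u (v + σ ω l) = 1 := by simp [hu, hl]
          rw [← this, hB]
          exact Finset.single_le_sum (f := fun l => u (v + σ ω l)) (fun i _ => hu0 _)
            (Finset.mem_univ l)
        have h1 : ‖P σ x' ω v - (1 / 4 : ℝ) • x' v‖ ≤ P σ f ω v + 1 / 4 * f v := by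
          calc _ ≤ ‖P σ x' ω v‖ + ‖(1 / 4 : ℝ) • x' v‖ := norm_sub_le _ _
            _ ≤ P σ f ω v + 1 / 4 * f v := by
                rw [norm_smul, hx'f]
                have := hPx'f ω v
                norm_num
                linarith
        have h2 : (P σ f ω v + 1 / 4 * f v) ≤ B ω v * (P σ f ω v + 1 / 4 * f v) :=
          le_mul_of_one_le_left (by positivity) hB1
        have h3 : 0 ≤ ‖P σ x ω v - (1 / 4 : ℝ) • x v‖ := norm_nonneg _
        linarith
      · push Not at hex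
        have h1 : P σ x' ω v = P σ x ω v := by
          unfold P
          congr 1
          apply Finset.sum_congr rfl
          intro l _
          simp [hx', not_lt.2 (hex l)]
        rw [h1, hx'v]
        have : 0 ≤ B ω v * (P σ f ω v + 1 / 4 * f v) := by positivity
        linarith
  -- Claim 2
  have claim2 : avg (fun ω => avg (fun v => B ω v * (P σ f ω v + 1 / 4 * f v))) ≤ X / 2000 := by
    rw [avg_comm]
    have h1 : ∀ v, avg (fun ω => B ω v * (P σ f ω v + 1 / 4 * f v)) ≤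
        m * (Q u v * Q f v) + (m / 4) * (Q u v * f v) := by
      intro v
      have e1 : ∀ ω, B ω v * (P σ f ω v + 1 / 4 * f v) =
          (m : ℝ)⁻¹ * (∑ l', ∑ l, f (v + σ ω l) * u (v + σ ω l')) +
          (1 / 4 * f v) * ∑ l', u (v + σ ω l') := by
        intro ω
        simp only [hB, P, smul_eq_mul]
        have e0 : ∑ l', ∑ l, f (v + σ ω l) * u (v + σ ω l') =
            (∑ l', u (v + σ ω l')) * ∑ l, f (v + σ ω l) := by
          rw [Finset.sum_mul_sum]
          apply Finset.sum_congr rfl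
          intro l' _
          apply Finset.sum_congr rfl
          intro l _
          ring
        rw [e0]
        ring
      simp only [e1]
      rw [avg_add, avg_const_mul, avg_const_mul, avg_sum, avg_sum]
      have e2 : ∀ l' : Fin m, avg (fun ω => ∑ l, f (v + σ ω l) * u (v + σ ω l')) ≤
          m * (Q u v * Q f v) := by
        intro l'
        rw [avg_sum]
        have : ∀ l ∈ (Finset.univ : Finset (Fin m)),
            avg (fun ω => f (v + σ ω l) * u (v + σ ω l')) ≤ Q u v * Q f v := by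
          intro l _
          by_cases hll : l = l'
          · subst hll
            have : avg (fun ω => f (v + σ ω l) * u (v + σ ω l)) = 0 := by
              have : ∀ ω, f (v + σ ω l) * u (v + σ ω l) = 0 := fun ω => by
                rw [mul_comm]; exact huf _
              simp only [this]
              simp [avg]
            rw [this]
            exact mul_nonneg (hM.Q_nonneg l hu0 v) (hM.Q_nonneg l hf0 v)
          · rw [hM.two l l' hll f u v, mul_comm]
        calc _ ≤ ∑ _l : Fin m, Q u v * Q f v := Finset.sum_le_sum this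
          _ = m * (Q u v * Q f v) := by simp
      have e3 : ∀ l' : Fin m, avg (fun ω => u (v + σ ω l')) = Q u v := fun l' => hM.one l' u v
      simp only [e3]
      have e4 : ∑ l' : Fin m, avg (fun ω => ∑ l, f (v + σ ω l) * u (v + σ ω l')) ≤
          m * (m * (Q u v * Q f v)) := by
        calc _ ≤ ∑ _l' : Fin m, m * (Q u v * Q f v) := Finset.sum_le_sum fun l' _ => e2 l'
          _ = m * (m * (Q u v * Q f v)) := by simp
      have e5 : (m : ℝ)⁻¹ * ∑ l' : Fin m, avg (fun ω => ∑ l, f (v + σ ω l) * u (v + σ ω l')) ≤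
          m * (Q u v * Q f v) := by
        calc _ ≤ (m : ℝ)⁻¹ * (m * (m * (Q u v * Q f v))) := by gcongr
          _ = _ := by field_simp
      have e6 : 1 / 4 * f v * ∑ _l' : Fin m, Q u v = (m / 4) * (Q u v * f v) := by
        simp; ring
      linarith
    calc avg (fun v => avg (fun ω => B ω v * (P σ f ω v + 1 / 4 * f v)))
        ≤ avg (fun v => m * (Q u v * Q f v) + (m / 4) * (Q u v * f v)) := avg_mono h1
      _ = m * avg (fun v => Q u v * Q f v) + (m / 4) * avg (fun v => Q u v * f v) := by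
          rw [avg_add, avg_const_mul, avg_const_mul]
      _ ≤ m * ((1 / H) * X + lam * X) + (m / 4) * ((1 / H) * X + lam * X) := by
          have a1 := hM.mul_le' hlam0 l0 u f
          have a2 := hM.mul_le hlam0 u f
          have a3 := mul_le_mul_of_nonneg_left hsqrt hlam0
          have a4 : avg (fun v => Q u v * Q f v) ≤ (1 / H) * X + lam * X := by linarith
          have a5 : avg (fun v => Q u v * f v) ≤ (1 / H) * X + lam * X := by linarith
          gcongr
      _ = (5 / 4) * (m * (1 / H + lam)) * X := by ring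
      _ ≤ (5 / 4) * (1 / 4000) * X := by gcongr
      _ ≤ X / 2000 := by linarith
  -- Claim 3
  obtain ⟨QV, hQV⟩ : ∃ QV : G → E, ∀ v, QV v = ((Fintype.card Ω : ℝ)⁻¹) • ∑ ω, P σ x' ω v :=
    ⟨_, fun _ => rfl⟩
  have hcard : (Fintype.card Ω : ℝ) ≠ 0 := by exact_mod_cast Fintype.card_ne_zero
  have claim3 : avg (fun v => (1 - u v) * ‖QV v - (1 / 4 : ℝ) • x' v‖) ≤ Δ + X / 2000 := by
    have h1 : ∀ v, (1 - u v) * ‖QV v - (1 / 4 : ℝ) • x' v‖ ≤
        avg (fun ω => (1 - u v) * ‖P σ x' ω v - (1 / 4 : ℝ) • x' v‖) := by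
      intro v
      rw [avg_const_mul]
      have h2 : QV v - (1 / 4 : ℝ) • x' v =
          ((Fintype.card Ω : ℝ)⁻¹) • ∑ ω, (P σ x' ω v - (1 / 4 : ℝ) • x' v) := by
        rw [Finset.sum_sub_distrib, smul_sub]
        simp only [hQV, Finset.sum_const, Finset.card_univ]
        congr 1
        rw [← Nat.cast_smul_eq_nsmul ℝ, smul_smul, inv_mul_cancel₀ hcard, one_smul]
      rw [h2]
      have h3 := norm_avg_le (fun ω => P σ x' ω v - (1 / 4 : ℝ) • x' v)
      have h4 : 0 ≤ 1 - u v := by linarith [hu1 v]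
      gcongr
    calc _ ≤ avg (fun v => avg (fun ω => (1 - u v) * ‖P σ x' ω v - (1 / 4 : ℝ) • x' v‖)) :=
          avg_mono h1
      _ ≤ avg (fun v => avg (fun ω => ‖P σ x ω v - (1 / 4 : ℝ) • x v‖ +
            B ω v * (P σ f ω v + 1 / 4 * f v))) := by
          apply avg_mono; intro v; apply avg_mono; intro ω; exact claim1 ω v
      _ = avg (fun ω => avg (fun v => ‖P σ x ω v - (1 / 4 : ℝ) • x v‖ +
            B ω v * (P σ f ω v + 1 / 4 * f v))) := avg_comm _
      _ = Δ + avg (fun ω => avg (fun v => B ω v * (P σ f ω v + 1 / 4 * f v))) := by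
          simp only [avg_add]
          rw [← hΔdef]
      _ ≤ Δ + X / 2000 := by linarith
  -- Claim 4
  obtain ⟨xb, hxb⟩ : ∃ xb : E, xb = ((Fintype.card G : ℝ)⁻¹) • ∑ v, x' v := ⟨_, rfl⟩
  have hcardG : (Fintype.card G : ℝ) ≠ 0 := by exact_mod_cast Fintype.card_ne_zero
  have claim4 : avg (fun v => ‖QV v - xb‖) ≤ X / 2000 := by
    have h1 : ∀ i v, φ i (QV v - xb) = Q (fun v => φ i (x' v)) v - avg (fun v => φ i (x' v)) := by
      intro i v
      rw [map_sub]
      congr 1
      · rw [← avg_P hM hm]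
        simp only [hQV, map_smul, map_sum, avg, P, smul_eq_mul]
        rw [div_eq_inv_mul]
      · simp only [hxb, map_smul, map_sum, avg, smul_eq_mul]
        rw [div_eq_inv_mul]
    have h2 : ∀ i, avg (fun v => |φ i (QV v - xb)|) ≤ lam * (K * (√H * X)) := by
      intro i
      simp only [h1]
      calc _ ≤ √(avg fun v => (Q (fun v => φ i (x' v)) v - avg (fun v => φ i (x' v))) ^ 2) :=
            avg_abs_le _
        _ ≤ lam * √(avg (fun v => (φ i (x' v)) ^ 2)) := sqrt_le_of_gap hM hlam0 _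
        _ ≤ lam * (K * (√H * X)) := by
            gcongr
            calc √(avg (fun v => (φ i (x' v)) ^ 2)) ≤ √(avg (fun v => K ^ 2 * f v ^ 2)) := by
                  apply Real.sqrt_le_sqrt
                  apply avg_mono
                  intro v
                  rw [← sq_abs, ← mul_pow]
                  have := hφ2 i (x' v)
                  rw [hx'f] at this
                  gcongr
              _ = K * √(avg (fun v => f v ^ 2)) := by
                  rw [avg_const_mul, Real.sqrt_mul (sq_nonneg _), Real.sqrt_sq hK]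
              _ ≤ K * (√H * X) := by gcongr
    calc avg (fun v => ‖QV v - xb‖) ≤ avg (fun v => ∑ i, |φ i (QV v - xb)|) :=
          avg_mono fun v => hφ1 _
      _ = ∑ i, avg (fun v => |φ i (QV v - xb)|) := avg_sum _ _
      _ ≤ ∑ _i : Fin d, lam * (K * (√H * X)) := Finset.sum_le_sum fun i _ => h2 i
      _ = (d * K * lam * √H) * X := by simp; ring
      _ ≤ (1 / 2000) * X := by gcongr
      _ = X / 2000 := by ring
  -- Claim 5
  obtain ⟨τ, hτ⟩ : ∃ τ, τ = Δ + X / 1000 := ⟨_, rfl⟩
  have hτX : τ ≤ 2 * X / 1000 := by rw [hτ]; linarith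
  have claim5 : avg (fun v => (1 - u v) * ‖xb - (1 / 4 : ℝ) • x' v‖) ≤ τ := by
    calc _ ≤ avg (fun v => (1 - u v) * ‖QV v - (1 / 4 : ℝ) • x' v‖ + ‖QV v - xb‖) := by
          apply avg_mono
          intro v
          have h4 : 0 ≤ 1 - u v := by linarith [hu1 v]
          have h5 : 1 - u v ≤ 1 := by linarith [hu0 v]
          have h6 : ‖xb - (1 / 4 : ℝ) • x' v‖ ≤ ‖QV v - (1 / 4 : ℝ) • x' v‖ + ‖QV v - xb‖ := by
            have : xb - (1 / 4 : ℝ) • x' v = (QV v - (1 / 4 : ℝ) • x' v) - (QV v - xb) := by abel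
            rw [this]
            exact norm_sub_le _ _
          calc (1 - u v) * ‖xb - (1 / 4 : ℝ) • x' v‖
              ≤ (1 - u v) * (‖QV v - (1 / 4 : ℝ) • x' v‖ + ‖QV v - xb‖) := by gcongr
            _ = (1 - u v) * ‖QV v - (1 / 4 : ℝ) • x' v‖ + (1 - u v) * ‖QV v - xb‖ := by ring
            _ ≤ (1 - u v) * ‖QV v - (1 / 4 : ℝ) • x' v‖ + 1 * ‖QV v - xb‖ := by gcongr
            _ = _ := by ring
      _ = avg (fun v => (1 - u v) * ‖QV v - (1 / 4 : ℝ) • x' v‖) + avg (fun v => ‖QV v - xb‖) :=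
          avg_add _ _
      _ ≤ τ := by rw [hτ]; linarith
  -- Claim 6
  have hx'u : ∀ v, (1 - u v) • x' v = x' v := by
    intro v
    simp only [hu, hx']
    split_ifs <;> simp
  have claim6 : ‖xb‖ ≤ 2 * τ := by
    have h1 : (3 / 4 - avg u) • xb =
        ((Fintype.card G : ℝ)⁻¹) • ∑ v, (1 - u v) • (xb - (1 / 4 : ℝ) • x' v) := by
      have e1 : ∀ v, (1 - u v) • (xb - (1 / 4 : ℝ) • x' v) =
          (1 - u v) • xb - (1 / 4 : ℝ) • x' v := by
        intro v
        rw [smul_sub, smul_comm (1 - u v) (1 / 4 : ℝ) (x' v), hx'u]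
      simp only [e1]
      have e2 : ((Fintype.card G : ℝ)⁻¹) • ∑ v, ((1 - u v) • xb - (1 / 4 : ℝ) • x' v) =
          (((Fintype.card G : ℝ)⁻¹) * ∑ v, (1 - u v)) • xb - (1 / 4 : ℝ) • xb := by
        rw [Finset.sum_sub_distrib, ← Finset.smul_sum, ← Finset.sum_smul, smul_sub, smul_smul]
        congr 1
        rw [smul_comm, ← hxb]
      rw [e2, ← sub_smul]
      congr 1
      rw [Finset.sum_sub_distrib]
      simp only [avg, Finset.sum_const, Finset.card_univ, nsmul_eq_mul, mul_one]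
      field_simp
      ring
    have h2 : ‖(3 / 4 - avg u) • xb‖ ≤ τ := by
      rw [h1]
      refine (norm_avg_le _).trans ?_
      refine le_trans (le_of_eq ?_) claim5
      apply avg_congr
      intro v
      rw [norm_smul, Real.norm_eq_abs, abs_of_nonneg (by linarith [hu1 v])]
    have h3 : avg u ≤ 1 / 4 := by
      refine hauH.trans ?_
      rw [hH]
      apply one_div_le_one_div_of_le <;> linarith
    rw [norm_smul, Real.norm_eq_abs, abs_of_nonneg (by linarith)] at h2
    have h4 := norm_nonneg xb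
    have h5 : (1 / 2) * ‖xb‖ ≤ (3 / 4 - avg u) * ‖xb‖ :=
      mul_le_mul_of_nonneg_right (by linarith) h4
    linarith
  -- Claim 7
  have claim7 : avg f ≤ 24 * X / 1000 := by
    have h1 : avg (fun v => 1 / 4 * f v) ≤ τ + ‖xb‖ := by
      calc avg (fun v => 1 / 4 * f v)
          ≤ avg (fun v => (1 - u v) * ‖xb - (1 / 4 : ℝ) • x' v‖ + ‖xb‖) := by
            apply avg_mono
            intro v
            have h4 : 0 ≤ 1 - u v := by linarith [hu1 v]
            have h5 : 1 - u v ≤ 1 := by linarith [hu0 v]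
            have h6 : 1 / 4 * f v = (1 - u v) * ‖(1 / 4 : ℝ) • x' v‖ := by
              rw [norm_smul, hx'f]
              have := huf v
              norm_num
              linarith
            have h7 : ‖(1 / 4 : ℝ) • x' v‖ ≤ ‖xb - (1 / 4 : ℝ) • x' v‖ + ‖xb‖ := by
              have : (1 / 4 : ℝ) • x' v = xb - (xb - (1 / 4 : ℝ) • x' v) := by abel
              calc ‖(1 / 4 : ℝ) • x' v‖ = ‖xb - (xb - (1 / 4 : ℝ) • x' v)‖ := by rw [← this]
                _ ≤ ‖xb‖ + ‖xb - (1 / 4 : ℝ) • x' v‖ := norm_sub_le _ _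
                _ = _ := by ring
            rw [h6]
            calc (1 - u v) * ‖(1 / 4 : ℝ) • x' v‖
                ≤ (1 - u v) * (‖xb - (1 / 4 : ℝ) • x' v‖ + ‖xb‖) := by gcongr
              _ = (1 - u v) * ‖xb - (1 / 4 : ℝ) • x' v‖ + (1 - u v) * ‖xb‖ := by ring
              _ ≤ (1 - u v) * ‖xb - (1 / 4 : ℝ) • x' v‖ + 1 * ‖xb‖ := by gcongr
              _ = _ := by ring
        _ = avg (fun v => (1 - u v) * ‖xb - (1 / 4 : ℝ) • x' v‖) + ‖xb‖ := by
            rw [avg_add, avg_const]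
        _ ≤ τ + ‖xb‖ := by linarith
    rw [avg_const_mul] at h1
    linarith
  -- Claim 8 : the sparse part
  obtain ⟨y, hy⟩ : ∃ y : G → ℝ, ∀ v, y v = √(u v * ‖x v‖) := ⟨_, fun _ => rfl⟩
  have hy0 : ∀ v, 0 ≤ y v := fun v => by rw [hy]; exact Real.sqrt_nonneg _
  have hy2 : ∀ v, y v ^ 2 = ‖x v‖ - f v := by
    intro v
    simp only [hy]
    rw [Real.sq_sqrt (mul_nonneg (hu0 v) (norm_nonneg _))]
    simp only [hu, hf]
    split_ifs <;> simp
  have hyu : ∀ v, u v * y v = y v := by
    intro v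
    simp only [hy, hu]
    split_ifs <;> simp
  obtain ⟨Y, hY⟩ : ∃ Y, Y = avg (fun v => y v ^ 2) := ⟨_, rfl⟩
  have hYX : Y = X - avg f := by
    simp only [hY, hy2]
    rw [avg_sub, hXdef]
  obtain ⟨h, hh⟩ : ∃ h : Ω → G → ℝ, ∀ ω v, h ω v =
      ‖P σ x ω v - (1 / 4 : ℝ) • x v‖ + P σ f ω v := ⟨_, fun _ _ => rfl⟩
  have hh0 : ∀ ω v, 0 ≤ h ω v := fun ω v => by
    rw [hh]; exact add_nonneg (norm_nonneg _) (hPf0 ω v)
  have hah : avg (fun ω => avg (fun v => h ω v)) = Δ + avg f := by
    simp only [hh, avg_add]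
    rw [← hΔdef]
    congr 1
    rw [avg_comm]
    simp only [avg_P hM hm]
    exact hM.avg_Q l0 f
  have claim8 : ∀ ω v, y v ^ 2 / 2 - y v * √(h ω v) ≤ y v * ∑ l, y (v + σ ω l) := by
    intro ω v
    have hS0 : 0 ≤ ∑ l, y (v + σ ω l) := Finset.sum_nonneg fun l _ => hy0 _
    by_cases hv : H * X < ‖x v‖
    · have hfv : f v = 0 := by simp [hf, hv]
      have hyv := hy2 v
      rw [hfv, sub_zero] at hyv
      have h1 : y v ^ 2 / 4 - h ω v ≤ (∑ l, y (v + σ ω l)) ^ 2 := by
        have h2 : ∑ l, y (v + σ ω l) ^ 2 ≤ (∑ l, y (v + σ ω l)) ^ 2 :=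
          Finset.sum_sq_le_sq_sum_of_nonneg fun l _ => hy0 _
        have h3 : m * (y v ^ 2 / 4 - h ω v) ≤ ∑ l, y (v + σ ω l) ^ 2 := by
          simp only [hy2, Finset.sum_sub_distrib]
          have e1 : ∑ l, f (v + σ ω l) = m * P σ f ω v := by
            simp only [P, smul_eq_mul]
            field_simp
          have e2 : m * ‖P σ x ω v‖ ≤ ∑ l, ‖x (v + σ ω l)‖ := by
            have := norm_P_le σ x ω v
            have e3 : ∑ l, ‖x (v + σ ω l)‖ = m * P σ (fun v => ‖x v‖) ω v := by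
              simp only [P, smul_eq_mul]
              field_simp
            rw [e3]
            gcongr
          have e4 : ‖x v‖ / 4 - ‖P σ x ω v - (1 / 4 : ℝ) • x v‖ ≤ ‖P σ x ω v‖ := by
            have : (1 / 4 : ℝ) • x v = P σ x ω v - (P σ x ω v - (1 / 4 : ℝ) • x v) := by abel
            have e5 : ‖(1 / 4 : ℝ) • x v‖ ≤ ‖P σ x ω v‖ + ‖P σ x ω v - (1 / 4 : ℝ) • x v‖ := by
              calc ‖(1 / 4 : ℝ) • x v‖ = ‖P σ x ω v - (P σ x ω v - (1 / 4 : ℝ) • x v)‖ := by
                    rw [← this]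
                _ ≤ _ := norm_sub_le _ _
            rw [norm_smul] at e5
            norm_num at e5 ⊢
            linarith
          have e6 := mul_le_mul_of_nonneg_left e4 hm0.le
          rw [e1, hfv, hh]
          linarith
        by_cases hneg : y v ^ 2 / 4 - h ω v ≤ 0
        · exact hneg.trans (sq_nonneg _)
        · push Not at hneg
          calc y v ^ 2 / 4 - h ω v ≤ m * (y v ^ 2 / 4 - h ω v) :=
                le_mul_of_one_le_left hneg.le hm1
            _ ≤ _ := h3.trans h2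
      have h4 := aux_sqrt hS0 (hh0 ω v) h1
      have h5 := mul_le_mul_of_nonneg_left h4 (hy0 v)
      have h6 : y v * (y v / 2 - √(h ω v)) = y v ^ 2 / 2 - y v * √(h ω v) := by ring
      linarith
    · have : y v = 0 := by simp [hy, hu, hv]
      rw [this]; simp
  have hY0 : 0 < Y := by rw [hYX]; linarith
  have claim9 : avg (fun ω => avg (fun v => y v * ∑ l, y (v + σ ω l))) ≤ Y / 4000 := by
    rw [avg_comm]
    have h1 : ∀ v, avg (fun ω => y v * ∑ l, y (v + σ ω l)) = m * (Q y v * y v) := by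
      intro v
      rw [avg_const_mul, avg_sum]
      simp only [hM.one]
      simp
      ring
    simp only [h1]
    rw [avg_const_mul]
    have h2 := hM.mul_le hlam0 y y
    rw [← hY, Real.mul_self_sqrt hY0.le] at h2
    have h4 : avg y * avg y ≤ (1 / H) * Y := by
      have h5 := avg_mul_le u y
      simp only [hyu] at h5
      rw [hau2, ← hY] at h5
      have h6 : 0 ≤ avg y := avg_nonneg hy0
      calc avg y * avg y ≤ (√(avg u) * √Y) * (√(avg u) * √Y) := by
            have h5' : avg y ≤ √(avg u) * √Y := h5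
            gcongr
        _ = avg u * Y := by
            rw [mul_mul_mul_comm, Real.mul_self_sqrt hau0, Real.mul_self_sqrt hY0.le]
        _ ≤ (1 / H) * Y := by gcongr
    calc (m : ℝ) * avg (fun v => Q y v * y v) ≤ m * ((1 / H) * Y + lam * Y) := by
          gcongr; linarith
      _ = (m * (1 / H + lam)) * Y := by ring
      _ ≤ (1 / 4000) * Y := by gcongr
      _ = Y / 4000 := by ring
  have claim10 : avg (fun ω => avg (fun v => y v * √(h ω v))) ≤ √Y * √(Δ + avg f) := by
    calc avg (fun ω => avg (fun v => y v * √(h ω v)))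
        ≤ avg (fun ω => √Y * √(avg (fun v => h ω v))) := by
          apply avg_mono
          intro ω
          have := avg_mul_le y (fun v => √(h ω v))
          have e : avg (fun v => √(h ω v) ^ 2) = avg (fun v => h ω v) :=
            avg_congr fun v => Real.sq_sqrt (hh0 ω v)
          rw [e, ← hY] at this
          exact this
      _ = √Y * avg (fun ω => √(avg (fun v => h ω v))) := avg_const_mul _ _
      _ ≤ √Y * √(avg (fun ω => avg (fun v => h ω v))) := by
          gcongr
          have := avg_abs_le (fun ω => √(avg (fun v => h ω v)))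
          have e1 : ∀ ω, |√(avg (fun v => h ω v))| = √(avg (fun v => h ω v)) :=
            fun ω => abs_of_nonneg (Real.sqrt_nonneg _)
          have e2 : ∀ ω, √(avg (fun v => h ω v)) ^ 2 = avg (fun v => h ω v) :=
            fun ω => Real.sq_sqrt (avg_nonneg fun v => hh0 ω v)
          simp only [e1, e2] at this
          exact this
      _ = √Y * √(Δ + avg f) := by rw [hah]
  have claim11 : Y / 2 - √Y * √(Δ + avg f) ≤ Y / 4000 := by
    have h1 : avg (fun ω : Ω => avg (fun v => y v ^ 2 / 2 - y v * √(h ω v))) =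
        Y / 2 - avg (fun ω => avg (fun v => y v * √(h ω v))) := by
      simp only [avg_sub]
      congr 1
      rw [avg_const]
      have : ∀ v, y v ^ 2 / 2 = (1 / 2) * y v ^ 2 := fun v => by ring
      simp only [this]
      rw [avg_const_mul, ← hY]
      ring
    have h2 : avg (fun ω : Ω => avg (fun v => y v ^ 2 / 2 - y v * √(h ω v))) ≤
        avg (fun ω => avg (fun v => y v * ∑ l, y (v + σ ω l))) := by
      apply avg_mono; intro ω; apply avg_mono; intro v; exact claim8 ω v
    linarith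
  have claim12 : (49 / 100) * √Y ≤ √(Δ + avg f) := by
    have h1 : (49 / 100) * Y ≤ √Y * √(Δ + avg f) := by linarith
    have h2 : √Y * √Y = Y := Real.mul_self_sqrt hY0.le
    have h3 : 0 < √Y := Real.sqrt_pos.2 hY0
    have h4 : √Y * ((49 / 100) * √Y) ≤ √Y * √(Δ + avg f) := by
      calc √Y * ((49 / 100) * √Y) = (49 / 100) * (√Y * √Y) := by ring
        _ = (49 / 100) * Y := by rw [h2]
        _ ≤ _ := h1
    exact le_of_mul_le_mul_left h4 h3
  have claim13 : (49 / 100) ^ 2 * Y ≤ Δ + avg f := by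
    have h1 : ((49 / 100) * √Y) ^ 2 ≤ (√(Δ + avg f)) ^ 2 := by gcongr
    rw [mul_pow, Real.sq_sqrt hY0.le, Real.sq_sqrt (by linarith)] at h1
    exact h1
  rw [hYX] at claim13
  norm_num at claim13
  linarith

end main

end

end Pool.Agent.H52
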