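import Pool.Agent.H52.FinExt

/-!
`ℓ¹(S)` is an `ℒ_1`-space and its dual is an injective `ℒ_∞`-space.
-/

namespace Pool.Agent.H52

open scoped Topology
open Filter

noncomputable section

universe u

variable {𝕜 : Type} [RCLike 𝕜]

/-- Finite sets of vectors are approximated by isometric copies of `ℓ_p^n`. -/
def ApproxL (𝕜 : Type) [RCLike 𝕜] (p : ENNReal) [Fact (1 ≤ p)] (X : Type*) [NormedAddCommGroup X]
    [NormedSpace 𝕜 X] : Prop :=
  ∀ (s : Finset X) (δ : ℝ), 0 < δ → ∃ (n : ℕ) (J : PiLp p (fun _ : Fin n => 𝕜) →ₗᵢ[𝕜] X),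
    ∀ x ∈ s, ∃ c, ‖x - J c‖ ≤ δ

lemma ApproxL.congr {p : ENNReal} [Fact (1 ≤ p)] {X Y : Type*} [NormedAddCommGroup X]
    [NormedSpace 𝕜 X] [NormedAddCommGroup Y] [NormedSpace 𝕜 Y] (h : ApproxL 𝕜 p X)
    (e : X ≃ₗᵢ[𝕜] Y) : ApproxL 𝕜 p Y := by
  classical
  intro s δ hδ
  obtain ⟨n, J, hJ⟩ := h (s.image e.symm) δ hδ
  refine ⟨n, e.toLinearIsometry.comp J, fun y hy => ?_⟩
  obtain ⟨c, hc⟩ := hJ (e.symm y) (Finset.mem_image_of_mem _ hy)
  refine ⟨c, ?_⟩
  have : y - (e.toLinearIsometry.comp J) c = e (e.symm y - J c) := by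
    rw [map_sub, LinearIsometryEquiv.apply_symm_apply]
    rfl
  rw [this, LinearIsometryEquiv.norm_map]
  exact hc

/-- the perturbation argument -/
theorem ApproxL.isScriptL {p : ENNReal} [Fact (1 ≤ p)] {X : Ban.{u} 𝕜} (h : ApproxL 𝕜 p X) :
    IsScriptL p X := by
  classical
  refine ⟨2, fun E hE => ?_⟩
  let b := Module.finBasis 𝕜 E
  -- coordinate functionals on X
  have h1 : ∀ i, ∃ φ : StrongDual 𝕜 X, ∀ x : E, φ x = b.repr x i := by
    intro i
    obtain ⟨g, hg, -⟩ := exists_extension_norm_eq E (LinearMap.toContinuousLinearMap (b.coord i))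
    exact ⟨g, fun x => by rw [hg]; rfl⟩
  choose φ hφ using h1
  set K : ℝ := ∑ i, ‖φ i‖ with hK
  have hK0 : 0 ≤ K := Finset.sum_nonneg fun _ _ => norm_nonneg _
  have hδ : 0 < 1 / (3 * (K + 1)) := by positivity
  obtain ⟨n, J, hJ⟩ := h (Finset.univ.image fun i => (b i : X)) _ hδ
  have h2 : ∀ i, ∃ c, ‖(b i : X) - J c‖ ≤ 1 / (3 * (K + 1)) := fun i =>
    hJ _ (Finset.mem_image_of_mem _ (Finset.mem_univ i))
  choose c hc using h2
  let A : X →L[𝕜] X := ∑ i, (φ i).smulRight ((b i : X) - J (c i))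
  have hA : ‖A‖ ≤ 1 / 3 := by
    calc ‖A‖ ≤ ∑ i, ‖(φ i).smulRight ((b i : X) - J (c i))‖ := norm_sum_le _ _
      _ ≤ ∑ i, ‖φ i‖ * (1 / (3 * (K + 1))) := by
          apply Finset.sum_le_sum
          intro i _
          rw [ContinuousLinearMap.norm_smulRight_apply]
          have := hc i
          gcongr
      _ = K * (1 / (3 * (K + 1))) := by rw [← Finset.sum_mul]
      _ ≤ 1 / 3 := by
          rw [mul_one_div, div_le_div_iff₀ (by positivity) (by norm_num)]
          linarith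
  let Ψ : X ≃L[𝕜] X := ContinuousLinearEquiv.ofUnit (Units.oneSub A (by linarith))
  have hΨ : ∀ x, Ψ x = x - A x := by
    intro x
    change ((Units.oneSub A (by linarith) : (X →L[𝕜] X)ˣ) : X →L[𝕜] X) x = x - A x
    rw [Units.val_oneSub]
    rfl
  have hAb : ∀ x : E, A x = ∑ i, b.repr x i • ((b i : X) - J (c i)) := by
    intro x
    simp only [A, _root_.sum_apply, ContinuousLinearMap.smulRight_apply, hφ]
  have hΨE : ∀ x : E, Ψ x = J (∑ i, b.repr x i • c i) := by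
    intro x
    rw [hΨ, hAb]
    simp only [smul_sub, Finset.sum_sub_distrib, map_sum, map_smul]
    have : (∑ i, b.repr x i • (b i : X)) = x := by
      have h0 : ((∑ i, b.repr x i • b i : E) : X) = ∑ i, b.repr x i • (b i : X) := by
        rw [Submodule.coe_sum]
        exact Finset.sum_congr rfl (fun i _ => Submodule.coe_smul _ _)
      rw [b.sum_repr] at h0
      exact h0.symm
    rw [this]
    abel
  have hup : ∀ x, ‖Ψ x‖ ≤ 4 / 3 * ‖x‖ := by
    intro x
    rw [hΨ]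
    have h3 := norm_apply_le_of hA x
    have h4 := norm_sub_le x (A x)
    linarith
  have hlo : ∀ x, ‖x‖ ≤ 3 / 2 * ‖Ψ x‖ := by
    intro x
    rw [hΨ]
    have h3 := norm_apply_le_of hA x
    have h4 := norm_sub_norm_le x (A x)
    linarith
  let F : Submodule 𝕜 X := (LinearMap.range J.toLinearMap).comap (Ψ : X →ₗ[𝕜] X)
  let g : PiLp p (fun _ : Fin n => 𝕜) →ₗ[𝕜] F :=
    { toFun := fun c => ⟨Ψ.symm (J c), by
        change Ψ (Ψ.symm (J c)) ∈ LinearMap.range J.toLinearMap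
        rw [ContinuousLinearEquiv.apply_symm_apply]
        exact ⟨c, rfl⟩⟩
      map_add' := fun c c' => by
        apply Subtype.ext
        simp
      map_smul' := fun a c => by
        apply Subtype.ext
        simp }
  have hg : Function.Bijective g := by
    constructor
    · intro c c' hcc
      have h3 : Ψ.symm (J c) = Ψ.symm (J c') := congrArg Subtype.val hcc
      exact J.injective (Ψ.symm.injective h3)
    · rintro ⟨x, c, hcx⟩
      refine ⟨c, ?_⟩
      apply Subtype.ext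
      change Ψ.symm (J c) = x
      have : J c = Ψ x := hcx
      rw [this, ContinuousLinearEquiv.symm_apply_apply]
  let e : PiLp p (fun _ : Fin n => 𝕜) ≃ₗ[𝕜] F := LinearEquiv.ofBijective g hg
  have he : ∀ c, Ψ (e c : X) = J c := fun c => by
    change Ψ (Ψ.symm (J c)) = J c
    rw [ContinuousLinearEquiv.apply_symm_apply]
  have b1 : ∀ x : F, ‖e.symm x‖ ≤ 4 / 3 * ‖x‖ := by
    intro x
    have h3 := hup (x : X)
    have h4 := he (e.symm x)
    rw [LinearEquiv.apply_symm_apply] at h4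
    rw [h4, J.norm_map] at h3
    exact h3
  have b2 : ∀ c, ‖e.symm.symm c‖ ≤ 3 / 2 * ‖c‖ := by
    intro c
    have h3 := hlo (e c : X)
    rw [he, J.norm_map] at h3
    exact h3
  refine ⟨F, ?_, n, e.symm.toContinuousLinearEquivOfBounds (4 / 3) (3 / 2) b1 b2, ?_⟩
  · intro x hx
    change Ψ x ∈ LinearMap.range J.toLinearMap
    have := hΨE ⟨x, hx⟩
    rw [show Ψ x = _ from this]
    exact ⟨_, rfl⟩
  · set T := e.symm.toContinuousLinearEquivOfBounds (4 / 3) (3 / 2) b1 b2 with hT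
    have n1 : ‖(T : F →L[𝕜] PiLp p (fun _ : Fin n => 𝕜))‖ ≤ 4 / 3 :=
      ContinuousLinearMap.opNorm_le_bound _ (by norm_num) b1
    have n2 : ‖(T.symm : PiLp p (fun _ : Fin n => 𝕜) →L[𝕜] F)‖ ≤ 3 / 2 :=
      ContinuousLinearMap.opNorm_le_bound _ (by norm_num) b2
    calc _ ≤ (4 / 3 : ℝ) * (3 / 2) := mul_le_mul n1 n2 (norm_nonneg _) (by norm_num)
      _ = 2 := by norm_num

section ell1

variable {S : Type*}

lemma approxL_of_fintype {p : ENNReal} [Fact (1 ≤ p)] {X : Type*} [NormedAddCommGroup X]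
    [NormedSpace 𝕜 X] {ι : Type*} [Fintype ι] (J : PiLp p (fun _ : ι => 𝕜) →ₗᵢ[𝕜] X)
    (s : Finset X) (δ : ℝ) (h : ∀ x ∈ s, ∃ c, ‖x - J c‖ ≤ δ) :
    ∃ (n : ℕ) (J : PiLp p (fun _ : Fin n => 𝕜) →ₗᵢ[𝕜] X), ∀ x ∈ s, ∃ c, ‖x - J c‖ ≤ δ := by
  let e := LinearIsometryEquiv.piLpCongrLeft p 𝕜 𝕜 (Fintype.equivFin ι)
  refine ⟨Fintype.card ι, J.comp e.symm.toLinearIsometry, fun x hx => ?_⟩
  obtain ⟨c, hc⟩ := h x hx
  refine ⟨e c, ?_⟩
  have : (J.comp e.symm.toLinearIsometry) (e c) = J c := by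
    change J (e.symm (e c)) = J c
    rw [LinearIsometryEquiv.symm_apply_apply]
  rw [this]
  exact hc

lemma approxL_ell1 : ApproxL 𝕜 1 (lp (fun _ : S => 𝕜) 1) := by
  classical
  intro s δ hδ
  have h1 : ∀ x ∈ s, ∀ᶠ A : Finset S in atTop,
      ‖x - ∑ i ∈ A, lp.single 1 i (x i)‖ ≤ δ := by
    intro x _
    have h2 : HasSum (fun i => lp.single 1 i (x i)) x := lp.hasSum_single (by norm_num) x
    have h3 : Tendsto (fun A : Finset S => ‖x - ∑ i ∈ A, lp.single 1 i (x i)‖) atTop (𝓝 0) := by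
      have h4 : Tendsto (fun A : Finset S => x - ∑ i ∈ A, lp.single 1 i (x i)) atTop
          (𝓝 (x - x)) := tendsto_const_nhds.sub h2
      rw [sub_self] at h4
      simpa using h4.norm
    filter_upwards [h3.eventually (gt_mem_nhds hδ)] with A hA
    exact hA.le
  obtain ⟨A, hA⟩ := ((Finset.eventually_all s).2 h1).exists
  have hsum : ∀ (g : A → ℝ), (∀ s : S, s ∉ A → True) → ∑' s : S,
      (if h : s ∈ A then g ⟨s, h⟩ else 0) = ∑ a, g a := by
    intro g _
    rw [tsum_eq_sum (s := A)]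
    · rw [← Finset.sum_coe_sort A]
      apply Finset.sum_congr rfl
      intro a _
      simp
    · intro b hb
      simp [hb]
  have hsm : ∀ c : PiLp 1 (fun _ : A => 𝕜), Summable fun s : S =>
      ‖(if h : s ∈ A then c ⟨s, h⟩ else 0 : 𝕜)‖ := by
    intro c
    apply summable_of_ne_finset_zero (s := A)
    intro b hb
    simp [hb]
  let J : PiLp 1 (fun _ : A => 𝕜) →ₗᵢ[𝕜] lp (fun _ : S => 𝕜) 1 :=
    { toFun := fun c => lp1Mk (fun s => if h : s ∈ A then c ⟨s, h⟩ else 0) (hsm c)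
      map_add' := fun c c' => by
        ext s
        by_cases h : s ∈ A <;> simp [h]
      map_smul' := fun a c => by
        ext s
        by_cases h : s ∈ A <;> simp [h]
      norm_map' := fun c => by
        change ‖lp1Mk (fun s => if h : s ∈ A then c ⟨s, h⟩ else 0) (hsm c)‖ = ‖c‖
        rw [norm_lp1Mk, PiLp.norm_eq_of_L1, ← hsum (fun a => ‖c a‖) (fun _ _ => trivial)]
        apply tsum_congr
        intro s
        by_cases h : s ∈ A <;> simp [h] }
  refine approxL_of_fintype J s δ fun x hx => ⟨WithLp.toLp 1 (fun a : A => x a), ?_⟩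
  have : J (WithLp.toLp 1 (fun a : A => x a)) = ∑ i ∈ A, lp.single 1 i (x i) := by
    ext s
    change (if h : s ∈ A then x s else 0) = _
    rw [lp.coeFn_sum, Finset.sum_apply]
    simp only [lp.single_apply]
    rw [Finset.sum_pi_single]
    by_cases h : s ∈ A <;> simp [h]
  rw [this]
  exact hA x hx

theorem IsEllOne.isScriptL {X : Ban.{u} 𝕜} (h : IsEllOne X) : IsScriptL 1 X := by
  obtain ⟨S, ⟨e⟩⟩ := h
  exact (approxL_ell1.congr e.symm).isScriptL

/-- norm of a functional on `ℓ¹` -/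
lemma norm_dual_ell_le [DecidableEq S] (ψ : StrongDual 𝕜 (lp (fun _ : S => 𝕜) 1)) {C : ℝ}
    (hC : 0 ≤ C) (h : ∀ t, ‖ψ (lp.single 1 t (1 : 𝕜))‖ ≤ C) : ‖ψ‖ ≤ C := by
  have e : ψ = lpLift (fun t => ContinuousLinearMap.toSpanSingleton 𝕜
      (ψ (lp.single 1 t (1 : 𝕜)))) C (by
        intro t
        rw [ContinuousLinearMap.norm_toSpanSingleton]
        exact h t) := by
    apply lp1_ext
    intro t c
    rw [lpLift_single]
    have e1 : lp.single 1 t c = c • (lp.single 1 t (1 : 𝕜) : lp (fun _ : S => 𝕜) 1) := by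
      rw [← lp.single_smul]
      simp
    rw [e1, map_smul]
    simp
  rw [e]
  exact norm_lpLift_le _ hC _

/-- the functional with given coefficients -/
def coefFun [DecidableEq S] (g : S → 𝕜) (C : ℝ) (h : ∀ t, ‖g t‖ ≤ C) :
    StrongDual 𝕜 (lp (fun _ : S => 𝕜) 1) :=
  lpLift (fun t => ContinuousLinearMap.toSpanSingleton 𝕜 (g t)) C (by
    intro t
    rw [ContinuousLinearMap.norm_toSpanSingleton]
    exact h t)

lemma coefFun_single [DecidableEq S] (g : S → 𝕜) (C : ℝ) (h : ∀ t, ‖g t‖ ≤ C) (t : S) :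
    coefFun g C h (lp.single 1 t (1 : 𝕜)) = g t := by
  rw [coefFun, lpLift_single]
  simp

lemma dual_ell_ext [DecidableEq S] {ψ ψ' : StrongDual 𝕜 (lp (fun _ : S => 𝕜) 1)}
    (h : ∀ t, ψ (lp.single 1 t (1 : 𝕜)) = ψ' (lp.single 1 t (1 : 𝕜))) : ψ = ψ' := by
  apply lp1_ext
  intro t c
  have e1 : lp.single 1 t c = c • (lp.single 1 t (1 : 𝕜) : lp (fun _ : S => 𝕜) 1) := by
    rw [← lp.single_smul]
    simp
  rw [e1, map_smul, map_smul, h]

lemma approxL_dual_ell1 : ApproxL 𝕜 ⊤ (StrongDual 𝕜 (lp (fun _ : S => 𝕜) 1)) := by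
  classical
  intro s δ hδ
  -- the vector valued map
  let f : S → (s → 𝕜) := fun t φ => (φ : StrongDual 𝕜 (lp (fun _ : S => 𝕜) 1))
    (lp.single 1 t (1 : 𝕜))
  have hfb : ∀ t, ‖f t‖ ≤ ∑ φ : s, ‖(φ : StrongDual 𝕜 (lp (fun _ : S => 𝕜) 1))‖ := by
    intro t
    rw [pi_norm_le_iff_of_nonneg (by positivity)]
    intro φ
    calc ‖f t φ‖ ≤ ‖(φ : StrongDual 𝕜 (lp (fun _ : S => 𝕜) 1))‖ * 1 := by
          refine (ContinuousLinearMap.le_opNorm _ _).trans ?_
          rw [lp.norm_single (by norm_num), norm_one]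
      _ = ‖(φ : StrongDual 𝕜 (lp (fun _ : S => 𝕜) 1))‖ := mul_one _
      _ ≤ _ := Finset.single_le_sum
          (f := fun φ : s => ‖(φ : StrongDual 𝕜 (lp (fun _ : S => 𝕜) 1))‖)
          (fun _ _ => norm_nonneg _) (Finset.mem_univ φ)
  have htb : TotallyBounded (Set.range f) := by
    apply TotallyBounded.subset _ (isCompact_closedBall (0 : s → 𝕜)
      (∑ φ : s, ‖(φ : StrongDual 𝕜 (lp (fun _ : S => 𝕜) 1))‖)).totallyBounded
    rintro _ ⟨t, rfl⟩
    simpa using hfb t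
  obtain ⟨C, hCf, hC⟩ := Metric.totallyBounded_iff.1 htb δ hδ
  have hq : ∀ t, ∃ c : C, ‖f t - c‖ ≤ δ := by
    intro t
    have := hC ⟨t, rfl⟩
    simp only [Set.mem_iUnion, Metric.mem_ball, exists_prop] at this
    obtain ⟨c, hc1, hc2⟩ := this
    exact ⟨⟨c, hc1⟩, by rw [← dist_eq_norm]; exact hc2.le⟩
  choose q hq using hq
  have : Finite C := hCf
  have : Fintype (Set.range q) := Fintype.ofFinite _
  let q' : S → Set.range q := fun t => ⟨q t, t, rfl⟩
  have hc : ∀ (c : PiLp ⊤ (fun _ : Set.range q => 𝕜)) (t : S), ‖c (q' t)‖ ≤ ‖c‖ :=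
    fun c t => PiLp.norm_apply_le c (q' t)
  let J : PiLp ⊤ (fun _ : Set.range q => 𝕜) →ₗᵢ[𝕜] StrongDual 𝕜 (lp (fun _ : S => 𝕜) 1) :=
    { toFun := fun c => coefFun (fun t => c (q' t)) ‖c‖ (hc c)
      map_add' := fun c c' => by
        apply dual_ell_ext
        intro t
        simp [coefFun_single]
      map_smul' := fun a c => by
        apply dual_ell_ext
        intro t
        simp [coefFun_single]
      norm_map' := fun c => by
        change ‖coefFun (fun t => c (q' t)) ‖c‖ (hc c)‖ = ‖c‖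
        apply le_antisymm
        · apply norm_dual_ell_le _ (norm_nonneg _)
          intro t
          rw [coefFun_single]
          exact hc c t
        · refine (PiLp.norm_eq_ciSup c).le.trans ?_
          apply Real.iSup_le _ (norm_nonneg _)
          rintro ⟨_, t, rfl⟩
          have h1 : ‖coefFun (fun t => c (q' t)) ‖c‖ (hc c) (lp.single 1 t (1 : 𝕜))‖ ≤
              ‖coefFun (fun t => c (q' t)) ‖c‖ (hc c)‖ * 1 := by
            refine (ContinuousLinearMap.le_opNorm _ _).trans ?_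
            rw [lp.norm_single (by norm_num), norm_one]
          rw [coefFun_single, mul_one] at h1
          exact h1 }
  have hJs : ∀ (c : PiLp ⊤ (fun _ : Set.range q => 𝕜)) (t : S),
      J c (lp.single 1 t (1 : 𝕜)) = c (q' t) := fun c t => coefFun_single _ _ (hc c) t
  refine approxL_of_fintype J s δ fun φ hφ =>
    ⟨WithLp.toLp ⊤ (fun i : Set.range q => ((i : C) : s → 𝕜) ⟨φ, hφ⟩), ?_⟩
  apply norm_dual_ell_le _ hδ.le
  intro t
  rw [_root_.sub_apply]
  have e1 : J (WithLp.toLp ⊤ (fun i : Set.range q => ((i : C) : s → 𝕜) ⟨φ, hφ⟩))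
      (lp.single 1 t (1 : 𝕜)) = ((q t : C) : s → 𝕜) ⟨φ, hφ⟩ := by
    exact hJs _ t
  rw [e1]
  exact (norm_le_pi_norm (f t - (q t : s → 𝕜)) ⟨φ, hφ⟩).trans (hq t)

/-- The dual of a Banach space. -/
def dualBan (X : Ban.{u} 𝕜) : Ban.{u} 𝕜 := { carrier := StrongDual 𝕜 X }

/-- isometry of duals -/
def dualIso {X Y : Type*} [NormedAddCommGroup X] [NormedSpace 𝕜 X] [NormedAddCommGroup Y]
    [NormedSpace 𝕜 Y] (e : X ≃ₗᵢ[𝕜] Y) : StrongDual 𝕜 X ≃ₗᵢ[𝕜] StrongDual 𝕜 Y where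
  toFun φ := φ.comp (e.symm.toContinuousLinearEquiv : Y →L[𝕜] X)
  map_add' _ _ := rfl
  map_smul' _ _ := rfl
  invFun ψ := ψ.comp (e.toContinuousLinearEquiv : X →L[𝕜] Y)
  left_inv φ := by
    ext x
    simp
  right_inv ψ := by
    ext x
    simp
  norm_map' φ := by
    apply le_antisymm
    · apply ContinuousLinearMap.opNorm_le_bound _ (norm_nonneg _)
      intro y
      have := φ.le_opNorm (e.symm y)
      rwa [LinearIsometryEquiv.norm_map] at this
    · apply ContinuousLinearMap.opNorm_le_bound _ (norm_nonneg _)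
      intro x
      have := (φ.comp (e.symm.toContinuousLinearEquiv : Y →L[𝕜] X)).le_opNorm (e x)
      rw [LinearIsometryEquiv.norm_map] at this
      simpa using this

theorem IsEllOne.isScriptL_dual {X : Ban.{u} 𝕜} (h : IsEllOne X) :
    IsScriptL ⊤ (dualBan X) := by
  obtain ⟨S, ⟨e⟩⟩ := h
  exact ApproxL.isScriptL (X := dualBan X) (approxL_dual_ell1.congr (dualIso e.symm))

theorem IsEllOne.isInjective_dual {X : Ban.{u} 𝕜} (h : IsEllOne X) :
    IsInjective (dualBan X) := by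
  obtain ⟨S, ⟨e⟩⟩ := h
  intro W V _ T
  have h1 := HasExt.retract (𝕜 := 𝕜) (W := W) (Q := StrongDual 𝕜 X) zero_le_one
    (hasExt_dual_ell (S := S) W)
    ((dualIso e).toContinuousLinearEquiv : StrongDual 𝕜 X →L[𝕜] _)
    ((dualIso e).symm.toContinuousLinearEquiv : _ →L[𝕜] StrongDual 𝕜 X) (by
      intro x
      simp)
  obtain ⟨T', hT', -⟩ := h1 V T
  exact ⟨T', hT'⟩

end ell1

end

end Pool.Agent.H52
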