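import Pool.Agent.H52.Blk
import Pool.Agent.H52.ScriptL

/-!
Augmented complexes, duals of resolutions and the lower bound for the length of resolutions.
-/

namespace Pool.Agent.H52

noncomputable section

universe u

variable {𝕜 : Type} [RCLike 𝕜]

section aug

/-- the augmented complex of a left resolution -/
def augL (X : Ban.{u} 𝕜) (P : ℕ → Ban.{u} 𝕜) : ℕ → Ban.{u} 𝕜
  | 0 => X
  | (j + 1) => P j

/-- its maps -/
def augLd {X : Ban.{u} 𝕜} {P : ℕ → Ban.{u} 𝕜} (ε : P 0 →L[𝕜] X)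
    (d : ∀ j, P (j + 1) →L[𝕜] P j) : ∀ j, augL X P (j + 1) →L[𝕜] augL X P j
  | 0 => ε
  | (j + 1) => d j

/-- the maps of the augmented complex of a right resolution -/
def augRd {X : Ban.{u} 𝕜} {Q : ℕ → Ban.{u} 𝕜} (ι : X →L[𝕜] Q 0)
    (d : ∀ j, Q j →L[𝕜] Q (j + 1)) : ∀ j, augL X Q j →L[𝕜] augL X Q (j + 1)
  | 0 => ι
  | (j + 1) => d j

variable {X : Ban.{u} 𝕜} {P : ℕ → Ban.{u} 𝕜}

lemma LeftExact.lex {ε : P 0 →L[𝕜] X} {d : ∀ j, P (j + 1) →L[𝕜] P j}
    (h : LeftExact X P ε d) : LEx (fun j => augL X P j) (fun j => augLd ε d j) where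
  surj := h.surjective
  comp j x := by
    cases j with
    | zero => exact (h.exact_zero _).2 ⟨x, rfl⟩
    | succ j => exact (h.exact_succ j _).2 ⟨x, rfl⟩
  ex j x hx := by
    cases j with
    | zero => exact (h.exact_zero _).1 hx
    | succ j => exact (h.exact_succ j _).1 hx

lemma LEx.leftExact {D : ℕ → Ban.{u} 𝕜} {δ : ∀ j, D (j + 1) →L[𝕜] D j}
    (h : LEx (fun j => D j) (fun j => δ j)) :
    LeftExact (D 0) (fun j => D (j + 1)) (δ 0) (fun j => δ (j + 1)) where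
  surjective := h.surj
  exact_zero x := by
    constructor
    · intro hx
      obtain ⟨y, hy⟩ := h.ex 0 x hx
      exact ⟨y, hy⟩
    · rintro ⟨y, rfl⟩
      exact h.comp 0 y
  exact_succ j x := by
    constructor
    · intro hx
      obtain ⟨y, hy⟩ := h.ex (j + 1) x hx
      exact ⟨y, hy⟩
    · rintro ⟨y, rfl⟩
      exact h.comp (j + 1) y

lemma RightExact.rex {ι : X →L[𝕜] P 0} {d : ∀ j, P j →L[𝕜] P (j + 1)}
    (h : RightExact X P ι d) : REx (fun j => augL X P j) (fun j => augRd ι d j) where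
  inj x hx := h.injective (Eq.trans (b := (0 : P 0)) hx (map_zero ι).symm)
  comp j x := by
    cases j with
    | zero => exact (h.exact_zero _).2 ⟨x, rfl⟩
    | succ j => exact (h.exact_succ j _).2 ⟨x, rfl⟩
  ex j x hx := by
    cases j with
    | zero => exact (h.exact_zero _).1 hx
    | succ j => exact (h.exact_succ j _).1 hx

lemma REx.openC {D : ℕ → Ban.{u} 𝕜} {d : ∀ j, D j →L[𝕜] D (j + 1)}
    (h : REx (fun j => D j) (fun j => d j)) (j : ℕ) : ∃ C, 0 ≤ C ∧ OpenC (d j) C :=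
  exists_openC_of_ker (d j) (d (j + 1)) (h.comp j) (h.ex j)

lemma LEx.openC {D : ℕ → Ban.{u} 𝕜} {δ : ∀ j, D (j + 1) →L[𝕜] D j}
    (h : LEx (fun j => D j) (fun j => δ j)) (j : ℕ) : ∃ C, 0 ≤ C ∧ OpenC (δ j) C := by
  cases j with
  | zero =>
    apply exists_openC
    have : LinearMap.range (δ 0 : D 1 →ₗ[𝕜] D 0) = ⊤ := LinearMap.range_eq_top.2 h.surj
    rw [this]
    exact isClosed_univ
  | succ j => exact exists_openC_of_ker (δ (j + 1)) (δ j) (h.comp j) (h.ex j)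

/-- The dual of a left resolution is a right resolution. -/
theorem LeftExact.dual {ε : P 0 →L[𝕜] X} {d : ∀ j, P (j + 1) →L[𝕜] P j}
    (h : LeftExact X P ε d) :
    RightExact (dualBan X) (fun j => dualBan (P j)) (Pool.Agent.H52.dual ε)
      (fun j => Pool.Agent.H52.dual (d j)) := by
  choose C hC0 hC using h.lex.openC
  have hR := h.lex.dual hC0 hC
  constructor
  · intro (φ : StrongDual 𝕜 X) (ψ : StrongDual 𝕜 X) hφψ
    have hφψ' : Pool.Agent.H52.dual ε φ = Pool.Agent.H52.dual ε ψ := hφψ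
    have h1 : Pool.Agent.H52.dual ε (φ - ψ) = 0 := by
      rw [map_sub]
      exact sub_eq_zero.2 hφψ'
    exact sub_eq_zero.1 (hR.inj (φ - ψ) h1)
  · intro φ
    constructor
    · intro hφ
      exact hR.ex 0 φ hφ
    · rintro ⟨ψ, rfl⟩
      exact hR.comp 0 ψ
  · intro j φ
    constructor
    · intro hφ
      exact hR.ex (j + 1) φ hφ
    · rintro ⟨ψ, rfl⟩
      exact hR.comp (j + 1) ψ

end aug

section lb

lemma uniform_const (P : ℕ → ℝ → Prop) (mono : ∀ j c c', c ≤ c' → P j c → P j c')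
    (h : ∀ j, ∃ c, 0 ≤ c ∧ P j c) (m : ℕ) (h0 : ∀ j, m < j → P j 0) :
    ∃ c, 0 ≤ c ∧ ∀ j, P j c := by
  choose c hc1 hc2 using h
  have hs : 0 ≤ ∑ i ∈ Finset.range (m + 1), c i := Finset.sum_nonneg fun i _ => hc1 i
  refine ⟨∑ i ∈ Finset.range (m + 1), c i, hs, fun j => ?_⟩
  by_cases hj : m < j
  · exact mono j _ _ hs (h0 j hj)
  · refine mono j _ _ ?_ (hc2 j)
    exact Finset.single_le_sum (fun i _ => hc1 i) (Finset.mem_range.2 (by omega))

/-- `Y` contains complemented copies of the duals of the bottoms of the finite complexes. -/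
def HasBlk (Y : Ban.{u} 𝕜) (N : ℕ) : Prop :=
  ∃ C, 0 ≤ C ∧ ∀ η : ℝ, 0 < η → ∃ (η' : ℝ) (B : Cx N C η')
    (i : StrongDual 𝕜 (B.D 𝕜 0) →L[𝕜] Y) (r : Y →L[𝕜] StrongDual 𝕜 (B.D 𝕜 0)),
    η' ≤ η ∧ (∀ x, r (i x) = x) ∧ ‖i‖ ≤ 1 ∧ ‖r‖ ≤ 1

lemma extAlong_zero_target {V W Q : Type*} [NormedAddCommGroup V] [NormedSpace 𝕜 V]
    [NormedAddCommGroup W] [NormedSpace 𝕜 W] [NormedAddCommGroup Q] [NormedSpace 𝕜 Q]
    (d : V →L[𝕜] W) (h : ∀ x : Q, x = 0) {c : ℝ} (hc : 0 ≤ c) : ExtAlong d Q c := by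
  intro T _
  refine ⟨0, fun x => ?_, ?_⟩
  · rw [h (T x)]
    rfl
  · rw [norm_zero]
    positivity

lemma finExt_zero {Q : Ban.{u} 𝕜} (h : Subsingleton Q) : FinExt Q 0 := by
  intro W _ _ _ A T
  refine ⟨0, fun a => Subsingleton.elim _ _, ?_⟩
  rw [norm_zero, zero_mul]

theorem lower_bound {Y : Ban.{u} 𝕜} {N : ℕ} (hY : HasBlk Y (N + 1)) {Q : ℕ → Ban.{u} 𝕜}
    {ι : Y →L[𝕜] Q 0} {d : ∀ j, Q j →L[𝕜] Q (j + 1)} (h : RightExact Y Q ι d)
    {m : ℕ} (hQ : ∀ j ≤ m, ∃ c, 0 ≤ c ∧ FinExt (Q j) c) (hm : m ≤ N)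
    (hz : ∀ j > m, Subsingleton (Q j)) : False := by
  obtain ⟨C, hC0, hC⟩ := hY
  -- constants
  obtain ⟨c, hc0, hc⟩ := uniform_const (fun j c => FinExt (Q j) c)
    (fun j c c' hcc hP W _ _ _ => (hP W).mono hcc)
    (fun j => by
      by_cases hj : j ≤ m
      · exact hQ j hj
      · exact ⟨0, le_refl _, finExt_zero (hz j (by omega))⟩) m
    (fun j hj => finExt_zero (hz j hj))
  have hrex := h.rex
  have hzero : ∀ j, m + 1 < j → ∀ x : augL Y Q j, x = 0 := by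
    intro j hj
    obtain ⟨k, rfl⟩ : ∃ k, j = k + 1 := ⟨j - 1, by omega⟩
    have := hz k (by omega)
    intro x
    exact @Subsingleton.elim (Q k) this x 0
  obtain ⟨o, ho0, ho⟩ := uniform_const (fun j c => OpenC (augRd ι d j) c)
    (fun j c c' hcc hP => hP.mono hcc) hrex.openC (m + 1) (by
      intro j hj x
      refine ⟨0, ?_, ?_⟩
      · rw [hzero j hj x]
      · rw [norm_zero, zero_mul])
  obtain ⟨b, hb0, hb⟩ := uniform_const (fun j c => ‖augRd ι d j‖ ≤ c)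
    (fun j c c' hcc hP => hP.trans hcc) (fun j => ⟨_, norm_nonneg _, le_refl _⟩) (m + 1) (by
      intro j hj
      apply ContinuousLinearMap.opNorm_le_bound _ (le_refl _)
      intro x
      rw [hzero j hj x, map_zero, norm_zero, norm_zero, mul_zero])
  set M : ℝ := (2 * C + 2) + c * (2 * C + 2) + o + b + 1 with hM
  have hcc : 0 ≤ c * (2 * C + 2) := by positivity
  have hM0 : 0 ≤ M := by positivity
  have hM1 : 2 * C + 2 ≤ M := by linarith
  have hM2 : c * (2 * C + 2) ≤ M := by linarith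
  have hM3 : o ≤ M := by linarith
  have hM4 : b ≤ M := by linarith
  have hM5 : 1 ≤ M := by linarith
  set K : ℝ := Hb M (N + 1) with hK
  have hK0 : 0 ≤ K := Hb_nonneg hM0 _
  have hη : 0 < 1 / (2 * (K + 1)) := by positivity
  obtain ⟨η', B, i, r, hη', hri, hi, hr⟩ := hC _ hη
  have hCC : (0 : ℝ) ≤ 2 * C + 2 := by positivity
  have hBopen : ∀ j, OpenC (dual (B.del 𝕜 j)) (2 * C + 2) := fun j =>
    openC_dual (B.openC hC0 j) hCC
  have hcomp := comparison (C := fun j => StrongDual 𝕜 (B.D 𝕜 j)) (C' := fun j => augL Y Q j)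
    (d := fun j => dual (B.del 𝕜 j)) (d' := fun j => augRd ι d j) hM0
    ((B.lex hC0).dual (fun _ => hCC) (B.openC hC0)) hrex i r hri (hi.trans hM5) (hr.trans hM5)
    (fun j => (norm_dual_le _).trans ((B.norm_del hC0 j).trans hM1))
    (fun j => (hb j).trans hM4)
    (fun j => (extAlong_of (hBopen j) hCC (hc j (StrongDual 𝕜 (B.D 𝕜 (j + 1)))) hc0).mono hM2)
    (fun j => by
      have h1 : HasExt 𝕜 (augL Y Q (j + 1)) (StrongDual 𝕜 (B.D 𝕜 (j + 1))) 1 :=
        hasExt_dual_ell (S := B.S (j + 1)) (augL Y Q (j + 1))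
      have h2 := extAlong_of (ho j) ho0 h1 zero_le_one
      rw [one_mul] at h2
      exact h2.mono hM3)
    (fun j => by
      have h1 : HasExt 𝕜 (StrongDual 𝕜 (B.D 𝕜 (j + 2))) (StrongDual 𝕜 (B.D 𝕜 (j + 1))) 1 :=
        hasExt_dual_ell (S := B.S (j + 1)) (StrongDual 𝕜 (B.D 𝕜 (j + 2)))
      have h2 := extAlong_of (hBopen (j + 1)) hCC h1 zero_le_one
      rw [one_mul] at h2
      exact h2.mono hM1) (N + 1)
    (hzero (N + 2) (by omega))
    (fun φ => by
      have := B.D_subsingleton (𝕜 := 𝕜) (j := N + 3) (by omega)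
      ext x
      rw [this x, map_zero, map_zero])
  obtain ⟨σ, hσ1, hσ2⟩ := hcomp
  have h1 := B.cert (𝕜 := 𝕜) σ hσ1
  have h2 : ‖σ‖ * η' ≤ K * (1 / (2 * (K + 1))) := by
    calc ‖σ‖ * η' ≤ ‖σ‖ * (1 / (2 * (K + 1))) := by gcongr
      _ ≤ _ := by gcongr
  have h3 : K * (1 / (2 * (K + 1))) < 1 := by
    rw [mul_one_div, div_lt_one (by positivity)]
    linarith
  linarith

end lb

end

end Pool.Agent.H52
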