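import Pool.Agent.H52.Key

/-!
The concrete mixing family: translations of `Fin D → ZMod p` by multiples of moment vectors.
-/

namespace Pool.Agent.H52

open Finset

noncomputable section

section avg2

variable {ι κ T : Type*} [Fintype ι] [Fintype κ] [Fintype T]

lemma avg_prod (f : ι → κ → ℝ) :
    avg (fun q : ι × κ => f q.1 q.2) = avg (fun i => avg (fun k => f i k)) := by
  simp only [avg, Fintype.sum_prod_type, Fintype.card_prod, Nat.cast_mul]
  rw [Finset.sum_div, Finset.sum_div]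
  apply Finset.sum_congr rfl
  intro i _
  rw [div_div, mul_comm]

lemma avg_coord [DecidableEq ι] [Nonempty T] (l : ι) (g : T → ℝ) :
    avg (fun ω : ι → T => g (ω l)) = avg g := by
  classical
  rw [← avg_equiv (Equiv.funSplitAt l T).symm]
  have : (fun q : T × ({ j // j ≠ l } → T) => g ((Equiv.funSplitAt l T).symm q l)) =
      fun q => (fun a (_ : { j // j ≠ l } → T) => g a) q.1 q.2 := by
    funext q
    simp [Equiv.funSplitAt]
  rw [this]
  refine (avg_prod (fun (a : T) (_ : { j // j ≠ l } → T) => g a)).trans ?_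
  simp only [avg_const]

lemma avg_coord_two [DecidableEq ι] [Nonempty T] {l l' : ι} (hl : l ≠ l') (g h : T → ℝ) :
    avg (fun ω : ι → T => g (ω l) * h (ω l')) = avg g * avg h := by
  classical
  rw [← avg_equiv (Equiv.funSplitAt l T).symm]
  have : (fun q : T × ({ j // j ≠ l } → T) => g ((Equiv.funSplitAt l T).symm q l) *
      h ((Equiv.funSplitAt l T).symm q l')) =
      fun q => (fun a (r : { j // j ≠ l } → T) => g a * h (r ⟨l', hl.symm⟩)) q.1 q.2 := by
    funext q
    simp [Equiv.funSplitAt, hl.symm]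
  rw [this]
  refine (avg_prod (fun (a : T) (r : { j // j ≠ l } → T) => g a * h (r ⟨l', hl.symm⟩))).trans ?_
  simp only [avg_const_mul]
  have e : avg (fun r : { j // j ≠ l } → T => h (r ⟨l', hl.symm⟩)) = avg h :=
    avg_coord (⟨l', hl.symm⟩ : { j // j ≠ l }) h
  rw [e, avg_mul_const]

end avg2

section concrete

variable {p D : ℕ} [Fact p.Prime]

/-- the translation vectors: `b` times the moment vector of `a` -/
def s (p D : ℕ) (t : ZMod p × ZMod p) : Fin D → ZMod p := fun i => t.2 * t.1 ^ (i : ℕ)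

/-- iterated averaging -/
def QI (p D : ℕ) [NeZero p] (I : Type) [Fintype I] [DecidableEq I] (f : (Fin D → ZMod p) → ℝ)
    (v : Fin D → ZMod p) : ℝ :=
  avg (fun t : I → ZMod p × ZMod p => f (v + ∑ i, s p D (t i)))

/-- one step of averaging -/
def Q1 (p D : ℕ) [NeZero p] (f : (Fin D → ZMod p) → ℝ) (v : Fin D → ZMod p) : ℝ :=
  avg (fun t : ZMod p × ZMod p => f (v + s p D t))

lemma QI_congr {I I' : Type} [Fintype I] [DecidableEq I] [Fintype I'] [DecidableEq I']
    (e : I ≃ I') (f : (Fin D → ZMod p) → ℝ) (v : Fin D → ZMod p) :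
    QI p D I f v = QI p D I' f v := by
  unfold QI
  rw [← avg_equiv (Equiv.arrowCongr e (Equiv.refl _))]
  apply avg_congr
  intro t
  congr 2
  rw [← Equiv.sum_comp e]
  apply Finset.sum_congr rfl
  intro i _
  simp

lemma QI_one (f : (Fin D → ZMod p) → ℝ) (v : Fin D → ZMod p) :
    QI p D (Fin 1) f v = Q1 p D f v := by
  unfold QI Q1
  have := avg_coord (T := ZMod p × ZMod p) (0 : Fin 1) (fun t => f (v + s p D t))
  rw [← this]
  apply avg_congr
  intro t
  simp

lemma s_neg (t : ZMod p × ZMod p) : s p D (t.1, - t.2) = - s p D t := by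
  funext i
  simp [s]

/-- `‖Q_I f‖² = ⟨Q_{I ⊕ I} f, f⟩` -/
lemma QI_sq (I : Type) [Fintype I] [DecidableEq I] (f : (Fin D → ZMod p) → ℝ) :
    avg (fun v => QI p D I f v ^ 2) = avg (fun v => QI p D (I ⊕ I) f v * f v) := by
  let S : (I → ZMod p × ZMod p) → (Fin D → ZMod p) := fun t => ∑ i, s p D (t i)
  let e : (I → ZMod p × ZMod p) ≃ (I → ZMod p × ZMod p) :=
    Equiv.arrowCongr (Equiv.refl I) (Equiv.prodCongr (Equiv.refl _) (Equiv.neg _))
  have hS : ∀ t, S (e t) = - S t := by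
    intro t
    simp only [S, ← Finset.sum_neg_distrib]
    apply Finset.sum_congr rfl
    intro i _
    rw [← s_neg]
    rfl
  have h1 : ∀ v, QI p D I f v ^ 2 = avg (fun t => avg (fun t' => f (v + S t) * f (v + S t'))) := by
    intro v
    simp only [avg_const_mul, avg_mul_const]
    rw [sq]
    rfl
  have h2 : ∀ v, QI p D (I ⊕ I) f v * f v =
      avg (fun t => avg (fun t' => f (v + S t + S t') * f v)) := by
    intro v
    simp only [avg_mul_const]
    congr 1
    rw [← avg_prod]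
    unfold QI
    rw [← avg_equiv (Equiv.sumArrowEquivProdArrow I I (ZMod p × ZMod p)).symm]
    apply avg_congr
    intro q
    simp only [Fintype.sum_sum_type, S, add_assoc]
    rfl
  simp only [h1, h2]
  rw [avg_comm]
  rw [avg_comm (fun v t => avg fun t' => f (v + S t + S t') * f v)]
  apply avg_congr
  intro t
  rw [avg_comm, avg_comm (fun v t' => f (v + S t + S t') * f v)]
  rw [← avg_equiv e]
  apply avg_congr
  intro t'
  rw [hS]
  rw [← avg_shift (fun v => f (v + S t) * f (v + - S t')) (S t')]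
  apply avg_congr
  intro v
  congr 2
  · abel
  · abel

/-- The `L²` norm. -/
def n2 {ι : Type*} [Fintype ι] (f : ι → ℝ) : ℝ := √(avg fun i => f i ^ 2)

lemma n2_nonneg {ι : Type*} [Fintype ι] (f : ι → ℝ) : 0 ≤ n2 f := Real.sqrt_nonneg _

lemma n2_sq {ι : Type*} [Fintype ι] (f : ι → ℝ) : n2 f ^ 2 = avg fun i => f i ^ 2 :=
  Real.sq_sqrt (avg_nonneg fun _ => sq_nonneg _)

lemma QI_pow (f : (Fin D → ZMod p) → ℝ) (j : ℕ) :
    n2 (Q1 p D f) ^ (2 ^ j) * n2 f ≤ n2 (QI p D (Fin (2 ^ j)) f) * n2 f ^ (2 ^ j) := by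
  have key : ∀ j, n2 (QI p D (Fin (2 ^ j)) f) ^ 2 ≤ n2 (QI p D (Fin (2 ^ (j + 1))) f) * n2 f := by
    intro j
    rw [n2_sq, QI_sq]
    have e : Fin (2 ^ j) ⊕ Fin (2 ^ j) ≃ Fin (2 ^ (j + 1)) :=
      finSumFinEquiv.trans (finCongr (by rw [pow_succ]; ring))
    simp only [QI_congr e]
    exact avg_mul_le _ _
  have h0 : 0 ≤ n2 f := n2_nonneg f
  rcases h0.eq_or_lt with h0 | h0
  · rw [← h0]
    simp
  induction j with
  | zero =>
    have : (QI p D (Fin 1) f) = Q1 p D f := funext fun v => QI_one f v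
    change n2 (Q1 p D f) ^ 1 * n2 f ≤ n2 (QI p D (Fin 1) f) * n2 f ^ 1
    rw [this, pow_one, pow_one]
  | succ j ih =>
    have h1 := key j
    have h2 : (n2 (Q1 p D f) ^ (2 ^ j) * n2 f) ^ 2 ≤
        (n2 (QI p D (Fin (2 ^ j)) f) * n2 f ^ (2 ^ j)) ^ 2 := by
      have : 0 ≤ n2 (Q1 p D f) := n2_nonneg _
      gcongr
    have h3 : n2 (Q1 p D f) ^ (2 ^ (j + 1)) * n2 f * n2 f ≤
        n2 (QI p D (Fin (2 ^ (j + 1))) f) * n2 f ^ (2 ^ (j + 1)) * n2 f := by
      calc n2 (Q1 p D f) ^ (2 ^ (j + 1)) * n2 f * n2 f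
          = (n2 (Q1 p D f) ^ (2 ^ j) * n2 f) ^ 2 := by ring
        _ ≤ (n2 (QI p D (Fin (2 ^ j)) f) * n2 f ^ (2 ^ j)) ^ 2 := h2
        _ = n2 (QI p D (Fin (2 ^ j)) f) ^ 2 * n2 f ^ (2 ^ (j + 1)) := by ring
        _ ≤ (n2 (QI p D (Fin (2 ^ (j + 1))) f) * n2 f) * n2 f ^ (2 ^ (j + 1)) := by gcongr
        _ = _ := by ring
    exact le_of_mul_le_mul_right h3 h0

end concrete

end

end Pool.Agent.H52
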