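import Pool.Agent.H52.LB

/-!
The `ℓ¹` sum of the finite dimensional subspaces and the pure exact sequence it gives.
-/

namespace Pool.Agent.H52

open Filter Topology

noncomputable section

universe u

variable {𝕜 : Type} [RCLike 𝕜]

section ultra

/-- The canonical embedding of a finite dimensional space into its bidual is onto. -/
lemma inclusion_surjective (E : Type*) [NormedAddCommGroup E] [NormedSpace 𝕜 E]
    [FiniteDimensional 𝕜 E] :
    Function.Surjective (NormedSpace.inclusionInDoubleDual 𝕜 E) := by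
  have hinj : Function.Injective (NormedSpace.inclusionInDoubleDual 𝕜 E :
      E →ₗ[𝕜] StrongDual 𝕜 (StrongDual 𝕜 E)) :=
    (NormedSpace.inclusionInDoubleDualLi (𝕜 := 𝕜) (E := E)).injective
  have h1 : ∀ (V : Type _) [NormedAddCommGroup V] [NormedSpace 𝕜 V] [FiniteDimensional 𝕜 V],
      Module.finrank 𝕜 (StrongDual 𝕜 V) = Module.finrank 𝕜 V := by
    intro V _ _ _
    rw [← Subspace.dual_finrank_eq (K := 𝕜) (V := V)]
    exact (LinearMap.toContinuousLinearMap (𝕜 := 𝕜) (E := V) (F' := 𝕜)).symm.finrank_eq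
  have h2 : Module.finrank 𝕜 E = Module.finrank 𝕜 (StrongDual 𝕜 (StrongDual 𝕜 E)) := by
    rw [h1, h1]
  have h3 := (LinearMap.injective_iff_surjective_of_finrank_eq_finrank (K := 𝕜) (V := E)
    (V₂ := StrongDual 𝕜 (StrongDual 𝕜 E)) h2
    (f := (NormedSpace.inclusionInDoubleDual 𝕜 E : E →ₗ[𝕜] StrongDual 𝕜 (StrongDual 𝕜 E)))).1
    hinj
  exact h3

variable {I : Type u} {E : I → Type u} [∀ i, NormedAddCommGroup (E i)]
  [∀ i, NormedSpace 𝕜 (E i)] [∀ i, FiniteDimensional 𝕜 (E i)]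

/-- An `ℓ¹` sum of finite dimensional spaces is complemented in its bidual. -/
theorem exists_ultra :
    ∃ P : StrongDual 𝕜 (StrongDual 𝕜 (lp E 1)) →L[𝕜] lp E 1,
      ∀ x, P (NormedSpace.inclusionInDoubleDual 𝕜 (lp E 1) x) = x := by
  classical
  let ev : ∀ i, lp E 1 →L[𝕜] E i := fun i => lp.evalCLM 𝕜 E 1 i
  have hev : ∀ i (f : lp E 1), ev i f = f i := fun i f => rfl
  have hex : ∀ (Φ : StrongDual 𝕜 (StrongDual 𝕜 (lp E 1))) (i : I), ∃ x : E i,
      ∀ φ : StrongDual 𝕜 (E i), φ x = Φ (φ.comp (ev i)) := by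
    intro Φ i
    obtain ⟨x, hx⟩ := inclusion_surjective (𝕜 := 𝕜) (E i) (Φ.comp (dual (ev i)))
    refine ⟨x, fun φ => ?_⟩
    exact congrArg (fun Ψ : StrongDual 𝕜 (StrongDual 𝕜 (E i)) => Ψ φ) hx
  choose x hx using hex
  have uniq : ∀ (i : I) (y z : E i), (∀ φ : StrongDual 𝕜 (E i), φ y = φ z) → y = z := by
    intro i y z h
    have h1 := SeparatingDual.eq_iff_forall_dual_eq (R := 𝕜) (x := y) (y := z)
    exact h1.2 h
  have hbd : ∀ (Φ : StrongDual 𝕜 (StrongDual 𝕜 (lp E 1))) (A : Finset I),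
      ∑ i ∈ A, ‖x Φ i‖ ≤ ‖Φ‖ := by
    intro Φ A
    choose φ hφ1 hφ2 using fun i => exists_dual_vector'' 𝕜 (x Φ i)
    have e1 : ((∑ i ∈ A, ‖x Φ i‖ : ℝ) : 𝕜) = Φ (∑ i ∈ A, (φ i).comp (ev i)) := by
      rw [map_sum]
      push_cast
      apply Finset.sum_congr rfl
      intro i _
      rw [← hx, hφ2]
    have e2 : ‖∑ i ∈ A, (φ i).comp (ev i)‖ ≤ 1 := by
      apply ContinuousLinearMap.opNorm_le_bound _ zero_le_one
      intro f
      rw [_root_.sum_apply, one_mul, lp1_norm]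
      calc ‖∑ i ∈ A, ((φ i).comp (ev i)) f‖ ≤ ∑ i ∈ A, ‖((φ i).comp (ev i)) f‖ := norm_sum_le _ _
        _ ≤ ∑ i ∈ A, ‖f i‖ := by
            apply Finset.sum_le_sum
            intro i _
            have := norm_apply_le_of (hφ1 i) (f i)
            rwa [one_mul] at this
        _ ≤ ∑' i, ‖f i‖ := (lp1_summable f).sum_le_tsum _ fun i _ => norm_nonneg _
    have e3 : 0 ≤ ∑ i ∈ A, ‖x Φ i‖ := Finset.sum_nonneg fun _ _ => norm_nonneg _
    calc ∑ i ∈ A, ‖x Φ i‖ = ‖((∑ i ∈ A, ‖x Φ i‖ : ℝ) : 𝕜)‖ := by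
          rw [RCLike.norm_ofReal, abs_of_nonneg e3]
      _ = ‖Φ (∑ i ∈ A, (φ i).comp (ev i))‖ := by rw [e1]
      _ ≤ ‖Φ‖ * ‖∑ i ∈ A, (φ i).comp (ev i)‖ := Φ.le_opNorm _
      _ ≤ ‖Φ‖ * 1 := by gcongr
      _ = ‖Φ‖ := mul_one _
  have hsum : ∀ Φ, Summable fun i => ‖x Φ i‖ := fun Φ =>
    summable_of_sum_le (fun _ => norm_nonneg _) (hbd Φ)
  refine ⟨LinearMap.mkContinuous
    { toFun := fun Φ => lp1Mk (x Φ) (hsum Φ)
      map_add' := fun Φ Ψ => by
        ext i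
        apply uniq i
        intro φ
        simp only [lp1Mk_apply, lp.coeFn_add, Pi.add_apply, map_add, hx, _root_.add_apply]
      map_smul' := fun c Φ => by
        ext i
        apply uniq i
        intro φ
        simp only [lp1Mk_apply, lp.coeFn_smul, Pi.smul_apply, map_smul, hx, _root_.smul_apply,
          RingHom.id_apply] } 1 ?_, ?_⟩
  · intro Φ
    change ‖lp1Mk (x Φ) (hsum Φ)‖ ≤ 1 * ‖Φ‖
    rw [norm_lp1Mk, one_mul]
    exact (hsum Φ).tsum_le_of_sum_le (hbd Φ)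
  · intro f
    ext i
    apply uniq i
    intro φ
    exact hx _ _ _

end ultra

section DX

instance (X : Type*) [NormedAddCommGroup X] [NormedSpace 𝕜 X] (E : FDS 𝕜 X) :
    CompleteSpace E.1 := by
  have := E.2
  exact FiniteDimensional.complete 𝕜 E.1

/-- the `ℓ¹` sum of the finite dimensional subspaces of `X` -/
def DX (X : Ban.{u} 𝕜) : Ban.{u} 𝕜 := { carrier := lp (fun E : FDS 𝕜 X => (E.1 : Type u)) 1 }

/-- the sum map -/
def qX (X : Ban.{u} 𝕜) : DX X →L[𝕜] X :=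
  lpLift (E := fun E : FDS 𝕜 X => (E.1 : Type u)) (fun E => E.1.subtypeL) 1
    (fun _ => Submodule.norm_subtypeL_le _)

open Classical in
/-- inclusion of a summand -/
def sgX (X : Ban.{u} 𝕜) (E : FDS 𝕜 X) (x : E.1) : DX X :=
  lp.single (E := fun E : FDS 𝕜 X => (E.1 : Type u)) 1 E x

lemma qX_sgX (X : Ban.{u} 𝕜) (E : FDS 𝕜 X) (x : E.1) : qX X (sgX X E x) = x := by
  classical
  exact lpLift_single (E := fun E : FDS 𝕜 X => (E.1 : Type u)) (fun E => E.1.subtypeL) 1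
    (fun E => Submodule.norm_subtypeL_le _) E x

lemma norm_sgX (X : Ban.{u} 𝕜) (E : FDS 𝕜 X) (x : E.1) : ‖sgX X E x‖ = ‖(x : X)‖ := by
  classical
  exact lp.norm_single (E := fun E : FDS 𝕜 X => (E.1 : Type u)) (p := 1) (by norm_num) E x

lemma sgX_add (X : Ban.{u} 𝕜) (E : FDS 𝕜 X) (x y : E.1) :
    sgX X E (x + y) = sgX X E x + sgX X E y := by
  classical
  exact lp.single_add (E := fun E : FDS 𝕜 X => (E.1 : Type u)) 1 E x y

lemma sgX_smul (X : Ban.{u} 𝕜) (E : FDS 𝕜 X) (c : 𝕜) (x : E.1) :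
    sgX X E (c • x) = c • sgX X E x := by
  classical
  exact lp.single_smul (E := fun E : FDS 𝕜 X => (E.1 : Type u)) 1 E c x

lemma norm_qX (X : Ban.{u} 𝕜) : ‖qX X‖ ≤ 1 := norm_lpLift_le _ zero_le_one _

lemma qX_lift (X : Ban.{u} 𝕜) (x : X) : ∃ y : DX X, qX X y = x ∧ ‖y‖ ≤ 1 * ‖x‖ := by
  let E : FDS 𝕜 X := ⟨Submodule.span 𝕜 {x}, inferInstance⟩
  refine ⟨sgX X E ⟨x, Submodule.mem_span_singleton_self x⟩, qX_sgX _ _ _, ?_⟩
  rw [norm_sgX, one_mul]

lemma qX_surjective (X : Ban.{u} 𝕜) : Function.Surjective (qX X) := fun x =>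
  (qX_lift X x).imp fun _ h => h.1

lemma qX_open (X : Ban.{u} 𝕜) : OpenC (qX X) 1 := fun x => qX_lift X (qX X x)

/-- the kernel of the sum map -/
def KX (X : Ban.{u} 𝕜) : Ban.{u} 𝕜 :=
  haveI : CompleteSpace (LinearMap.ker (qX X : DX X →ₗ[𝕜] X)) :=
    (ContinuousLinearMap.isClosed_ker (qX X)).completeSpace_coe
  { carrier := LinearMap.ker (qX X : DX X →ₗ[𝕜] X) }

/-- the inclusion of the kernel -/
def iX (X : Ban.{u} 𝕜) : KX X →L[𝕜] DX X :=
  (LinearMap.ker (qX X : DX X →ₗ[𝕜] X)).subtypeL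

lemma qX_iX (X : Ban.{u} 𝕜) (x : KX X) : qX X (iX X x) = 0 := x.2

lemma iX_injective (X : Ban.{u} 𝕜) : Function.Injective (iX X) := Subtype.val_injective

lemma exists_iX (X : Ban.{u} 𝕜) (y : DX X) (h : qX X y = 0) : ∃ x, iX X x = y := ⟨⟨y, h⟩, rfl⟩

theorem ultra_DX (X : Ban.{u} 𝕜) : IsUltrasummand (DX X) := by
  have : ∀ E : FDS 𝕜 X, FiniteDimensional 𝕜 E.1 := fun E => E.2
  exact exists_ultra (𝕜 := 𝕜) (E := fun E : FDS 𝕜 X => (E.1 : Type u))

/-- The left inverse of the dual of the sum map. -/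
theorem exists_rX (X : Ban.{u} 𝕜) : ∃ r : StrongDual 𝕜 (DX X) →L[𝕜] StrongDual 𝕜 X,
    ∀ ψ : StrongDual 𝕜 X, r (ψ.comp (qX X)) = ψ := by
  classical
  obtain ⟨r, -, hr⟩ := exists_ulim_bilin
    (fun (E : FDS 𝕜 X) (Φ : StrongDual 𝕜 (DX X)) (x : X) =>
      if hx : x ∈ E.1 then Φ (sgX X E ⟨x, hx⟩) else 0) zero_le_one
    (by
      intro E Φ Ψ x
      by_cases hx : x ∈ E.1 <;> simp [hx])
    (by
      intro E c Φ x
      by_cases hx : x ∈ E.1 <;> simp [hx])
    (by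
      intro E Φ x
      by_cases hx : x ∈ E.1
      · simp only [hx, dite_true, one_mul]
        refine (Φ.le_opNorm _).trans ?_
        rw [norm_sgX]
      · simp only [hx, dite_false, norm_zero]
        positivity)
    (by
      intro Φ x y
      filter_upwards [eventually_mem x, eventually_mem y] with E hx hy
      have hxy : x + y ∈ E.1 := E.1.add_mem hx hy
      simp only [hx, hy, hxy, dite_true]
      rw [← map_add, ← sgX_add]
      rfl)
    (by
      intro c Φ x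
      filter_upwards [eventually_mem x] with E hx
      have hcx : c • x ∈ E.1 := E.1.smul_mem c hx
      simp only [hx, hcx, dite_true]
      rw [← smul_eq_mul, ← map_smul, ← sgX_smul]
      rfl)
  refine ⟨r, fun ψ => ?_⟩
  ext x
  apply hr
  filter_upwards [eventually_mem x] with E hx
  simp only [hx, dite_true, ContinuousLinearMap.comp_apply, qX_sgX]

/-- The contracting homotopy of the dual of `0 → KX X → DX X → X → 0`. -/
theorem exists_sX (X : Ban.{u} 𝕜) :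
    ∃ (s : StrongDual 𝕜 (KX X) →L[𝕜] StrongDual 𝕜 (DX X))
      (r : StrongDual 𝕜 (DX X) →L[𝕜] StrongDual 𝕜 X),
      (∀ φ : StrongDual 𝕜 (KX X), (s φ).comp (iX X) = φ) ∧
      (∀ Φ : StrongDual 𝕜 (DX X), s (Φ.comp (iX X)) + (r Φ).comp (qX X) = Φ) ∧
      ∀ ψ : StrongDual 𝕜 X, r (ψ.comp (qX X)) = ψ := by
  obtain ⟨r, hr⟩ := exists_rX X
  have hopen : OpenC (dual (iX X)) 1 := by
    intro Φ
    obtain ⟨g, hg1, hg2⟩ := exists_extension_norm_eq (LinearMap.ker (qX X : DX X →ₗ[𝕜] X))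
      (dual (iX X) Φ)
    refine ⟨g, ?_, ?_⟩
    · ext x
      exact hg1 x
    · rw [one_mul, hg2]
      exact le_refl _
  have hsurj : Function.Surjective (dual (iX X)) := by
    intro φ
    obtain ⟨g, hg1, -⟩ := exists_extension_norm_eq (LinearMap.ker (qX X : DX X →ₗ[𝕜] X)) φ
    refine ⟨g, ?_⟩
    ext x
    exact hg1 x
  obtain ⟨s, hs, -⟩ := extAlong_of_surjective hopen zero_le_one hsurj
    (ContinuousLinearMap.id 𝕜 (StrongDual 𝕜 (DX X)) - (dual (qX X)).comp r) (by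
      intro Φ hΦ
      have h0 : ∀ x, qX X x = 0 → Φ x = 0 := by
        intro x hx
        obtain ⟨y, rfl⟩ := exists_iX X x hx
        exact congrArg (fun φ : StrongDual 𝕜 (KX X) => φ y) hΦ
      obtain ⟨ψ, hψ, -⟩ := extAlong_of_surjective (Q := 𝕜) (qX_open X) zero_le_one
        (qX_surjective X) Φ h0
      have e : Φ = ψ.comp (qX X) := by
        ext x
        exact (hψ x).symm
      simp only [_root_.sub_apply, ContinuousLinearMap.id_apply,
        ContinuousLinearMap.comp_apply]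
      rw [e, hr, dual_eq, sub_self])
  have hs' : ∀ Φ : StrongDual 𝕜 (DX X), s (Φ.comp (iX X)) + (r Φ).comp (qX X) = Φ := by
    intro Φ
    have := hs Φ
    rw [dual_eq] at this
    rw [this]
    simp only [_root_.sub_apply, ContinuousLinearMap.id_apply,
        ContinuousLinearMap.comp_apply, dual_eq]
    abel
  refine ⟨s, r, ?_, hs', hr⟩
  intro φ
  obtain ⟨Φ, rfl⟩ := hsurj φ
  have h1 := hs' Φ
  have h2 : s (dual (iX X) Φ) = Φ - (r Φ).comp (qX X) := by
    rw [dual_eq]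
    exact eq_sub_of_add_eq h1
  rw [h2]
  ext x
  simp [qX_iX]

end DX

end

end Pool.Agent.H52
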