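import Pool.Agent.H52.PidD

/-!
Hilbert space does not embed well into an `ℓ¹` sum of finite dimensional spaces.
-/

namespace Pool.Agent.H52

open Filter Topology

noncomputable section

universe u

variable {𝕜 : Type} [RCLike 𝕜]

section hilbert

variable {I : Type*}

/-- the coordinate functionals on `ℓ²` -/
def eF (𝕜 : Type) [RCLike 𝕜] (I : Type*) (n : I) : StrongDual 𝕜 (lp (fun _ : I => 𝕜) 2) :=
  lp.evalCLM 𝕜 (fun _ : I => 𝕜) 2 n

lemma eF_apply (n : I) (x : lp (fun _ : I => 𝕜) 2) : eF 𝕜 I n x = x n := rfl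

lemma one_le_norm_eF (n : I) : 1 ≤ ‖eF 𝕜 I n‖ := by
  classical
  have h1 : eF 𝕜 I n (lp.single 2 n (1 : 𝕜)) = 1 := by
    rw [eF_apply, lp.single_apply, Pi.single_eq_same]
  have h2 := (eF 𝕜 I n).le_opNorm (lp.single 2 n (1 : 𝕜))
  rw [h1, lp.norm_single (by norm_num), norm_one, mul_one] at h2
  exact h2

lemma norm_sum_eF_le (A : Finset I) (c : I → 𝕜) :
    ‖∑ n ∈ A, c n • eF 𝕜 I n‖ ≤ √(∑ n ∈ A, ‖c n‖ ^ 2) := by
  apply ContinuousLinearMap.opNorm_le_bound _ (Real.sqrt_nonneg _)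
  intro x
  have h1 : ∑ n ∈ A, ‖x n‖ ^ 2 ≤ ‖x‖ ^ 2 := by
    have := lp.sum_rpow_le_norm_rpow (p := 2) (by norm_num) x A
    simpa using this
  calc ‖(∑ n ∈ A, c n • eF 𝕜 I n) x‖ = ‖∑ n ∈ A, c n * x n‖ := by
        rw [_root_.sum_apply]
        rfl
    _ ≤ ∑ n ∈ A, ‖c n‖ * ‖x n‖ := by
        refine (norm_sum_le _ _).trans (Finset.sum_le_sum fun n _ => ?_)
        rw [norm_mul]
    _ ≤ √((∑ n ∈ A, ‖c n‖ ^ 2) * ‖x‖ ^ 2) := by
        apply Real.le_sqrt_of_sq_le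
        refine (Finset.sum_mul_sq_le_sq_mul_sq _ _ _).trans ?_
        gcongr
    _ = √(∑ n ∈ A, ‖c n‖ ^ 2) * ‖x‖ := by
        rw [Real.sqrt_mul (Finset.sum_nonneg fun _ _ => sq_nonneg _),
          Real.sqrt_sq (norm_nonneg _)]

lemma sum_sq_le (φ : StrongDual 𝕜 (StrongDual 𝕜 (lp (fun _ : I => 𝕜) 2))) (A : Finset I) :
    ∑ n ∈ A, ‖φ (eF 𝕜 I n)‖ ^ 2 ≤ ‖φ‖ ^ 2 := by
  set S := ∑ n ∈ A, ‖φ (eF 𝕜 I n)‖ ^ 2 with hS
  have hS0 : 0 ≤ S := Finset.sum_nonneg fun _ _ => sq_nonneg _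
  have h1 : ((S : ℝ) : 𝕜) = φ (∑ n ∈ A, (starRingEnd 𝕜) (φ (eF 𝕜 I n)) • eF 𝕜 I n) := by
    rw [map_sum, hS]
    push_cast
    apply Finset.sum_congr rfl
    intro n _
    rw [map_smul, smul_eq_mul, RCLike.conj_mul]
  have h2 : S ≤ ‖φ‖ * √S := by
    calc S = ‖((S : ℝ) : 𝕜)‖ := by rw [RCLike.norm_ofReal, abs_of_nonneg hS0]
      _ = ‖φ (∑ n ∈ A, (starRingEnd 𝕜) (φ (eF 𝕜 I n)) • eF 𝕜 I n)‖ := by rw [h1]
      _ ≤ ‖φ‖ * ‖∑ n ∈ A, (starRingEnd 𝕜) (φ (eF 𝕜 I n)) • eF 𝕜 I n‖ := φ.le_opNorm _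
      _ ≤ ‖φ‖ * √(∑ n ∈ A, ‖(starRingEnd 𝕜) (φ (eF 𝕜 I n))‖ ^ 2) := by
          gcongr
          exact norm_sum_eF_le A _
      _ = ‖φ‖ * √S := by simp only [RCLike.norm_conj, hS]
  rcases hS0.eq_or_lt with h0 | h0
  · rw [← h0]
    positivity
  · have h3 : 0 < √S := Real.sqrt_pos.2 h0
    have h4 : √S * √S ≤ ‖φ‖ * √S := by rwa [Real.mul_self_sqrt hS0]
    have h5 : √S ≤ ‖φ‖ := le_of_mul_le_mul_right h4 h3
    calc S = √S ^ 2 := (Real.sq_sqrt hS0).symm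
      _ ≤ ‖φ‖ ^ 2 := by gcongr

lemma tendsto_functional (φ : StrongDual 𝕜 (StrongDual 𝕜 (lp (fun _ : I => 𝕜) 2))) :
    Tendsto (fun n => φ (eF 𝕜 I n)) cofinite (𝓝 0) := by
  have h1 : Summable fun n => ‖φ (eF 𝕜 I n)‖ ^ 2 :=
    summable_of_sum_le (fun _ => sq_nonneg _) (sum_sq_le φ)
  have h2 := h1.tendsto_cofinite_zero
  rw [tendsto_zero_iff_norm_tendsto_zero]
  have h3 : Tendsto (fun n => √(‖φ (eF 𝕜 I n)‖ ^ 2)) cofinite (𝓝 (√0)) :=
    (Real.continuous_sqrt.tendsto 0).comp h2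
  rw [Real.sqrt_zero] at h3
  refine h3.congr fun n => ?_
  rw [Real.sqrt_sq (norm_nonneg _)]

lemma tendsto_finite {V : Type*} [NormedAddCommGroup V] [NormedSpace 𝕜 V]
    [FiniteDimensional 𝕜 V] (R : StrongDual 𝕜 (lp (fun _ : I => 𝕜) 2) →L[𝕜] V) :
    Tendsto (fun n => R (eF 𝕜 I n)) cofinite (𝓝 0) := by
  let b := Module.finBasis 𝕜 V
  have h1 : ∀ i, Tendsto (fun n => b.repr (R (eF 𝕜 I n)) i • b i) cofinite (𝓝 0) := by
    intro i
    have := tendsto_functional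
      ((LinearMap.toContinuousLinearMap (b.coord i)).comp R)
    have h2 : Tendsto (fun n => b.repr (R (eF 𝕜 I n)) i) cofinite (𝓝 0) := this
    have h3 := h2.smul_const (b i)
    rwa [zero_smul] at h3
  have h2 : Tendsto (fun n => ∑ i, b.repr (R (eF 𝕜 I n)) i • b i) cofinite
      (𝓝 (∑ _i : Fin (Module.finrank 𝕜 V), (0 : V))) :=
    tendsto_finsetSum _ fun i _ => h1 i
  simp only [b.sum_repr, Finset.sum_const_zero] at h2
  exact h2

end hilbert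

section hump

variable {I : Type*} {α : Type*} {E : α → Type*} [∀ i, NormedAddCommGroup (E i)]
  [∀ i, NormedSpace 𝕜 (E i)] [∀ i, FiniteDimensional 𝕜 (E i)]

lemma min_summable (y z : lp E 1) : Summable fun i => min ‖y i‖ ‖z i‖ :=
  Summable.of_nonneg_of_le (fun _ => le_min (norm_nonneg _) (norm_nonneg _))
    (fun _ => min_le_left _ _) (lp1_summable y)

lemma norm_add_ge (y z : lp E 1) :
    ‖y‖ + ‖z‖ - 2 * ∑' i, min ‖y i‖ ‖z i‖ ≤ ‖y + z‖ := by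
  rw [lp1_norm, lp1_norm, lp1_norm, ← tsum_mul_left, ← (lp1_summable y).tsum_add
    (lp1_summable z), ← ((lp1_summable y).add (lp1_summable z)).tsum_sub
      ((min_summable y z).mul_left 2)]
  refine Summable.tsum_le_tsum (fun i => ?_)
    (((lp1_summable y).add (lp1_summable z)).sub ((min_summable y z).mul_left 2))
    (lp1_summable (y + z))
  rw [lp.coeFn_add, Pi.add_apply]
  have h1 := norm_sub_le_norm_add (y i) (z i)
  have h2 := norm_sub_le_norm_add (z i) (y i)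
  rw [add_comm (z i) (y i)] at h2
  rcases le_total ‖y i‖ ‖z i‖ with h | h
  · rw [min_eq_left h]
    linarith
  · rw [min_eq_right h]
    linarith

theorem hump [Infinite I] (s : StrongDual 𝕜 (lp (fun _ : I => 𝕜) 2) →L[𝕜] lp E 1)
    (hs : ∀ n, 1 ≤ ‖s (eF 𝕜 I n)‖) : False := by
  classical
  have h1 : ∀ y : lp E 1, Tendsto (fun n => ∑' i, min ‖y i‖ ‖(s (eF 𝕜 I n)) i‖) cofinite
      (𝓝 0) := by
    intro y
    have h2 : ∀ i, Tendsto (fun n => min ‖y i‖ ‖(s (eF 𝕜 I n)) i‖) cofinite (𝓝 0) := by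
      intro i
      have h3 := tendsto_finite ((lp.evalCLM 𝕜 E 1 i).comp s)
      have h4 : Tendsto (fun n => ‖(s (eF 𝕜 I n)) i‖) cofinite (𝓝 0) := by
        have := h3.norm
        rw [norm_zero] at this
        exact this
      refine tendsto_of_tendsto_of_tendsto_of_le_of_le tendsto_const_nhds h4
        (fun n => le_min (norm_nonneg _) (norm_nonneg _)) (fun n => min_le_right _ _)
    have h3 := tendsto_tsum_of_dominated_convergence (𝓕 := cofinite) (bound := fun i => ‖y i‖)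
      (f := fun n i => min ‖y i‖ ‖(s (eF 𝕜 I n)) i‖) (g := fun _ => 0) (lp1_summable y) h2
      (Eventually.of_forall fun n i => by
        rw [Real.norm_of_nonneg (le_min (norm_nonneg _) (norm_nonneg _))]
        exact min_le_left _ _)
    rwa [tsum_zero] at h3
  have h2 : ∀ M : ℕ, ∃ A : Finset I, A.card = M ∧
      (M : ℝ) / 2 ≤ ‖s (∑ n ∈ A, eF 𝕜 I n)‖ := by
    intro M
    induction M with
    | zero => exact ⟨∅, rfl, by simp⟩
    | succ M ih =>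
      obtain ⟨A, hA1, hA2⟩ := ih
      have h3 := (h1 (s (∑ n ∈ A, eF 𝕜 I n))).eventually (gt_mem_nhds (show (0 : ℝ) < 1 / 4 by
        norm_num))
      have h4 : ∀ᶠ n : I in cofinite, n ∉ A := by
        rw [Filter.eventually_cofinite]
        simp only [not_not]
        exact A.finite_toSet
      obtain ⟨n, hn1, hn2⟩ := (h3.and h4).exists
      refine ⟨insert n A, ?_, ?_⟩
      · rw [Finset.card_insert_of_notMem hn2, hA1]
      · rw [Finset.sum_insert hn2, map_add, add_comm (s (eF 𝕜 I n))]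
        have h5 := norm_add_ge (s (∑ n ∈ A, eF 𝕜 I n)) (s (eF 𝕜 I n))
        have h6 := hs n
        push_cast
        linarith
  obtain ⟨M, hM⟩ := exists_nat_gt (4 * ‖s‖ ^ 2)
  obtain ⟨A, hA1, hA2⟩ := h2 M
  have h3 : ‖∑ n ∈ A, eF 𝕜 I n‖ ≤ √M := by
    have := norm_sum_eF_le (𝕜 := 𝕜) A (fun _ => 1)
    simpa [hA1] using this
  have h4 : (M : ℝ) / 2 ≤ ‖s‖ * √M := by
    refine hA2.trans ((s.le_opNorm _).trans ?_)
    gcongr
  have hM0 : (0 : ℝ) < M := lt_of_le_of_lt (by positivity) hM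
  have h5 : ((M : ℝ) / 2) ^ 2 ≤ (‖s‖ * √M) ^ 2 := by
    gcongr
  rw [mul_pow, Real.sq_sqrt hM0.le] at h5
  have h6 : (M : ℝ) * M ≤ (4 * ‖s‖ ^ 2) * M := by nlinarith
  have h7 := le_of_mul_le_mul_right h6 hM0
  linarith

end hump

/-- A space with a predual is complemented in its bidual. -/
theorem ultra_of_predual {X Y : Type*} [NormedAddCommGroup X] [NormedSpace 𝕜 X]
    [NormedAddCommGroup Y] [NormedSpace 𝕜 Y] (e : Y ≃ₗᵢ[𝕜] StrongDual 𝕜 X) :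
    ∃ P : StrongDual 𝕜 (StrongDual 𝕜 Y) →L[𝕜] Y,
      ∀ y, P (NormedSpace.inclusionInDoubleDual 𝕜 Y y) = y := by
  let E : Y →L[𝕜] StrongDual 𝕜 X := (e.toContinuousLinearEquiv : Y →L[𝕜] StrongDual 𝕜 X)
  let j : X →L[𝕜] StrongDual 𝕜 Y := E.flip
  have hj : ∀ x y, j x y = e y x := fun x y => rfl
  have hjn : ∀ x, ‖j x‖ ≤ ‖x‖ := by
    intro x
    apply ContinuousLinearMap.opNorm_le_bound _ (norm_nonneg _)
    intro y
    rw [hj, mul_comm, ← e.norm_map y]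
    exact (e y).le_opNorm x
  have hb : ∀ (Φ : StrongDual 𝕜 (StrongDual 𝕜 Y)) (x : X), ‖Φ (j x)‖ ≤ ‖Φ‖ * ‖x‖ := by
    intro Φ x
    refine (Φ.le_opNorm _).trans ?_
    have := hjn x
    gcongr
  let G : StrongDual 𝕜 (StrongDual 𝕜 Y) → StrongDual 𝕜 X := fun Φ =>
    LinearMap.mkContinuous
      { toFun := fun x : X => Φ (j x)
        map_add' := fun x y => by rw [map_add, map_add]
        map_smul' := fun c x => by
          rw [map_smul, map_smul]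
          rfl } ‖Φ‖ (hb Φ)
  refine ⟨LinearMap.mkContinuous
    { toFun := fun Φ => e.symm (G Φ)
      map_add' := fun Φ Ψ => by
        rw [← map_add]
        rfl
      map_smul' := fun c Φ => by
        rw [RingHom.id_apply, ← map_smul]
        rfl } 1 ?_, ?_⟩
  · intro Φ
    change ‖e.symm (G Φ)‖ ≤ 1 * ‖Φ‖
    rw [one_mul, LinearIsometryEquiv.norm_map]
    exact LinearMap.mkContinuous_norm_le _ (norm_nonneg Φ) _
  · intro y
    change e.symm (G (NormedSpace.inclusionInDoubleDual 𝕜 Y y)) = y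
    rw [LinearIsometryEquiv.symm_apply_eq]
    rfl

/-- Dual spaces are complemented in their biduals. -/
theorem ultra_dual (X : Ban.{u} 𝕜) : IsUltrasummand (dualBan X) :=
  ultra_of_predual (X := X) (Y := dualBan X) (LinearIsometryEquiv.refl 𝕜 (StrongDual 𝕜 X))

theorem exists_noSection (𝕜 : Type) [RCLike 𝕜] : ∃ H : Ban.{u} 𝕜, IsUltrasummand H ∧
    ¬ ∃ σ : H →L[𝕜] DX H, ∀ x, qX H (σ x) = x := by
  let h2 : Ban.{u} 𝕜 := { carrier := lp (fun _ : ULift.{u} ℕ => 𝕜) 2 }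
  refine ⟨dualBan h2, ultra_dual h2, ?_⟩
  rintro ⟨σ, hσ⟩
  have : ∀ E : FDS 𝕜 (dualBan h2), FiniteDimensional 𝕜 E.1 := fun E => E.2
  let s : StrongDual 𝕜 (lp (fun _ : ULift.{u} ℕ => 𝕜) 2) →L[𝕜]
    lp (fun E : FDS 𝕜 (dualBan h2) => (E.1 : Type u)) 1 := σ
  refine hump s fun n => ?_
  have h1 : qX (dualBan h2) (σ (eF 𝕜 (ULift.{u} ℕ) n)) = eF 𝕜 (ULift.{u} ℕ) n := hσ _
  have h3 := norm_apply_le_of (norm_qX (dualBan h2)) (σ (eF 𝕜 (ULift.{u} ℕ) n))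
  rw [h1, one_mul] at h3
  exact (one_le_norm_eF n).trans h3

end

end Pool.Agent.H52
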