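import Pool.Agent.H52.PidS
import Pool.Agent.H52.PidN
import Pool.Agent.H52.Four

/-!
The pure-injective dimension takes all values; all five value sets.
-/

namespace Pool.Agent.H52

noncomputable section

universe u

variable {𝕜 : Type} [RCLike 𝕜]

theorem exists_PI (𝕜 : Type) [RCLike 𝕜] (n : ℕ) : ∃ X : Ban.{u} 𝕜, PI X n := by
  induction n with
  | zero =>
    obtain ⟨H, h1, h2⟩ := exists_noSection.{u} 𝕜
    exact ⟨_, PI.zero h1 h2⟩
  | succ n ih =>
    obtain ⟨X, hX⟩ := ih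
    exact ⟨_, hX.succ⟩

lemma PI.resolution {X : Ban.{u} 𝕜} {n : ℕ} (h : PI X n) :
    HasPureInjectiveResolution X (n + 1) := by
  obtain ⟨Q, ι, d, h1, h2, h3, h4, -⟩ := h
  exact ⟨Q, ι, d, h1, h2, fun j _ => h3 j, h4⟩

lemma zero_resolution (𝕜 : Type) [RCLike 𝕜] :
    HasPureInjectiveResolution (zeroBan.{u} 𝕜) 0 := by
  have hZ : Subsingleton (zeroBan.{u} 𝕜) := inferInstanceAs (Subsingleton PUnit)
  refine ⟨fun _ => zeroBan 𝕜, 0, fun _ => 0, ⟨fun _ _ _ => Subsingleton.elim _ _, ?_, ?_⟩, ?_,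
    fun _ _ => ultra_zero hZ, fun _ _ => hZ⟩
  · intro y
    exact ⟨fun _ => ⟨0, Subsingleton.elim _ _⟩, fun _ => rfl⟩
  · intro j y
    exact ⟨fun _ => ⟨0, Subsingleton.elim _ _⟩, fun _ => rfl⟩
  · have h0 : ∀ φ : StrongDual 𝕜 (zeroBan.{u} 𝕜), φ = 0 := by
      intro φ
      ext x
      rw [Subsingleton.elim x 0, map_zero, map_zero]
    refine ⟨0, fun _ => 0, ?_, ?_, ?_⟩
    · intro φ
      exact (h0 _).trans (h0 _).symm
    · intro φ
      exact (h0 _).trans (h0 _).symm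
    · intro j φ
      exact (h0 _).trans (h0 _).symm

theorem range_pid (𝕜 : Type) [RCLike 𝕜] :
    Set.range (fun X : Ban.{u} 𝕜 => pid X) = Set.univ := by
  classical
  rw [Set.eq_univ_iff_forall]
  intro v
  induction v using ENat.recTopCoe with
  | top =>
    choose X hX using exists_PI.{u} 𝕜
    let Y : Ban.{u} 𝕜 := { carrier := lp (fun k : ULift.{u} ℕ => (X k.down : Type u)) 1 }
    refine ⟨Y, least_top fun m => ?_⟩
    let r : Y →L[𝕜] X m := lp.evalCLM 𝕜 (fun k : ULift.{u} ℕ => (X k.down : Type u)) 1 ⟨m⟩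
    let i : X m →L[𝕜] Y :=
      lp.singleContinuousLinearMap 𝕜 (fun k : ULift.{u} ℕ => (X k.down : Type u)) 1 ⟨m⟩
    refine pid_lower (hX m) i r ?_ (le_refl m)
    intro x
    change (lp.single (E := fun k : ULift.{u} ℕ => (X k.down : Type u)) 1 ⟨m⟩ x :
      lp (fun k : ULift.{u} ℕ => (X k.down : Type u)) 1) ⟨m⟩ = x
    rw [lp.single_apply, Pi.single_eq_same]
  | coe N =>
    cases N with
    | zero =>
      exact ⟨zeroBan 𝕜, least_eq (zero_resolution 𝕜) fun m hm => absurd hm (Nat.not_lt_zero m)⟩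
    | succ n =>
      obtain ⟨X, hX⟩ := exists_PI.{u} 𝕜 n
      refine ⟨X, least_eq hX.resolution fun m hm => ?_⟩
      exact pid_lower hX (ContinuousLinearMap.id 𝕜 X) (ContinuousLinearMap.id 𝕜 X)
        (fun _ => rfl) (by omega)

/-- Each of the five dimensions takes all values in `{0, 1, 2, …} ∪ {∞}`. -/
theorem all_values (𝕜 : Type) [RCLike 𝕜] :
    Set.range (fun X : Ban.{u} 𝕜 => pd X) = Set.univ ∧
    Set.range (fun X : Ban.{u} 𝕜 => fd X) = Set.univ ∧
    Set.range (fun X : Ban.{u} 𝕜 => injDim X) = Set.univ ∧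
    Set.range (fun X : Ban.{u} 𝕜 => apd X) = Set.univ ∧
    Set.range (fun X : Ban.{u} 𝕜 => pid X) = Set.univ :=
  ⟨range_pd 𝕜, range_fd 𝕜, range_injDim 𝕜, range_apd 𝕜, range_pid 𝕜⟩

end

end Pool.Agent.H52
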