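import Pool.Agent.H52.PidD

/-!
Splicing pure-injective resolutions, and the lower bound for their length.
-/

namespace Pool.Agent.H52

open Filter Topology

noncomputable section

universe u

variable {𝕜 : Type} [RCLike 𝕜]

section ext

/-- Operators from the bidual are bounded. -/
lemma exists_bound_bidual {Z : Type*} [NormedAddCommGroup Z] [NormedSpace 𝕜 Z]
    (P : StrongDual 𝕜 (StrongDual 𝕜 Z) →L[𝕜] Z) : ∃ c, 0 < c ∧ ∀ y, ‖P y‖ ≤ c * ‖y‖ :=
  @ContinuousLinearMap.bound 𝕜 𝕜 (StrongDual 𝕜 (StrongDual 𝕜 Z)) Z inferInstance inferInstance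
    inferInstance inferInstance inferInstance inferInstance _ _ P

/-- Extension along a map whose dual has a suitable homotopy, into a space complemented in its
bidual. -/
lemma extAlong_of_homotopy {V W Z : Type*} [NormedAddCommGroup V] [NormedSpace 𝕜 V]
    [NormedAddCommGroup W] [NormedSpace 𝕜 W] [NormedAddCommGroup Z] [NormedSpace 𝕜 Z]
    (d : V →L[𝕜] W) (H : StrongDual 𝕜 V →L[𝕜] StrongDual 𝕜 W)
    (hH : ∀ φ : StrongDual 𝕜 V, (∀ x, d x = 0 → φ x = 0) → ∀ x, H φ (d x) = φ x)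
    (P : StrongDual 𝕜 (StrongDual 𝕜 Z) →L[𝕜] Z)
    (hP : ∀ x, P (NormedSpace.inclusionInDoubleDual 𝕜 Z x) = x) {c : ℝ} (hc0 : 0 ≤ c)
    (hc : ∀ y, ‖P y‖ ≤ c * ‖y‖) :
    ExtAlong d Z (c * ‖H‖) := by
  intro T hT
  have hb : ∀ w, ‖(H.comp (dual T)).flip w‖ ≤ ‖H‖ * ‖T‖ * ‖w‖ := by
    intro w
    apply ContinuousLinearMap.opNorm_le_bound _ (by positivity)
    intro ψ
    have h1 : ‖H (dual T ψ) w‖ ≤ ‖H (dual T ψ)‖ * ‖w‖ := ContinuousLinearMap.le_opNorm _ _
    have h2 : ‖H (dual T ψ)‖ ≤ ‖H‖ * ‖dual T ψ‖ := H.le_opNorm _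
    have h3 : ‖dual T ψ‖ ≤ ‖T‖ * ‖ψ‖ := norm_apply_le_of (norm_dual_le T) ψ
    calc ‖(H.comp (dual T)).flip w ψ‖ = ‖H (dual T ψ) w‖ := rfl
      _ ≤ (‖H‖ * (‖T‖ * ‖ψ‖)) * ‖w‖ := by
          refine h1.trans ?_
          gcongr
          refine h2.trans ?_
          gcongr
      _ = _ := by ring
  refine ⟨LinearMap.mkContinuous
    { toFun := fun w => P ((H.comp (dual T)).flip w)
      map_add' := fun x y => by rw [map_add, map_add]
      map_smul' := fun a x => by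
        rw [map_smul, map_smul]
        rfl } (c * ‖H‖ * ‖T‖) ?_, ?_, ?_⟩
  · intro w
    calc ‖P ((H.comp (dual T)).flip w)‖ ≤ c * ‖(H.comp (dual T)).flip w‖ := hc _
      _ ≤ c * (‖H‖ * ‖T‖ * ‖w‖) := by
          have := hb w
          gcongr
      _ = _ := by ring
  · intro x
    have : (H.comp (dual T)).flip (d x) = NormedSpace.inclusionInDoubleDual 𝕜 Z (T x) := by
      ext ψ
      change H (dual T ψ) (d x) = ψ (T x)
      rw [hH (dual T ψ) (fun y hy => by rw [dual_apply, hT y hy, map_zero])]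
      rfl
    change P ((H.comp (dual T)).flip (d x)) = T x
    rw [this, hP]
  · exact LinearMap.mkContinuous_norm_le _ (by positivity) _

/-- The homotopy operators on the augmented complex. -/
lemma pureAug {X : Ban.{u} 𝕜} {Q : ℕ → Ban.{u} 𝕜} {ι : X →L[𝕜] Q 0}
    {d : ∀ j, Q j →L[𝕜] Q (j + 1)} (h : RightExact X Q ι d) (hd : DualContractible X Q ι d)
    (j : ℕ) : ∃ H : StrongDual 𝕜 (augL X Q j) →L[𝕜] StrongDual 𝕜 (augL X Q (j + 1)),
      ∀ φ, (∀ x, augRd ι d j x = 0 → φ x = 0) → ∀ x, H φ (augRd ι d j x) = φ x := by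
  obtain ⟨s, k, h1, h2, h3⟩ := hd
  match j with
  | 0 =>
    refine ⟨s, fun φ _ x => ?_⟩
    exact congrArg (fun ψ : StrongDual 𝕜 X => ψ x) (h1 φ)
  | 1 =>
    have key : ∀ φ : StrongDual 𝕜 (Q 0), (∀ x, d 0 x = 0 → φ x = 0) →
        ∀ x, k 0 φ (d 0 x) = φ x := by
      intro φ hφ x
      have e1 : φ.comp ι = 0 := by
        ext y
        exact hφ (ι y) ((h.exact_zero _).2 ⟨y, rfl⟩)
      have e2 := h2 φ
      rw [e1, map_zero, zero_add] at e2
      exact congrArg (fun ψ : StrongDual 𝕜 (Q 0) => ψ x) e2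
    exact ⟨k 0, key⟩
  | (j + 2) =>
    have key : ∀ φ : StrongDual 𝕜 (Q (j + 1)), (∀ x, d (j + 1) x = 0 → φ x = 0) →
        ∀ x, k (j + 1) φ (d (j + 1) x) = φ x := by
      intro φ hφ x
      have e1 : φ.comp (d j) = 0 := by
        ext y
        exact hφ (d j y) ((h.exact_succ j _).2 ⟨y, rfl⟩)
      have e2 := h3 j φ
      rw [e1, map_zero, zero_add] at e2
      exact congrArg (fun ψ : StrongDual 𝕜 (Q (j + 1)) => ψ x) e2
    exact ⟨k (j + 1), key⟩

lemma ultra_zero {Q : Ban.{u} 𝕜} (h : Subsingleton Q) : IsUltrasummand Q :=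
  ⟨0, fun _ => Subsingleton.elim _ _⟩

lemma extAlong_pure {X : Ban.{u} 𝕜} {Q : ℕ → Ban.{u} 𝕜} {ι : X →L[𝕜] Q 0}
    {d : ∀ j, Q j →L[𝕜] Q (j + 1)} (h : RightExact X Q ι d) (hd : DualContractible X Q ι d)
    (j : ℕ) {Z : Ban.{u} 𝕜} (hZ : IsUltrasummand Z) : ∃ c, 0 ≤ c ∧ ExtAlong (augRd ι d j) Z c := by
  obtain ⟨H, hH⟩ := pureAug h hd j
  obtain ⟨P, hP⟩ := hZ
  obtain ⟨c, hc0, hc⟩ := exists_bound_bidual P
  exact ⟨c * ‖H‖, by positivity, extAlong_of_homotopy _ H hH P hP hc0.le hc⟩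

end ext

section lower

/-- A pure-injective resolution of length `n + 1` of `X` whose last map has no right inverse. -/
def PI (X : Ban.{u} 𝕜) (n : ℕ) : Prop :=
  ∃ (Q : ℕ → Ban.{u} 𝕜) (ι : X →L[𝕜] Q 0) (d : ∀ j, Q j →L[𝕜] Q (j + 1)),
    RightExact X Q ι d ∧ DualContractible X Q ι d ∧ (∀ j, IsUltrasummand (Q j)) ∧
      (∀ j > n + 1, Subsingleton (Q j)) ∧ ¬ ∃ σ : Q (n + 1) →L[𝕜] Q n, ∀ x, d n (σ x) = x

lemma aug_zero {Y : Ban.{u} 𝕜} {Q : ℕ → Ban.{u} 𝕜} {m : ℕ} (hz : ∀ j > m, Subsingleton (Q j))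
    {j : ℕ} (hj : m + 1 < j) : ∀ x : augL Y Q j, x = 0 := by
  obtain ⟨k, rfl⟩ : ∃ k, j = k + 1 := ⟨j - 1, by omega⟩
  have := hz k (by omega)
  intro x
  exact @Subsingleton.elim (Q k) this x 0

lemma aug_norm {Y : Ban.{u} 𝕜} {Q : ℕ → Ban.{u} 𝕜} {ι : Y →L[𝕜] Q 0}
    {d : ∀ j, Q j →L[𝕜] Q (j + 1)} {m : ℕ} (hz : ∀ j > m, Subsingleton (Q j)) :
    ∃ b, 0 ≤ b ∧ ∀ j, ‖augRd ι d j‖ ≤ b :=
  uniform_const (fun j c => ‖augRd ι d j‖ ≤ c)
    (fun j c c' hcc hP => hP.trans hcc) (fun j => ⟨_, norm_nonneg _, le_refl _⟩) (m + 1) (by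
      intro j hj
      apply ContinuousLinearMap.opNorm_le_bound _ (le_refl _)
      intro x
      rw [aug_zero hz hj x, map_zero, norm_zero, norm_zero, mul_zero])

theorem pid_lower {X Y : Ban.{u} 𝕜} {n m : ℕ} (hX : PI X n) (i : X →L[𝕜] Y) (r : Y →L[𝕜] X)
    (hri : ∀ x, r (i x) = x) (hm : m ≤ n) : ¬ HasPureInjectiveResolution Y m := by
  obtain ⟨Q, ι, d, h1, h2, h3, h4, h5⟩ := hX
  rintro ⟨Q', ι', d', g1, g2, g3, g4⟩
  have g3' : ∀ j, IsUltrasummand (Q' j) := fun j => by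
    by_cases hj : j ≤ m
    · exact g3 j hj
    · exact ultra_zero (g4 j (by omega))
  obtain ⟨b1, hb10, hb1⟩ := aug_norm (ι := ι) (d := d) h4
  obtain ⟨b2, hb20, hb2⟩ := aug_norm (ι := ι') (d := d') g4
  obtain ⟨c1, hc10, hc1⟩ := uniform_const
    (fun j c => ExtAlong (augRd ι d j) (augL Y Q' (j + 1)) c)
    (fun j c c' hcc hP => hP.mono hcc) (fun j => extAlong_pure h1 h2 j (g3' j)) m
    (fun j hj => extAlong_zero_target _ (aug_zero g4 (by omega)) (le_refl _))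
  obtain ⟨c2, hc20, hc2⟩ := uniform_const
    (fun j c => ExtAlong (augRd ι' d' j) (augL X Q (j + 1)) c)
    (fun j c c' hcc hP => hP.mono hcc) (fun j => extAlong_pure g1 g2 j (h3 j)) (n + 1)
    (fun j hj => extAlong_zero_target _ (aug_zero h4 (by omega)) (le_refl _))
  obtain ⟨c3, hc30, hc3⟩ := uniform_const
    (fun j c => ExtAlong (augRd ι d (j + 1)) (augL X Q (j + 1)) c)
    (fun j c c' hcc hP => hP.mono hcc) (fun j => extAlong_pure h1 h2 (j + 1) (h3 j)) (n + 1)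
    (fun j hj => extAlong_zero_target _ (aug_zero h4 (by omega)) (le_refl _))
  set M : ℝ := b1 + b2 + c1 + c2 + c3 + ‖i‖ + ‖r‖ with hM
  have hi0 := norm_nonneg i
  have hr0 := norm_nonneg r
  have hM0 : 0 ≤ M := by positivity
  have hiM : ‖i‖ ≤ M := by linarith
  have hrM : ‖r‖ ≤ M := by linarith
  obtain ⟨σ, hσ, -⟩ := comparison (C := fun j => augL X Q j) (C' := fun j => augL Y Q' j)
    (d := fun j => augRd ι d j) (d' := fun j => augRd ι' d' j) hM0 h1.rex g1.rex i r hri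
    hiM hrM (fun j => (hb1 j).trans (by linarith))
    (fun j => (hb2 j).trans (by linarith)) (fun j => (hc1 j).mono (by linarith))
    (fun j => (hc2 j).mono (by linarith)) (fun j => (hc3 j).mono (by linarith)) (n + 1)
    (aug_zero g4 (by omega)) (aug_zero h4 (by omega))
  exact h5 ⟨σ, hσ⟩

end lower

section splice

variable {X : Ban.{u} 𝕜} {Q : ℕ → Ban.{u} 𝕜} {ι : X →L[𝕜] Q 0}
    {d : ∀ j, Q j →L[𝕜] Q (j + 1)}

lemma splice_exact (h : RightExact X Q ι d) :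
    RightExact (KX X) (augL (DX X) Q) (iX X) (augRd (ι.comp (qX X)) d) where
  injective := iX_injective X
  exact_zero y := by
    change ι (qX X y) = 0 ↔ _
    constructor
    · intro hy
      have : qX X y = 0 := h.injective (hy.trans (map_zero ι).symm)
      exact exists_iX X y this
    · rintro ⟨x, rfl⟩
      exact (congrArg ι (qX_iX X x)).trans (map_zero ι)
  exact_succ j y := by
    cases j with
    | zero =>
      change d 0 y = 0 ↔ _
      constructor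
      · intro hy
        obtain ⟨x, hx⟩ := (h.exact_zero y).1 hy
        obtain ⟨z, rfl⟩ := qX_surjective X x
        exact ⟨z, hx⟩
      · rintro ⟨z, rfl⟩
        exact (h.exact_zero _).2 ⟨qX X z, rfl⟩
    | succ j => exact h.exact_succ j y

lemma splice_contractible (h : DualContractible X Q ι d) :
    DualContractible (KX X) (augL (DX X) Q) (iX X) (augRd (ι.comp (qX X)) d) := by
  obtain ⟨s, k, h1, h2, h3⟩ := h
  obtain ⟨s', r', e1, e2, e3⟩ := exists_sX X
  let k' : ∀ j, StrongDual 𝕜 (augL (DX X) Q j) →L[𝕜] StrongDual 𝕜 (augL (DX X) Q (j + 1)) :=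
    fun j => match j with
      | 0 => s.comp r'
      | (j + 1) => k j
  refine ⟨s', k', e1, ?_, ?_⟩
  · intro Φ
    have h4 : (k' 0 Φ).comp (augRd (ι.comp (qX X)) d 0) = (r' Φ).comp (qX X) := by
      have := h1 (r' Φ)
      ext x
      exact congrArg (fun ψ : StrongDual 𝕜 X => ψ (qX X x)) this
    rw [h4]
    exact e2 Φ
  · intro j φ
    cases j with
    | zero =>
      have h4 : k' 0 (φ.comp (augRd (ι.comp (qX X)) d 0)) = s ((φ : StrongDual 𝕜 (Q 0)).comp ι) := by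
        change s (r' (((φ : StrongDual 𝕜 (Q 0)).comp ι).comp (qX X))) = _
        rw [e3]
      rw [h4]
      exact h2 φ
    | succ j => exact h3 j φ

theorem PI.succ {n : ℕ} (h : PI X n) : PI (KX X) (n + 1) := by
  obtain ⟨Q, ι, d, h1, h2, h3, h4, h5⟩ := h
  refine ⟨augL (DX X) Q, iX X, augRd (ι.comp (qX X)) d, splice_exact h1,
    splice_contractible h2, ?_, ?_, h5⟩
  · intro j
    cases j with
    | zero => exact ultra_DX X
    | succ j => exact h3 j
  · intro j hj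
    obtain ⟨k, rfl⟩ : ∃ k, j = k + 1 := ⟨j - 1, by omega⟩
    exact h4 k (by omega)

/-- the zero space -/
def zeroBan (𝕜 : Type) [RCLike 𝕜] : Ban.{u} 𝕜 := { carrier := PUnit.{u + 1} }

theorem PI.zero {H : Ban.{u} 𝕜} (hH : IsUltrasummand H)
    (hs : ¬ ∃ σ : H →L[𝕜] DX H, ∀ x, qX H (σ x) = x) : PI (KX H) 0 := by
  have hZ : ∀ j, Subsingleton (augL H (fun _ => zeroBan.{u} 𝕜) (j + 1)) := fun j =>
    inferInstanceAs (Subsingleton PUnit)
  have h1 : RightExact H (augL H (fun _ => zeroBan 𝕜)) (ContinuousLinearMap.id 𝕜 H)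
      (fun j => 0) := by
    constructor
    · exact Function.injective_id
    · intro y
      exact ⟨fun _ => ⟨y, rfl⟩, fun _ => rfl⟩
    · intro j y
      have := hZ j
      exact ⟨fun _ => ⟨0, Subsingleton.elim _ _⟩, fun _ => rfl⟩
  have h2 : DualContractible H (augL H (fun _ => zeroBan 𝕜)) (ContinuousLinearMap.id 𝕜 H)
      (fun j => 0) := by
    refine ⟨ContinuousLinearMap.id 𝕜 (StrongDual 𝕜 H), fun j => 0, ?_, ?_, ?_⟩
    · intro φ
      rfl
    · intro φ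
      ext x
      change φ x + 0 = φ x
      rw [add_zero]
    · intro j φ
      ext x
      have := hZ j
      rw [Subsingleton.elim x 0, map_zero, map_zero]
  refine ⟨augL (DX H) (augL H (fun _ => zeroBan 𝕜)), iX H,
    augRd ((ContinuousLinearMap.id 𝕜 H).comp (qX H)) (fun j => 0), splice_exact h1,
    splice_contractible h2, ?_, ?_, ?_⟩
  · intro j
    match j with
    | 0 => exact ultra_DX H
    | 1 => exact hH
    | (j + 2) => exact ultra_zero (hZ j)
  · intro j hj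
    obtain ⟨k, rfl⟩ : ∃ k, j = k + 2 := ⟨j - 2, by omega⟩
    exact hZ k
  · exact hs

end splice

end

end Pool.Agent.H52
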