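import Mathlib

/-!
Definitions for MP_68e57a_an.
-/

namespace Pool.Agent.BallRetract

/-- `f` is uniformly continuous on the closed unit ball of the bidual of `X` and is the identity on
the closed unit ball of `X` (embedded canonically in the bidual). Its values are not required to
have norm at most `1`. -/
def IsUCRetraction (𝕜 X : Type) [RCLike 𝕜] [NormedAddCommGroup X] [NormedSpace 𝕜 X]
    (f : StrongDual 𝕜 (StrongDual 𝕜 X) → X) : Prop :=
  (∀ ε : ℝ, 0 < ε → ∃ δ : ℝ, 0 < δ ∧ ∀ z w : StrongDual 𝕜 (StrongDual 𝕜 X),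
    ‖z‖ ≤ 1 → ‖w‖ ≤ 1 → ‖z - w‖ < δ → ‖f z - f w‖ < ε) ∧
  ∀ x : X, ‖x‖ ≤ 1 → f (NormedSpace.inclusionInDoubleDual 𝕜 X x) = x

/-- `X` is the closed linear span of a norm compact set. -/
def IsCompactlyGenerated (𝕜 X : Type) [RCLike 𝕜] [NormedAddCommGroup X] [NormedSpace 𝕜 X] : Prop :=
  ∃ K : Set X, IsCompact K ∧ Dense (Submodule.span 𝕜 K : Set X)

end Pool.Agent.BallRetract
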