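import Mathlib

/-!
Iterated limits along a free ultrafilter in the `ℓ¹`-sum of the spaces `ℓ_∞^j`
(the tool for MP_68e57a_an).
-/

namespace Pool.Agent.H52.Rt

open Filter Topology

/-- A free ultrafilter on `ℕ`. -/
noncomputable def UF : Ultrafilter ℕ := hyperfilter ℕ

theorem UF_gt (N : ℕ) : ∀ᶠ n in (UF : Filter ℕ), N < n := by
  have h : (UF : Filter ℕ) ≤ atTop := by
    rw [← Nat.cofinite_eq_atTop]
    exact hyperfilter_le_cofinite
  exact h (eventually_gt_atTop N)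

theorem UF_gt_list (l : List ℕ) : ∀ᶠ n in (UF : Filter ℕ), ∀ x ∈ l, x < n := by
  induction l with
  | nil => simp
  | cons a l ih =>
    filter_upwards [ih, UF_gt a] with n h1 h2
    intro x hx
    rcases List.mem_cons.1 hx with rfl | hx
    · exact h2
    · exact h1 x hx

theorem exists_ulim {E : Type*} [NormedAddCommGroup E] [ProperSpace E] (f : ℕ → E) (M : ℝ)
    (h : ∀ m, ‖f m‖ ≤ M) : ∃ x, ‖x‖ ≤ M ∧ Tendsto f UF (𝓝 x) := by
  have hc := isCompact_closedBall (0 : E) M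
  have h1 : ((UF.map f : Ultrafilter E) : Filter E) ≤ 𝓟 (Metric.closedBall (0 : E) M) := by
    rw [le_principal_iff]
    change f ⁻¹' _ ∈ (UF : Filter ℕ)
    refine Filter.univ_mem' fun m => ?_
    simpa using h m
  obtain ⟨x, hx, hx2⟩ := hc.ultrafilter_le_nhds _ h1
  exact ⟨x, by simpa using hx, hx2⟩

/-- Limit along the ultrafilter. -/
noncomputable def L (f : ℕ → ℝ) : ℝ := limUnder (UF : Filter ℕ) f

/-- Bounded sequences. -/
def Bd (f : ℕ → ℝ) : Prop := ∃ M, ∀ m, |f m| ≤ M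

theorem L_eq {f : ℕ → ℝ} {x : ℝ} (h : Tendsto f UF (𝓝 x)) : L f = x := h.limUnder_eq

theorem tendsto_L {f : ℕ → ℝ} (h : Bd f) : Tendsto f UF (𝓝 (L f)) := by
  obtain ⟨M, hM⟩ := h
  obtain ⟨x, _, hx⟩ := exists_ulim f M (fun m => by simpa using hM m)
  rwa [L_eq hx]

theorem L_abs_le {f : ℕ → ℝ} {M : ℝ} (h : ∀ m, |f m| ≤ M) : |L f| ≤ M := by
  obtain ⟨x, hx1, hx⟩ := exists_ulim f M (fun m => by simpa using h m)
  rw [L_eq hx]
  simpa using hx1

theorem L_const (c : ℝ) : L (fun _ => c) = c := L_eq tendsto_const_nhds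

theorem L_add {f g : ℕ → ℝ} (hf : Bd f) (hg : Bd g) : L (fun m => f m + g m) = L f + L g :=
  L_eq ((tendsto_L hf).add (tendsto_L hg))

theorem L_le {f : ℕ → ℝ} (hf : Bd f) {c : ℝ} (h : ∀ᶠ m in (UF : Filter ℕ), f m ≤ c) : L f ≤ c :=
  le_of_tendsto (tendsto_L hf) h

theorem le_L {f : ℕ → ℝ} (hf : Bd f) {c : ℝ} (h : ∀ᶠ m in (UF : Filter ℕ), c ≤ f m) : c ≤ L f :=
  ge_of_tendsto (tendsto_L hf) h

/-! ### Iterated limits of functions of lists -/

/-- Bounded functions of lists. -/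
def BdL (φ : List ℕ → ℝ) : Prop := ∃ M, ∀ l, |φ l| ≤ M

/-- Bounded functions of two lists. -/
def BdL2 (Φ : List ℕ → List ℕ → ℝ) : Prop := ∃ M, ∀ l l', |Φ l l'| ≤ M

/-- Iterated limit (the head of the list is the innermost variable). -/
noncomputable def RL : ℕ → (List ℕ → ℝ) → ℝ
  | 0, φ => φ []
  | k + 1, φ => RL k (fun l => L (fun m => φ (m :: l)))

/-- Interlaced iterated limit. -/
noncomputable def IL : ℕ → (List ℕ → List ℕ → ℝ) → ℝ
  | 0, Φ => Φ [] []
  | k + 1, Φ => IL k (fun l l' => L (fun n => L (fun m => Φ (n :: l) (m :: l'))))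

theorem BdL.L {φ : List ℕ → ℝ} (h : BdL φ) : BdL (fun l => L (fun m => φ (m :: l))) := by
  obtain ⟨M, hM⟩ := h
  exact ⟨M, fun l => L_abs_le fun m => hM _⟩

theorem BdL.add {φ ψ : List ℕ → ℝ} (h : BdL φ) (h' : BdL ψ) : BdL (fun l => φ l + ψ l) := by
  obtain ⟨M, hM⟩ := h
  obtain ⟨M', hM'⟩ := h'
  exact ⟨M + M', fun l => (abs_add_le _ _).trans (add_le_add (hM l) (hM' l))⟩

theorem BdL.cons {φ : List ℕ → ℝ} (h : BdL φ) (l : List ℕ) : Bd (fun m => φ (m :: l)) := by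
  obtain ⟨M, hM⟩ := h
  exact ⟨M, fun m => hM _⟩

theorem RL_add (k : ℕ) {φ ψ : List ℕ → ℝ} (h : BdL φ) (h' : BdL ψ) :
    RL k (fun l => φ l + ψ l) = RL k φ + RL k ψ := by
  induction k generalizing φ ψ with
  | zero => rfl
  | succ k ih =>
    simp only [RL]
    rw [← ih h.L h'.L]
    congr 1
    funext l
    exact L_add (h.cons l) (h'.cons l)

theorem RL_const (k : ℕ) (c : ℝ) : RL k (fun _ => c) = c := by
  induction k with
  | zero => rfl
  | succ k ih =>
    simp only [RL, L_const]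
    exact ih

theorem RL_ge (k : ℕ) {φ : List ℕ → ℝ} (h : BdL φ) {c : ℝ} (N : ℕ)
    (hc : ∀ l : List ℕ, l.length = k → (∀ x ∈ l, N < x) → c ≤ φ l) : c ≤ RL k φ := by
  induction k generalizing φ with
  | zero => exact hc [] rfl (by simp)
  | succ k ih =>
    simp only [RL]
    refine ih h.L fun l hl hN => ?_
    refine le_L (h.cons l) ?_
    filter_upwards [UF_gt N] with m hm
    refine hc _ (by simp [hl]) fun x hx => ?_
    rcases List.mem_cons.1 hx with rfl | hx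
    · exact hm
    · exact hN x hx

/-- Interlaced pairs of lists (in decreasing order). -/
def Inter : List ℕ → List ℕ → Prop
  | [], [] => True
  | n :: l, m :: l' => (∀ x ∈ l, x < n) ∧ (∀ x ∈ l', x < n) ∧ n < m ∧ Inter l l'
  | _, _ => False

theorem BdL2.L {Φ : List ℕ → List ℕ → ℝ} (h : BdL2 Φ) :
    BdL2 (fun l l' => L (fun n => L (fun m => Φ (n :: l) (m :: l')))) := by
  obtain ⟨M, hM⟩ := h
  exact ⟨M, fun l l' => L_abs_le fun n => L_abs_le fun m => hM _ _⟩

theorem IL_le (k : ℕ) {Φ : List ℕ → List ℕ → ℝ} (h : BdL2 Φ) {θ : ℝ}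
    (hθ : ∀ l l' : List ℕ, l.length = k → Inter l l' → Φ l l' ≤ θ) : IL k Φ ≤ θ := by
  induction k generalizing Φ with
  | zero => exact hθ [] [] rfl trivial
  | succ k ih =>
    simp only [IL]
    refine ih h.L fun l l' hl hI => ?_
    obtain ⟨M, hM⟩ := h
    refine L_le ⟨M, fun n => L_abs_le fun m => hM _ _⟩ ?_
    filter_upwards [UF_gt_list l, UF_gt_list l'] with n h1 h2
    refine L_le ⟨M, fun m => hM _ _⟩ ?_
    filter_upwards [UF_gt n] with m hm
    exact hθ _ _ (by simp [hl]) ⟨h1, h2, hm, hI⟩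

/-! ### The space `Y` -/

variable (𝕜 : Type) [RCLike 𝕜]

/-- The `ℓ¹`-sum of the spaces `ℓ_∞^{j+1}`. -/
abbrev Y : Type := lp (fun j : ℕ => (Fin (j + 1) → 𝕜)) 1

variable {𝕜}

theorem hasSum_normY (y : Y 𝕜) : HasSum (fun j => ‖y j‖) ‖y‖ := by
  have := lp.hasSum_norm (p := 1) (by norm_num) y
  simpa using this

theorem summable_normY (y : Y 𝕜) : Summable (fun j => ‖y j‖) := (hasSum_normY y).summable

theorem normY_eq (y : Y 𝕜) : ‖y‖ = ∑' j, ‖y j‖ := (hasSum_normY y).tsum_eq.symm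

/-- The key property of the norm of `Y`. -/
theorem tendsto_norm_sub {a b : Y 𝕜} {c : ℕ → Y 𝕜} {F : Filter ℕ}
    (h : ∀ j, Tendsto (fun m => (c m : ∀ j, Fin (j + 1) → 𝕜) j) F (𝓝 (b j))) :
    Tendsto (fun m => ‖a - c m‖ - ‖c m - b‖) F (𝓝 ‖a - b‖) := by
  have h1 : ∀ m, ‖a - c m‖ - ‖c m - b‖ = ∑' j, (‖a j - c m j‖ - ‖c m j - b j‖) := by
    intro m
    rw [normY_eq, normY_eq]
    rw [← (summable_normY (a - c m)).tsum_sub (summable_normY (c m - b))]
    rfl
  simp only [h1]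
  have h2 : ‖a - b‖ = ∑' j, ‖a j - b j‖ := by
    rw [normY_eq]
    rfl
  rw [h2]
  refine tendsto_tsum_of_dominated_convergence (bound := fun j => ‖a j - b j‖)
    (summable_normY (a - b)) ?_ ?_
  · intro j
    have h3 : Tendsto (fun m => ‖a j - c m j‖) F (𝓝 ‖a j - b j‖) :=
      (tendsto_const_nhds.sub (h j)).norm
    have h4 : Tendsto (fun m => ‖c m j - b j‖) F (𝓝 0) := by
      have := ((h j).sub_const (b j)).norm
      simpa using this
    simpa using h3.sub h4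
  · refine Eventually.of_forall fun m j => ?_
    rw [Real.norm_eq_abs]
    have h5 := abs_norm_sub_norm_le (a j - c m j) (-(c m j - b j))
    rw [norm_neg] at h5
    refine h5.trans (le_of_eq ?_)
    congr 1
    abel

theorem exists_ylim (b : ℕ → Y 𝕜) (M : ℝ) (hM : ∀ m, ‖b m‖ ≤ M) :
    ∃ y : Y 𝕜, ‖y‖ ≤ M ∧ ∀ j, Tendsto (fun m => (b m : ∀ j, Fin (j + 1) → 𝕜) j) UF (𝓝 (y j)) := by
  have hM0 : 0 ≤ M := (norm_nonneg _).trans (hM 0)
  have h1 : ∀ j, ∃ x : Fin (j + 1) → 𝕜, Tendsto (fun m => (b m : ∀ j, Fin (j + 1) → 𝕜) j) UF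
      (𝓝 x) := by
    intro j
    obtain ⟨x, _, hx⟩ := exists_ulim (fun m => (b m : ∀ j, Fin (j + 1) → 𝕜) j) M (fun m =>
      (lp.norm_apply_le_norm (by norm_num) (b m) j).trans (hM m))
    exact ⟨x, hx⟩
  choose x hx using h1
  have h2 : ∀ s : Finset ℕ, ∑ j ∈ s, ‖x j‖ ≤ M := by
    intro s
    have h3 : Tendsto (fun m => ∑ j ∈ s, ‖(b m : ∀ j, Fin (j + 1) → 𝕜) j‖) UF
        (𝓝 (∑ j ∈ s, ‖x j‖)) := tendsto_finsetSum _ fun j _ => (hx j).norm
    refine le_of_tendsto h3 (Eventually.of_forall fun m => ?_)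
    refine le_trans ?_ (hM m)
    exact sum_le_hasSum s (fun j _ => norm_nonneg _) (hasSum_normY (b m))
  have h4 : Memℓp x 1 := memℓp_gen' (C := M) (fun s => by simpa using h2 s)
  refine ⟨⟨x, h4⟩, ?_, hx⟩
  refine lp.norm_le_of_forall_sum_le (by norm_num) hM0 fun s => ?_
  simpa using h2 s

/-- The coordinatewise limit. -/
noncomputable def ylim (b : ℕ → Y 𝕜) : Y 𝕜 :=
  open Classical in
  if h : ∃ M, ∀ m, ‖b m‖ ≤ M then (exists_ylim b h.choose h.choose_spec).choose else 0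

theorem ylim_tendsto {b : ℕ → Y 𝕜} {M : ℝ} (hM : ∀ m, ‖b m‖ ≤ M) (j : ℕ) :
    Tendsto (fun m => (b m : ∀ j, Fin (j + 1) → 𝕜) j) UF (𝓝 (ylim b j)) := by
  have h : ∃ M, ∀ m, ‖b m‖ ≤ M := ⟨M, hM⟩
  rw [ylim, dif_pos h]
  exact (exists_ylim b h.choose h.choose_spec).choose_spec.2 j

theorem ylim_norm {b : ℕ → Y 𝕜} {M : ℝ} (hM : ∀ m, ‖b m‖ ≤ M) : ‖ylim b‖ ≤ M := by
  obtain ⟨y, hy, hy2⟩ := exists_ylim b M hM
  have : y = ylim b := by
    apply lp.ext
    funext j
    exact tendsto_nhds_unique (hy2 j) (ylim_tendsto hM j)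
  rwa [← this]

theorem L_norm_sub {b : ℕ → Y 𝕜} {M : ℝ} (hM : ∀ m, ‖b m‖ ≤ M) (a : Y 𝕜) :
    L (fun m => ‖a - b m‖) = ‖a - ylim b‖ + L (fun m => ‖b m - ylim b‖) := by
  have h1 := tendsto_norm_sub (a := a) (b := ylim b) (c := b) (F := UF)
    (fun j => ylim_tendsto hM j)
  have h2 : Bd (fun m => ‖b m - ylim b‖) := by
    refine ⟨M + M, fun m => ?_⟩
    rw [abs_norm]
    exact (norm_sub_le _ _).trans (add_le_add (hM m) (ylim_norm hM))
  have h3 := h1.add (tendsto_L h2)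
  refine L_eq (h3.congr fun m => ?_)
  ring

/-! ### Iterated limits of functions with values in `Y` -/

/-- Bounded functions of lists. -/
def BdY (g : List ℕ → Y 𝕜) : Prop := ∃ M, ∀ l, ‖g l‖ ≤ M

/-- The limit in the last variable. -/
noncomputable def dY (g : List ℕ → Y 𝕜) (l : List ℕ) : Y 𝕜 := ylim (fun m => g (m :: l))

theorem BdY.dY {g : List ℕ → Y 𝕜} (h : BdY g) : BdY (dY g) := by
  obtain ⟨M, hM⟩ := h
  exact ⟨M, fun l => ylim_norm fun m => hM _⟩

/-- The iterated limit. -/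
noncomputable def U : ℕ → (List ℕ → Y 𝕜) → Y 𝕜
  | 0, g => g []
  | k + 1, g => U k (dY g)

/-- The iterated variation. -/
noncomputable def D : ℕ → (List ℕ → Y 𝕜) → ℝ
  | 0, _ => 0
  | k + 1, g => D k (dY g) + RL k (fun l => L (fun m => ‖g (m :: l) - dY g l‖))

theorem BdL_var {g : List ℕ → Y 𝕜} (h : BdY g) :
    BdL (fun l => L (fun m => ‖g (m :: l) - dY g l‖)) := by
  obtain ⟨M, hM⟩ := h
  obtain ⟨M', hM'⟩ := BdY.dY ⟨M, hM⟩
  refine ⟨M + M', fun l => L_abs_le fun m => ?_⟩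
  rw [abs_norm]
  exact (norm_sub_le _ _).trans (add_le_add (hM _) (hM' _))

theorem BdL_norm {g : List ℕ → Y 𝕜} (h : BdY g) (a : Y 𝕜) : BdL (fun l => ‖a - g l‖) := by
  obtain ⟨M, hM⟩ := h
  refine ⟨‖a‖ + M, fun l => ?_⟩
  rw [abs_norm]
  exact (norm_sub_le _ _).trans (add_le_add le_rfl (hM _))

/-- Separated limit. -/
theorem RL_norm (k : ℕ) {g : List ℕ → Y 𝕜} (h : BdY g) (a : Y 𝕜) {α : List ℕ → ℝ}
    (hα : BdL α) :
    RL k (fun l => ‖a - g l‖ + α l) = ‖a - U k g‖ + D k g + RL k α := by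
  induction k generalizing g α with
  | zero => simp [RL, U, D]
  | succ k ih =>
    obtain ⟨M, hM⟩ := id h
    simp only [RL, U, D]
    have h1 : ∀ l, L (fun m => ‖a - g (m :: l)‖ + α (m :: l)) =
        ‖a - dY g l‖ + (L (fun m => ‖g (m :: l) - dY g l‖) + L (fun m => α (m :: l))) := by
      intro l
      rw [L_add ((BdL_norm h a).cons l) (hα.cons l)]
      rw [L_norm_sub (b := fun m => g (m :: l)) (M := M) (fun m => hM _) a]
      rw [add_assoc]
      rfl
    simp only [h1]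
    rw [ih h.dY ((BdL_var h).add hα.L), RL_add k (BdL_var h) hα.L]
    ring

/-- Interlaced limit. -/
theorem IL_norm (k : ℕ) {g g' : List ℕ → Y 𝕜} (h : BdY g) (h' : BdY g') {α β : List ℕ → ℝ}
    (hα : BdL α) (hβ : BdL β) :
    IL k (fun l l' => ‖g l - g' l'‖ + α l + β l') =
      ‖U k g - U k g'‖ + D k g + D k g' + RL k α + RL k β := by
  induction k generalizing g g' α β with
  | zero => simp [IL, RL, U, D]
  | succ k ih =>
    obtain ⟨M, hM⟩ := id h
    obtain ⟨M', hM'⟩ := id h'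
    simp only [IL, RL, U, D]
    have h1 : ∀ l l', L (fun n => L (fun m => ‖g (n :: l) - g' (m :: l')‖ + α (n :: l) +
        β (m :: l'))) =
        ‖dY g l - dY g' l'‖ +
        (L (fun m => ‖g (m :: l) - dY g l‖) + L (fun m => α (m :: l))) +
        (L (fun m => ‖g' (m :: l') - dY g' l'‖) + L (fun m => β (m :: l'))) := by
      intro l l'
      have h2 : ∀ n, L (fun m => ‖g (n :: l) - g' (m :: l')‖ + α (n :: l) + β (m :: l')) =
          (‖dY g' l' - g (n :: l)‖ + α (n :: l)) +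
          (L (fun m => ‖g' (m :: l') - dY g' l'‖) + L (fun m => β (m :: l'))) := by
        intro n
        have hb : Bd (fun m => ‖g (n :: l) - g' (m :: l')‖ + α (n :: l)) := by
          obtain ⟨M1, hM1⟩ := (BdL_norm h' (g (n :: l))).cons l'
          exact ⟨M1 + |α (n :: l)|, fun m => (abs_add_le _ _).trans (add_le_add (hM1 m) le_rfl)⟩
        rw [L_add hb (hβ.cons l'), L_add ((BdL_norm h' (g (n :: l))).cons l')
          ⟨|α (n :: l)|, fun _ => le_rfl⟩, L_const]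
        rw [L_norm_sub (b := fun m => g' (m :: l')) (M := M') (fun m => hM' _) (g (n :: l))]
        change ‖g (n :: l) - dY g' l'‖ + L (fun m => ‖g' (m :: l') - dY g' l'‖) + _ + _ = _
        rw [norm_sub_rev (g (n :: l)) (dY g' l')]
        ring
      simp only [h2]
      rw [L_add (((BdL_norm h (dY g' l')).add hα).cons l) ⟨_, fun _ => le_rfl⟩, L_const]
      rw [L_add ((BdL_norm h (dY g' l')).cons l) (hα.cons l)]
      rw [L_norm_sub (b := fun m => g (m :: l)) (M := M) (fun m => hM _) (dY g' l')]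
      change ‖dY g' l' - dY g l‖ + L (fun m => ‖g (m :: l) - dY g l‖) + _ + _ = _
      rw [norm_sub_rev (dY g' l') (dY g l)]
      ring
    simp only [h1]
    rw [ih h.dY h'.dY ((BdL_var h).add hα.L) ((BdL_var h').add hβ.L),
      RL_add k (BdL_var h) hα.L, RL_add k (BdL_var h') hβ.L]
    ring

theorem le_foldr_max (l : List ℕ) (x : ℕ) (hx : x ∈ l) : x ≤ l.foldr max 0 := by
  induction l with
  | nil => simp at hx
  | cons a l ih =>
    rw [List.foldr_cons]
    rcases List.mem_cons.1 hx with rfl | hx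
    · exact le_max_left _ _
    · exact (ih hx).trans (le_max_right _ _)

/-- The Kalton type property of `Y`: if all interlaced pairs are at distance at most `θ`, then
some separated pair is at distance at most `θ`. -/
theorem propertyQ (k : ℕ) {g : List ℕ → Y 𝕜} (h : BdY g) {θ c : ℝ}
    (hθ : ∀ l l' : List ℕ, l.length = k → Inter l l' → ‖g l - g l'‖ ≤ θ)
    (hc : ∀ l l' : List ℕ, l.length = k → l'.length = k → (∀ x ∈ l, ∀ y ∈ l', x < y) →
      c ≤ ‖g l - g l'‖) : c ≤ θ := by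
  have h0 : BdL (fun _ : List ℕ => (0 : ℝ)) := ⟨0, fun _ => by simp⟩
  have hI : IL k (fun l l' => ‖g l - g l'‖) = 2 * D k g := by
    have h1 := IL_norm k h h h0 h0
    simp only [add_zero, RL_const, sub_self, norm_zero, zero_add] at h1
    rw [h1]
    ring
  have hS : RL k (fun l => RL k (fun l' => ‖g l - g l'‖)) = 2 * D k g := by
    have h1 : ∀ l, RL k (fun l' => ‖g l - g l'‖) = ‖U k g - g l‖ + D k g := by
      intro l
      have h2 := RL_norm k h (g l) h0
      simp only [add_zero, RL_const] at h2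
      rw [h2, norm_sub_rev]
    simp only [h1]
    rw [RL_norm k h (U k g) ⟨|D k g|, fun _ => le_rfl⟩, RL_const]
    simp only [sub_self, norm_zero]
    ring
  obtain ⟨M, hM⟩ := id h
  have hle : IL k (fun l l' => ‖g l - g l'‖) ≤ θ := by
    refine IL_le k ⟨M + M, fun l l' => ?_⟩ hθ
    rw [abs_norm]
    exact (norm_sub_le _ _).trans (add_le_add (hM _) (hM _))
  have hge : c ≤ RL k (fun l => RL k (fun l' => ‖g l - g l'‖)) := by
    have hb : BdL (fun l => RL k (fun l' => ‖g l - g l'‖)) := by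
      have h1 : ∀ l, RL k (fun l' => ‖g l - g l'‖) = ‖U k g - g l‖ + D k g := by
        intro l
        have h2 := RL_norm k h (g l) h0
        simp only [add_zero, RL_const] at h2
        rw [h2, norm_sub_rev]
      simp only [h1]
      exact (BdL_norm h (U k g)).add ⟨|D k g|, fun _ => le_rfl⟩
    refine RL_ge k hb 0 fun l hl _ => ?_
    refine RL_ge k (BdL_norm h (g l)) (l.foldr max 0) fun l' hl' hN => ?_
    refine hc l l' hl hl' fun x hx y hy => ?_
    exact lt_of_le_of_lt (le_foldr_max l x hx) (hN y hy)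
  rw [hS] at hge
  rw [hI] at hle
  linarith

end Pool.Agent.H52.Rt
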