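import Pool.Agent.H52.RtSpace
import Pool.Agent.H52.RtDefs

/-!
There is no uniformly continuous retraction of the bidual ball of `X` onto the ball of `X`.
-/

namespace Pool.Agent.H52.Rt

open Filter Topology Metric

variable {𝕜 : Type} [RCLike 𝕜]

/-! ### The vectors `(1/k) ∑ s_{n_i}` -/

/-- Number of elements of `l` which are at least `i`. -/
def cnt (i : ℕ) (l : List ℕ) : ℕ := l.countP (fun x => decide (i ≤ x))

theorem cnt_zero {i : ℕ} {l : List ℕ} (h : ∀ x ∈ l, x < i) : cnt i l = 0 := by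
  unfold cnt
  rw [List.countP_eq_zero]
  intro x hx
  simpa using h x hx

theorem cnt_all {i : ℕ} {l : List ℕ} (h : ∀ x ∈ l, i ≤ x) : cnt i l = l.length := by
  unfold cnt
  rw [List.countP_eq_length]
  intro x hx
  simpa using h x hx

theorem cnt_cons (i n : ℕ) (l : List ℕ) : cnt i (n :: l) = cnt i l + if i ≤ n then 1 else 0 := by
  unfold cnt
  rw [List.countP_cons]
  simp

theorem cnt_inter (i : ℕ) : ∀ l l' : List ℕ, Inter l l' →
    cnt i l ≤ cnt i l' ∧ cnt i l' ≤ cnt i l + 1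
  | [], [], _ => by simp [cnt]
  | [], _ :: _, h => by simp [Inter] at h
  | _ :: _, [], h => by simp [Inter] at h
  | n :: l, m :: l', h => by
    obtain ⟨h1, h2, h3, h4⟩ := h
    have ih := cnt_inter i l l' h4
    rw [cnt_cons, cnt_cons]
    by_cases hn : i ≤ n
    · have hm : i ≤ m := hn.trans h3.le
      rw [if_pos hn, if_pos hm]
      omega
    · have e1 : cnt i l = 0 := cnt_zero fun x hx => (h1 x hx).trans (not_le.1 hn)
      have e2 : cnt i l' = 0 := cnt_zero fun x hx => (h2 x hx).trans (not_le.1 hn)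
      rw [e1, e2, if_neg hn]
      split_ifs <;> omega

/-- The averaged step vectors (truncated at `1`). -/
noncomputable def fr (k : ℕ) (l : List ℕ) (i : ℕ) : ℝ := min ((cnt i l : ℝ) / k) 1

variable (𝕜) in
/-- The averaged step vectors with scalars in `𝕜`. -/
noncomputable def fl (k : ℕ) (l : List ℕ) (i : ℕ) : 𝕜 := ((fr k l i : ℝ) : 𝕜)

theorem fr_nonneg (k : ℕ) (l : List ℕ) (i : ℕ) : 0 ≤ fr k l i := le_min (by positivity) zero_le_one

theorem norm_fl_le (k : ℕ) (l : List ℕ) (i : ℕ) : ‖fl 𝕜 k l i‖ ≤ 1 := by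
  unfold fl
  rw [RCLike.norm_ofReal, abs_of_nonneg (fr_nonneg k l i)]
  exact min_le_right _ _

theorem fl_zero {k : ℕ} {l : List ℕ} {i : ℕ} (h : ∀ x ∈ l, x < i) : fl 𝕜 k l i = 0 := by
  unfold fl fr
  rw [cnt_zero h]
  simp

theorem fl_one {k : ℕ} (hk : 0 < k) {l : List ℕ} {i : ℕ} (hl : l.length = k)
    (h : ∀ x ∈ l, i ≤ x) : fl 𝕜 k l i = 1 := by
  unfold fl fr
  rw [cnt_all h, hl, div_self (by positivity)]
  simp

theorem fl_inter {k : ℕ} (hk : 0 < k) {l l' : List ℕ} (h : Inter l l') (i : ℕ) :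
    ‖fl 𝕜 k l i - fl 𝕜 k l' i‖ ≤ 1 / k := by
  unfold fl
  rw [← RCLike.ofReal_sub, RCLike.norm_ofReal]
  unfold fr
  obtain ⟨h1, h2⟩ := cnt_inter i l l' h
  have h1' : (cnt i l : ℝ) ≤ cnt i l' := by exact_mod_cast h1
  have h2' : (cnt i l' : ℝ) ≤ cnt i l + 1 := by exact_mod_cast h2
  refine (abs_min_sub_min_le_max _ _ _ _).trans ?_
  rw [sub_self, abs_zero, ← sub_div, abs_div, abs_of_nonneg (Nat.cast_nonneg (α := ℝ) k)]
  refine max_le ?_ (by positivity)
  refine div_le_div_of_nonneg_right ?_ (Nat.cast_nonneg k)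
  rw [abs_le]
  constructor <;> linarith

/-! ### Limits in the bidual -/

theorem exists_T {E : Type*} [NormedAddCommGroup E] [NormedSpace 𝕜 E] (z : ℕ → E) (C : ℝ)
    (h : ∀ j, ‖z j‖ ≤ C) : ∃ T : StrongDual 𝕜 (StrongDual 𝕜 E), ‖T‖ ≤ C ∧
      ∀ φ : StrongDual 𝕜 E, Tendsto (fun j => φ (z j)) UF (𝓝 (T φ)) := by
  have hC : 0 ≤ C := (norm_nonneg _).trans (h 0)
  have h1 : ∀ φ : StrongDual 𝕜 E, ∃ x : 𝕜, ‖x‖ ≤ C * ‖φ‖ ∧
      Tendsto (fun j => φ (z j)) UF (𝓝 x) := by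
    intro φ
    refine exists_ulim _ _ fun j => ?_
    refine (φ.le_opNorm _).trans ?_
    rw [mul_comm]
    exact mul_le_mul_of_nonneg_right (h j) (norm_nonneg _)
  choose t ht1 ht2 using h1
  let T : StrongDual 𝕜 (StrongDual 𝕜 E) := LinearMap.mkContinuous
    { toFun := t
      map_add' := fun φ ψ => tendsto_nhds_unique (ht2 (φ + ψ)) ((ht2 φ).add (ht2 ψ))
      map_smul' := fun c φ => tendsto_nhds_unique (ht2 (c • φ)) ((ht2 φ).const_smul c) } C ht1
  exact ⟨T, LinearMap.mkContinuous_norm_le _ hC _, ht2⟩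

theorem norm_T_sub_le {E : Type*} [NormedAddCommGroup E] [NormedSpace 𝕜 E] {z z' : ℕ → E}
    {T T' : StrongDual 𝕜 (StrongDual 𝕜 E)}
    (hT : ∀ φ : StrongDual 𝕜 E, Tendsto (fun j => φ (z j)) UF (𝓝 (T φ)))
    (hT' : ∀ φ : StrongDual 𝕜 E, Tendsto (fun j => φ (z' j)) UF (𝓝 (T' φ)))
    {C : ℝ} (hC : 0 ≤ C) (h : ∀ᶠ j in (UF : Filter ℕ), ‖z j - z' j‖ ≤ C) : ‖T - T'‖ ≤ C := by
  refine ContinuousLinearMap.opNorm_le_bound _ hC fun φ => ?_
  have h1 := ((hT φ).sub (hT' φ)).norm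
  refine le_of_tendsto h1 ?_
  filter_upwards [h] with j hj
  rw [← map_sub]
  refine (φ.le_opNorm _).trans ?_
  rw [mul_comm]
  exact mul_le_mul_of_nonneg_right hj (norm_nonneg _)

theorem foldr_max_lt {l : List ℕ} {y : ℕ} (h0 : 0 < y) (h : ∀ x ∈ l, x < y) :
    l.foldr max 0 < y := by
  induction l with
  | nil => simpa using h0
  | cons a l ih =>
    rw [List.foldr_cons]
    exact max_lt (h a (by simp)) (ih fun x hx => h x (List.mem_cons_of_mem _ hx))

/-! ### The main theorem -/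

theorem no_retraction : ¬ ∃ f, Pool.Agent.BallRetract.IsUCRetraction 𝕜 (XT 𝕜) f := by
  rintro ⟨f, huc, hid⟩
  obtain ⟨δ0, hδ0, h0⟩ := huc (1 / 8) (by norm_num)
  obtain ⟨n, hn⟩ : ∃ n : ℕ, 2 * 1 / ((n : ℝ) + 1) < δ0 := by
    obtain ⟨n, hn⟩ := exists_nat_gt (2 / δ0)
    refine ⟨n, ?_⟩
    rw [div_lt_iff₀ (by positivity)]
    rw [div_lt_iff₀ hδ0] at hn
    nlinarith
  obtain ⟨δ1, hδ1, h1⟩ := huc (1 / (8 * ((n : ℝ) + 1))) (by positivity)
  obtain ⟨k, hk0, hk⟩ : ∃ k : ℕ, 0 < k ∧ 1 / (k : ℝ) < δ1 := by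
    obtain ⟨k, hk⟩ := exists_nat_gt (1 / δ1)
    have hk1 : 0 < (k : ℝ) := lt_trans (by positivity) hk
    refine ⟨k, by exact_mod_cast hk1, ?_⟩
    rw [div_lt_iff₀ hk1]
    rw [div_lt_iff₀ hδ1] at hk
    linarith
  -- the points of the bidual
  let z : List ℕ → ℕ → XT 𝕜 := fun l j => zz n j (fl 𝕜 k l)
  have hz1 : ∀ l j, ‖z l j‖ ≤ 1 := fun l j =>
    norm_J_blk_le n j _ zero_le_one fun i => norm_fl_le k l i
  have hT : ∀ l, ∃ T : StrongDual 𝕜 (StrongDual 𝕜 (XT 𝕜)), ‖T‖ ≤ 1 ∧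
      ∀ φ : StrongDual 𝕜 (XT 𝕜), Tendsto (fun j => φ (z l j)) UF (𝓝 (T φ)) := fun l =>
    exists_T (z l) 1 (hz1 l)
  choose T hT1 hT2 using hT
  -- the canonical lifting
  let N : List ℕ → ℕ := fun l => l.foldr max 0
  have hN : ∀ l i, N l < i → fl 𝕜 k l i = 0 := fun l i hi =>
    fl_zero fun x hx => lt_of_le_of_lt (le_foldr_max l x hx) hi
  have hclose : ∀ l, ‖f (T l) - z l (N l)‖ < 1 / 8 := by
    intro l
    have h2 : ‖T l - NormedSpace.inclusionInDoubleDual 𝕜 (XT 𝕜) (z l (N l))‖ ≤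
        2 * 1 / ((n : ℝ) + 1) := by
      refine norm_T_sub_le (z := z l) (z' := fun _ => z l (N l)) (hT2 l)
        (fun φ => tendsto_const_nhds) (by positivity) ?_
      filter_upwards [UF_gt (N l)] with j hj
      exact norm_J_blk_blk_le n j (N l) _ zero_le_one (fun i => norm_fl_le k l i)
        (fun i hi => hN l i (hj.trans hi)) (fun i hi => hN l i hi)
    have h3 := h0 (T l) (NormedSpace.inclusionInDoubleDual 𝕜 (XT 𝕜) (z l (N l))) (hT1 l)
      ((NormedSpace.double_dual_bound 𝕜 (XT 𝕜) _).trans (hz1 l (N l))) (lt_of_le_of_lt h2 hn)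
    rw [hid _ (hz1 l (N l))] at h3
    exact h3
  -- the map into `Y`
  let g : List ℕ → Y 𝕜 := fun l => pr n (val (f (T l)))
  have hg : BdY g := by
    refine ⟨((n : ℝ) + 1) * 2, fun l => ?_⟩
    refine (norm_pr_le n _).trans (mul_le_mul_of_nonneg_left ?_ (by positivity))
    have h2 := hclose l
    have h3 := hz1 l (N l)
    have h4 : ‖f (T l)‖ ≤ ‖f (T l) - z l (N l)‖ + ‖z l (N l)‖ := norm_le_norm_sub_add _ _
    rw [norm_val]
    linarith
  have hgi : ∀ l i, ‖q i (g l) - fl 𝕜 k l i‖ ≤ 1 / 8 := by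
    intro l i
    have h2 : fl 𝕜 k l i = q i (pr n (val (z l (N l)))) := by
      rw [val_zz, pr_J, q_blk]
      split_ifs with h
      · rfl
      · exact hN l i (not_le.1 h)
    rw [h2]
    change ‖q i (pr n (val (f (T l)))) - _‖ ≤ _
    rw [← map_sub, pr_sub]
    refine (q_pr_le (Submodule.sub_mem _ (val_mem (f (T l))) (val_mem (z l (N l)))) n i).trans ?_
    rw [norm_val_sub]
    exact (hclose l).le
  have hfin := propertyQ k hg (θ := 1 / 8) (c := 3 / 4) ?_ ?_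
  · norm_num at hfin
  · -- interlaced pairs
    intro l l' _ hI
    have h2 : ‖T l - T l'‖ ≤ 1 / (k : ℝ) := by
      refine norm_T_sub_le (hT2 l) (hT2 l') (by positivity) (Eventually.of_forall fun j => ?_)
      exact norm_J_blk_sub_le n j _ _ fun i => fl_inter hk0 hI i
    have h3 := h1 (T l) (T l') (hT1 l) (hT1 l') (lt_of_le_of_lt h2 hk)
    rw [← norm_val_sub] at h3
    change ‖pr n (val (f (T l))) - pr n (val (f (T l')))‖ ≤ _
    rw [pr_sub]
    refine (norm_pr_le n _).trans ?_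
    calc ((n : ℝ) + 1) * ‖val (f (T l)) - val (f (T l'))‖ ≤
        ((n : ℝ) + 1) * (1 / (8 * ((n : ℝ) + 1))) :=
          mul_le_mul_of_nonneg_left h3.le (by positivity)
      _ = 1 / 8 := by field_simp
  · -- separated pairs
    intro l l' hl hl' hs
    have hlne : l ≠ [] := by
      rintro rfl
      simp at hl
      omega
    obtain ⟨x0, hx0⟩ := List.exists_mem_of_ne_nil l hlne
    have e1 : fl 𝕜 k l (N l + 1) = 0 := hN l _ (Nat.lt_succ_self _)
    have e2 : fl 𝕜 k l' (N l + 1) = 1 := by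
      refine fl_one hk0 hl' fun y hy => ?_
      have h2 : 0 < y := lt_of_le_of_lt (Nat.zero_le _) (hs x0 hx0 y hy)
      exact foldr_max_lt h2 fun x hx => hs x hx y hy
    have h2 := hgi l (N l + 1)
    have h3 := hgi l' (N l + 1)
    rw [e1, sub_zero] at h2
    rw [e2] at h3
    have h4 : ‖q (N l + 1) (g l) - q (N l + 1) (g l')‖ ≤ ‖g l - g l'‖ := by
      rw [← map_sub]
      exact q_norm_le _ _
    have h5 : (1 : ℝ) = ‖(1 : 𝕜)‖ := by simp
    have h6 : ‖(1 : 𝕜)‖ ≤ ‖q (N l + 1) (g l') - 1‖ + ‖q (N l + 1) (g l) - q (N l + 1) (g l')‖ +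
        ‖q (N l + 1) (g l)‖ := by
      have h7 : (1 : 𝕜) = -(q (N l + 1) (g l') - 1) + (-(q (N l + 1) (g l) - q (N l + 1) (g l'))) +
          q (N l + 1) (g l) := by ring
      calc ‖(1 : 𝕜)‖ = ‖-(q (N l + 1) (g l') - 1) +
          (-(q (N l + 1) (g l) - q (N l + 1) (g l'))) + q (N l + 1) (g l)‖ := by rw [← h7]
        _ ≤ _ := norm_add₃_le
        _ = _ := by rw [norm_neg, norm_neg]
    linarith

/-- Every separable Banach space is generated by a norm compact set. -/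
theorem exists_compact_generating (E : Type*) [NormedAddCommGroup E] [NormedSpace 𝕜 E]
    [TopologicalSpace.SeparableSpace E] :
    ∃ K : Set E, IsCompact K ∧ Dense (Submodule.span 𝕜 K : Set E) := by
  let x : ℕ → E := TopologicalSpace.denseSeq E
  let c : ℕ → ℝ := fun n => ((n : ℝ) + 1)⁻¹ * (1 + ‖x n‖)⁻¹
  have hc : ∀ n, 0 < c n := fun n => by positivity
  let y : ℕ → E := fun n => ((c n : ℝ) : 𝕜) • x n
  have hy : ∀ n, ‖y n‖ ≤ ((n : ℝ) + 1)⁻¹ := by
    intro n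
    change ‖((c n : ℝ) : 𝕜) • x n‖ ≤ _
    rw [norm_smul, RCLike.norm_ofReal, abs_of_pos (hc n), mul_assoc]
    have h1 : (1 + ‖x n‖)⁻¹ * ‖x n‖ ≤ 1 := by
      rw [inv_mul_le_one₀ (by positivity)]
      linarith
    calc _ ≤ ((n : ℝ) + 1)⁻¹ * 1 := mul_le_mul_of_nonneg_left h1 (by positivity)
      _ = _ := mul_one _
  have hlim : Tendsto y atTop (𝓝 0) := by
    refine squeeze_zero_norm hy ?_
    simpa [one_div] using tendsto_one_div_add_atTop_nhds_zero_nat (𝕜 := ℝ)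
  refine ⟨insert 0 (Set.range y), hlim.isCompact_insert_range, ?_⟩
  refine (TopologicalSpace.denseRange_denseSeq E).mono ?_
  rintro _ ⟨n, rfl⟩
  have h1 : x n = ((c n : ℝ) : 𝕜)⁻¹ • y n := by
    change x n = ((c n : ℝ) : 𝕜)⁻¹ • (((c n : ℝ) : 𝕜) • x n)
    rw [smul_smul, inv_mul_cancel₀, one_smul]
    exact_mod_cast (hc n).ne'
  change x n ∈ _
  rw [h1]
  exact Submodule.smul_mem _ _ (Submodule.subset_span (Set.mem_insert_of_mem _ ⟨n, rfl⟩))

/-- The full statement. -/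
theorem exists_separable (𝕜 : Type) [RCLike 𝕜] :
    ∃ (X : Type) (_ : NormedAddCommGroup X) (_ : NormedSpace 𝕜 X),
      CompleteSpace X ∧ TopologicalSpace.SeparableSpace X ∧
      Pool.Agent.BallRetract.IsCompactlyGenerated 𝕜 X ∧
      ¬ ∃ f, Pool.Agent.BallRetract.IsUCRetraction 𝕜 X f :=
  ⟨XT 𝕜, inferInstance, inferInstance, inferInstance, inferInstance,
    exists_compact_generating (XT 𝕜), no_retraction⟩

end Pool.Agent.H52.Rt
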