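import Pool.Agent.H52.RtLim

/-!
The separable space of MP_68e57a_an.
-/

namespace Pool.Agent.H52.Rt

open Filter Topology BoundedContinuousFunction

variable {𝕜 : Type} [RCLike 𝕜]

/-- Coordinate `i` of a block. -/
def cf (i j : ℕ) (v : Fin (j + 1) → 𝕜) : 𝕜 := if h : i < j + 1 then v ⟨i, h⟩ else 0

theorem cf_norm_le (i j : ℕ) (v : Fin (j + 1) → 𝕜) : ‖cf i j v‖ ≤ ‖v‖ := by
  unfold cf
  split_ifs
  · exact norm_le_pi_norm _ _
  · simp

theorem summable_cf (i : ℕ) (y : Y 𝕜) : Summable (fun j => cf i j (y j)) :=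
  Summable.of_norm_bounded (summable_normY y) fun j => cf_norm_le i j _

/-- The functional which sums the `i`-th coordinates of all blocks. -/
noncomputable def q (i : ℕ) : Y 𝕜 →L[𝕜] 𝕜 :=
  LinearMap.mkContinuous
    { toFun := fun y => ∑' j, cf i j (y j)
      map_add' := fun y z => by
        rw [← (summable_cf i y).tsum_add (summable_cf i z)]
        refine tsum_congr fun j => ?_
        unfold cf
        split_ifs
        · rfl
        · simp
      map_smul' := fun c y => by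
        simp only [RingHom.id_apply, smul_eq_mul]
        rw [← tsum_mul_left]
        refine tsum_congr fun j => ?_
        unfold cf
        split_ifs
        · rfl
        · simp } 1 (fun y => by
      rw [one_mul]
      change ‖∑' j, cf i j (y j)‖ ≤ _
      rw [normY_eq]
      exact tsum_of_norm_bounded (summable_normY y).hasSum fun j => cf_norm_le i j _)

theorem q_apply (i : ℕ) (y : Y 𝕜) : q i y = ∑' j, cf i j (y j) := rfl

theorem q_norm_le (i : ℕ) (y : Y 𝕜) : ‖q i y‖ ≤ ‖y‖ := by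
  rw [q_apply, normY_eq]
  exact tsum_of_norm_bounded (summable_normY y).hasSum fun j => cf_norm_le i j _

/-- The vector `w` truncated and put in block `j`. -/
noncomputable def blk (j : ℕ) (w : ℕ → 𝕜) : Y 𝕜 := lp.single 1 j (fun i : Fin (j + 1) => w i)

theorem norm_blk (j : ℕ) (w : ℕ → 𝕜) : ‖blk j w‖ = ‖(fun i : Fin (j + 1) => w i)‖ :=
  lp.norm_single (by norm_num) j _

theorem norm_blk_le (j : ℕ) (w : ℕ → 𝕜) {C : ℝ} (hC : 0 ≤ C) (h : ∀ i, ‖w i‖ ≤ C) :
    ‖blk j w‖ ≤ C := by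
  rw [norm_blk]
  exact (pi_norm_le_iff_of_nonneg hC).2 fun i => h i

theorem blk_sub (j : ℕ) (w w' : ℕ → 𝕜) : blk j w - blk j w' = blk j (fun i => w i - w' i) :=
  (lp.single_sub 1 j _ _).symm

theorem q_blk (i j : ℕ) (w : ℕ → 𝕜) : q i (blk j w) = if i ≤ j then w i else 0 := by
  rw [q_apply, tsum_eq_single j]
  · unfold blk cf
    rw [lp.single_apply_self]
    simp only [Nat.lt_succ_iff]
    split_ifs <;> rfl
  · intro j' hj'
    unfold blk cf
    rw [lp.single_apply_ne _ _ _ hj']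
    split_ifs <;> rfl

/-- A unit vector. -/
noncomputable def uu : Y 𝕜 := blk 0 (fun _ => 1)

theorem norm_uu : ‖(uu : Y 𝕜)‖ = 1 := by
  rw [uu, norm_blk]
  simp [Pi.norm_def]

/-- The ambient space. -/
abbrev B (𝕜 : Type) [RCLike 𝕜] : Type := (ℕ × ℕ) →ᵇ (Y 𝕜)

/-- The embedding of the `n`-th copy of `Y` as a function. -/
noncomputable def Jf (n : ℕ) (y : Y 𝕜) : ℕ × ℕ → Y 𝕜
  | (m, 0) => if m = n then ((n : 𝕜) + 1)⁻¹ • y else 0
  | (m, i + 1) => if m = n then q i y • uu else 0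

theorem norm_inv_le (n : ℕ) : ‖((n : 𝕜) + 1)⁻¹‖ ≤ 1 := by
  rw [norm_inv]
  have h : ‖(n : 𝕜) + 1‖ = (n : ℝ) + 1 := by
    have := RCLike.norm_natCast (K := 𝕜) (n + 1)
    push_cast at this
    exact this
  rw [h]
  exact inv_le_one_of_one_le₀ (by linarith [(Nat.cast_nonneg n : (0 : ℝ) ≤ n)])

theorem norm_Jf_le (n : ℕ) (y : Y 𝕜) (p : ℕ × ℕ) : ‖Jf n y p‖ ≤ ‖y‖ := by
  obtain ⟨m, i⟩ := p
  cases i with
  | zero =>
    simp only [Jf]
    split_ifs
    · rw [norm_smul]
      calc _ ≤ 1 * ‖y‖ := mul_le_mul_of_nonneg_right (norm_inv_le n) (norm_nonneg _)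
        _ = ‖y‖ := one_mul _
    · simp
  | succ i =>
    simp only [Jf]
    split_ifs
    · rw [norm_smul, norm_uu, mul_one]
      exact q_norm_le i y
    · simp

/-- The embedding of the `n`-th copy of `Y`. -/
noncomputable def J (n : ℕ) (y : Y 𝕜) : B 𝕜 :=
  BoundedContinuousFunction.ofNormedAddCommGroupDiscrete (Jf n y) ‖y‖ (norm_Jf_le n y)

theorem J_apply (n : ℕ) (y : Y 𝕜) (p : ℕ × ℕ) : J n y p = Jf n y p := rfl

theorem J_zero (n m : ℕ) (y : Y 𝕜) :
    J n y (m, 0) = if m = n then ((n : 𝕜) + 1)⁻¹ • y else 0 := rfl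

theorem J_succ (n m i : ℕ) (y : Y 𝕜) :
    J n y (m, i + 1) = if m = n then q i y • uu else 0 := rfl

theorem J_add (n : ℕ) (y z : Y 𝕜) : J n (y + z) = J n y + J n z := by
  ext1 p
  obtain ⟨m, i⟩ := p
  rw [BoundedContinuousFunction.add_apply]
  cases i with
  | zero =>
    rw [J_zero, J_zero, J_zero]
    split_ifs
    · rw [smul_add]
    · simp
  | succ i =>
    rw [J_succ, J_succ, J_succ]
    split_ifs
    · rw [map_add, add_smul]
    · simp

theorem J_smul (n : ℕ) (c : 𝕜) (y : Y 𝕜) : J n (c • y) = c • J n y := by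
  ext1 p
  obtain ⟨m, i⟩ := p
  rw [BoundedContinuousFunction.smul_apply]
  cases i with
  | zero =>
    rw [J_zero, J_zero]
    split_ifs
    · rw [smul_comm]
    · simp
  | succ i =>
    rw [J_succ, J_succ]
    split_ifs
    · rw [map_smul, smul_eq_mul, mul_smul]
    · simp

/-- The embedding as a linear map. -/
noncomputable def JL (n : ℕ) : Y 𝕜 →ₗ[𝕜] B 𝕜 where
  toFun := J n
  map_add' := J_add n
  map_smul' := fun c y => J_smul n c y

/-- The generating vectors. -/
noncomputable def gen (p : ℕ × (Σ j : ℕ, Fin (j + 1))) : B 𝕜 :=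
  J p.1 (lp.single 1 p.2.1 (Pi.single p.2.2 (1 : 𝕜)))

variable (𝕜) in
/-- The space. -/
noncomputable def X : Submodule 𝕜 (B 𝕜) :=
  (Submodule.span 𝕜 (Set.range (gen (𝕜 := 𝕜)))).topologicalClosure

theorem X_closed : IsClosed (X 𝕜 : Set (B 𝕜)) := Submodule.isClosed_topologicalClosure _

instance : CompleteSpace (X 𝕜) := X_closed.completeSpace_coe

instance : TopologicalSpace.SeparableSpace (X 𝕜) := by
  have h1 : TopologicalSpace.IsSeparable (Set.range (gen (𝕜 := 𝕜))) :=
    (Set.countable_range _).isSeparable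
  have h2 : TopologicalSpace.IsSeparable ((Submodule.span 𝕜 (Set.range (gen (𝕜 := 𝕜))) :
    Submodule 𝕜 (B 𝕜)) : Set (B 𝕜)) := h1.span
  have h3 := h2.closure
  exact h3.separableSpace

theorem J_blk_mem (n j : ℕ) (w : ℕ → 𝕜) : J n (blk j w) ∈ X 𝕜 := by
  have h1 : blk j w = ∑ i : Fin (j + 1), w i • (lp.single 1 j (Pi.single i (1 : 𝕜)) : Y 𝕜) := by
    have h2 : (fun i : Fin (j + 1) => w i) =
        ∑ i : Fin (j + 1), w i • (Pi.single i (1 : 𝕜) : Fin (j + 1) → 𝕜) := by
      funext i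
      rw [Finset.sum_apply]
      simp [Pi.single_apply]
    unfold blk
    rw [h2]
    change lp.lsingle (𝕜 := 𝕜) 1 j _ = _
    rw [map_sum]
    refine Finset.sum_congr rfl fun i _ => ?_
    rw [map_smul]
    rfl
  rw [h1]
  change JL n _ ∈ X 𝕜
  rw [map_sum]
  refine Submodule.sum_mem _ fun i _ => ?_
  rw [map_smul]
  refine Submodule.smul_mem _ _ ?_
  refine Submodule.le_topologicalClosure _ ?_
  exact Submodule.subset_span ⟨(n, ⟨j, i⟩), rfl⟩

theorem X_rel {x : B 𝕜} (hx : x ∈ X 𝕜) (n i : ℕ) :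
    x (n, i + 1) = (((n : 𝕜) + 1) * q i (x (n, 0))) • uu := by
  have hcl : IsClosed {x : B 𝕜 | x (n, i + 1) = (((n : 𝕜) + 1) * q i (x (n, 0))) • uu} := by
    have e1 : Continuous (fun x : B 𝕜 => x (n, i + 1)) := continuous_eval_const _
    have e2 : Continuous (fun x : B 𝕜 => x (n, 0)) := continuous_eval_const _
    have e3 : Continuous (fun x : B 𝕜 => (((n : 𝕜) + 1) * q i (x (n, 0))) • (uu : Y 𝕜)) :=
      (continuous_const.mul ((q i).continuous.comp e2)).smul continuous_const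
    exact isClosed_eq e1 e3
  have hne : ((n : 𝕜) + 1) ≠ 0 := by exact_mod_cast Nat.succ_ne_zero n
  have hspan : ∀ x ∈ Submodule.span 𝕜 (Set.range (gen (𝕜 := 𝕜))),
      x (n, i + 1) = (((n : 𝕜) + 1) * q i (x (n, 0))) • uu := by
    intro x hx
    induction hx using Submodule.span_induction with
    | mem x hx =>
      obtain ⟨p, rfl⟩ := hx
      unfold gen
      rw [J_succ, J_zero]
      split_ifs with h
      · subst h
        rw [map_smul, smul_eq_mul, mul_inv_cancel_left₀ hne]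
      · simp
    | zero => simp
    | add x y _ _ hx hy =>
      rw [BoundedContinuousFunction.add_apply, BoundedContinuousFunction.add_apply, hx, hy,
        map_add, mul_add, add_smul]
    | smul c x _ hx =>
      rw [BoundedContinuousFunction.smul_apply, BoundedContinuousFunction.smul_apply, hx,
        map_smul, smul_eq_mul, smul_smul]
      congr 1
      ring
  exact closure_minimal (fun x hx => hspan x hx) hcl hx

/-- The projection to the `n`-th copy of `Y`. -/
noncomputable def pr (n : ℕ) (x : B 𝕜) : Y 𝕜 := ((n : 𝕜) + 1) • x (n, 0)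

theorem pr_sub (n : ℕ) (x y : B 𝕜) : pr n x - pr n y = pr n (x - y) := by
  unfold pr
  rw [BoundedContinuousFunction.sub_apply, smul_sub]

theorem norm_n1 (n : ℕ) : ‖(n : 𝕜) + 1‖ = (n : ℝ) + 1 := by
  have := RCLike.norm_natCast (K := 𝕜) (n + 1)
  push_cast at this
  exact this

theorem norm_pr_le (n : ℕ) (x : B 𝕜) : ‖pr n x‖ ≤ (n + 1) * ‖x‖ := by
  unfold pr
  rw [norm_smul, norm_n1]
  exact mul_le_mul_of_nonneg_left (x.norm_coe_le_norm _) (by positivity)

theorem q_pr_le {x : B 𝕜} (hx : x ∈ X 𝕜) (n i : ℕ) : ‖q i (pr n x)‖ ≤ ‖x‖ := by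
  have h1 := X_rel hx n i
  have h2 : ‖x (n, i + 1)‖ = ‖q i (pr n x)‖ := by
    rw [h1, norm_smul, norm_uu, mul_one]
    unfold pr
    rw [map_smul, smul_eq_mul]
  rw [← h2]
  exact x.norm_coe_le_norm _

theorem pr_J (n : ℕ) (y : Y 𝕜) : pr n (J n y) = y := by
  unfold pr
  have hne : ((n : 𝕜) + 1) ≠ 0 := by exact_mod_cast Nat.succ_ne_zero n
  rw [J_zero, if_pos rfl, smul_smul, mul_inv_cancel₀ hne, one_smul]

theorem norm_J_blk_sub_le (n j : ℕ) (w w' : ℕ → 𝕜) {C : ℝ} (h : ∀ i, ‖w i - w' i‖ ≤ C) :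
    ‖J n (blk j w) - J n (blk j w')‖ ≤ C := by
  have hC : 0 ≤ C := (norm_nonneg _).trans (h 0)
  have h1 : J n (blk j w) - J n (blk j w') = J n (blk j (fun i => w i - w' i)) := by
    rw [← blk_sub]
    change JL n _ - JL n _ = JL n _
    rw [map_sub]
  rw [h1]
  refine (BoundedContinuousFunction.norm_le hC).2 fun p => ?_
  exact (norm_Jf_le n _ p).trans (norm_blk_le j _ hC h)

theorem norm_J_blk_le (n j : ℕ) (w : ℕ → 𝕜) {C : ℝ} (hC : 0 ≤ C) (h : ∀ i, ‖w i‖ ≤ C) :
    ‖J n (blk j w)‖ ≤ C := by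
  refine (BoundedContinuousFunction.norm_le hC).2 fun p => ?_
  exact (norm_Jf_le n _ p).trans (norm_blk_le j _ hC h)

/-- Different blocks of the same finitely supported vector are close in the `n`-th copy. -/
theorem norm_J_blk_blk_le (n j j' : ℕ) (w : ℕ → 𝕜) {C : ℝ} (hC : 0 ≤ C) (h : ∀ i, ‖w i‖ ≤ C)
    (hj : ∀ i, j < i → w i = 0) (hj' : ∀ i, j' < i → w i = 0) :
    ‖J n (blk j w) - J n (blk j' w)‖ ≤ 2 * C / (n + 1) := by
  have h1 : J n (blk j w) - J n (blk j' w) = J n (blk j w - blk j' w) := by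
    change JL n _ - JL n _ = JL n _
    rw [map_sub]
  rw [h1]
  refine (BoundedContinuousFunction.norm_le (by positivity)).2 fun p => ?_
  obtain ⟨m, i⟩ := p
  cases i with
  | zero =>
    rw [J_zero]
    split_ifs
    · rw [norm_smul, norm_inv, norm_n1, inv_mul_eq_div]
      refine div_le_div_of_nonneg_right ?_ (by positivity)
      refine (norm_sub_le _ _).trans ?_
      have := norm_blk_le j w hC h
      have := norm_blk_le j' w hC h
      linarith
    · rw [norm_zero]
      positivity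
  | succ i =>
    rw [J_succ]
    split_ifs
    · have h2 : q i (blk j w - blk j' w) = 0 := by
        rw [map_sub, q_blk, q_blk]
        split_ifs with h3 h4 h4
        · simp
        · rw [hj' i (by omega)]
          simp
        · rw [hj i (by omega)]
          simp
        · simp
      rw [h2, zero_smul, norm_zero]
      positivity
    · rw [norm_zero]
      positivity

variable (𝕜) in
/-- The space as a type of its own. -/
def XT : Type := X 𝕜

noncomputable instance : NormedAddCommGroup (XT 𝕜) := inferInstanceAs (NormedAddCommGroup (X 𝕜))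

noncomputable instance : NormedSpace 𝕜 (XT 𝕜) := inferInstanceAs (NormedSpace 𝕜 (X 𝕜))

instance : CompleteSpace (XT 𝕜) := inferInstanceAs (CompleteSpace (X 𝕜))

instance : TopologicalSpace.SeparableSpace (XT 𝕜) :=
  inferInstanceAs (TopologicalSpace.SeparableSpace (X 𝕜))

/-- The underlying element of the ambient space. -/
def val (x : XT 𝕜) : B 𝕜 := (x : X 𝕜).1

theorem val_mem (x : XT 𝕜) : val x ∈ X 𝕜 := (x : X 𝕜).2

theorem norm_val_sub (x y : XT 𝕜) : ‖val x - val y‖ = ‖x - y‖ := rfl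

theorem norm_val (x : XT 𝕜) : ‖val x‖ = ‖x‖ := rfl

/-- The block vectors as elements of the space. -/
noncomputable def zz (n j : ℕ) (w : ℕ → 𝕜) : XT 𝕜 := (⟨J n (blk j w), J_blk_mem n j w⟩ : X 𝕜)

theorem val_zz (n j : ℕ) (w : ℕ → 𝕜) : val (zz n j w) = J n (blk j w) := rfl

end Pool.Agent.H52.Rt
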