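import Pool.Agent.H52.LB

/-!
`ℓ¹` sums of complexes, and the Banach spaces with prescribed dimensions.
-/

namespace Pool.Agent.H52

noncomputable section

universe u

variable {𝕜 : Type} [RCLike 𝕜]

section sum

variable {K : Type u}

/-- the `ℓ¹` sum of a family of Banach spaces -/
def sumBan (D : K → Ban.{0} 𝕜) : Ban.{u} 𝕜 := { carrier := lp (fun k => D k) 1 }

/-- `ℓ¹` sums of uniformly exact complexes are exact. -/
theorem LEx.sum {D : K → ℕ → Ban.{0} 𝕜} {δ : ∀ k j, D k (j + 1) →L[𝕜] D k j} {C : ℝ}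
    (h : ∀ k, LEx (fun j => D k j) (fun j => δ k j)) (hn : ∀ k j, ‖δ k j‖ ≤ C)
    (ho : ∀ k j, OpenC (δ k j) C) :
    LEx (fun j => sumBan (fun k => D k j))
      (fun j => lpMap (fun k => δ k j) C (fun k => hn k j)) where
  surj := by
    intro (y : lp (fun k => D k 0) 1)
    have h1 : ∀ k, ∃ x, δ k 0 x = y k ∧ ‖x‖ ≤ C * ‖y k‖ := by
      intro k
      obtain ⟨x, hx⟩ := (h k).surj (y k)
      obtain ⟨x', h1, h2⟩ := ho k 0 x
      have hx' : δ k 0 x = y k := hx
      rw [hx'] at h1 h2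
      exact ⟨x', h1, h2⟩
    choose x hx1 hx2 using h1
    have hs : Summable fun k => ‖x k‖ :=
      Summable.of_nonneg_of_le (fun _ => norm_nonneg _) hx2 ((lp1_summable y).mul_left C)
    refine ⟨lp1Mk x hs, ?_⟩
    have : lpMap (fun k => δ k 0) C (fun k => hn k 0) (lp1Mk x hs) = y := by
      ext k
      exact hx1 k
    exact this
  comp j x := by
    have : ∀ z : lp (fun k => D k (j + 2)) 1, lpMap (fun k => δ k j) C (fun k => hn k j)
        (lpMap (fun k => δ k (j + 1)) C (fun k => hn k (j + 1)) z) = 0 := by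
      intro z
      ext k
      exact (h k).comp j (z k)
    exact this x
  ex j x hx := by
    have key : ∀ z : lp (fun k => D k (j + 1)) 1, lpMap (fun k => δ k j) C (fun k => hn k j) z = 0 →
        ∃ y : lp (fun k => D k (j + 2)) 1,
          lpMap (fun k => δ k (j + 1)) C (fun k => hn k (j + 1)) y = z := by
      intro z hz
      have h1 : ∀ k, ∃ y, δ k (j + 1) y = z k ∧ ‖y‖ ≤ C * ‖z k‖ := by
        intro k
        have h0 : δ k j (z k) = 0 := by
          have := congrArg (fun w : lp (fun k => D k j) 1 => w k) hz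
          exact this
        obtain ⟨y, hy⟩ := (h k).ex j (z k) h0
        have hy' : δ k (j + 1) y = z k := hy
        obtain ⟨x', h1, h2⟩ := ho k (j + 1) y
        rw [hy'] at h1 h2
        exact ⟨x', h1, h2⟩
      choose y hy1 hy2 using h1
      have hs : Summable fun k => ‖y k‖ :=
        Summable.of_nonneg_of_le (fun _ => norm_nonneg _) hy2 ((lp1_summable z).mul_left C)
      refine ⟨lp1Mk y hs, ?_⟩
      ext k
      exact hy1 k
    exact key x hx

/-- the `ℓ¹` sum of `ℓ¹` spaces -/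
def sigmaIso (S : K → Type) :
    lp (fun k => L1 𝕜 (S k)) 1 ≃ₗᵢ[𝕜] lp (fun _ : Σ k, S k => 𝕜) 1 := by
  have hs : ∀ f : lp (fun k => L1 𝕜 (S k)) 1, Summable fun q : Σ k, S k => ‖f q.1 q.2‖ := by
    intro f
    rw [summable_sigma_of_nonneg (fun _ => norm_nonneg _)]
    refine ⟨fun k => lp1_summable (f k), ?_⟩
    have := lp1_summable f
    refine this.congr fun k => ?_
    rw [lp1_norm]
  have hg : ∀ (g : lp (fun _ : Σ k, S k => 𝕜) 1) (k : K), Summable fun s : S k => ‖g ⟨k, s⟩‖ := by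
    intro g k
    exact ((summable_sigma_of_nonneg (fun _ => norm_nonneg _)).1 (lp1_summable g)).1 k
  have hg2 : ∀ (g : lp (fun _ : Σ k, S k => 𝕜) 1), Summable fun k =>
      ‖(lp1Mk (fun s : S k => g ⟨k, s⟩) (hg g k) : L1 𝕜 (S k))‖ := by
    intro g
    have := ((summable_sigma_of_nonneg (fun _ => norm_nonneg _)).1 (lp1_summable g)).2
    refine this.congr fun k => ?_
    rw [norm_lp1Mk]
  exact
    { toFun := fun f => lp1Mk (fun q => f q.1 q.2) (hs f)
      map_add' := fun f g => by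
        ext q
        simp
      map_smul' := fun c f => by
        ext q
        simp
      invFun := fun g => lp1Mk (fun k => (lp1Mk (fun s : S k => g ⟨k, s⟩) (hg g k) :
        L1 𝕜 (S k))) (hg2 g)
      left_inv := fun f => by
        ext k s
        rfl
      right_inv := fun g => by
        ext q
        rfl
      norm_map' := fun f => by
        change ‖lp1Mk (fun q : Σ k, S k => f q.1 q.2) (hs f)‖ = ‖f‖
        rw [norm_lp1Mk, (hs f).tsum_sigma, lp1_norm]
        apply tsum_congr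
        intro k
        rw [lp1_norm] }

end sum

section spaces

variable {K : Type u} {N : K → ℕ} {C η : K → ℝ}

/-- the space built from a family of finite complexes -/
def bigX (𝕜 : Type) [RCLike 𝕜] (X : ∀ k, Cx (N k) (C k) (η k)) : Ban.{u} 𝕜 :=
  sumBan (fun k => (X k).D 𝕜 0)

lemma hasBlk_bigX (X : ∀ k, Cx (N k) (C k) (η k)) (k : K) :
    ∃ (i : StrongDual 𝕜 ((X k).D 𝕜 0) →L[𝕜] dualBan (bigX 𝕜 X))
      (r : dualBan (bigX 𝕜 X) →L[𝕜] StrongDual 𝕜 ((X k).D 𝕜 0)),
      (∀ x, r (i x) = x) ∧ ‖i‖ ≤ 1 ∧ ‖r‖ ≤ 1 := by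
  classical
  let ev : lp (fun k => (X k).D 𝕜 0) 1 →L[𝕜] (X k).D 𝕜 0 :=
    lp.evalCLM 𝕜 (fun k => ((X k).D 𝕜 0 : Type)) 1 k
  let sg : (X k).D 𝕜 0 →L[𝕜] lp (fun k => (X k).D 𝕜 0) 1 :=
    lp.singleContinuousLinearMap 𝕜 (fun k => ((X k).D 𝕜 0 : Type)) 1 k
  have hev : ‖ev‖ ≤ 1 := by
    apply ContinuousLinearMap.opNorm_le_bound _ zero_le_one
    intro x
    rw [one_mul]
    exact lp.norm_apply_le_norm (by norm_num) x k
  have hsg : ‖sg‖ ≤ 1 := by
    apply ContinuousLinearMap.opNorm_le_bound _ zero_le_one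
    intro x
    rw [one_mul]
    exact (lp.norm_single (E := fun k => ((X k).D 𝕜 0 : Type)) (p := 1) (by norm_num) k x).le
  have hes : ∀ x, ev (sg x) = x := by
    intro x
    change (lp.single 1 k x : lp (fun k => ((X k).D 𝕜 0 : Type)) 1) k = x
    rw [lp.single_apply, Pi.single_eq_same]
  refine ⟨dual ev, dual sg, ?_, (norm_dual_le _).trans hev, (norm_dual_le _).trans hsg⟩
  intro φ
  have : dual sg (dual ev φ) = φ := by
    ext x
    simp [hes]
  exact this

end spaces

section res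

variable {K : Type u} {N : ℕ} {C : ℝ} {η : K → ℝ}

lemma bigX_resolution (hC : 0 ≤ C) (X : ∀ k, Cx N C (η k)) :
    ∃ (P : ℕ → Ban.{u} 𝕜) (ε : P 0 →L[𝕜] bigX 𝕜 X) (d : ∀ j, P (j + 1) →L[𝕜] P j),
      LeftExact (bigX 𝕜 X) P ε d ∧ (∀ j, IsEllOne (P j)) ∧ ∀ j > N, Subsingleton (P j) := by
  have h := LEx.sum (D := fun k j => (X k).D 𝕜 j) (δ := fun k j => (X k).del 𝕜 j)
    (C := 2 * C + 2) (fun k => (X k).lex hC) (fun k j => (X k).norm_del hC j)
    (fun k j => (X k).openC hC j)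
  refine ⟨fun j => sumBan (fun k => (X k).D 𝕜 (j + 1)), _, _, h.leftExact, ?_, ?_⟩
  · intro j
    exact ⟨Σ k, (X k).S (j + 1), ⟨sigmaIso (fun k => (X k).S (j + 1))⟩⟩
  · intro j hj
    have h1 : ∀ x : lp (fun k => (X k).D 𝕜 (j + 1)) 1, x = 0 := by
      intro x
      ext k
      exact (X k).D_subsingleton (by omega) (x k)
    exact ⟨fun x y => (h1 x).trans (h1 y).symm⟩

end res

end

end Pool.Agent.H52
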