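import Mathlib

/-!
Compact convex sets, Choquet simplices and affine Baire functions: the definitions.
-/

namespace Pool.Agent.Choquet

open MeasureTheory Filter Topology

/-! ### Convex, affine and Baire functions on a set `X` -/

section Functions

variable {E : Type} [AddCommGroup E] [Module ℝ E]

/-- The function `f : X → ℝ` is convex. -/
def IsConvexFn (X : Set E) (f : X → ℝ) : Prop :=
  ∀ (x y z : X) (a b : ℝ), 0 ≤ a → 0 ≤ b → a + b = 1 → (z : E) = a • (x : E) + b • (y : E) →
    f z ≤ a * f x + b * f y

/-- The function `f : X → ℝ` is affine. -/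
def IsAffineFn (X : Set E) (f : X → ℝ) : Prop :=
  ∀ (x y z : X) (a b : ℝ), 0 ≤ a → 0 ≤ b → a + b = 1 → (z : E) = a • (x : E) + b • (y : E) →
    f z = a * f x + b * f y

end Functions

/-- Baire functions on the space `K`: the smallest family of real functions that contains the
continuous functions and is closed under pointwise limits of sequences. -/
inductive IsBaireFn {K : Type} [TopologicalSpace K] : (K → ℝ) → Prop
  | continuous (f : K → ℝ) (hf : Continuous f) : IsBaireFn f
  | limit (f : ℕ → K → ℝ) (g : K → ℝ) (hf : ∀ n, IsBaireFn (f n))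
      (h : ∀ x, Tendsto (fun n => f n x) atTop (𝓝 (g x))) : IsBaireFn g

/-! ### Measures on `X` and Choquet simplices -/

section Measures

variable {E : Type} [AddCommGroup E] [Module ℝ E] [TopologicalSpace E] [MeasurableSpace E]

/-- `μ` is a Radon probability measure on (the compact space) `X`. -/
def IsRadonProb (X : Set E) (μ : Measure X) : Prop := IsProbabilityMeasure μ ∧ μ.Regular

/-- The Choquet ordering: `∫ f dμ ≤ ∫ f dν` for every continuous convex function `f` on `X`. -/
def ChoquetLE (X : Set E) (μ ν : Measure X) : Prop :=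
  ∀ f : X → ℝ, Continuous f → IsConvexFn X f → ∫ x, f x ∂μ ≤ ∫ x, f x ∂ν

/-- `μ` is a Radon probability measure on `X` which is maximal in the Choquet ordering. -/
def IsMaximalMeasure (X : Set E) (μ : Measure X) : Prop :=
  IsRadonProb X μ ∧ ∀ ν : Measure X, IsRadonProb X ν → ChoquetLE X μ ν → ν = μ

/-- `x` is the barycenter of `μ`. -/
def IsBarycenter (X : Set E) (μ : Measure X) (x : E) : Prop :=
  ∀ l : E →L[ℝ] ℝ, ∫ y : X, l y ∂μ = l x

/-- The set `X` is a compact convex Choquet simplex: it is compact and convex, and every point of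
`X` is the barycenter of exactly one maximal Radon probability measure on `X`. -/
def IsChoquetSimplex (X : Set E) : Prop :=
  IsCompact X ∧ Convex ℝ X ∧ ∀ x ∈ X, ∃! μ : Measure X, IsMaximalMeasure X μ ∧ IsBarycenter X μ x

end Measures

/-! ### Extension of continuous functions on the set of extreme points -/

section Extension

variable {E : Type} [AddCommGroup E] [Module ℝ E] [TopologicalSpace E]

/-- The affine Baire extension property: every bounded continuous function `g` on `ext X` is the
restriction of an affine Baire function on `X`. -/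
def HasAffineBaireExtension (X : Set E) : Prop :=
  ∀ g : X.extremePoints ℝ → ℝ, Continuous g → (∃ C, ∀ e, |g e| ≤ C) →
    ∃ f : X → ℝ, IsAffineFn X f ∧ IsBaireFn f ∧
      ∀ (x : X) (hx : (x : E) ∈ X.extremePoints ℝ), f x = g ⟨x, hx⟩

/-- The stronger property in which the extension is the pointwise limit of a sequence of
continuous affine functions on `X`. -/
def HasAffineBaireOneExtension (X : Set E) : Prop :=
  ∀ g : X.extremePoints ℝ → ℝ, Continuous g → (∃ C, ∀ e, |g e| ≤ C) →
    ∃ (f : X → ℝ) (h : ℕ → X → ℝ), IsAffineFn X f ∧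
      (∀ n, Continuous (h n) ∧ IsAffineFn X (h n)) ∧
      (∀ x, Tendsto (fun n => h n x) atTop (𝓝 (f x))) ∧
      ∀ (x : X) (hx : (x : E) ∈ X.extremePoints ℝ), f x = g ⟨x, hx⟩

end Extension

end Pool.Agent.Choquet
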