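import Pool.Agent.H52.SxExt

/-!
Continuous functions on `I → ℕ` depend on countably many coordinates, and are uniformly
continuous on boxes.
-/

namespace Pool.Agent.H52.Sx

open Filter Topology

variable {I : Type} [DecidableEq I]

omit [DecidableEq I] in
theorem exists_finset {g : (I → ℕ) → ℝ} (hg : Continuous g) (σ : I → ℕ) {ε : ℝ} (hε : 0 < ε) :
    ∃ F : Finset I, ∀ τ : I → ℕ, (∀ i ∈ F, τ i = σ i) → |g τ - g σ| < ε := by
  have h1 : {τ | |g τ - g σ| < ε} ∈ 𝓝 σ := by
    have hopen : IsOpen {τ | |g τ - g σ| < ε} :=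
      isOpen_lt (continuous_abs.comp (hg.sub continuous_const)) continuous_const
    refine hopen.mem_nhds ?_
    change |g σ - g σ| < ε
    simpa using hε
  rw [nhds_pi, Filter.mem_pi] at h1
  obtain ⟨G, hG, t, ht, hsub⟩ := h1
  refine ⟨hG.toFinset, fun τ hτ => hsub fun i hi => ?_⟩
  rw [hτ i (hG.mem_toFinset.2 hi)]
  exact mem_of_mem_nhds (ht i)

/-- Functions with finite support inside `A`. -/
def Tset (A : Set I) : Set (I → ℕ) := {f | (Function.support f).Finite ∧ Function.support f ⊆ A}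

omit [DecidableEq I] in
theorem countable_Tset {A : Set I} (hA : A.Countable) : (Tset A).Countable := by
  have : Countable A := hA.to_subtype
  have h1 : Countable {f : I →₀ ℕ // ↑f.support ⊆ A} :=
    (Finsupp.restrictSupportEquiv A ℕ).injective.countable
  have h2 : Tset A ⊆ Set.range (fun f : {f : I →₀ ℕ // ↑f.support ⊆ A} => (f.1 : I → ℕ)) := by
    rintro f ⟨hf1, hf2⟩
    refine ⟨⟨Finsupp.ofSupportFinite f hf1, ?_⟩, rfl⟩
    intro i hi
    apply hf2
    have : (Finsupp.ofSupportFinite f hf1) i ≠ 0 := Finsupp.mem_support_iff.1 (by simpa using hi)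
    exact this
  exact (Set.countable_range _).mono h2

theorem exists_countable_dep {g : (I → ℕ) → ℝ} (hg : Continuous g) :
    ∃ A : Set I, A.Countable ∧ ∀ σ τ : I → ℕ, (∀ i ∈ A, σ i = τ i) → g σ = g τ := by
  choose F hF using fun (σ : I → ℕ) (n : ℕ) =>
    exists_finset hg σ (ε := 1 / ((n : ℝ) + 1)) (by positivity)
  let step : Set I → Set I := fun A => A ∪ ⋃ (f ∈ Tset A) (n : ℕ), (F f n : Set I)
  let A : ℕ → Set I := fun n => step^[n] ∅
  have hAs : ∀ n, A (n + 1) = step (A n) := fun n => Function.iterate_succ_apply' step n ∅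
  have hAc : ∀ n, (A n).Countable := by
    intro n
    induction n with
    | zero => exact Set.countable_empty
    | succ n ih =>
      rw [hAs]
      refine ih.union ?_
      refine Set.Countable.biUnion (countable_Tset ih) fun f _ => ?_
      exact Set.countable_iUnion fun n => (F f n).countable_toSet
  have hAmono : Monotone A := monotone_nat_of_le_succ fun n => by
    rw [hAs]
    exact Set.subset_union_left
  refine ⟨⋃ n, A n, Set.countable_iUnion hAc, fun σ τ hστ => ?_⟩
  -- finite sets inside the union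
  have hfin : ∀ f : I → ℕ, f ∈ Tset (⋃ n, A n) → ∀ n, (F f n : Set I) ⊆ ⋃ n, A n := by
    rintro f ⟨hf1, hf2⟩ n
    have h1 : ∃ m, Function.support f ⊆ A m := by
      have h2 : ∀ i, ∃ m, i ∈ Function.support f → i ∈ A m := by
        intro i
        by_cases hi : i ∈ Function.support f
        · obtain ⟨m, hm⟩ := Set.mem_iUnion.1 (hf2 hi)
          exact ⟨m, fun _ => hm⟩
        · exact ⟨0, fun h => absurd h hi⟩
      choose m hm using h2
      refine ⟨hf1.toFinset.sup m, fun i hi => ?_⟩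
      exact hAmono (Finset.le_sup (hf1.mem_toFinset.2 hi)) (hm i hi)
    obtain ⟨m, hm⟩ := h1
    intro i hi
    refine Set.mem_iUnion.2 ⟨m + 1, ?_⟩
    rw [hAs]
    exact Or.inr (Set.mem_iUnion₂.2 ⟨f, ⟨hf1, hm⟩, Set.mem_iUnion.2 ⟨n, hi⟩⟩)
  classical
  have key : ∀ n : ℕ, |g σ - g τ| ≤ 4 * (1 / ((n : ℝ) + 1)) := by
    intro n
    set G : Finset I := F σ n ∪ F τ n with hG
    set f : I → ℕ := fun i => if i ∈ G ∧ i ∈ ⋃ n, A n then σ i else 0 with hf
    set ρ : I → ℕ := fun i => if i ∈ G then σ i else 0 with hρ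
    set ρ' : I → ℕ := fun i => if i ∈ G then τ i else 0 with hρ'
    have hfT : f ∈ Tset (⋃ n, A n) := by
      constructor
      · refine G.finite_toSet.subset fun i hi => ?_
        by_contra hiG
        apply hi
        simp only [hf]
        rw [if_neg]
        exact fun h => hiG h.1
      · intro i hi
        by_contra hiA
        apply hi
        simp only [hf]
        rw [if_neg]
        exact fun h => hiA h.2
    have hsub := hfin f hfT n
    have e1 : |g ρ - g f| < 1 / ((n : ℝ) + 1) := by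
      apply hF
      intro i hi
      have hiA := hsub hi
      by_cases hiG : i ∈ G
      · simp only [hρ, hf, if_pos hiG]
        rw [if_pos ⟨hiG, hiA⟩]
      · simp only [hρ, hf, if_neg hiG]
        rw [if_neg fun h => hiG h.1]
    have e2 : |g ρ' - g f| < 1 / ((n : ℝ) + 1) := by
      apply hF
      intro i hi
      have hiA := hsub hi
      by_cases hiG : i ∈ G
      · simp only [hρ', hf, if_pos hiG]
        rw [if_pos ⟨hiG, hiA⟩]
        exact (hστ i hiA).symm
      · simp only [hρ', hf, if_neg hiG]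
        rw [if_neg fun h => hiG h.1]
    have e3 : |g ρ - g σ| < 1 / ((n : ℝ) + 1) := by
      apply hF
      intro i hi
      simp only [hρ]
      rw [if_pos (Finset.mem_union_left _ hi)]
    have e4 : |g ρ' - g τ| < 1 / ((n : ℝ) + 1) := by
      apply hF
      intro i hi
      simp only [hρ']
      rw [if_pos (Finset.mem_union_right _ hi)]
    rw [abs_lt] at e1 e2 e3 e4
    rw [abs_le]
    constructor <;> linarith
  have hlim : Tendsto (fun n : ℕ => 4 * (1 / ((n : ℝ) + 1))) atTop (𝓝 (4 * 0)) :=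
    tendsto_one_div_add_atTop_nhds_zero_nat.const_mul 4
  rw [mul_zero] at hlim
  have h0 : |g σ - g τ| ≤ 0 := ge_of_tendsto hlim (Eventually.of_forall key)
  have h1 := abs_nonpos_iff.1 h0
  linarith

/-- Uniform continuity on boxes. -/
theorem exists_uniform {g : (I → ℕ) → ℝ} (hg : Continuous g) {A : Set I}
    (hA : ∀ σ τ : I → ℕ, (∀ i ∈ A, σ i = τ i) → g σ = g τ) (K : I → ℕ) {ε : ℝ} (hε : 0 < ε) :
    ∃ G : Finset I, (G : Set I) ⊆ A ∧ ∀ σ : I → ℕ, (∀ i, σ i ≤ K i) → ∀ τ : I → ℕ,
      (∀ i ∈ G, τ i = σ i) → |g τ - g σ| < ε := by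
  classical
  have hcomp : IsCompact {σ : I → ℕ | ∀ i, σ i ≤ K i} := by
    have h1 : IsCompact (Set.pi Set.univ (fun i => Set.Iic (K i))) :=
      isCompact_univ_pi fun i => (Set.finite_Iic (K i)).isCompact
    have h2 : {σ : I → ℕ | ∀ i, σ i ≤ K i} = Set.pi Set.univ (fun i => Set.Iic (K i)) := by
      ext σ
      exact ⟨fun h i _ => h i, fun h i => h i trivial⟩
    rw [h2]
    exact h1
  choose F hF using fun (σ : I → ℕ) => exists_finset hg σ (ε := ε / 2) (by linarith)
  have hopen : ∀ σ : I → ℕ, IsOpen {τ : I → ℕ | ∀ i ∈ F σ, τ i = σ i} := by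
    intro σ
    have : {τ : I → ℕ | ∀ i ∈ F σ, τ i = σ i} = ⋂ i ∈ F σ, (fun τ : I → ℕ => τ i) ⁻¹' {σ i} := by
      ext τ
      simp
    rw [this]
    exact isOpen_biInter_finset fun i _ => (isOpen_discrete {σ i}).preimage (continuous_apply i)
  obtain ⟨t, ht⟩ := hcomp.elim_finite_subcover (fun σ => {τ : I → ℕ | ∀ i ∈ F σ, τ i = σ i}) hopen
    (fun σ _ => Set.mem_iUnion.2 ⟨σ, fun _ _ => rfl⟩)
  refine ⟨(t.biUnion F).filter (fun i => i ∈ A), fun i hi => by
    have := Finset.mem_coe.1 hi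
    exact (Finset.mem_filter.1 this).2, fun σ hσ τ hτ => ?_⟩
  obtain ⟨ρ, hρt, hρ⟩ := Set.mem_iUnion₂.1 (ht (show σ ∈ {σ : I → ℕ | ∀ i, σ i ≤ K i} from hσ))
  set τ' : I → ℕ := fun i => if i ∈ A then τ i else σ i with hτ'
  have e1 : g τ = g τ' := hA τ τ' fun i hi => by simp [hτ', hi]
  have e2 : |g τ' - g ρ| < ε / 2 := by
    apply hF
    intro i hi
    rw [← hρ i hi]
    by_cases hiA : i ∈ A
    · simp only [hτ', if_pos hiA]
      exact hτ i (Finset.mem_filter.2 ⟨Finset.mem_biUnion.2 ⟨ρ, hρt, hi⟩, hiA⟩)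
    · simp only [hτ', if_neg hiA]
  have e3 : |g σ - g ρ| < ε / 2 := by
    apply hF
    exact hρ
  rw [e1]
  rw [abs_lt] at e2 e3 ⊢
  constructor <;> linarith

theorem Good.continuous {F : Finset I} {k : ℕ} {f : (I → ℕ) → ℝ} (hf : Good F k f) :
    Continuous f := by
  rw [continuous_iff_continuousAt]
  intro σ
  have hopen : IsOpen {τ : I → ℕ | ∀ i ∈ F, τ i = σ i} := by
    have : {τ : I → ℕ | ∀ i ∈ F, τ i = σ i} = ⋂ i ∈ F, (fun τ : I → ℕ => τ i) ⁻¹' {σ i} := by
      ext τ
      simp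
    rw [this]
    exact isOpen_biInter_finset fun i _ => (isOpen_discrete {σ i}).preimage (continuous_apply i)
  have hev : (fun _ => f σ) =ᶠ[𝓝 σ] f := by
    filter_upwards [hopen.mem_nhds (show σ ∈ {τ : I → ℕ | ∀ i ∈ F, τ i = σ i} from
      fun _ _ => rfl)] with τ hτ
    exact hf.dep σ τ fun i hi => (hτ i hi).symm
  exact continuousAt_const.congr hev

end Pool.Agent.H52.Sx
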