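import Pool.Agent.H52.SxState

/-!
The ambient product space of a state space, its dual, and approximation of continuous convex
functions by finite maxima.
-/

namespace Pool.Agent.H52.Sx

open MeasureTheory Filter Topology Pool.Agent.Choquet

variable {Ω : Type}

/-- The product space `ℝ^V`. -/
def EE (V : Submodule ℝ (Ω → ℝ)) : Type := V → ℝ

variable {V : Submodule ℝ (Ω → ℝ)}

noncomputable instance : AddCommGroup (EE V) := inferInstanceAs (AddCommGroup (V → ℝ))
noncomputable instance : Module ℝ (EE V) := inferInstanceAs (Module ℝ (V → ℝ))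
instance : TopologicalSpace (EE V) := inferInstanceAs (TopologicalSpace (V → ℝ))
instance : IsTopologicalAddGroup (EE V) := inferInstanceAs (IsTopologicalAddGroup (V → ℝ))
instance : ContinuousSMul ℝ (EE V) := inferInstanceAs (ContinuousSMul ℝ (V → ℝ))
instance : LocallyConvexSpace ℝ (EE V) := inferInstanceAs (LocallyConvexSpace ℝ (V → ℝ))
instance : T2Space (EE V) := inferInstanceAs (T2Space (V → ℝ))
instance : MeasurableSpace (EE V) := borel _
instance : BorelSpace (EE V) := ⟨rfl⟩

/-- The state space as a subset of `EE V`. -/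
def XX (V : Submodule ℝ (Ω → ℝ)) : Set (EE V) := St V

theorem isSt_XX (x : XX V) : IsSt (V := V) x.1 := x.2

/-- A coordinate function on the state space. -/
def hat (v : V) : XX V → ℝ := fun x => x.1 v

theorem continuous_hat (v : V) : Continuous (hat v) := by
  have h1 : Continuous (fun x : V → ℝ => x v) := continuous_apply v
  exact h1.comp continuous_subtype_val

theorem affine_hat (v : V) : IsAffineFn (XX V) (hat v) := by
  intro x y z a b _ _ _ hz
  have : z.1 v = (a • x.1 + b • y.1 : EE V) v := by rw [hz]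
  exact this

/-- The functional `x ↦ x v` on `EE V`. -/
noncomputable def coord (v : V) : EE V →L[ℝ] ℝ := ContinuousLinearMap.proj (R := ℝ)
  (φ := fun _ : V => ℝ) v

theorem coord_apply (v : V) (x : EE V) : coord v x = x v := rfl

/-- Continuous linear functionals on the product space depend on finitely many coordinates; on
states they are coordinates. -/
theorem exists_coord (l : EE V →L[ℝ] ℝ) : ∃ w : V, ∀ x : EE V, IsSt (V := V) x → l x = x w := by
  classical
  -- a finite set of coordinates controlling `l`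
  have h1 : {x : V → ℝ | |l x| < 1} ∈ 𝓝 (0 : V → ℝ) := by
    have hc : Continuous fun x : EE V => |l x| := continuous_abs.comp l.continuous
    have : IsOpen {x : EE V | |l x| < 1} := isOpen_lt hc continuous_const
    refine this.mem_nhds ?_
    change |l 0| < 1
    simp
  rw [nhds_pi, Filter.mem_pi] at h1
  obtain ⟨G, hG, t, ht, hsub⟩ := h1
  have hzero : ∀ z : EE V, (∀ v ∈ G, z v = 0) → l z = 0 := by
    intro z hz
    by_contra hne
    have hmem : ((2 / l z) • z : EE V) ∈ G.pi t := by
      intro v hv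
      have h2 : ((2 / l z) • z : EE V) v = 0 := by
        change (2 / l z) * z v = 0
        rw [hz v hv, mul_zero]
      rw [h2]
      exact mem_of_mem_nhds (ht v)
    have h3 := hsub hmem
    change |l ((2 / l z) • z)| < 1 at h3
    rw [map_smul, smul_eq_mul, div_mul_cancel₀ _ hne] at h3
    norm_num at h3
  let sg : V → EE V := fun v => (Pi.single v (1 : ℝ) : V → ℝ)
  refine ⟨∑ v ∈ hG.toFinset, l (sg v) • v, fun x hx => ?_⟩
  have hx' : IsSt (V := V) x := hx
  rw [hx'.sum]
  simp only [hx'.smul]
  have h4 : l (x - ∑ v ∈ hG.toFinset, x v • sg v) = 0 := by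
    apply hzero
    intro v hv
    have h5 : (x - ∑ v ∈ hG.toFinset, x v • sg v : EE V) v =
        x v - ∑ w ∈ hG.toFinset, x w * (Pi.single w (1 : ℝ) : V → ℝ) v := by
      have h6 : (∑ v ∈ hG.toFinset, x v • sg v : EE V) v =
          ∑ w ∈ hG.toFinset, (x w • sg w : EE V) v :=
        Finset.sum_apply (M := fun _ : V => ℝ) v hG.toFinset (fun w => x w • sg w)
      change x v - (∑ v ∈ hG.toFinset, x v • sg v : EE V) v = _
      rw [h6]
      rfl
    rw [h5, Finset.sum_eq_single v]
    · simp
    · intro w _ hw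
      simp [hw.symm]
    · intro hv'
      exact absurd (hG.mem_toFinset.2 hv) hv'
  rw [map_sub, sub_eq_zero, map_sum] at h4
  rw [h4]
  refine Finset.sum_congr rfl fun v _ => ?_
  rw [map_smul, smul_eq_mul, mul_comm]

theorem isCompact_XX (h1 : (fun _ => (1 : ℝ)) ∈ V) (hb : ∀ f ∈ V, ∃ C, ∀ ω, |f ω| ≤ C) :
    IsCompact (XX V) := isCompact_St h1 hb

theorem convex_XX : Convex ℝ (XX V) := convex_St V

/-- Below a continuous convex function there are finitely many coordinates whose maximum is close
to it. -/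
theorem exists_minorants (h1 : (fun _ => (1 : ℝ)) ∈ V) (hb : ∀ f ∈ V, ∃ C, ∀ ω, |f ω| ≤ C)
    {f : XX V → ℝ} (hf : Continuous f) (hconv : IsConvexFn (XX V) f) {ε : ℝ} (hε : 0 < ε) :
    ∃ s : Finset V, (∀ v ∈ s, ∀ x, hat v x ≤ f x) ∧ ∀ x, ∃ v ∈ s, f x - ε < hat v x := by
  classical
  have : CompactSpace (XX V) := isCompact_iff_compactSpace.1 (isCompact_XX h1 hb)
  have hcl : IsClosed (XX V) := (isCompact_XX h1 hb).isClosed
  -- pointwise statement
  have hpt : ∀ x : XX V, ∃ v : V, (∀ y, hat v y ≤ f y) ∧ f x - ε < hat v x := by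
    intro x
    let S : Set (EE V × ℝ) := (fun p : XX V × ℝ => (p.1.1, p.2)) '' {p | f p.1 ≤ p.2}
    have hScl : IsClosed S := by
      have he : IsClosedEmbedding (fun p : XX V × ℝ => ((p.1.1 : EE V), p.2)) :=
        (hcl.isClosedEmbedding_subtypeVal).prodMap IsClosedEmbedding.id
      exact he.isClosedMap _ (isClosed_le (hf.comp continuous_fst) continuous_snd)
    have hSconv : Convex ℝ S := by
      rintro _ ⟨⟨y, s⟩, hys, rfl⟩ _ ⟨⟨z, t⟩, hzt, rfl⟩ a b ha hb' hab
      have hmem : a • y.1 + b • z.1 ∈ XX V := convex_XX y.2 z.2 ha hb' hab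
      refine ⟨(⟨a • y.1 + b • z.1, hmem⟩, a * s + b * t), ?_, rfl⟩
      have h2 := hconv y z ⟨a • y.1 + b • z.1, hmem⟩ a b ha hb' hab rfl
      have h3 : a * f y ≤ a * s := mul_le_mul_of_nonneg_left hys ha
      have h4 : b * f z ≤ b * t := mul_le_mul_of_nonneg_left hzt hb'
      change f _ ≤ a * s + b * t
      linarith
    have hnot : ((x.1 : EE V), f x - ε) ∉ S := by
      rintro ⟨⟨y, s⟩, hys, heq⟩
      have h2 : y = x := Subtype.ext (congrArg Prod.fst heq)
      have h3 : s = f x - ε := congrArg Prod.snd heq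
      change f y ≤ s at hys
      rw [h2, h3] at hys
      linarith
    obtain ⟨l, u, hlu, hlS⟩ := geometric_hahn_banach_point_closed hSconv hScl hnot
    let l0 : EE V →L[ℝ] ℝ := l.comp (ContinuousLinearMap.inl ℝ (EE V) ℝ)
    set c : ℝ := l (0, 1) with hc
    have hdec : ∀ (z : EE V) (t : ℝ), l (z, t) = l0 z + c * t := by
      intro z t
      have h2 : ((z, t) : EE V × ℝ) = (z, 0) + t • ((0 : EE V), (1 : ℝ)) := by
        ext <;> simp
      rw [h2, map_add, map_smul, smul_eq_mul, mul_comm]
      rfl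
    have hS : ∀ y : XX V, u < l0 y.1 + c * f y := by
      intro y
      rw [← hdec]
      exact hlS _ ⟨(y, f y), show f y ≤ f y from le_rfl, rfl⟩
    rw [hdec] at hlu
    have hcpos : 0 < c := by
      have h2 := hS x
      by_contra hneg
      push Not at hneg
      nlinarith
    obtain ⟨w, hw⟩ := exists_coord l0
    refine ⟨(1 / c) • (u • (⟨fun _ => 1, h1⟩ : V) - w), fun y => ?_, ?_⟩
    · have hval : hat ((1 / c) • (u • (⟨fun _ => 1, h1⟩ : V) - w)) y = (1 / c) * (u - l0 y.1) := by
        change y.1 _ = _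
        rw [(isSt_XX y).smul, (isSt_XX y).sub, (isSt_XX y).smul, (isSt_XX y).one (fun _ => rfl), mul_one,
          hw y.1 (isSt_XX y)]
      rw [hval]
      have h2 := hS y
      rw [one_div, inv_mul_le_iff₀ hcpos]
      linarith
    · have hval : hat ((1 / c) • (u • (⟨fun _ => 1, h1⟩ : V) - w)) x = (1 / c) * (u - l0 x.1) := by
        change x.1 _ = _
        rw [(isSt_XX x).smul, (isSt_XX x).sub, (isSt_XX x).smul, (isSt_XX x).one (fun _ => rfl), mul_one,
          hw x.1 (isSt_XX x)]
      rw [hval, one_div, lt_inv_mul_iff₀ hcpos]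
      linarith
  choose v hv1 hv2 using hpt
  have hopen : ∀ x : XX V, IsOpen {y : XX V | f y - ε < hat (v x) y} := fun x =>
    isOpen_lt (hf.sub continuous_const) (continuous_hat _)
  obtain ⟨t, ht⟩ := isCompact_univ.elim_finite_subcover
    (fun x : XX V => {y : XX V | f y - ε < hat (v x) y}) hopen
    (fun y _ => Set.mem_iUnion.2 ⟨y, hv2 y⟩)
  refine ⟨t.image v, ?_, fun x => ?_⟩
  · intro w hw y
    obtain ⟨x, _, rfl⟩ := Finset.mem_image.1 hw
    exact hv1 x y
  · obtain ⟨y, hy, hxy⟩ := Set.mem_iUnion₂.1 (ht (Set.mem_univ x))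
    exact ⟨v y, Finset.mem_image_of_mem v hy, hxy⟩

end Pool.Agent.H52.Sx
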