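import Pool.Agent.H52.SxProd

/-!
The extreme points of the state space are the evaluations, and they form a space which is not
Lindelof if the index set is uncountable.
-/

namespace Pool.Agent.H52.Sx

open Filter Topology Pool.Agent.Choquet

variable {I : Type} [DecidableEq I]

/-! ### Functions of one coordinate -/

theorem good_coord {k : ℕ} {h : ℕ → ℝ} (hh : ∀ n, k < n → h n = (h 0 + h 1) / 2) (i : I) :
    Good {i} k (fun σ : I → ℕ => h (σ i)) := by
  refine ⟨fun σ τ hστ => ?_, fun j σ hj => ?_⟩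
  · rw [hστ i (Finset.mem_singleton_self i)]
  · by_cases hji : j = i
    · subst hji
      simp [hh _ hj]
    · have : i ≠ j := fun h => hji h.symm
      simp [Function.update_of_ne this]

/-- The constant function `1`. -/
def oneV (I : Type) [DecidableEq I] : VV I := ⟨fun _ => 1, one_mem_VV⟩

/-- indicator of `σ i = t`, where `t ≥ 2` (zero for smaller `t`) -/
noncomputable def indF (t : ℕ) (m : ℕ) : ℝ := if m = t ∧ 2 ≤ t then 1 else 0

theorem indF_avg (t : ℕ) : ∀ n, max t 1 < n → indF t n = (indF t 0 + indF t 1) / 2 := by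
  intro n hn
  have h1 : ¬ (n = t ∧ 2 ≤ t) := by
    rintro ⟨rfl, _⟩
    exact absurd hn (by simp)
  have h2 : ¬ (0 = t ∧ 2 ≤ t) := by omega
  have h3 : ¬ (1 = t ∧ 2 ≤ t) := by omega
  simp [indF, h1, h2, h3]

/-- The function `1` at `0`, `0` at `1` and `1/2` at the other integers. -/
noncomputable def uF (m : ℕ) : ℝ := if m = 0 then 1 else if m = 1 then 0 else 1 / 2

theorem uF_avg : ∀ n, 1 < n → uF n = (uF 0 + uF 1) / 2 := by
  intro n hn
  have h1 : n ≠ 0 := by omega
  have h2 : n ≠ 1 := by omega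
  simp [uF, h1, h2]

/-- The basic functions. -/
noncomputable def pF (k n : ℕ) (m : ℕ) : ℝ :=
  if m ≤ k + 1 then (if m = n then 1 else 0) else (if n ≤ 1 then 1 / 2 else 0)

theorem pF_avg (k n : ℕ) : ∀ m, k + 1 < m → pF k n m = (pF k n 0 + pF k n 1) / 2 := by
  intro m hm
  have h1 : ¬ m ≤ k + 1 := by omega
  have h2 : (0 : ℕ) ≤ k + 1 := by omega
  have h3 : 1 ≤ k + 1 := by omega
  simp only [pF, h1, h2, h3, if_true, if_false]
  rcases Nat.lt_or_ge n 2 with hn | hn
  · interval_cases n <;> norm_num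
  · have h4 : ¬ n ≤ 1 := by omega
    have h5 : (0 : ℕ) ≠ n := by omega
    have h6 : 1 ≠ n := by omega
    simp [h4, h5, h6]

theorem pF_le_one (k n m : ℕ) : pF k n m ≤ 1 := by
  simp only [pF]
  split_ifs <;> norm_num

/-- `σ ↦ indF t (σ i)` -/
noncomputable def indV (i : I) (t : ℕ) : VV I :=
  ⟨fun σ => indF t (σ i), {i}, max t 1, le_max_right _ _, good_coord (indF_avg t) i⟩

/-- `σ ↦ uF (σ i)` -/
noncomputable def uV (i : I) : VV I :=
  ⟨fun σ => uF (σ i), {i}, 1, le_refl 1, good_coord uF_avg i⟩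

/-- `σ ↦ pF k n (σ i)` -/
noncomputable def pV (i : I) (k n : ℕ) : VV I :=
  ⟨fun σ => pF k n (σ i), {i}, k + 1, Nat.le_add_left 1 k, good_coord (pF_avg k n) i⟩

theorem Good.sum {F : Finset I} {k : ℕ} {ι : Type} (s : Finset ι) {f : ι → (I → ℕ) → ℝ}
    (hf : ∀ j ∈ s, Good F k (f j)) : Good F k (fun σ => ∑ j ∈ s, f j σ) := by
  refine ⟨fun σ τ h => Finset.sum_congr rfl fun j hj => (hf j hj).dep σ τ h, fun i σ hi => ?_⟩
  rw [Finset.sum_congr rfl fun j hj => (hf j hj).avg i σ hi, ← Finset.sum_div,
    Finset.sum_add_distrib]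

/-! ### States concentrated at a point -/

theorem eq_ev {φ : VV I → ℝ} (hφ : IsSt φ) (σ : I → ℕ)
    (h : ∀ i k, σ i ≤ k + 1 → φ (pV i k (σ i)) = 1) : φ = ev (VV I) σ := by
  funext f
  obtain ⟨F, k, hk, hf⟩ := exists_good f
  obtain ⟨C, hC⟩ := bdd_VV f.1 f.2
  have hC0 : 0 ≤ C := (abs_nonneg _).trans (hC σ)
  set k' := max k (F.sup σ) with hk'
  have hσk : ∀ i ∈ F, σ i ≤ k' + 1 := fun i hi =>
    ((Finset.le_sup hi).trans (le_max_right _ _)).trans (Nat.le_succ _)
  set W : VV I := ∑ i ∈ F, (2 * C) • (oneV I - pV i k' (σ i)) with hW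
  have hWapp : ∀ τ, W.1 τ = ∑ i ∈ F, (2 * C) * (1 - pF k' (σ i) (τ i)) := by
    intro τ
    rw [hW, Submodule.coe_sum, Finset.sum_apply]
    rfl
  have hφW : φ W = 0 := by
    rw [hW, hφ.sum]
    refine Finset.sum_eq_zero fun i hi => ?_
    rw [hφ.smul, hφ.sub, h i k' (hσk i hi), hφ.one (f := oneV I) (fun _ => rfl)]
    ring
  have hgW : Good F (k' + 1) W.1 := by
    have : W.1 = fun τ => ∑ i ∈ F, (2 * C) * (1 - pF k' (σ i) (τ i)) := funext hWapp
    rw [this]
    refine Good.sum F fun i hi => Good.smul (2 * C) ?_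
    have h1 : Good F (k' + 1) (fun τ : I → ℕ => pF k' (σ i) (τ i)) :=
      (good_coord (pF_avg k' (σ i)) i).mono (Finset.singleton_subset_iff.2 hi) le_rfl
    have h2 := (good_const F (k' + 1) 1).add (h1.smul (-1))
    have h3 : (fun τ : I → ℕ => 1 - pF k' (σ i) (τ i)) =
        fun τ => 1 + (-1) * pF k' (σ i) (τ i) := by
      funext τ
      ring
    rw [h3]
    exact h2
  have hvert : ∀ τ : I → ℕ, (∀ i, τ i ≤ k' + 1) → |f.1 τ - f.1 σ| ≤ W.1 τ := by
    intro τ hτ
    rw [hWapp]
    have hnn : ∀ i ∈ F, 0 ≤ (2 * C) * (1 - pF k' (σ i) (τ i)) := fun i _ =>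
      mul_nonneg (by linarith) (by linarith [pF_le_one k' (σ i) (τ i)])
    by_cases hall : ∀ i ∈ F, τ i = σ i
    · rw [hf.dep τ σ hall, sub_self, abs_zero]
      exact Finset.sum_nonneg hnn
    · push Not at hall
      obtain ⟨i, hi, hne⟩ := hall
      have h1 : pF k' (σ i) (τ i) = 0 := by
        simp [pF, hτ i, hne]
      calc |f.1 τ - f.1 σ| ≤ |f.1 τ| + |f.1 σ| := abs_sub _ _
        _ ≤ 2 * C := by linarith [hC τ, hC σ]
        _ = (2 * C) * (1 - pF k' (σ i) (τ i)) := by rw [h1]; ring
        _ ≤ _ := Finset.single_le_sum hnn hi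
  have hf' : Good F (k' + 1) f.1 := hf.mono (Finset.Subset.refl F)
    ((le_max_left _ _).trans (Nat.le_succ _))
  have key : ∀ s : ℝ, |s| = 1 → 0 ≤ s * (φ f - f.1 σ) := by
    intro s hs
    have hg : Good F (k' + 1) (fun τ => W.1 τ + s * (f.1 τ + (-1) * f.1 σ)) :=
      hgW.add (Good.smul s (hf'.add (good_const F _ _)))
    have h1 : ∀ τ, 0 ≤ (W + s • (f - (f.1 σ) • oneV I)).1 τ := by
      intro τ
      have e : (W + s • (f - (f.1 σ) • oneV I)).1 τ = W.1 τ + s * (f.1 τ + (-1) * f.1 σ) := by
        change W.1 τ + s * (f.1 τ - f.1 σ * 1) = _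
        ring
      rw [e]
      refine hg.nonneg (Nat.le_add_left 1 k') (fun τ' h1 _ => ?_) τ
      have h2 := hvert τ' h1
      have h3 : |s * (f.1 τ' + (-1) * f.1 σ)| = |f.1 τ' - f.1 σ| := by
        rw [abs_mul, hs, one_mul]
        congr 1
        ring
      have h4 := neg_abs_le (s * (f.1 τ' + (-1) * f.1 σ))
      linarith
    have h2 := hφ.nonneg h1
    rw [hφ.add, hφ.smul, hφ.sub, hφ.smul, hφ.one (f := oneV I) (fun _ => rfl), hφW] at h2
    linarith
  have h1 := key 1 (by simp)
  have h2 := key (-1) (by simp)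
  change φ f = f.1 σ
  linarith

theorem ev_pV (σ : I → ℕ) (i : I) (k : ℕ) (h : σ i ≤ k + 1) :
    ev (VV I) σ (pV i k (σ i)) = 1 := by
  change pF k (σ i) (σ i) = 1
  simp [pF, h]

theorem ev_mem_extremePoints (σ : I → ℕ) :
    (ev (VV I) σ : EE (VV I)) ∈ (XX (VV I)).extremePoints ℝ := by
  refine ⟨ev_mem _ σ, ?_⟩
  rintro φ hφ ψ hψ ⟨a, b, ha, hb, hab, hev⟩
  have hφ' : IsSt (V := VV I) φ := hφ
  have hψ' : IsSt (V := VV I) ψ := hψ
  refine eq_ev hφ' σ fun i k hik => ?_
  have h1 : (a • φ + b • ψ : EE (VV I)) (pV i k (σ i)) = 1 := by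
    rw [hev]
    exact ev_pV σ i k hik
  have h2 : a * φ (pV i k (σ i)) + b * ψ (pV i k (σ i)) = 1 := h1
  have h3 : φ (pV i k (σ i)) ≤ 1 := hφ'.le_of_le one_mem_VV fun τ => pF_le_one _ _ _
  have h4 : ψ (pV i k (σ i)) ≤ 1 := hψ'.le_of_le one_mem_VV fun τ => pF_le_one _ _ _
  nlinarith

/-! ### Extreme states -/

/-- Positive functionals. -/
structure IsPos {V : Submodule ℝ ((I → ℕ) → ℝ)} (ψ : V → ℝ) : Prop where
  add : ∀ f g, ψ (f + g) = ψ f + ψ g
  smul : ∀ (c : ℝ) (f : V), ψ (c • f) = c * ψ f
  nonneg : ∀ {f : V}, (∀ ω, 0 ≤ f.1 ω) → 0 ≤ ψ f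

theorem IsPos.eq_zero {ψ : VV I → ℝ} (hψ : IsPos ψ) (h : ψ (oneV I) = 0) (f : VV I) :
    ψ f = 0 := by
  obtain ⟨C, hC⟩ := bdd_VV f.1 f.2
  have h1 : 0 ≤ ψ (C • oneV I + f) := hψ.nonneg fun ω => by
    change 0 ≤ C * 1 + f.1 ω
    linarith [(abs_le.1 (hC ω)).1]
  have h2 : 0 ≤ ψ (C • oneV I + (-1 : ℝ) • f) := hψ.nonneg fun ω => by
    change 0 ≤ C * 1 + (-1) * f.1 ω
    linarith [(abs_le.1 (hC ω)).2]
  rw [hψ.add, hψ.smul, h] at h1 h2
  rw [hψ.smul] at h2
  linarith

theorem extreme_split {φ : EE (VV I)} (hφ : φ ∈ (XX (VV I)).extremePoints ℝ) {ψ : VV I → ℝ}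
    (hψ : IsPos ψ) (hle : ∀ f : VV I, (∀ ω, 0 ≤ f.1 ω) → ψ f ≤ φ f) (f : VV I) :
    ψ f = ψ (oneV I) * φ f := by
  have hφ' : IsSt (V := VV I) φ := hφ.1
  set a := ψ (oneV I) with ha
  have hχ : IsPos (fun f : VV I => φ f - ψ f) := by
    refine ⟨fun f g => ?_, fun c f => ?_, fun {f} hf => ?_⟩
    · simp only [hφ'.add, hψ.add]; ring
    · simp only [hφ'.smul, hψ.smul]; ring
    · have := hle f hf
      linarith
  have hone : φ (oneV I) = 1 := hφ'.one fun _ => rfl
  have ha0 : 0 ≤ a := hψ.nonneg fun _ => zero_le_one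
  have ha1 : a ≤ 1 := by
    have := hle (oneV I) fun _ => zero_le_one
    rwa [hone] at this
  rcases ha0.eq_or_lt with h0 | h0
  · rw [hψ.eq_zero h0.symm f, ← h0, zero_mul]
  rcases ha1.eq_or_lt with h1 | h1
  · have := hχ.eq_zero (by rw [hone, ← ha, h1]; ring) f
    rw [h1]
    linarith
  have hs1 : IsSt (fun f : VV I => a⁻¹ * ψ f) := by
    refine ⟨fun f g => ?_, fun c f => ?_, fun {f} hf => ?_, fun {f} hf => ?_⟩
    · simp only [hψ.add]; ring
    · simp only [hψ.smul]; ring
    · exact mul_nonneg (inv_nonneg.2 ha0) (hψ.nonneg hf)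
    · have : f = oneV I := Subtype.ext (funext hf)
      rw [this, ← ha, inv_mul_cancel₀ h0.ne']
  have hs2 : IsSt (fun f : VV I => (1 - a)⁻¹ * (φ f - ψ f)) := by
    refine ⟨fun f g => ?_, fun c f => ?_, fun {f} hf => ?_, fun {f} hf => ?_⟩
    · simp only [hψ.add, hφ'.add]; ring
    · simp only [hψ.smul, hφ'.smul]; ring
    · exact mul_nonneg (inv_nonneg.2 (by linarith)) (hχ.nonneg hf)
    · have : f = oneV I := Subtype.ext (funext hf)
      rw [this, ← ha, hone, inv_mul_cancel₀ (by linarith)]
  have hseg : φ ∈ openSegment ℝ ((fun f : VV I => a⁻¹ * ψ f : EE (VV I)))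
      ((fun f : VV I => (1 - a)⁻¹ * (φ f - ψ f) : EE (VV I))) := by
    refine ⟨a, 1 - a, h0, by linarith, by ring, ?_⟩
    funext f
    change a * (a⁻¹ * ψ f) + (1 - a) * ((1 - a)⁻¹ * (φ f - ψ f)) = φ f
    rw [mul_inv_cancel_left₀ h0.ne', mul_inv_cancel_left₀ (by linarith)]
    ring
  have heq := hφ.2 hs1 hs2 hseg
  have h2 : a⁻¹ * ψ f = φ f := congrFun heq f
  rw [← h2, mul_inv_cancel_left₀ h0.ne']

/-- Multiplication by the indicator of `σ i = t`. -/
noncomputable def mulInd (i : I) (t : ℕ) (f : VV I) : VV I :=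
  ⟨fun σ => f.1 σ * indF t (σ i), by
    obtain ⟨F, k, hk, hf⟩ := exists_good f
    refine ⟨insert i F, max k (max t 1), hk.trans (le_max_left _ _), ⟨fun σ τ h => ?_,
      fun j σ hj => ?_⟩⟩
    · rw [hf.dep σ τ fun j hj => h j (Finset.mem_insert_of_mem hj), h i (Finset.mem_insert_self i F)]
    · have hjk : k < σ j := (le_max_left _ _).trans_lt hj
      have hjt : max t 1 < σ j := (le_max_right _ _).trans_lt hj
      by_cases hji : j = i
      · subst hji
        have e0 : indF t 0 = 0 := by
          have : ¬ (0 = t ∧ 2 ≤ t) := by omega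
          simp [indF, this]
        have e1 : indF t 1 = 0 := by
          have : ¬ (1 = t ∧ 2 ≤ t) := by omega
          simp [indF, this]
        have e2 : indF t (σ j) = 0 := by
          rw [indF_avg t _ hjt, e0, e1]; norm_num
        simp [e0, e1, e2]
      · have hij : i ≠ j := fun h => hji h.symm
        rw [hf.avg j σ hjk]
        simp only [Function.update_of_ne hij]
        ring⟩

/-- `f` with the coordinate `i` replaced by `0`, times `uF (σ i)`. -/
noncomputable def mulU (i : I) (f : VV I) : VV I :=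
  ⟨fun σ => f.1 (Function.update σ i 0) * uF (σ i), by
    obtain ⟨F, k, hk, hf⟩ := exists_good f
    refine ⟨insert i F, k, hk, ⟨fun σ τ h => ?_, fun j σ hj => ?_⟩⟩
    · rw [hf.dep (Function.update σ i 0) (Function.update τ i 0) fun j hj => by
        by_cases hji : j = i
        · subst hji; simp
        · simp [Function.update_of_ne hji, h j (Finset.mem_insert_of_mem hj)],
        h i (Finset.mem_insert_self i F)]
    · by_cases hji : j = i
      · subst hji
        rw [uF_avg _ (hk.trans_lt hj)]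
        simp only [Function.update_idem, Function.update_self]
        ring
      · have hij : i ≠ j := fun h => hji h.symm
        rw [hf.avg j (Function.update σ i 0) (by rwa [Function.update_of_ne hji])]
        simp only [Function.update_of_ne hij, Function.update_comm hji]
        ring⟩

theorem ind_zero_or_one {φ : EE (VV I)} (hφ : φ ∈ (XX (VV I)).extremePoints ℝ) (i : I) (t : ℕ) :
    φ (indV i t) = 0 ∨ φ (indV i t) = 1 := by
  have hφ' : IsSt (V := VV I) φ := hφ.1
  have hpos : IsPos (fun f : VV I => φ (mulInd i t f)) := by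
    refine ⟨fun f g => ?_, fun c f => ?_, fun {f} hf => ?_⟩
    · rw [← hφ'.add]
      congr 1
      apply Subtype.ext
      funext σ
      change (f.1 σ + g.1 σ) * _ = f.1 σ * _ + g.1 σ * _
      ring
    · rw [← hφ'.smul]
      congr 1
      apply Subtype.ext
      funext σ
      change (c * f.1 σ) * _ = c * (f.1 σ * _)
      ring
    · refine hφ'.nonneg fun σ => mul_nonneg (hf σ) ?_
      simp only [indF]
      split_ifs <;> norm_num
  have h1 := extreme_split hφ hpos (fun f hf => hφ'.mono fun σ => by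
    change f.1 σ * indF t (σ i) ≤ f.1 σ
    have : indF t (σ i) ≤ 1 := by
      simp only [indF]
      split_ifs <;> norm_num
    exact mul_le_of_le_one_right (hf σ) this) (indV i t)
  have e1 : mulInd i t (indV i t) = indV i t := by
    apply Subtype.ext
    funext σ
    change indF t (σ i) * indF t (σ i) = indF t (σ i)
    simp only [indF]
    split_ifs <;> norm_num
  have e2 : mulInd i t (oneV I) = indV i t := by
    apply Subtype.ext
    funext σ
    change 1 * indF t (σ i) = indF t (σ i)
    ring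
  simp only [e1, e2] at h1
  have h2 : φ (indV i t) * (φ (indV i t) - 1) = 0 := by linarith
  rcases mul_eq_zero.1 h2 with h | h
  · exact Or.inl h
  · exact Or.inr (by linarith)

theorem u_zero_or_one {φ : EE (VV I)} (hφ : φ ∈ (XX (VV I)).extremePoints ℝ) (i : I)
    (hind : ∀ t, φ (indV i t) = 0) : φ (uV i) = 0 ∨ φ (uV i) = 1 := by
  have hφ' : IsSt (V := VV I) φ := hφ.1
  have hu0 : ∀ m, 0 ≤ uF m := by
    intro m
    simp only [uF]
    split_ifs <;> norm_num
  have hpos : IsPos (fun f : VV I => φ (mulU i f)) := by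
    refine ⟨fun f g => ?_, fun c f => ?_, fun {f} hf => ?_⟩
    · rw [← hφ'.add]
      congr 1
      apply Subtype.ext
      funext σ
      change (f.1 _ + g.1 _) * _ = f.1 _ * _ + g.1 _ * _
      ring
    · rw [← hφ'.smul]
      congr 1
      apply Subtype.ext
      funext σ
      change (c * f.1 _) * _ = c * (f.1 _ * _)
      ring
    · exact hφ'.nonneg fun σ => mul_nonneg (hf _) (hu0 _)
  have hle : ∀ f : VV I, (∀ ω, 0 ≤ f.1 ω) → φ (mulU i f) ≤ φ f := by
    intro f hf
    obtain ⟨F, k, hk, hg⟩ := exists_good f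
    obtain ⟨C, hC⟩ := bdd_VV f.1 f.2
    have hC0 : 0 ≤ C := (abs_nonneg _).trans (hC fun _ => 0)
    set S : VV I := ∑ t ∈ Finset.range (k + 1), C • indV i t with hS
    have hφS : φ S = 0 := by
      rw [hS, hφ'.sum]
      refine Finset.sum_eq_zero fun t _ => ?_
      rw [hφ'.smul, hind, mul_zero]
    have hSapp : ∀ σ, S.1 σ = ∑ t ∈ Finset.range (k + 1), C * indF t (σ i) := by
      intro σ
      rw [hS, Submodule.coe_sum, Finset.sum_apply]
      rfl
    have hgS : Good (insert i F) k S.1 := by
      have : S.1 = fun σ => ∑ t ∈ Finset.range (k + 1), C * indF t (σ i) := funext hSapp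
      rw [this]
      refine Good.sum _ fun t ht => Good.smul C ?_
      refine (good_coord (indF_avg t) i).mono (by simp) ?_
      have := Finset.mem_range.1 ht
      exact max_le (by omega) hk
    have hgU : Good (insert i F) k (mulU i f).1 := by
      refine ⟨fun σ τ h => ?_, fun j σ hj => ?_⟩
      · change f.1 (Function.update σ i 0) * uF (σ i) = f.1 (Function.update τ i 0) * uF (τ i)
        rw [hg.dep (Function.update σ i 0) (Function.update τ i 0) fun j hj => by
          by_cases hji : j = i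
          · subst hji; simp
          · simp [Function.update_of_ne hji, h j (Finset.mem_insert_of_mem hj)],
          h i (Finset.mem_insert_self i F)]
      · change f.1 (Function.update σ i 0) * uF (σ i) =
          (f.1 (Function.update (Function.update σ j 0) i 0) * uF (Function.update σ j 0 i) +
          f.1 (Function.update (Function.update σ j 1) i 0) * uF (Function.update σ j 1 i)) / 2
        by_cases hji : j = i
        · subst hji
          rw [uF_avg _ (hk.trans_lt hj)]
          simp only [Function.update_idem, Function.update_self]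
          ring
        · have hij : i ≠ j := fun h => hji h.symm
          rw [hg.avg j (Function.update σ i 0) (by rwa [Function.update_of_ne hji])]
          simp only [Function.update_of_ne hij, Function.update_comm hji]
          ring
    have hG : Good (insert i F) k (fun σ => (f.1 σ + (-1) * (mulU i f).1 σ) + S.1 σ) :=
      ((hg.mono (Finset.subset_insert i F) le_rfl).add (hgU.smul (-1))).add hgS
    have h1 : ∀ σ, 0 ≤ ((f - mulU i f) + S).1 σ := by
      intro σ
      have e : ((f - mulU i f) + S).1 σ = (f.1 σ + (-1) * (mulU i f).1 σ) + S.1 σ := by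
        change (f.1 σ - (mulU i f).1 σ) + S.1 σ = _
        ring
      rw [e]
      refine hG.nonneg hk (fun τ hτ _ => ?_) σ
      rw [hSapp]
      have hSnn : ∀ t ∈ Finset.range (k + 1), 0 ≤ C * indF t (τ i) := fun t _ =>
        mul_nonneg hC0 (by simp only [indF]; split_ifs <;> norm_num)
      have e2 : (mulU i f).1 τ = f.1 (Function.update τ i 0) * uF (τ i) := rfl
      rw [e2]
      have hfτ := hf τ
      have hsum := Finset.sum_nonneg hSnn
      by_cases h0 : τ i = 0
      · have h3 : Function.update τ i 0 = τ := by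
          conv_lhs => rw [← h0]
          exact Function.update_eq_self i τ
        have h4 : uF (τ i) = 1 := by simp [uF, h0]
        rw [h3, h4]
        linarith
      by_cases h1 : τ i = 1
      · have h4 : uF (τ i) = 0 := by simp [uF, h1]
        rw [h4]
        linarith
      · have h4 : uF (τ i) = 1 / 2 := by simp [uF, h0, h1]
        have h5 : C * indF (τ i) (τ i) = C := by
          have : 2 ≤ τ i := by omega
          simp [indF, this]
        have h6 : C ≤ ∑ t ∈ Finset.range (k + 1), C * indF t (τ i) := by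
          calc C = C * indF (τ i) (τ i) := h5.symm
            _ ≤ _ := Finset.single_le_sum hSnn (Finset.mem_range.2 (Nat.lt_succ_of_le (hτ i)))
        rw [h4]
        have h7 := (abs_le.1 (hC (Function.update τ i 0))).2
        linarith
    have h2 := hφ'.nonneg h1
    rw [hφ'.add, hφ'.sub, hφS] at h2
    linarith
  have h1 := extreme_split hφ hpos hle (uV i)
  have e1 : mulU i (uV i) = uV i := by
    apply Subtype.ext
    funext σ
    change uF (Function.update σ i 0 i) * uF (σ i) = uF (σ i)
    simp [uF]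
  have e2 : mulU i (oneV I) = uV i := by
    apply Subtype.ext
    funext σ
    change 1 * uF (σ i) = uF (σ i)
    ring
  simp only [e1, e2] at h1
  have h2 : φ (uV i) * (φ (uV i) - 1) = 0 := by linarith
  rcases mul_eq_zero.1 h2 with h | h
  · exact Or.inl h
  · exact Or.inr (by linarith)

/-- `pF` in terms of `uF` and the indicators. -/
theorem pF_zero (k m : ℕ) :
    pF k 0 m = uF m - (1 / 2) * ∑ t ∈ Finset.range (k + 2), indF t m := by
  have hs : ∑ t ∈ Finset.range (k + 2), indF t m = if 2 ≤ m ∧ m ≤ k + 1 then 1 else 0 := by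
    by_cases hm : 2 ≤ m ∧ m ≤ k + 1
    · rw [Finset.sum_eq_single m]
      · simp [indF, hm]
      · intro t _ ht
        have : ¬ (m = t ∧ 2 ≤ t) := fun h => ht h.1.symm
        simp [indF, this]
      · intro h
        exact absurd (Finset.mem_range.2 (by omega)) h
    · rw [if_neg hm]
      refine Finset.sum_eq_zero fun t ht => ?_
      have := Finset.mem_range.1 ht
      have h2 : ¬ (m = t ∧ 2 ≤ t) := by omega
      simp [indF, h2]
  rw [hs]
  rcases Nat.lt_or_ge m 2 with hm | hm
  · interval_cases m <;> simp [pF, uF]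
  · have h0 : m ≠ 0 := by omega
    have h1 : m ≠ 1 := by omega
    by_cases h2 : m ≤ k + 1
    · simp [pF, uF, h0, h1, h2, hm]
    · simp [pF, uF, h0, h1, h2]

theorem pF_one (k m : ℕ) :
    pF k 1 m = 1 - uF m - (1 / 2) * ∑ t ∈ Finset.range (k + 2), indF t m := by
  have h0 := pF_zero k m
  have h1 : pF k 1 m = 1 - pF k 0 m - ∑ t ∈ Finset.range (k + 2), indF t m := by
    have hs : ∑ t ∈ Finset.range (k + 2), indF t m = if 2 ≤ m ∧ m ≤ k + 1 then 1 else 0 := by
      by_cases hm : 2 ≤ m ∧ m ≤ k + 1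
      · rw [Finset.sum_eq_single m]
        · simp [indF, hm]
        · intro t _ ht
          have : ¬ (m = t ∧ 2 ≤ t) := fun h => ht h.1.symm
          simp [indF, this]
        · intro h
          exact absurd (Finset.mem_range.2 (by omega)) h
      · rw [if_neg hm]
        refine Finset.sum_eq_zero fun t ht => ?_
        have := Finset.mem_range.1 ht
        have h2 : ¬ (m = t ∧ 2 ≤ t) := by omega
        simp [indF, h2]
    rw [hs]
    rcases Nat.lt_or_ge m 2 with hm | hm
    · interval_cases m <;> simp [pF]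
    · have h0 : m ≠ 0 := by omega
      have h1 : m ≠ 1 := by omega
      by_cases h2 : m ≤ k + 1
      · simp [pF, h0, h1, h2, hm]
      · simp [pF, h2]; norm_num
  rw [h1, h0]
  ring

theorem exists_eq_ev {φ : EE (VV I)} (hφ : φ ∈ (XX (VV I)).extremePoints ℝ) :
    ∃ σ : I → ℕ, φ = ev (VV I) σ := by
  have hφ' : IsSt (V := VV I) φ := hφ.1
  have key : ∀ i, ∃ n, ∀ k, n ≤ k + 1 → φ (pV i k n) = 1 := by
    intro i
    by_cases hall : ∀ t, φ (indV i t) = 0
    · have hsum : ∀ k, φ (∑ t ∈ Finset.range (k + 2), indV i t) = 0 := by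
        intro k
        rw [hφ'.sum]
        exact Finset.sum_eq_zero fun t _ => hall t
      rcases u_zero_or_one hφ i hall with hu | hu
      · refine ⟨1, fun k _ => ?_⟩
        have e : pV i k 1 = (oneV I - uV i) -
            (1 / 2 : ℝ) • ∑ t ∈ Finset.range (k + 2), indV i t := by
          apply Subtype.ext
          funext σ
          have h1 : (∑ t ∈ Finset.range (k + 2), indV i t : VV I).1 σ =
              ∑ t ∈ Finset.range (k + 2), indF t (σ i) := by
            rw [Submodule.coe_sum, Finset.sum_apply]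
            rfl
          change pF k 1 (σ i) = (1 - uF (σ i)) -
            (1 / 2) * (∑ t ∈ Finset.range (k + 2), indV i t : VV I).1 σ
          rw [h1, pF_one]
        rw [e, hφ'.sub, hφ'.sub, hφ'.smul, hsum, hu, hφ'.one (f := oneV I) fun _ => rfl]
        norm_num
      · refine ⟨0, fun k _ => ?_⟩
        have e : pV i k 0 = uV i - (1 / 2 : ℝ) • ∑ t ∈ Finset.range (k + 2), indV i t := by
          apply Subtype.ext
          funext σ
          have h1 : (∑ t ∈ Finset.range (k + 2), indV i t : VV I).1 σ =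
              ∑ t ∈ Finset.range (k + 2), indF t (σ i) := by
            rw [Submodule.coe_sum, Finset.sum_apply]
            rfl
          change pF k 0 (σ i) = uF (σ i) -
            (1 / 2) * (∑ t ∈ Finset.range (k + 2), indV i t : VV I).1 σ
          rw [h1, pF_zero]
        rw [e, hφ'.sub, hφ'.smul, hsum, hu]
        norm_num
    · push Not at hall
      obtain ⟨t, ht⟩ := hall
      have h1 : φ (indV i t) = 1 := (ind_zero_or_one hφ i t).resolve_left ht
      have ht2 : 2 ≤ t := by
        by_contra hlt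
        apply ht
        have : indV i t = 0 := by
          apply Subtype.ext
          funext σ
          change indF t (σ i) = 0
          have : ¬ (σ i = t ∧ 2 ≤ t) := fun h => hlt h.2
          simp [indF, this]
        rw [this]
        exact hφ'.zero
      refine ⟨t, fun k hk => ?_⟩
      have e : pV i k t = indV i t := by
        apply Subtype.ext
        funext σ
        change pF k t (σ i) = indF t (σ i)
        have ht1 : ¬ t ≤ 1 := by omega
        by_cases h2 : σ i ≤ k + 1
        · simp [pF, indF, h2, ht2]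
        · have h3 : σ i ≠ t := by omega
          simp [pF, indF, h2, h3, ht1]
      rw [e, h1]
  choose σ hσ using key
  exact ⟨σ, eq_ev hφ' σ fun i k h => hσ i k h⟩

/-! ### The extreme points are not Lindelof -/

/-- Open sets that detect the value of a coordinate. -/
def detect (i : I) (t : ℕ) : Set (EE (VV I)) :=
  if t = 0 then {φ | 3 / 4 < φ (uV i)} else if t = 1 then {φ | φ (uV i) < 1 / 4}
  else {φ | 1 / 2 < φ (indV i t)}

theorem continuous_eval (v : VV I) : Continuous (fun φ : EE (VV I) => φ v) :=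
  (continuous_apply v : Continuous (fun φ : VV I → ℝ => φ v))

theorem isOpen_detect (i : I) (t : ℕ) : IsOpen (detect i t) := by
  unfold detect
  split_ifs
  · exact isOpen_lt continuous_const (continuous_eval _)
  · exact isOpen_lt (continuous_eval _) continuous_const
  · exact isOpen_lt continuous_const (continuous_eval _)

theorem ev_mem_detect (σ : I → ℕ) (i : I) (t : ℕ) :
    (ev (VV I) σ : EE (VV I)) ∈ detect i t ↔ σ i = t := by
  unfold detect
  split_ifs with h0 h1
  · subst h0
    change 3 / 4 < uF (σ i) ↔ _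
    by_cases h : σ i = 0
    · simp [uF, h] <;> norm_num
    · by_cases h1 : σ i = 1
      · simp [uF, h1] <;> norm_num
      · simp [uF, h, h1] <;> norm_num
  · subst h1
    change uF (σ i) < 1 / 4 ↔ _
    by_cases h : σ i = 0
    · simp [uF, h] <;> norm_num
    · by_cases h1 : σ i = 1
      · simp [uF, h1] <;> norm_num
      · simp [uF, h, h1] <;> norm_num
  · change 1 / 2 < indF t (σ i) ↔ _
    have ht : 2 ≤ t := by omega
    by_cases h : σ i = t
    · simp [indF, h, ht] <;> norm_num
    · simp [indF, h] <;> norm_num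

theorem not_isLindelof [Uncountable I] : ¬ IsLindelof ((XX (VV I)).extremePoints ℝ) := by
  intro hL
  let U : {p : I × I // p.1 ≠ p.2} → Set (EE (VV I)) := fun p =>
    ⋃ t, detect p.1.1 t ∩ detect p.1.2 t
  obtain ⟨r, hr, hcov⟩ := hL.elim_countable_subcover U
    (fun p => isOpen_iUnion fun t => (isOpen_detect _ _).inter (isOpen_detect _ _)) (by
      intro φ hφ
      obtain ⟨σ, rfl⟩ := exists_eq_ev hφ
      have hni : ¬ Function.Injective σ := fun h => by
        have : Countable I := h.countable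
        exact not_countable this
      simp only [Function.Injective] at hni
      push Not at hni
      obtain ⟨i, j, hij, hne⟩ := hni
      exact Set.mem_iUnion.2 ⟨⟨(i, j), hne⟩, Set.mem_iUnion.2 ⟨σ i,
        (ev_mem_detect σ i _).2 rfl, (ev_mem_detect σ j _).2 hij.symm⟩⟩)
  -- a countable set of coordinates
  let A : Set I := (fun p : {p : I × I // p.1 ≠ p.2} => p.1.1) '' r ∪
    (fun p : {p : I × I // p.1 ≠ p.2} => p.1.2) '' r
  have hA : A.Countable := (hr.image _).union (hr.image _)
  obtain ⟨σ, hσ⟩ : ∃ σ : I → ℕ, Set.InjOn σ A := Set.countable_iff_exists_injOn.1 hA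
  obtain ⟨p, hp, hmem⟩ := Set.mem_iUnion₂.1 (hcov (ev_mem_extremePoints σ))
  obtain ⟨t, ht1, ht2⟩ := Set.mem_iUnion.1 hmem
  have h1 := (ev_mem_detect σ _ _).1 ht1
  have h2 := (ev_mem_detect σ _ _).1 ht2
  exact p.2 (hσ (Or.inl ⟨p, hp, rfl⟩) (Or.inr ⟨p, hp, rfl⟩) (h1.trans h2.symm))

end Pool.Agent.H52.Sx
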