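import Pool.Agent.H52.SxDep

/-!
Every bounded continuous function on the set of extreme points extends to an affine function
that is a pointwise limit of continuous affine functions.
-/

namespace Pool.Agent.H52.Sx

open Filter Topology Pool.Agent.Choquet

variable {I : Type} [DecidableEq I]

/-! ### Tails -/

theorem sum_ind_le {φ : VV I → ℝ} (hφ : IsSt φ) (i : I) (n : ℕ) :
    ∑ t ∈ Finset.range n, φ (indV i t) ≤ 1 := by
  rw [← hφ.sum]
  refine hφ.le_of_le one_mem_VV fun σ => ?_
  rw [Submodule.coe_sum, Finset.sum_apply]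
  change ∑ t ∈ Finset.range n, indF t (σ i) ≤ 1
  by_cases h : σ i ∈ Finset.range n
  · rw [Finset.sum_eq_single_of_mem (σ i) h]
    · simp only [indF]; split_ifs <;> norm_num
    · intro t _ ht
      have : ¬ (σ i = t ∧ 2 ≤ t) := fun h => ht h.1.symm
      simp [indF, this]
  · rw [Finset.sum_eq_zero]
    · norm_num
    · intro t ht
      have : ¬ (σ i = t ∧ 2 ≤ t) := fun h' => h (h'.1 ▸ ht)
      simp [indF, this]

theorem ind_nonneg {φ : VV I → ℝ} (hφ : IsSt φ) (i : I) (t : ℕ) : 0 ≤ φ (indV i t) :=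
  hφ.nonneg fun σ => by
    change 0 ≤ indF t (σ i)
    simp only [indF]; split_ifs <;> norm_num

theorem exists_tail {φ : VV I → ℝ} (hφ : IsSt φ) (i : I) {ε : ℝ} (hε : 0 < ε) :
    ∃ N, 2 ≤ N ∧ ∀ n, ∑ t ∈ Finset.Ico N n, φ (indV i t) ≤ ε := by
  have hs : Summable (fun t => φ (indV i t)) :=
    summable_of_sum_range_le (ind_nonneg hφ i) (sum_ind_le hφ i)
  have hlim := hs.hasSum.tendsto_sum_nat
  obtain ⟨N, hN⟩ := Metric.cauchySeq_iff'.1 hlim.cauchySeq ε hε
  refine ⟨max N 2, le_max_right _ _, fun n => ?_⟩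
  by_cases hn : max N 2 ≤ n
  · have h1 : N ≤ n := (le_max_left _ _).trans hn
    have h2 := hN n h1
    rw [Real.dist_eq, ← Finset.sum_Ico_eq_sub _ h1] at h2
    calc ∑ t ∈ Finset.Ico (max N 2) n, φ (indV i t) ≤ ∑ t ∈ Finset.Ico N n, φ (indV i t) :=
          Finset.sum_le_sum_of_subset_of_nonneg
            (Finset.Ico_subset_Ico_left (le_max_left _ _)) fun t _ _ => ind_nonneg hφ i t
      _ ≤ ε := (le_abs_self _).trans h2.le
  · rw [Finset.Ico_eq_empty (by omega)]
    simpa using hε.le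

/-! ### The approximating sequence -/

omit [DecidableEq I] in
theorem finite_level {A : Set I} {e : I → ℕ} (he : Set.InjOn e A) (k : ℕ) :
    {i | i ∈ A ∧ e i < k}.Finite :=
  Set.Finite.of_injOn (f := e) (t := Set.Iio k) (fun _ h => h.2) (he.mono fun _ h => h.1)
    (Set.finite_Iio k)

/-- The first `k` elements of `A`. -/
noncomputable def lev {A : Set I} {e : I → ℕ} (he : Set.InjOn e A) (k : ℕ) : Finset I :=
  (finite_level he k).toFinset

omit [DecidableEq I] in
theorem mem_lev {A : Set I} {e : I → ℕ} (he : Set.InjOn e A) (k : ℕ) (i : I) :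
    i ∈ lev he k ↔ i ∈ A ∧ e i < k := by
  simp [lev]

theorem PP_close {g : (I → ℕ) → ℝ} {F : Finset I} {k : ℕ} {σ : I → ℕ} {c ε : ℝ}
    (h : ∀ b, |g (RR F k b σ) - c| ≤ ε) : |PP F k g σ - c| ≤ ε := by
  have h1 : PP F k g σ - c = (∑ b ∈ F.powerset, (g (RR F k b σ) - c)) / 2 ^ F.card := by
    rw [Finset.sum_sub_distrib, Finset.sum_const, Finset.card_powerset, sub_div]
    simp [PP]
  rw [h1, abs_div, abs_of_pos (show (0 : ℝ) < 2 ^ F.card by positivity),
    div_le_iff₀ (by positivity)]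
  calc |∑ b ∈ F.powerset, (g (RR F k b σ) - c)| ≤ ∑ b ∈ F.powerset, |g (RR F k b σ) - c| :=
        Finset.abs_sum_le_sum_abs _ _
    _ ≤ ∑ b ∈ F.powerset, ε := Finset.sum_le_sum fun b _ => h b
    _ = ε * 2 ^ F.card := by
        rw [Finset.sum_const, Finset.card_powerset]
        simp [mul_comm]

/-- The approximating functions. -/
noncomputable def app {A : Set I} {e : I → ℕ} (he : Set.InjOn e A) (g : (I → ℕ) → ℝ) (k : ℕ) :
    VV I :=
  ⟨PP (lev he k) (k + 1) g, lev he k, k + 1, Nat.le_add_left 1 k, good_PP _ (Nat.le_add_left 1 k) g⟩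

/-- `app` is close to `g` at `σ`. -/
theorem app_close {A : Set I} {e : I → ℕ} (he : Set.InjOn e A) {g : (I → ℕ) → ℝ} {G : Finset I}
    (hGA : (G : Set I) ⊆ A) {ρ : I → ℕ} {ε : ℝ}
    (hG : ∀ τ : I → ℕ, (∀ i ∈ G, τ i = ρ i) → |g τ - g ρ| < ε) {k : ℕ}
    (hk : ∀ i ∈ G, e i < k) {σ : I → ℕ} (hσ : ∀ i ∈ G, σ i = ρ i) (hσk : ∀ i ∈ G, σ i ≤ k + 1) :
    |(app he g k).1 σ - g ρ| ≤ ε := by
  refine PP_close fun b => (hG _ fun i hi => ?_).le
  have h1 : i ∈ lev he k := (mem_lev he k i).2 ⟨hGA hi, hk i hi⟩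
  simp only [RR, if_pos h1]
  rw [if_pos (hσk i hi), hσ i hi]

theorem cauchy_app {A : Set I} {e : I → ℕ} (he : Set.InjOn e A) {g : (I → ℕ) → ℝ}
    (hg : Continuous g) (hA : ∀ σ τ : I → ℕ, (∀ i ∈ A, σ i = τ i) → g σ = g τ) {B : ℝ}
    (hB : ∀ σ, |g σ| ≤ B) {φ : VV I → ℝ} (hφ : IsSt φ) :
    CauchySeq (fun k => φ (app he g k)) := by
  have hB0 : 0 ≤ B := (abs_nonneg _).trans (hB fun _ => 0)
  rw [Metric.cauchySeq_iff']
  intro ε₀ hε₀
  set ε : ℝ := ε₀ / (2 * (2 + 2 * B)) with hεdef
  have hε : 0 < ε := by positivity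
  choose N hN2 hN using fun i => exists_tail hφ i (ε := ε / 2 ^ (e i + 1)) (by positivity)
  obtain ⟨G, hGA, hG⟩ := exists_uniform hg hA (fun i => N i - 1) hε
  -- the starting index
  set N₀ : ℕ := (G.sup e + 1) + G.sup N with hN₀
  have hNe : ∀ i ∈ G, e i < N₀ := fun i hi => by
    have := Finset.le_sup (f := e) hi
    omega
  have hNN : ∀ i ∈ G, N i ≤ N₀ := fun i hi => by
    have := Finset.le_sup (f := N) hi
    omega
  refine ⟨N₀, fun k' hk' => ?_⟩
  -- comparison function
  set S : VV I := ∑ i ∈ G, (2 * B) • ∑ t ∈ Finset.Ico (N i) (k' + 2), indV i t with hS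
  have hSapp : ∀ σ, S.1 σ = ∑ i ∈ G, (2 * B) * ∑ t ∈ Finset.Ico (N i) (k' + 2), indF t (σ i) := by
    intro σ
    rw [hS, Submodule.coe_sum, Finset.sum_apply]
    refine Finset.sum_congr rfl fun i _ => ?_
    rw [Submodule.coe_smul, Pi.smul_apply, Submodule.coe_sum, Finset.sum_apply, smul_eq_mul]
    rfl
  have hφS : φ S ≤ 2 * B * ε := by
    rw [hS, hφ.sum]
    have h1 : ∀ i ∈ G, φ ((2 * B) • ∑ t ∈ Finset.Ico (N i) (k' + 2), indV i t) ≤
        2 * B * (ε / 2 ^ (e i + 1)) := by
      intro i _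
      rw [hφ.smul, hφ.sum]
      exact mul_le_mul_of_nonneg_left (hN i _) (by linarith)
    refine (Finset.sum_le_sum h1).trans ?_
    rw [← Finset.mul_sum]
    refine mul_le_mul_of_nonneg_left ?_ (by linarith)
    have h2 : ∑ i ∈ G, ε / 2 ^ (e i + 1) = ε * ∑ n ∈ G.image e, (1 / 2 : ℝ) ^ (n + 1) := by
      rw [Finset.sum_image (fun i hi j hj h => he (hGA hi) (hGA hj) h), Finset.mul_sum]
      refine Finset.sum_congr rfl fun i _ => ?_
      rw [one_div, inv_pow, div_eq_mul_inv]
    have h3 : ∑ n ∈ G.image e, (1 / 2 : ℝ) ^ (n + 1) ≤ 1 := by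
      have h4 : HasSum (fun n : ℕ => (1 / 2 : ℝ) ^ (n + 1)) 1 := by
        have h5 := hasSum_geometric_two.mul_left (1 / 2 : ℝ)
        have h6 : (fun n : ℕ => (1 / 2 : ℝ) ^ (n + 1)) = fun n => 1 / 2 * (1 / 2 : ℝ) ^ n :=
          funext fun n => by rw [pow_succ]; ring
        rw [show (1 / 2 : ℝ) * 2 = 1 by norm_num] at h5
        rw [h6]
        exact h5
      exact sum_le_hasSum _ (fun n _ => by positivity) h4
    rw [h2]
    calc ε * ∑ n ∈ G.image e, (1 / 2 : ℝ) ^ (n + 1) ≤ ε * 1 :=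
          mul_le_mul_of_nonneg_left h3 hε.le
      _ = ε := mul_one ε
  set L : Finset I := lev he k' ∪ G with hL
  have hgS : Good L (k' + 1) S.1 := by
    have : S.1 = fun σ => ∑ i ∈ G, (2 * B) * ∑ t ∈ Finset.Ico (N i) (k' + 2), indF t (σ i) :=
      funext hSapp
    rw [this]
    refine Good.sum _ fun i hi => Good.smul _ (Good.sum _ fun t ht => ?_)
    refine (good_coord (indF_avg t) i).mono
      (Finset.singleton_subset_iff.2 (Finset.mem_union_right _ hi)) ?_
    have := Finset.mem_Ico.1 ht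
    exact max_le (by omega) (Nat.le_add_left 1 k')
  have hgk' : Good L (k' + 1) (app he g k').1 :=
    (good_PP _ (Nat.le_add_left 1 k') g).mono Finset.subset_union_left le_rfl
  have hgN : Good L (k' + 1) (app he g N₀).1 := by
    refine (good_PP (lev he N₀) (Nat.le_add_left 1 N₀) g).mono ?_ (by omega)
    intro i hi
    refine Finset.mem_union_left _ ((mem_lev he k' i).2 ?_)
    have := (mem_lev he N₀ i).1 hi
    exact ⟨this.1, this.2.trans_le hk'⟩
  have hbound : ∀ k σ, |(app he g k).1 σ| ≤ B := by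
    intro k σ
    have := PP_close (g := g) (F := lev he k) (k := k + 1) (σ := σ) (c := 0) (ε := B)
      (fun b => by simpa using hB _)
    rw [sub_zero] at this
    exact this
  have hvert : ∀ σ : I → ℕ, (∀ i, σ i ≤ k' + 1) →
      |(app he g k').1 σ - (app he g N₀).1 σ| ≤ 2 * ε + S.1 σ := by
    intro σ hσ
    rw [hSapp]
    have hnn : ∀ i ∈ G, 0 ≤ (2 * B) * ∑ t ∈ Finset.Ico (N i) (k' + 2), indF t (σ i) := by
      intro i _
      refine mul_nonneg (by linarith) (Finset.sum_nonneg fun t _ => ?_)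
      simp only [indF]; split_ifs <;> norm_num
    by_cases hall : ∀ i ∈ G, σ i < N i
    · set ρ : I → ℕ := fun i => if i ∈ G then σ i else 0 with hρ
      have hρK : ∀ i, ρ i ≤ N i - 1 := by
        intro i
        by_cases hi : i ∈ G
        · simp only [hρ, if_pos hi]
          have := hall i hi
          omega
        · simp only [hρ, if_neg hi]
          exact Nat.zero_le _
      have hGρ := hG ρ hρK
      have hσρ : ∀ i ∈ G, σ i = ρ i := fun i hi => by simp only [hρ, if_pos hi]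
      have c1 := app_close he hGA hGρ (fun i hi => (hNe i hi).trans_le hk') hσρ
        (fun i hi => (hσ i))
      have c2 := app_close he hGA hGρ hNe hσρ (fun i hi => by
        have h1 := hall i hi
        have h2 := hNN i hi
        omega)
      have h3 := Finset.sum_nonneg hnn
      rw [abs_le] at c1 c2 ⊢
      constructor <;> linarith
    · push Not at hall
      obtain ⟨i, hi, hiN⟩ := hall
      have h1 : 1 ≤ ∑ t ∈ Finset.Ico (N i) (k' + 2), indF t (σ i) := by
        have h2 : indF (σ i) (σ i) = 1 := by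
          have : 2 ≤ σ i := (hN2 i).trans hiN
          simp [indF, this]
        calc (1 : ℝ) = indF (σ i) (σ i) := h2.symm
          _ ≤ _ := Finset.single_le_sum (f := fun t => indF t (σ i)) (fun t _ => by
              simp only [indF]; split_ifs <;> norm_num)
              (Finset.mem_Ico.2 ⟨hiN, Nat.lt_succ_of_le (hσ i)⟩)
      have h2 : 2 * B ≤ (2 * B) * ∑ t ∈ Finset.Ico (N i) (k' + 2), indF t (σ i) :=
        le_mul_of_one_le_right (by linarith) h1
      have h3 := Finset.single_le_sum hnn hi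
      have h4 := hbound k' σ
      have h5 := hbound N₀ σ
      rw [abs_le] at h4 h5 ⊢
      constructor <;> linarith
  have key : ∀ s : ℝ, |s| = 1 →
      s * (φ (app he g k') - φ (app he g N₀)) ≤ 2 * ε + 2 * B * ε := by
    intro s hs
    have hgood : Good L (k' + 1) (fun σ => (2 * ε + S.1 σ) +
        (-1) * (s * ((app he g k').1 σ + (-1) * (app he g N₀).1 σ))) :=
      ((good_const L _ _).add hgS).add (Good.smul (-1) (Good.smul s
        (hgk'.add (Good.smul (-1) hgN))))
    have h1 : ∀ σ, 0 ≤ (((2 * ε) • oneV I + S) -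
        s • (app he g k' - app he g N₀)).1 σ := by
      intro σ
      have e1 : (((2 * ε) • oneV I + S) - s • (app he g k' - app he g N₀)).1 σ =
          (2 * ε + S.1 σ) + (-1) * (s * ((app he g k').1 σ + (-1) * (app he g N₀).1 σ)) := by
        change (2 * ε * 1 + S.1 σ) - s * ((app he g k').1 σ - (app he g N₀).1 σ) = _
        ring
      rw [e1]
      refine hgood.nonneg (Nat.le_add_left 1 k') (fun τ hτ _ => ?_) σ
      have h2 := hvert τ hτ
      have h3 : |s * ((app he g k').1 τ - (app he g N₀).1 τ)| =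
          |(app he g k').1 τ - (app he g N₀).1 τ| := by
        rw [abs_mul, hs, one_mul]
      have h4 := le_abs_self (s * ((app he g k').1 τ - (app he g N₀).1 τ))
      linarith
    have h2 := hφ.nonneg h1
    rw [hφ.sub, hφ.add, hφ.smul, hφ.smul, hφ.sub, hφ.one (f := oneV I) (fun _ => rfl)] at h2
    linarith
  have k1 := key 1 (by simp)
  have k2 := key (-1) (by simp)
  have hfin : 2 * ε + 2 * B * ε = ε₀ / 2 := by
    rw [hεdef]
    field_simp
  rw [Real.dist_eq, abs_lt]
  constructor <;> linarith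

theorem app_tendsto {A : Set I} {e : I → ℕ} (he : Set.InjOn e A) {g : (I → ℕ) → ℝ}
    (hg : Continuous g) (hA : ∀ σ τ : I → ℕ, (∀ i ∈ A, σ i = τ i) → g σ = g τ) (σ : I → ℕ) :
    Tendsto (fun k => (app he g k).1 σ) atTop (𝓝 (g σ)) := by
  rw [Metric.tendsto_atTop]
  intro ε hε
  obtain ⟨G, hGA, hG⟩ := exists_uniform hg hA σ (ε := ε / 2) (by linarith)
  refine ⟨(G.sup e + 1) + G.sup σ, fun k hk => ?_⟩
  have h1 := app_close he hGA (hG σ fun _ => le_rfl) (k := k) (fun i hi => by
    have := Finset.le_sup (f := e) hi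
    omega) (fun _ _ => rfl) (fun i hi => by
    have := Finset.le_sup (f := σ) hi
    omega)
  rw [Real.dist_eq]
  linarith

theorem hasAffineBaireOneExtension : HasAffineBaireOneExtension (XX (VV I)) := by
  rintro g₀ hg₀ ⟨B, hB⟩
  set g : (I → ℕ) → ℝ := fun σ => g₀ ⟨ev (VV I) σ, ev_mem_extremePoints σ⟩ with hgdef
  have hg : Continuous g := by
    refine hg₀.comp (Continuous.subtype_mk ?_ _)
    have h1 : Continuous (fun σ : I → ℕ => (fun v : VV I => v.1 σ)) :=
      continuous_pi fun v => by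
        obtain ⟨F, k, _, hv⟩ := exists_good v
        exact hv.continuous
    exact h1
  obtain ⟨A, hAc, hA⟩ := exists_countable_dep hg
  obtain ⟨e, he⟩ := Set.countable_iff_exists_injOn.1 hAc
  have hlim : ∀ x : XX (VV I), ∃ y, Tendsto (fun k => hat (app he g k) x) atTop (𝓝 y) := fun x =>
    cauchySeq_tendsto_of_complete (cauchy_app he hg hA (fun σ => hB _) (isSt_XX x))
  choose f hf using hlim
  refine ⟨f, fun k => hat (app he g k), ?_, fun k => ⟨continuous_hat _, affine_hat _⟩, hf, ?_⟩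
  · intro x y z a b ha hb hab hz
    have h1 : Tendsto (fun k => hat (app he g k) z) atTop (𝓝 (a * f x + b * f y)) := by
      have h2 := ((hf x).const_mul a).add ((hf y).const_mul b)
      refine h2.congr fun k => ?_
      exact (affine_hat (app he g k) x y z a b ha hb hab hz).symm
    exact tendsto_nhds_unique (hf z) h1
  · rintro ⟨x, hxX⟩ hx
    obtain ⟨σ, rfl⟩ := exists_eq_ev hx
    exact tendsto_nhds_unique (hf _) (app_tendsto he hg hA σ)

theorem hasAffineBaireExtension_of {E : Type} [AddCommGroup E] [Module ℝ E] [TopologicalSpace E]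
    {X : Set E} (h : HasAffineBaireOneExtension X) : HasAffineBaireExtension X := by
  intro g hg hb
  obtain ⟨f, k, haff, hk, hlim, hext⟩ := h g hg hb
  exact ⟨f, haff, IsBaireFn.limit k f (fun n => IsBaireFn.continuous _ (hk n).1) hlim, hext⟩

/-- The counterexample. -/
theorem counterexample [Uncountable I] :
    IsChoquetSimplex (XX (VV I)) ∧ HasAffineBaireExtension (XX (VV I)) ∧
      HasAffineBaireOneExtension (XX (VV I)) ∧
      ¬ IsLindelof ((XX (VV I)).extremePoints ℝ) :=
  ⟨isChoquetSimplex_VV, hasAffineBaireExtension_of hasAffineBaireOneExtension,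
    hasAffineBaireOneExtension, not_isLindelof⟩

end Pool.Agent.H52.Sx
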