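import Pool.Agent.H52.SxSimplex

/-!
The function space: functions on `I → ℕ` that depend on finitely many coordinates and in each
coordinate take, at all large integers, the mean of their values at `0` and `1`.
-/

namespace Pool.Agent.H52.Sx

open Filter Topology Pool.Agent.Choquet

variable {I : Type} [DecidableEq I]

/-- `f` depends on the coordinates in `F`, and its value at a point with a coordinate larger
than `k` is the mean of the two values for which this coordinate is replaced by `0` and `1`. -/
structure Good (F : Finset I) (k : ℕ) (f : (I → ℕ) → ℝ) : Prop where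
  dep : ∀ σ τ : I → ℕ, (∀ i ∈ F, σ i = τ i) → f σ = f τ
  avg : ∀ (i : I) (σ : I → ℕ), k < σ i →
    f σ = (f (Function.update σ i 0) + f (Function.update σ i 1)) / 2

theorem Good.mono {F F' : Finset I} {k k' : ℕ} {f : (I → ℕ) → ℝ} (h : Good F k f) (hF : F ⊆ F')
    (hk : k ≤ k') : Good F' k' f :=
  ⟨fun σ τ hστ => h.dep σ τ fun i hi => hστ i (hF hi), fun i σ hi => h.avg i σ (hk.trans_lt hi)⟩

theorem Good.add {F : Finset I} {k : ℕ} {f g : (I → ℕ) → ℝ} (hf : Good F k f)
    (hg : Good F k g) : Good F k (fun σ => f σ + g σ) := by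
  refine ⟨fun σ τ h => ?_, fun i σ hi => ?_⟩
  · rw [hf.dep σ τ h, hg.dep σ τ h]
  · rw [hf.avg i σ hi, hg.avg i σ hi]
    ring

theorem Good.smul {F : Finset I} {k : ℕ} {f : (I → ℕ) → ℝ} (c : ℝ) (hf : Good F k f) :
    Good F k (fun σ => c * f σ) := by
  refine ⟨fun σ τ h => ?_, fun i σ hi => ?_⟩
  · rw [hf.dep σ τ h]
  · rw [hf.avg i σ hi]
    ring

theorem good_const (F : Finset I) (k : ℕ) (c : ℝ) : Good F k (fun _ : I → ℕ => c) :=
  ⟨fun _ _ _ => rfl, fun _ _ _ => by ring⟩

/-- The function space. -/
def VV (I : Type) [DecidableEq I] : Submodule ℝ ((I → ℕ) → ℝ) where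
  carrier := {f | ∃ F k, 1 ≤ k ∧ Good F k f}
  add_mem' := by
    rintro f g ⟨F, k, hk, hf⟩ ⟨F', k', _, hg⟩
    exact ⟨F ∪ F', max k k', hk.trans (le_max_left _ _),
      (hf.mono Finset.subset_union_left (le_max_left _ _)).add
        (hg.mono Finset.subset_union_right (le_max_right _ _))⟩
  zero_mem' := ⟨∅, 1, le_refl 1, good_const ∅ 1 0⟩
  smul_mem' := by
    rintro c f ⟨F, k, hk, hf⟩
    exact ⟨F, k, hk, hf.smul c⟩

theorem one_mem_VV : (fun _ => (1 : ℝ)) ∈ VV I := ⟨∅, 1, le_refl 1, good_const ∅ 1 1⟩

theorem exists_good (v : VV I) : ∃ F k, 1 ≤ k ∧ Good F k v.1 := v.2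

/-! ### The averaging operators -/

/-- Replace the coordinates outside `F` by `0`, and the coordinates larger than `k` by the bits
given by `b`. -/
def RR (F : Finset I) (k : ℕ) (b : Finset I) (σ : I → ℕ) : I → ℕ :=
  fun i => if i ∈ F then (if σ i ≤ k then σ i else if i ∈ b then 1 else 0) else 0

/-- The averaging operator. -/
noncomputable def PP (F : Finset I) (k : ℕ) (f : (I → ℕ) → ℝ) : (I → ℕ) → ℝ :=
  fun σ => (∑ b ∈ F.powerset, f (RR F k b σ)) / 2 ^ F.card

theorem RR_congr {F : Finset I} {k : ℕ} {b : Finset I} {σ τ : I → ℕ} (h : ∀ i ∈ F, σ i = τ i) :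
    RR F k b σ = RR F k b τ := by
  funext i
  by_cases hi : i ∈ F
  · simp [RR, hi, h i hi]
  · simp [RR, hi]

theorem good_PP (F : Finset I) {k : ℕ} (hk : 1 ≤ k) (f : (I → ℕ) → ℝ) : Good F k (PP F k f) := by
  refine ⟨fun σ τ h => ?_, fun i σ hi => ?_⟩
  · simp only [PP]
    congr 1
    exact Finset.sum_congr rfl fun b _ => by rw [RR_congr h]
  · by_cases hiF : i ∈ F
    · obtain ⟨G, hG, rfl⟩ : ∃ G : Finset I, i ∉ G ∧ insert i G = F :=
        ⟨F.erase i, Finset.notMem_erase i F, Finset.insert_erase hiF⟩
      have h0 : ∀ b ∈ G.powerset, RR (insert i G) k b σ =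
          RR (insert i G) k b (Function.update σ i 0) := by
        intro b hb
        have hib : i ∉ b := fun h => hG (Finset.mem_powerset.1 hb h)
        funext j
        by_cases hj : j = i
        · subst hj
          simp [RR, hib, Nat.not_le.2 hi]
        · simp [RR, hj]
      have h1 : ∀ b ∈ G.powerset, RR (insert i G) k (insert i b) σ =
          RR (insert i G) k b (Function.update σ i 1) := by
        intro b hb
        funext j
        by_cases hj : j = i
        · subst hj
          simp [RR, hk, Nat.not_le.2 hi]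
        · simp [RR, hj]
      have h0' : ∀ b ∈ G.powerset, RR (insert i G) k (insert i b) (Function.update σ i 0) =
          RR (insert i G) k b (Function.update σ i 0) := by
        intro b hb
        funext j
        by_cases hj : j = i
        · subst hj
          simp [RR]
        · simp [RR, hj]
      have h1' : ∀ b ∈ G.powerset, RR (insert i G) k (insert i b) (Function.update σ i 1) =
          RR (insert i G) k b (Function.update σ i 1) := by
        intro b hb
        funext j
        by_cases hj : j = i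
        · subst hj
          simp [RR, hk]
        · simp [RR, hj]
      have S0 : ∑ b ∈ G.powerset, f (RR (insert i G) k b σ) =
          ∑ b ∈ G.powerset, f (RR (insert i G) k b (Function.update σ i 0)) :=
        Finset.sum_congr rfl fun b hb => by rw [h0 b hb]
      have S1 : ∑ b ∈ G.powerset, f (RR (insert i G) k (insert i b) σ) =
          ∑ b ∈ G.powerset, f (RR (insert i G) k b (Function.update σ i 1)) :=
        Finset.sum_congr rfl fun b hb => by rw [h1 b hb]
      have S0' : ∑ b ∈ G.powerset, f (RR (insert i G) k (insert i b) (Function.update σ i 0)) =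
          ∑ b ∈ G.powerset, f (RR (insert i G) k b (Function.update σ i 0)) :=
        Finset.sum_congr rfl fun b hb => by rw [h0' b hb]
      have S1' : ∑ b ∈ G.powerset, f (RR (insert i G) k (insert i b) (Function.update σ i 1)) =
          ∑ b ∈ G.powerset, f (RR (insert i G) k b (Function.update σ i 1)) :=
        Finset.sum_congr rfl fun b hb => by rw [h1' b hb]
      simp only [PP]
      rw [Finset.sum_powerset_insert hG, Finset.sum_powerset_insert hG,
        Finset.sum_powerset_insert hG, S0, S1, S0', S1']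
      ring
    · have h0 : ∀ c, PP F k f (Function.update σ i c) = PP F k f σ := by
        intro c
        simp only [PP]
        congr 1
        refine Finset.sum_congr rfl fun b _ => ?_
        rw [RR_congr]
        intro j hj
        have : j ≠ i := fun h => hiF (h ▸ hj)
        simp [this]
      rw [h0, h0]
      ring

/-- The replacement which leaves the coordinates outside `G` unchanged. -/
def RR' (G : Finset I) (k : ℕ) (b : Finset I) (σ : I → ℕ) : I → ℕ :=
  fun i => if i ∈ G then (if σ i ≤ k then σ i else if i ∈ b then 1 else 0) else σ i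

theorem avg_all {k : ℕ} {f : (I → ℕ) → ℝ}
    (hf : ∀ (i : I) (σ : I → ℕ), k < σ i →
      f σ = (f (Function.update σ i 0) + f (Function.update σ i 1)) / 2)
    (G : Finset I) (σ : I → ℕ) : ∑ b ∈ G.powerset, f (RR' G k b σ) = 2 ^ G.card * f σ := by
  induction G using Finset.induction_on with
  | empty =>
    have h0 : RR' ∅ k ∅ σ = σ := by funext i; simp [RR']
    simp [h0]
  | insert a G ha ih =>
    rw [Finset.sum_powerset_insert ha, ← Finset.sum_add_distrib, Finset.card_insert_of_notMem ha,
      pow_succ, mul_right_comm, ← ih, Finset.sum_mul]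
    refine Finset.sum_congr rfl fun b hb => ?_
    have hab : a ∉ b := fun h => ha (Finset.mem_powerset.1 hb h)
    by_cases hσ : σ a ≤ k
    · have e1 : RR' (insert a G) k b σ = RR' G k b σ := by
        funext j
        by_cases hj : j = a
        · subst hj; simp [RR', hσ, ha]
        · simp [RR', hj]
      have e2 : RR' (insert a G) k (insert a b) σ = RR' G k b σ := by
        funext j
        by_cases hj : j = a
        · subst hj; simp [RR', hσ, ha]
        · simp [RR', hj]
      rw [e1, e2]; ring
    · have e1 : RR' (insert a G) k b σ = Function.update (RR' G k b σ) a 0 := by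
        funext j
        by_cases hj : j = a
        · subst hj; simp [RR', hσ, hab]
        · simp [RR', hj]
      have e2 : RR' (insert a G) k (insert a b) σ = Function.update (RR' G k b σ) a 1 := by
        funext j
        by_cases hj : j = a
        · subst hj; simp [RR', hσ]
        · simp [RR', hj]
      have e3 : RR' G k b σ a = σ a := by simp [RR', ha]
      rw [e1, e2, hf a (RR' G k b σ) (by rw [e3]; exact Nat.not_le.1 hσ)]
      ring

theorem PP_eq {F : Finset I} {k : ℕ} {f : (I → ℕ) → ℝ} (hf : Good F k f) : PP F k f = f := by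
  funext σ
  have h1 := avg_all hf.avg F σ
  have h2 : ∀ b ∈ F.powerset, f (RR' F k b σ) = f (RR F k b σ) := by
    intro b _
    apply hf.dep
    intro i hi
    simp [RR', RR, hi]
  rw [Finset.sum_congr rfl h2] at h1
  simp only [PP]
  rw [h1]
  field_simp

/-- Positivity can be checked at the vertices. -/
theorem Good.nonneg {F : Finset I} {k : ℕ} (hk : 1 ≤ k) {f : (I → ℕ) → ℝ} (hf : Good F k f)
    (h : ∀ σ : I → ℕ, (∀ i, σ i ≤ k) → (∀ i, i ∉ F → σ i = 0) → 0 ≤ f σ) (σ : I → ℕ) :
    0 ≤ f σ := by
  rw [← PP_eq hf]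
  refine div_nonneg (Finset.sum_nonneg fun b _ => h _ (fun i => ?_) fun i hi => ?_) (by positivity)
  · simp only [RR]
    split_ifs <;> omega
  · simp [RR, hi]

theorem finite_vertices (F : Finset I) (k : ℕ) :
    {σ : I → ℕ | (∀ i, σ i ≤ k) ∧ ∀ i, i ∉ F → σ i = 0}.Finite := by
  refine Set.Finite.of_injOn (t := (Set.univ : Set (F → Fin (k + 1))))
    (f := fun σ (i : F) => (⟨min (σ i) k, by omega⟩ : Fin (k + 1))) (fun _ _ => trivial) ?_
    Set.finite_univ
  intro σ hσ τ hτ h
  funext i
  by_cases hi : i ∈ F
  · have h1 := congrFun h ⟨i, hi⟩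
    simp only [Fin.mk.injEq] at h1
    have h2 := hσ.1 i
    have h3 := hτ.1 i
    omega
  · rw [hσ.2 i hi, hτ.2 i hi]

theorem bdd_VV : ∀ f ∈ VV I, ∃ C, ∀ σ, |f σ| ≤ C := by
  rintro f ⟨F, k, hk, hf⟩
  obtain ⟨C, hC⟩ := ((finite_vertices F k).image (fun σ => |f σ|)).bddAbove
  have hC' : ∀ σ : I → ℕ, (∀ i, σ i ≤ k) → (∀ i, i ∉ F → σ i = 0) → |f σ| ≤ C :=
    fun σ h1 h2 => hC ⟨σ, ⟨h1, h2⟩, rfl⟩
  refine ⟨C, fun σ => ?_⟩
  rw [abs_le]
  constructor
  · have h1 := Good.nonneg hk (hf.add (good_const F k C)) (fun τ h1 h2 => by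
      have := (abs_le.1 (hC' τ h1 h2)).1
      linarith) σ
    linarith
  · have h1 := Good.nonneg hk ((hf.smul (-1)).add (good_const F k C)) (fun τ h1 h2 => by
      have := (abs_le.1 (hC' τ h1 h2)).2
      linarith) σ
    linarith

/-- The approximating net. -/
noncomputable def net (I : Type) [DecidableEq I] : Net (VV I) (Finset I × ℕ) where
  P d f := ⟨PP d.1 (d.2 + 1) f, d.1, d.2 + 1, Nat.le_add_left 1 _, good_PP _ (Nat.le_add_left 1 _) f⟩
  add d f g := by
    apply Subtype.ext
    funext σ
    rw [Submodule.coe_add, Pi.add_apply]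
    simp only [PP, Finset.sum_add_distrib, add_div]
  smul d c f := by
    apply Subtype.ext
    funext σ
    rw [Submodule.coe_smul, Pi.smul_apply, smul_eq_mul]
    simp only [PP, ← Finset.mul_sum, mul_div_assoc]
  nonneg d f hf σ := div_nonneg (Finset.sum_nonneg fun _ _ => hf _) (by positivity)
  one d f hf σ := by
    change PP _ _ f σ = 1
    simp [PP, hf]
  fix v := by
    obtain ⟨F, k, hk, hv⟩ := exists_good v
    refine ⟨(F, k), fun d hd => Subtype.ext ?_⟩
    exact PP_eq (hv.mono hd.1 (hd.2.trans (Nat.le_succ _)))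

theorem isChoquetSimplex_VV : IsChoquetSimplex (XX (VV I)) :=
  isChoquetSimplex_of_net one_mem_VV bdd_VV (net I)

end Pool.Agent.H52.Sx
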