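import Pool.Agent.H52.SxEE

/-!
State spaces with an approximating net of positive operators are Choquet simplices.
-/

namespace Pool.Agent.H52.Sx

open MeasureTheory Filter Topology Pool.Agent.Choquet

variable {Ω : Type} {V : Submodule ℝ (Ω → ℝ)}

/-! ### The Choquet ordering is antisymmetric -/

theorem IsConvexFn.add' {X : Set (EE V)} {f g : X → ℝ} (hf : IsConvexFn X f)
    (hg : IsConvexFn X g) : IsConvexFn X (fun x => f x + g x) := by
  intro x y z a b ha hb hab hz
  have h1 := hf x y z a b ha hb hab hz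
  have h2 := hg x y z a b ha hb hab hz
  simp only
  linarith

theorem IsConvexFn.sup' {X : Set (EE V)} {f g : X → ℝ} (hf : IsConvexFn X f)
    (hg : IsConvexFn X g) : IsConvexFn X (fun x => max (f x) (g x)) := by
  intro x y z a b ha hb hab hz
  have h1 := hf x y z a b ha hb hab hz
  have h2 := hg x y z a b ha hb hab hz
  have h3 : a * f x ≤ a * max (f x) (g x) := mul_le_mul_of_nonneg_left (le_max_left _ _) ha
  have h4 : a * g x ≤ a * max (f x) (g x) := mul_le_mul_of_nonneg_left (le_max_right _ _) ha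
  have h5 : b * f y ≤ b * max (f y) (g y) := mul_le_mul_of_nonneg_left (le_max_left _ _) hb
  have h6 : b * g y ≤ b * max (f y) (g y) := mul_le_mul_of_nonneg_left (le_max_right _ _) hb
  simp only
  exact max_le (by linarith) (by linarith)

theorem convex_of_affine {X : Set (EE V)} {f : X → ℝ} (hf : IsAffineFn X f) :
    IsConvexFn X f := fun x y z a b ha hb hab hz => (hf x y z a b ha hb hab hz).le

theorem choquet_antisymm (h1 : (fun _ => (1 : ℝ)) ∈ V) (hb : ∀ f ∈ V, ∃ C, ∀ ω, |f ω| ≤ C)
    {μ ν : Measure (XX V)} (hμ : IsRadonProb (XX V) μ) (hν : IsRadonProb (XX V) ν)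
    (h12 : ChoquetLE (XX V) μ ν) (h21 : ChoquetLE (XX V) ν μ) : μ = ν := by
  have hcs : CompactSpace (XX V) := isCompact_iff_compactSpace.1 (isCompact_XX h1 hb)
  obtain ⟨hμ1, hμ2⟩ := hμ
  obtain ⟨hν1, hν2⟩ := hν
  let L : Set C(XX V, ℝ) := {f | ∃ g h : C(XX V, ℝ), IsConvexFn (XX V) g ∧
    IsConvexFn (XX V) h ∧ f = g - h}
  have hdense : closure L = ⊤ := by
    apply ContinuousMap.sublattice_closure_eq_top
    · refine ⟨0, 0, 0, ?_, ?_, by simp⟩ <;>
      · intro x y z a b _ _ _ _
        simp
    · rintro f ⟨g, h, hg, hh, rfl⟩ f' ⟨g', h', hg', hh', rfl⟩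
      -- (g - h) ⊓ (g' - h') = (g + g') - ((h + g') ⊔ (h' + g))
      refine ⟨g + g', (h + g') ⊔ (h' + g), IsConvexFn.add' hg hg',
        IsConvexFn.sup' (IsConvexFn.add' hh hg') (IsConvexFn.add' hh' hg), ?_⟩
      ext x
      simp only [ContinuousMap.inf_apply, ContinuousMap.sub_apply, ContinuousMap.add_apply,
        ContinuousMap.sup_apply]
      rcases le_total (g x - h x) (g' x - h' x) with hle | hle
      · rw [min_eq_left hle, max_eq_left (by linarith)]; ring
      · rw [min_eq_right hle, max_eq_right (by linarith)]; ring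
    · rintro f ⟨g, h, hg, hh, rfl⟩ f' ⟨g', h', hg', hh', rfl⟩
      refine ⟨(g + h') ⊔ (g' + h), h + h', IsConvexFn.sup' (IsConvexFn.add' hg hh')
        (IsConvexFn.add' hg' hh), IsConvexFn.add' hh hh', ?_⟩
      ext x
      simp only [ContinuousMap.sub_apply, ContinuousMap.add_apply,
        ContinuousMap.sup_apply]
      rcases le_total (g x - h x) (g' x - h' x) with hle | hle
      · rw [max_eq_right hle, max_eq_right (by linarith)]; ring
      · rw [max_eq_left hle, max_eq_left (by linarith)]; ring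
    · intro v x y
      have hzero : IsConvexFn (XX V) (0 : C(XX V, ℝ)) := by
        intro x y z a b _ _ _ _
        simp
      -- coordinates separate the points
      by_cases hxy : x = y
      · subst hxy
        refine ⟨⟨hat (v x • (⟨fun _ => 1, h1⟩ : V)), continuous_hat _⟩,
          ⟨⟨hat (v x • (⟨fun _ => 1, h1⟩ : V)), continuous_hat _⟩, 0,
            convex_of_affine (affine_hat _), hzero, by simp⟩, ?_⟩
        have hval : hat (v x • (⟨fun _ => 1, h1⟩ : V)) x = v x := by
          change x.1 _ = _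
          rw [(isSt_XX x).smul, (isSt_XX x).one (fun _ => rfl), mul_one]
        exact ⟨hval, hval⟩
      · obtain ⟨w, hw⟩ : ∃ w : V, hat w x ≠ hat w y := by
          by_contra hcon
          push Not at hcon
          exact hxy (Subtype.ext (funext hcon))
        have hd : hat w x - hat w y ≠ 0 := sub_ne_zero.2 hw
        set c : ℝ := (v x - v y) / (hat w x - hat w y) with hc
        set u : V := c • w + (v x - c * hat w x) • (⟨fun _ => 1, h1⟩ : V) with hu
        have hval : ∀ z : XX V, hat u z = c * hat w z + (v x - c * hat w x) := by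
          intro z
          change z.1 _ = _
          rw [(isSt_XX z).add, (isSt_XX z).smul, (isSt_XX z).smul,
            (isSt_XX z).one (f := ⟨fun _ => 1, h1⟩) (fun _ => rfl), mul_one]
          rfl
        refine ⟨⟨hat u, continuous_hat _⟩,
          ⟨⟨hat u, continuous_hat _⟩, 0, convex_of_affine (affine_hat _), hzero, by simp⟩,
            ?_, ?_⟩
        · change hat u x = v x
          rw [hval]; ring
        · change hat u y = v y
          rw [hval, hc]
          field_simp
          ring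
  have hL : ∀ f ∈ L, ∫ x, f x ∂μ = ∫ x, f x ∂ν := by
    rintro f ⟨g, h, hg, hh, rfl⟩
    have e1 : ∫ x, g x ∂μ = ∫ x, g x ∂ν := le_antisymm (h12 g g.continuous hg) (h21 g g.continuous hg)
    have e2 : ∫ x, h x ∂μ = ∫ x, h x ∂ν := le_antisymm (h12 h h.continuous hh) (h21 h h.continuous hh)
    have i1 : ∀ (ρ : Measure (XX V)) [IsProbabilityMeasure ρ] (k : C(XX V, ℝ)),
        Integrable (fun x => k x) ρ := fun ρ _ k =>
      (BoundedContinuousFunction.mkOfCompact k).integrable ρ
    simp only [ContinuousMap.sub_apply]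
    rw [integral_sub (i1 μ g) (i1 μ h), integral_sub (i1 ν g) (i1 ν h), e1, e2]
  have hall : ∀ f : C(XX V, ℝ), ∫ x, f x ∂μ = ∫ x, f x ∂ν := by
    intro f
    have i1 : ∀ (ρ : Measure (XX V)) [IsProbabilityMeasure ρ] (k : C(XX V, ℝ)),
        Integrable (fun x => k x) ρ := fun ρ _ k =>
      (BoundedContinuousFunction.mkOfCompact k).integrable ρ
    have hclose : ∀ (ρ : Measure (XX V)) [IsProbabilityMeasure ρ] (g : C(XX V, ℝ)),
        |∫ x, f x ∂ρ - ∫ x, g x ∂ρ| ≤ dist f g := by
      intro ρ _ g
      rw [← integral_sub (i1 ρ f) (i1 ρ g), ← Real.norm_eq_abs]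
      have := norm_integral_le_of_norm_le_const (μ := ρ) (f := fun x => f x - g x)
        (C := dist f g) (Eventually.of_forall fun x => by
          rw [← dist_eq_norm]; exact ContinuousMap.dist_apply_le_dist x)
      simpa using this
    have habs : ∀ ε > 0, |∫ x, f x ∂μ - ∫ x, f x ∂ν| ≤ ε := by
      intro ε hε
      have hmem : f ∈ closure L := by rw [hdense]; trivial
      obtain ⟨g, hgL, hg⟩ := Metric.mem_closure_iff.1 hmem (ε / 2) (by linarith)
      have h3 := hclose μ g
      have h4 := hclose ν g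
      rw [← hL g hgL] at h4
      rw [abs_le] at h3 h4 ⊢
      constructor <;> linarith
    have h5 : |∫ x, f x ∂μ - ∫ x, f x ∂ν| ≤ 0 := le_of_forall_pos_le_add (by simpa using habs)
    have h6 := abs_nonpos_iff.1 h5
    linarith
  exact Measure.ext_of_integral_eq_on_compactlySupported fun f => hall f.toContinuousMap

/-! ### Approximating nets -/

/-- A net of positive linear unital operators into `V` which eventually fixes every element
of `V`. -/
structure Net (V : Submodule ℝ (Ω → ℝ)) (D : Type) [Preorder D] where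
  /-- the operators -/
  P : D → (Ω → ℝ) → V
  add : ∀ d f g, P d (fun ω => f ω + g ω) = P d f + P d g
  smul : ∀ d (c : ℝ) f, P d (fun ω => c * f ω) = c • P d f
  nonneg : ∀ d f, (∀ ω, 0 ≤ f ω) → ∀ ω, 0 ≤ (P d f).1 ω
  one : ∀ d f, (∀ ω, f ω = 1) → ∀ ω, (P d f).1 ω = 1
  fix : ∀ v : V, ∃ d₀, ∀ d, d₀ ≤ d → P d v.1 = v

variable {D : Type} [Preorder D]

/-- The states on `C(XX V)` obtained from a state on `V` and the operators `P d`. -/
def Net.st (N : Net V D) (φ : V → ℝ) (d : D) : contSub (XX V) → ℝ :=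
  fun f => φ (N.P d (fun ω => f.1 ⟨ev V ω, ev_mem V ω⟩))

theorem Net.isSt (N : Net V D) {φ : V → ℝ} (hφ : IsSt φ) (d : D) : IsSt (N.st φ d) := by
  refine ⟨fun f g => ?_, fun c f => ?_, fun {f} hf => ?_, fun {f} hf => ?_⟩
  · change φ _ = φ _ + φ _
    rw [← hφ.add, ← N.add]
    rfl
  · change φ _ = c * φ _
    rw [← hφ.smul, ← N.smul]
    rfl
  · exact hφ.nonneg (N.nonneg d _ fun ω => hf _)
  · exact hφ.one (N.one d _ fun ω => hf _)

theorem isChoquetSimplex_of_net [Nonempty D] [IsDirectedOrder D] (h1 : (fun _ => (1 : ℝ)) ∈ V)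
    (hb : ∀ f ∈ V, ∃ C, ∀ ω, |f ω| ≤ C) (N : Net V D) : IsChoquetSimplex (XX V) := by
  have hX := isCompact_XX h1 hb
  refine ⟨hX, convex_XX, fun φ hφX => ?_⟩
  have hφ : IsSt (V := V) φ := hφX
  have hcs : CompactSpace (XX V) := isCompact_iff_compactSpace.1 hX
  -- a limit state
  have hcomp : IsCompact (St (contSub (XX V))) := by
    apply isCompact_St
    · exact continuous_const
    · intro f hf
      obtain ⟨C, hC⟩ := isCompact_univ.exists_bound_of_continuousOn
        (Continuous.continuousOn (s := Set.univ) hf)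
      exact ⟨C, fun x => hC x trivial⟩
  let U : Ultrafilter D := Ultrafilter.of atTop
  obtain ⟨Λ, hΛ, hUΛ⟩ := hcomp.ultrafilter_le_nhds (U.map (N.st φ)) (by
    rw [Ultrafilter.coe_map, le_principal_iff]
    exact Filter.mem_map.2 (Filter.univ_mem' fun d => N.isSt hφ d))
  have hUΛ' : Tendsto (N.st φ) U (𝓝 Λ) := hUΛ
  have hconv : ∀ f, Tendsto (fun d => N.st φ d f) U (𝓝 (Λ f)) := fun f =>
    (continuous_apply f).continuousAt.tendsto.comp hUΛ'
  have hUtop : (U : Filter D) ≤ atTop := Ultrafilter.of_le atTop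
  obtain ⟨μ, hμ1, hμ2, hμ⟩ := exists_measure (K := XX V) hΛ
  have hμR : IsRadonProb (XX V) μ := ⟨hμ1, hμ2⟩
  -- barycenter
  have hbar : IsBarycenter (XX V) μ φ := by
    intro l
    obtain ⟨w, hw⟩ := exists_coord l
    have e1 : (fun y : XX V => l y) = hat w := funext fun y => hw y (isSt_XX y)
    rw [e1, hw φ hφ, hμ _ (continuous_hat w)]
    obtain ⟨d₀, hd₀⟩ := N.fix w
    have e2 : ∀ᶠ d in (U : Filter D), N.st φ d ⟨hat w, continuous_hat w⟩ = φ w := by
      refine hUtop ?_
      filter_upwards [eventually_ge_atTop d₀] with d hd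
      change φ (N.P d (fun ω => ev V ω w)) = φ w
      exact congrArg φ (hd₀ d hd)
    exact tendsto_nhds_unique ((hconv _).congr' e2) tendsto_const_nhds |>.symm ▸ rfl
  -- every measure with barycenter `φ` is below `μ`
  have hgreat : ∀ ν : Measure (XX V), IsRadonProb (XX V) ν → IsBarycenter (XX V) ν φ →
      ChoquetLE (XX V) ν μ := by
    intro ν hν hνφ f hf hfc
    obtain ⟨hν1, hν2⟩ := hν
    rw [hμ f hf]
    have hi : ∀ k : XX V → ℝ, Continuous k → Integrable k ν := fun k hk =>
      (BoundedContinuousFunction.mkOfCompact ⟨k, hk⟩).integrable ν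
    refine le_of_forall_pos_le_add fun ε hε => ?_
    obtain ⟨s, hs1, hs2⟩ := exists_minorants h1 hb hf hfc hε
    have hev : ∀ᶠ d in (U : Filter D), ∫ x, f x ∂ν ≤ N.st φ d ⟨f, hf⟩ + ε := by
      refine hUtop ?_
      have hall : ∀ᶠ d in (atTop : Filter D), ∀ v ∈ s, N.P d v.1 = v := by
        rw [Filter.eventually_all_finset]
        intro v _
        obtain ⟨d₀, hd₀⟩ := N.fix v
        filter_upwards [eventually_ge_atTop d₀] with d hd
        exact hd₀ d hd
      filter_upwards [hall] with d hd
      set q : V := N.P d (fun ω => f ⟨ev V ω, ev_mem V ω⟩) with hq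
      have hge : ∀ v ∈ s, ∀ ω, v.1 ω ≤ q.1 ω := by
        intro v hv ω
        have e1 : N.P d (fun ω => (f ⟨ev V ω, ev_mem V ω⟩ + (-1) * v.1 ω)) = q - v := by
          rw [N.add, N.smul, hd v hv]
          rw [sub_eq_add_neg]
          congr 1
          apply Subtype.ext
          funext ω
          simp
        have e2 := N.nonneg d (fun ω => (f ⟨ev V ω, ev_mem V ω⟩ + (-1) * v.1 ω)) (fun ω => by
          have := hs1 v hv ⟨ev V ω, ev_mem V ω⟩
          change v.1 ω ≤ _ at this
          linarith) ω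
        rw [e1] at e2
        have e3 : (q - v).1 ω = q.1 ω - v.1 ω := rfl
        rw [e3] at e2
        linarith
      have hfq : ∀ x : XX V, f x ≤ hat q x + ε := by
        intro x
        obtain ⟨v, hv, hvx⟩ := hs2 x
        have : hat v x ≤ hat q x := (isSt_XX x).mono (hge v hv)
        linarith
      calc ∫ x, f x ∂ν ≤ ∫ x, (hat q x + ε) ∂ν :=
            integral_mono (hi f hf) ((hi _ (continuous_hat q)).add (integrable_const ε)) hfq
        _ = ∫ x, hat q x ∂ν + ε := by
            rw [integral_add (hi _ (continuous_hat q)) (integrable_const ε)]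
            simp
        _ = φ q + ε := by
            have := hνφ (coord q)
            rw [← coord_apply q φ, ← this]
            rfl
        _ = N.st φ d ⟨f, hf⟩ + ε := rfl
    exact ge_of_tendsto ((hconv ⟨f, hf⟩).add_const ε) hev
  -- `ν` above `μ` has the same barycenter
  have hsame : ∀ ρ ν : Measure (XX V), IsRadonProb (XX V) ρ → IsRadonProb (XX V) ν →
      IsBarycenter (XX V) ρ φ → ChoquetLE (XX V) ρ ν → IsBarycenter (XX V) ν φ := by
    intro ρ ν hρ hν hρφ hle l
    obtain ⟨w, hw⟩ := exists_coord l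
    have e1 : (fun y : XX V => l y) = hat w := funext fun y => hw y (isSt_XX y)
    have h2 := hle (hat w) (continuous_hat w) (convex_of_affine (affine_hat w))
    have h3 := hle (hat (-w)) (continuous_hat (-w)) (convex_of_affine (affine_hat (-w)))
    have e2 : hat (-w) = fun x => - hat w x := funext fun x => (isSt_XX x).neg w
    rw [e2, integral_neg, integral_neg] at h3
    have h4 := hρφ l
    rw [e1] at h4 ⊢
    linarith
  have hmax : IsMaximalMeasure (XX V) μ := by
    refine ⟨hμR, fun ν hν hle => ?_⟩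
    exact choquet_antisymm h1 hb hν hμR (hgreat ν hν (hsame μ ν hμR hν hbar hle)) hle
  refine ⟨μ, ⟨hmax, hbar⟩, ?_⟩
  rintro ρ ⟨hρmax, hρbar⟩
  exact (hρmax.2 μ hμR (hgreat ρ hρmax.1 hρbar)).symm

end Pool.Agent.H52.Sx
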