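import Pool.Agent.H52.SxDefs

/-!
State spaces of spaces of bounded functions: compactness, convexity, and the Riesz theorem.
-/

namespace Pool.Agent.H52.Sx

open MeasureTheory Filter Topology Pool.Agent.Choquet

variable {Ω : Type}

/-- `φ` is a state on the space `V` of real functions. -/
structure IsSt {V : Submodule ℝ (Ω → ℝ)} (φ : V → ℝ) : Prop where
  add : ∀ f g, φ (f + g) = φ f + φ g
  smul : ∀ (c : ℝ) (f : V), φ (c • f) = c * φ f
  nonneg : ∀ {f : V}, (∀ ω, 0 ≤ f.1 ω) → 0 ≤ φ f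
  one : ∀ {f : V}, (∀ ω, f.1 ω = 1) → φ f = 1

/-- The state space of a space `V` of real functions, inside the product space `ℝ^V`. -/
def St (V : Submodule ℝ (Ω → ℝ)) : Set (V → ℝ) := {φ | IsSt φ}

variable {V : Submodule ℝ (Ω → ℝ)} {φ : V → ℝ}

namespace IsSt

theorem zero (h : IsSt φ) : φ 0 = 0 := by
  have := h.smul 0 0
  simpa using this

theorem neg (h : IsSt φ) (f : V) : φ (-f) = - φ f := by
  have h1 := h.smul (-1) f
  have h2 : ((-1 : ℝ) • f : V) = -f := by
    apply Subtype.ext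
    funext ω
    simp
  rw [h2] at h1
  linarith

theorem sub (h : IsSt φ) (f g : V) : φ (f - g) = φ f - φ g := by
  rw [sub_eq_add_neg, h.add, h.neg, sub_eq_add_neg]

theorem mono (h : IsSt φ) {f g : V} (hfg : ∀ ω, f.1 ω ≤ g.1 ω) : φ f ≤ φ g := by
  have h1 : 0 ≤ φ (g - f) := h.nonneg (fun ω => by simpa using hfg ω)
  rw [h.sub] at h1
  linarith

theorem sum (h : IsSt φ) {ι : Type} (s : Finset ι) (f : ι → V) :
    φ (∑ i ∈ s, f i) = ∑ i ∈ s, φ (f i) := by
  classical
  induction s using Finset.induction_on with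
  | empty => simpa using h.zero
  | insert a s ha ih => rw [Finset.sum_insert ha, Finset.sum_insert ha, h.add, ih]

/-- The value at a constant function. -/
theorem const (h : IsSt φ) {f : V} {c : ℝ} (h1 : (fun _ => (1 : ℝ)) ∈ V)
    (hf : ∀ ω, f.1 ω = c) : φ f = c := by
  have h2 : f = c • (⟨fun _ => 1, h1⟩ : V) := by
    apply Subtype.ext
    funext ω
    simpa using hf ω
  rw [h2, h.smul, h.one (fun _ => rfl), mul_one]

theorem le_of_le (h : IsSt φ) {f : V} {c : ℝ} (h1 : (fun _ => (1 : ℝ)) ∈ V)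
    (hf : ∀ ω, f.1 ω ≤ c) : φ f ≤ c := by
  have h2 : φ (c • (⟨fun _ => 1, h1⟩ : V)) = c :=
    h.const h1 (fun ω => by simp)
  have h3 : φ f ≤ φ (c • (⟨fun _ => 1, h1⟩ : V)) := h.mono (fun ω => by simpa using hf ω)
  linarith

theorem ge_of_ge (h : IsSt φ) {f : V} {c : ℝ} (h1 : (fun _ => (1 : ℝ)) ∈ V)
    (hf : ∀ ω, c ≤ f.1 ω) : c ≤ φ f := by
  have h2 : φ (c • (⟨fun _ => 1, h1⟩ : V)) = c :=
    h.const h1 (fun ω => by simp)
  have h3 : φ (c • (⟨fun _ => 1, h1⟩ : V)) ≤ φ f := h.mono (fun ω => by simpa using hf ω)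
  linarith

theorem abs_le (h : IsSt φ) {f : V} {c : ℝ} (h1 : (fun _ => (1 : ℝ)) ∈ V)
    (hf : ∀ ω, |f.1 ω| ≤ c) : |φ f| ≤ c := by
  rw [_root_.abs_le]
  exact ⟨h.ge_of_ge h1 (fun ω => (_root_.abs_le.1 (hf ω)).1),
    h.le_of_le h1 (fun ω => (_root_.abs_le.1 (hf ω)).2)⟩

end IsSt

/-- Evaluation at a point. -/
def ev (V : Submodule ℝ (Ω → ℝ)) (ω : Ω) : V → ℝ := fun f => f.1 ω

theorem ev_mem (V : Submodule ℝ (Ω → ℝ)) (ω : Ω) : ev V ω ∈ St V :=
  ⟨fun _ _ => rfl, fun _ _ => rfl, fun h => h ω, fun h => h ω⟩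

theorem isClosed_St (V : Submodule ℝ (Ω → ℝ)) : IsClosed (St V) := by
  have h : St V = (⋂ (f : V) (g : V), {φ : V → ℝ | φ (f + g) = φ f + φ g}) ∩
      ((⋂ (c : ℝ) (f : V), {φ : V → ℝ | φ (c • f) = c * φ f}) ∩
      ((⋂ (f : V) (_ : ∀ ω, 0 ≤ f.1 ω), {φ : V → ℝ | 0 ≤ φ f}) ∩
      (⋂ (f : V) (_ : ∀ ω, f.1 ω = 1), {φ : V → ℝ | φ f = 1}))) := by
    ext φ
    simp only [Set.mem_inter_iff, Set.mem_iInter, Set.mem_ofPred_eq]
    exact ⟨fun h => ⟨h.add, h.smul, fun f hf => h.nonneg hf, fun f hf => h.one hf⟩,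
      fun h => ⟨h.1, h.2.1, fun {f} hf => h.2.2.1 f hf, fun {f} hf => h.2.2.2 f hf⟩⟩
  rw [h]
  refine IsClosed.inter ?_ (IsClosed.inter ?_ (IsClosed.inter ?_ ?_))
  · refine isClosed_iInter fun f => isClosed_iInter fun g => ?_
    exact isClosed_eq (continuous_apply _) (Continuous.add (continuous_apply f) (continuous_apply g))
  · refine isClosed_iInter fun c => isClosed_iInter fun f => ?_
    exact isClosed_eq (continuous_apply _) (Continuous.mul continuous_const (continuous_apply f))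
  · refine isClosed_iInter fun f => isClosed_iInter fun _ => ?_
    exact isClosed_le continuous_const (continuous_apply _)
  · refine isClosed_iInter fun f => isClosed_iInter fun _ => ?_
    exact isClosed_eq (continuous_apply _) continuous_const

theorem isCompact_St (h1 : (fun _ => (1 : ℝ)) ∈ V) (hb : ∀ f ∈ V, ∃ C, ∀ ω, |f ω| ≤ C) :
    IsCompact (St V) := by
  choose! C hC using hb
  have h2 : IsCompact (Set.pi Set.univ (fun f : V => Set.Icc (-(C f.1)) (C f.1))) :=
    isCompact_univ_pi (fun f => isCompact_Icc)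
  refine h2.of_isClosed_subset (isClosed_St V) ?_
  intro φ hφ f _
  have := IsSt.abs_le hφ h1 (hC f.1 f.2)
  rw [_root_.abs_le] at this
  exact this

theorem convex_St (V : Submodule ℝ (Ω → ℝ)) : Convex ℝ (St V) := by
  intro φ hφ ψ hψ a b ha hb hab
  have hφ' : IsSt φ := hφ
  have hψ' : IsSt ψ := hψ
  refine ⟨fun f g => ?_, fun c f => ?_, fun {f} hf => ?_, fun {f} hf => ?_⟩
  · simp only [Pi.add_apply, Pi.smul_apply, smul_eq_mul, hφ'.add, hψ'.add]
    ring
  · simp only [Pi.add_apply, Pi.smul_apply, smul_eq_mul, hφ'.smul, hψ'.smul]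
    ring
  · simp only [Pi.add_apply, Pi.smul_apply, smul_eq_mul]
    have h1 := hφ'.nonneg hf
    have h2 := hψ'.nonneg hf
    positivity
  · simp only [Pi.add_apply, Pi.smul_apply, smul_eq_mul, hφ'.one hf, hψ'.one hf]
    linarith

/-- The continuous functions on `K`. -/
def contSub (K : Type) [TopologicalSpace K] : Submodule ℝ (K → ℝ) where
  carrier := {f | Continuous f}
  add_mem' := fun ha hb => Continuous.add ha hb
  zero_mem' := continuous_zero
  smul_mem' := fun c _ hf => Continuous.const_smul hf c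

theorem exists_measure {K : Type} [TopologicalSpace K] [CompactSpace K] [T2Space K]
    [MeasurableSpace K] [BorelSpace K] {Λ : contSub K → ℝ} (hΛ : IsSt Λ) :
    ∃ μ : Measure K, IsProbabilityMeasure μ ∧ μ.Regular ∧
      ∀ (f : K → ℝ) (hf : Continuous f), ∫ x, f x ∂μ = Λ ⟨f, hf⟩ := by
  let L : CompactlySupportedContinuousMap K ℝ →ₗ[ℝ] ℝ :=
    { toFun := fun f => Λ ⟨f, f.continuous⟩
      map_add' := fun f g => hΛ.add ⟨f, f.continuous⟩ ⟨g, g.continuous⟩
      map_smul' := fun c f => hΛ.smul c ⟨f, f.continuous⟩ }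
  let L' : CompactlySupportedContinuousMap K ℝ →ₚ[ℝ] ℝ :=
    PositiveLinearMap.mk₀ L (fun f hf => hΛ.nonneg (fun x => hf x))
  have hint : ∀ (f : K → ℝ) (hf : Continuous f),
      ∫ x, f x ∂(RealRMK.rieszMeasure L') = Λ ⟨f, hf⟩ := by
    intro f hf
    have := RealRMK.integral_rieszMeasure L'
      ⟨⟨f, hf⟩, HasCompactSupport.of_compactSpace f⟩
    exact this
  refine ⟨RealRMK.rieszMeasure L', ?_, inferInstance, hint⟩
  have h1 := hint (fun _ => 1) continuous_const
  rw [hΛ.one (fun _ => rfl)] at h1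
  rw [integral_const, smul_eq_mul, mul_one] at h1
  constructor
  rw [measureReal_def] at h1
  rw [← ENNReal.ofReal_toReal (measure_ne_top (RealRMK.rieszMeasure L') Set.univ), h1]
  simp

end Pool.Agent.H52.Sx
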